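import Pool.Agent.Lib.MP_d79f69_nt.Bar.Basic

set_option autoImplicit false

namespace Pool.Agent.Bar58

open Complex MeasureTheory Set Filter Topology
open scoped ComplexConjugate

/-- bounded families -/
abbrev fbanE : Type := lp (fun _ : ℕ × ℝ => ℂ) ⊤

/-- multiplication by the weights -/
noncomputable def fbanI : fbanE →ₗ[ℝ] (ℕ → ℝ → ℂ) where
  toFun b := fun i y => (wt i y : ℂ) * b (i, y)
  map_add' b c := by
    funext i y
    simp [mul_add]
  map_smul' t b := by
    funext i y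
    simp only [lp.coeFn_smul, Pi.smul_apply, RingHom.id_apply, Complex.real_smul]
    ring

theorem fban_apply (b : fbanE) (i : ℕ) (y : ℝ) : fbanI b i y = (wt i y : ℂ) * b (i, y) := rfl

theorem fban_norm (b : fbanE) (i : ℕ) {y : ℝ} (hy : 0 < y) :
    ‖fbanI b i y‖ = ‖b (i, y)‖ * wt i y := by
  rw [fban_apply, norm_mul, Complex.norm_real, Real.norm_of_nonneg (wt_pos i hy).le, mul_comm]

/-- the chains among the bounded families -/
noncomputable def fbanS : Submodule ℝ fbanE where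
  carrier := {b | Chain 7 (fbanI b) ∧ ∀ p : ℕ × ℝ, ¬ (p.1 ≤ 7 ∧ 0 < p.2) → b p = 0}
  add_mem' := by
    intro b c hb hc
    refine ⟨fun i hi x hx => ?_, fun p hp => ?_⟩
    · rw [map_add]
      exact (hb.1 i hi x hx).add (hc.1 i hi x hx)
    · simp [hb.2 p hp, hc.2 p hp]
  zero_mem' := by
    refine ⟨fun i _ x _ => ?_, fun p _ => rfl⟩
    rw [map_zero]
    exact hasDerivAt_const x (0 : ℂ)
  smul_mem' := by
    intro t b hb
    refine ⟨fun i hi x hx => ?_, fun p hp => ?_⟩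
    · rw [map_smul]
      exact (hb.1 i hi x hx).const_smul t
    · simp [hb.2 p hp]

theorem fban_bdd (i : ℕ) {x : ℝ} (hx : 0 < x) :
    ∃ K : ℝ, 0 < K ∧ ∀ y ∈ Ioo (x / 2) (2 * x), wt i y ≤ K := by
  have hc : ContinuousOn (wt i) (Icc (x / 2) (2 * x)) := by
    have h0 : ∀ y ∈ Icc (x / 2) (2 * x), 0 < y := fun y hy => by linarith [hy.1]
    refine ContinuousOn.add (ContinuousOn.mul (continuousOn_W.mono fun y hy => (h0 y hy).le) ?_) ?_
    · exact continuousOn_id.rpow_const fun y hy => Or.inl (h0 y hy).ne'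
    · exact continuousOn_id.rpow_const fun y hy => Or.inl (h0 y hy).ne'
  obtain ⟨K, hK⟩ := isCompact_Icc.exists_bound_of_continuousOn hc
  refine ⟨|K| + 1, by positivity, fun y hy => ?_⟩
  have := hK y (Ioo_subset_Icc_self hy)
  rw [Real.norm_eq_abs] at this
  linarith [le_abs_self (wt i y), le_abs_self K]

theorem fban_unif {b : ℕ → fbanE} {c : fbanE} (h : Tendsto b atTop (𝓝 c)) (i : ℕ) {x : ℝ}
    (hx : 0 < x) :
    TendstoUniformlyOn (fun n => fbanI (b n) i) (fbanI c i) atTop (Ioo (x / 2) (2 * x)) := by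
  obtain ⟨K, hK, hb⟩ := fban_bdd i hx
  rw [Metric.tendstoUniformlyOn_iff]
  intro ε hε
  filter_upwards [Metric.tendsto_nhds.1 h (ε / K) (div_pos hε hK)] with n hn y hy
  have hy0 : 0 < y := by linarith [hy.1]
  have e : fbanI c i y - fbanI (b n) i y = fbanI (c - b n) i y := by
    rw [map_sub]
    rfl
  rw [dist_eq_norm, e, fban_norm _ _ hy0]
  rw [dist_comm, dist_eq_norm, lt_div_iff₀ hK] at hn
  have h1 : ‖(c - b n) (i, y)‖ ≤ ‖c - b n‖ := lp.norm_apply_le_norm (by simp) _ _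
  exact lt_of_le_of_lt (mul_le_mul h1 (hb y hy) (wt_pos i hy0).le (norm_nonneg _)) hn

theorem fban_closed : IsClosed (fbanS : Set fbanE) := by
  refine IsSeqClosed.isClosed fun b c hb h => ⟨fun i hi x hx => ?_, fun p hp => ?_⟩
  · refine hasDerivAt_of_tendstoUniformlyOn isOpen_Ioo (fban_unif h (i + 1) hx)
      (Eventually.of_forall fun n y hy => (hb n).1 i hi y (by linarith [hy.1]))
      (fun y hy => (fban_unif h i hx).tendsto_at hy) ⟨by linarith, by linarith⟩
  · have h1 : ∀ n, ‖c p‖ ≤ ‖b n - c‖ := fun n => by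
      have h2 : ‖(b n - c) p‖ ≤ ‖b n - c‖ := lp.norm_apply_le_norm (by simp) _ _
      simpa [(hb n).2 p hp] using h2
    exact norm_le_zero_iff.1 (ge_of_tendsto' (tendsto_iff_norm_sub_tendsto_zero.1 h) h1)

theorem stBan : StBan := by
  classical
  refine ⟨fbanS, inferInstance, inferInstance, fban_closed.completeSpace_coe,
    fbanI.comp fbanS.subtype, fun b => ⟨b.2.1, fun i _ y hy => ?_⟩, fun A g hg => ?_,
    fun b A hA hb => ?_⟩
  · change ‖fbanI b.1 i y‖ ≤ ‖b.1‖ * wt i y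
    rw [fban_norm _ _ hy]
    exact mul_le_mul_of_nonneg_right (lp.norm_apply_le_norm (by simp) _ _) (wt_pos i hy).le
  · have hm : Memℓp (fun p : ℕ × ℝ =>
        if p.1 ≤ 7 ∧ 0 < p.2 then g p.1 p.2 / (wt p.1 p.2 : ℂ) else 0) ⊤ := by
      refine memℓp_infty ⟨|A|, ?_⟩
      rintro _ ⟨p, rfl⟩
      dsimp only
      split_ifs with hp
      · rw [norm_div, Complex.norm_real, Real.norm_of_nonneg (wt_pos _ hp.2).le,
          div_le_iff₀ (wt_pos _ hp.2)]
        exact (hg.bd _ hp.1 _ hp.2).trans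
          (mul_le_mul_of_nonneg_right (le_abs_self A) (wt_pos _ hp.2).le)
      · simp
    have he : ∀ i ≤ 7, ∀ y : ℝ, 0 < y → fbanI ⟨_, hm⟩ i y = g i y := by
      intro i hi y hy
      have hw : (wt i y : ℂ) ≠ 0 := by exact_mod_cast (wt_pos i hy).ne'
      change (wt i y : ℂ) * (if i ≤ 7 ∧ 0 < y then g i y / (wt i y : ℂ) else 0) = g i y
      rw [if_pos ⟨hi, hy⟩]
      field_simp
    refine ⟨⟨⟨_, hm⟩, fun i hi x hx => ?_, fun p hp => if_neg hp⟩, he⟩
    rw [he (i + 1) hi x hx]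
    refine (hg.ch i hi x hx).congr_of_eventuallyEq ?_
    filter_upwards [Ioi_mem_nhds hx] with y hy using he i hi.le y hy
  · change ‖b.1‖ ≤ A
    refine lp.norm_le_of_forall_le hA fun p => ?_
    by_cases hp : p.1 ≤ 7 ∧ 0 < p.2
    · have h1 : ‖fbanI b.1 p.1 p.2‖ ≤ A * wt p.1 p.2 := hb _ hp.1 _ hp.2
      rw [fban_norm _ _ hp.2] at h1
      exact le_of_mul_le_mul_right h1 (wt_pos _ hp.2)
    · rw [b.2.2 p hp, norm_zero]
      exact hA

end Pool.Agent.Bar58
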