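import Pool.Agent.Lib.MP_d79f69_nt.Bar.Basic

set_option autoImplicit false

namespace Pool.Agent.Bar58

open Complex MeasureTheory Set Filter Topology
open scoped ComplexConjugate

theorem fcb_rpow (q : ℝ) {t : ℝ} (ht : 1 ≤ t) : t ^ q ≤ 2 ^ |q| * (1 + t) ^ q := by
  rcases le_total 0 q with h | h
  · have h1 : t ^ q ≤ (1 + t) ^ q := Real.rpow_le_rpow (by linarith) (by linarith) h
    have h2 : (1 : ℝ) ≤ 2 ^ |q| := Real.one_le_rpow (by norm_num) (abs_nonneg q)
    exact h1.trans (le_mul_of_one_le_left (by positivity) h2)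
  · have h1 : (2 * t) ^ q ≤ (1 + t) ^ q :=
      Real.rpow_le_rpow_of_nonpos (by linarith) (by linarith) h
    rw [Real.mul_rpow (by norm_num) (by linarith)] at h1
    have h2 := mul_le_mul_of_nonneg_left h1 (show (0 : ℝ) ≤ 2 ^ |q| by positivity)
    rwa [← mul_assoc, ← Real.rpow_add (by norm_num), abs_of_nonpos h, neg_add_cancel,
      Real.rpow_zero, one_mul, ← abs_of_nonpos h] at h2

theorem fcb_up (hCp : StCp) (hUp1 : StUp1) (hUpA : StUpA) (hUpB : StUpB) (hUpC : StUpC)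
    {κ p H : ℝ} (hκ : 0 < κ) (hH : 10 ≤ H) (hp : p + 2 ≤ 20 * κ) : ∃ C : ℝ, 0 ≤ C ∧
    ∀ (θ M t0 : ℝ) (f : ℂ → ℂ), 0 ≤ θ → 0 ≤ M → 0 < t0 → DifferentiableOn ℂ f (Dom H) →
      SB κ p θ M t0 H f → ‖∫ t in Ioi H, f (cs H t) * cd H t‖ ≤
        C * M * (t0 ^ (-(κ / 3)) + (1 + t0) ^ (p + 1 / 2) * Real.exp (-(θ * t0 / 4))) := by
  obtain ⟨C0, c0, h0⟩ := hCp κ p H (8 * H) 0 hκ hH (by simpa using hp)
  obtain ⟨C1, c1, h1⟩ := hUpA κ p H hκ hH
  obtain ⟨C2, c2, h2⟩ := hUpB κ p H hκ hH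
  obtain ⟨C3, c3, h3⟩ := hUpC κ p H hκ hH
  refine ⟨8 * C0 + C1 + (C2 + C3) * 2 ^ |p + 1 / 2|, by positivity,
    fun θ M t0 f hθ hM ht hf hS => ?_⟩
  have a0 : 0 ≤ M * t0 ^ (-(κ / 3)) := by positivity
  have b0 : 0 ≤ M * ((1 + t0) ^ (p + 1 / 2) * Real.exp (-(θ * t0 / 4))) := by positivity
  have q0 : 0 ≤ (C2 + C3) * 2 ^ |p + 1 / 2| := by positivity
  rcases le_total t0 (8 * H) with h | h
  · have hi : Integrable fun t : ℝ => 2 * (C0 * M * t0 ^ (-(κ / 3))) * (1 + t ^ 2)⁻¹ :=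
      integrable_inv_one_add_sq.const_mul _
    have k0 : 0 ≤ C0 * M * t0 ^ (-(κ / 3)) := by positivity
    have k1 : ‖∫ t in Ioi H, f (cs H t) * cd H t‖
        ≤ ∫ t in Ioi H, 2 * (C0 * M * t0 ^ (-(κ / 3))) * (1 + t ^ 2)⁻¹ := by
      refine norm_integral_le_of_norm_le hi.integrableOn
        ((ae_restrict_iff' measurableSet_Ioi).2 (Eventually.of_forall fun t ht' => ?_))
      have e := h0 θ M t0 f hθ hM ht h hS t ((le_of_lt ht').trans (le_abs_self t))
      have e2 : ((1 + |t|) ^ (0 + 2))⁻¹ ≤ (1 + t ^ 2)⁻¹ := by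
        refine inv_anti₀ (by positivity) ?_
        rw [zero_add]
        nlinarith [abs_nonneg t, sq_abs t]
      rw [norm_mul]
      exact (mul_le_mul (e.trans (mul_le_mul_of_nonneg_left e2 k0)) (norm_cd_le H t)
        (norm_nonneg _) (by positivity)).trans_eq (by ring)
    have k2 := setIntegral_le_integral (s := Ioi H) hi
      (Eventually.of_forall fun t => by positivity)
    rw [integral_const_mul, integral_const_mul, integral_univ_inv_one_add_sq] at k2
    rw [integral_const_mul] at k1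
    nlinarith [mul_le_mul_of_nonneg_left Real.pi_le_four k0, mul_nonneg c1 a0, mul_nonneg q0 a0,
      mul_nonneg c0 b0, mul_nonneg c1 b0, mul_nonneg q0 b0]
  · obtain ⟨G, g1, g2, g3⟩ := h3 θ M t0 f hθ hM h hS
    have k1 := h1 θ M t0 f hθ hM h hS
    have k2 := h2 θ M t0 f hθ hM h hS
    have k3 := (norm_integral_le_of_norm_le g1
      ((ae_restrict_iff' measurableSet_Ioi).2 (Eventually.of_forall g2))).trans g3
    have k4 := mul_le_mul_of_nonneg_left (fcb_rpow (p + 1 / 2) (t := t0) (by linarith))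
      (show 0 ≤ (C2 + C3) * M * Real.exp (-(θ * t0 / 4)) by positivity)
    rw [hUp1 κ p H θ M t0 f hκ hH hp hθ hM h hf hS]
    refine norm_add₃_le.trans ?_
    nlinarith [mul_nonneg c0 a0, mul_nonneg q0 a0, mul_nonneg c0 b0, mul_nonneg c1 b0]

theorem stCB (hCp : StCp) (hDec : StDec) (hUp1 : StUp1) (hUpA : StUpA) (hUpB : StUpB)
    (hUpC : StUpC) : StCB := by
  intro κ p H hκ hH hp
  obtain ⟨C, c0, h0⟩ := fcb_up hCp hUp1 hUpA hUpB hUpC hκ hH hp
  refine ⟨2 * C + 2 * H, by positivity, fun θ M t0 f hθ hM ht hf hS hm => ?_⟩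
  have hi := (hDec κ p H θ M t0 0 f hκ hH (by simpa using hp) hθ hM ht hf hS).integrable
  have k1 := h0 θ M t0 f hθ hM ht hf hS
  have k2 := h0 θ M t0 _ hθ hM ht (diffOn_sharp (isOpen_Dom H)
    (fun s hs => by simpa [Dom] using hs) hf) hS.sharp
  have e2 : ∫ t in Iic (-H), f (cs H t) * cd H t
      = -conj (∫ t in Ioi H, conj (f (conj (cs H t))) * cd H t) := by
    rw [← integral_comp_neg_Ioi, ← integral_conj, ← integral_neg]
    congr 1
    funext t
    rw [cs_neg, cd_neg (by linarith), map_mul, conj_conj, mul_neg]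
  have k3 : ‖∫ t in (-H)..H, f (cs H t) * cd H t‖ ≤ M * t0 ^ (-(κ / 3)) * |H - -H| :=
    intervalIntegral.norm_integral_le_of_norm_le_const fun t ht' => by
      rw [uIoc_of_le (by linarith)] at ht'
      have a : |t| ≤ H := abs_le.2 ⟨ht'.1.le, ht'.2⟩
      rw [(cs_mid a).1, (cs_mid a).2, norm_mul, norm_I, mul_one]
      exact hm t a
  rw [abs_of_nonneg (by linarith)] at k3
  have n1 : ‖(1 / (2 * Real.pi * I) : ℂ)‖ ≤ 1 := by
    rw [norm_div, norm_one, norm_mul, norm_mul, norm_I, norm_real, Complex.norm_two,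
      Real.norm_of_nonneg Real.pi_pos.le, div_le_one (by positivity)]
    linarith [Real.pi_gt_three]
  rw [CI, norm_mul, ← intervalIntegral.integral_Iic_add_Ioi (b := -H) hi.integrableOn
    hi.integrableOn, ← intervalIntegral.integral_interval_add_Ioi (b := H) hi.integrableOn
    hi.integrableOn, e2, ← add_assoc]
  refine (mul_le_of_le_one_left (norm_nonneg _) n1).trans (norm_add₃_le.trans ?_)
  rw [norm_neg, RCLike.norm_conj]
  have b0 : 0 ≤ H * (M * ((1 + t0) ^ (p + 1 / 2) * Real.exp (-(θ * t0 / 4)))) := by positivity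
  linarith

end Pool.Agent.Bar58
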