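import Pool.Agent.Lib.MP_d79f69_nt.Bar.Basic

set_option autoImplicit false

namespace Pool.Agent.Bar58

open Complex MeasureTheory Set Filter Topology
open scoped ComplexConjugate

theorem fcmp_W {t : ℝ} (ht0 : 0 < t) (hL : 14 ≤ Real.log t) :
    W (t ^ (15 / 14 : ℝ)) ≤ Real.exp (7 / 8 * √(Real.log t)) := by
  unfold W
  apply Real.exp_le_exp.2
  have ht1 : 1 ≤ t := by
    by_contra h
    have := Real.log_nonpos ht0.le (not_le.1 h).le
    linarith
  have h1 : 1 ≤ t ^ (15 / 14 : ℝ) := Real.one_le_rpow ht1 (by norm_num)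
  have h2 : Real.log (1 + t ^ (15 / 14 : ℝ)) ≤ Real.log 2 + 15 / 14 * Real.log t := by
    calc _ ≤ Real.log (2 * t ^ (15 / 14 : ℝ)) := Real.log_le_log (by linarith) (by linarith)
      _ = _ := by rw [Real.log_mul (by norm_num) (by positivity), Real.log_rpow ht0]
  have h3 : Real.log 2 ≤ 1 := by have := Real.log_two_lt_d9; linarith
  have h4 : √(Real.log t) ^ 2 = Real.log t := Real.sq_sqrt (by linarith)
  refine Real.sqrt_le_iff.2 ⟨by positivity, ?_⟩
  rw [mul_pow, h4]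
  linarith

theorem stCmp : StCmp := by
  intro C c r hc
  obtain ⟨K, hK1, hK⟩ := poly_exp_le (2 * r + 5) (c := 1 / 8) (by norm_num)
  obtain ⟨V, hV⟩ : ∃ V : ℝ, V = |C| * 2 ^ r * K / c := ⟨_, rfl⟩
  have hV0 : 0 ≤ V := by rw [hV]; positivity
  have hVc : |C| * 2 ^ r * K = V * c := by rw [hV]; field_simp
  refine ⟨Real.exp (14 + V ^ 2), fun t ht => ?_⟩
  have ht0 : 0 < t := lt_of_lt_of_le (Real.exp_pos _) ht
  have hL : 14 + V ^ 2 ≤ Real.log t := by rw [Real.le_log_iff_exp_le ht0]; exact ht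
  have hL14 : 14 ≤ Real.log t := by nlinarith [sq_nonneg V]
  have hW := fcmp_W ht0 hL14
  have hW0 := W_pos (t ^ (15 / 14 : ℝ))
  have hvL : √(Real.log t) ^ 2 = Real.log t := Real.sq_sqrt (by linarith)
  have hVv : V ≤ √(Real.log t) := Real.le_sqrt_of_sq_le (by linarith)
  have hv0 : 0 ≤ √(Real.log t) := Real.sqrt_nonneg _
  generalize √(Real.log t) = v at hW hvL hVv hv0
  generalize W (t ^ (15 / 14 : ℝ)) = w at hW hW0
  rw [← hvL, mul_div_assoc', lt_div_iff₀ (by positivity)]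
  have h1 : (v ^ 2) ^ 2 ≤ (1 + v) ^ 4 := by
    rw [← pow_mul]
    exact pow_le_pow_left₀ hv0 (by linarith) _
  have h2 : (2 + v ^ 2) ^ r ≤ 2 ^ r * (1 + v) ^ (2 * r) := by
    rw [pow_mul, ← mul_pow]
    exact pow_le_pow_left₀ (by positivity) (by nlinarith) _
  have h3 : C * ((v ^ 2) ^ 2 * w) * (2 + v ^ 2) ^ r ≤
      |C| * ((1 + v) ^ 4 * Real.exp (7 / 8 * v)) * (2 ^ r * (1 + v) ^ (2 * r)) := by
    calc _ ≤ |C| * ((v ^ 2) ^ 2 * w) * (2 + v ^ 2) ^ r := by
          gcongr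
          exact le_abs_self C
      _ ≤ _ := by gcongr
  have h4 : Real.exp (7 / 8 * v) = Real.exp v * Real.exp (-(1 / 8 * v)) := by
    rw [← Real.exp_add]; congr 1; ring
  have h5 : (1 + v) * (|C| * ((1 + v) ^ 4 * Real.exp (7 / 8 * v)) * (2 ^ r * (1 + v) ^ (2 * r))) =
      |C| * 2 ^ r * Real.exp v * ((1 + v) ^ (2 * r + 5) * Real.exp (-(1 / 8 * v))) := by
    rw [h4]; ring
  have h6 : |C| * 2 ^ r * Real.exp v * ((1 + v) ^ (2 * r + 5) * Real.exp (-(1 / 8 * v))) ≤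
      |C| * 2 ^ r * Real.exp v * K := mul_le_mul_of_nonneg_left (hK v hv0) (by positivity)
  have h7 : |C| * 2 ^ r * Real.exp v * K = V * (c * Real.exp v) := by
    calc _ = |C| * 2 ^ r * K * Real.exp v := by ring
      _ = _ := by rw [hVc]; ring
  have h8 : V * (c * Real.exp v) < (1 + v) * (c * Real.exp v) :=
    mul_lt_mul_of_pos_right (by linarith) (by positivity)
  refine lt_of_le_of_lt h3 (lt_of_mul_lt_mul_left (a := 1 + v) ?_ (by linarith))
  rw [h5]
  linarith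

end Pool.Agent.Bar58
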