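import Pool.Agent.Lib.MP_d79f69_nt.Bar.Basic

set_option autoImplicit false

namespace Pool.Agent.Bar58

open Complex MeasureTheory Set Filter Topology
open scoped ComplexConjugate

theorem fcp_eq (H t : ℝ) : (((cs H t).re : ℝ) : ℂ) + t * I = cs H t := by
  have h := re_add_im (cs H t)
  rwa [cs_im] at h

theorem fcp_norm (H t : ℝ) : |t| ≤ ‖cs H t‖ ∧ ‖cs H t‖ ≤ |t| + 20 := by
  constructor
  · have h := abs_im_le_norm (cs H t)
    rwa [cs_im] at h
  · have h := norm_le_abs_re_add_abs_im (cs H t)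
    rw [cs_im] at h
    linarith [abs_cs_re H t]

theorem fcp_sector {H t : ℝ} (hH : 10 ≤ H) (ht : H ≤ |t|) : |(cs H t).re| ≤ 2 * |t| / 3 := by
  have h1 := (cs_re_mem H t).2
  have h2 : 1 / 3 - max (|t| - H) 0 / 2 ≤ (cs H t).re := by
    rw [cs_re]; exact le_max_right _ _
  rw [max_eq_left (by linarith)] at h2
  rw [abs_le]
  constructor <;> linarith

theorem fcp_cube {H t : ℝ} (hH : 10 ≤ H) (ht : H ≤ |t|) :
    |(cs H t).re| ^ 3 / (3 * t ^ 2) ≤ 27 := by
  have h1 : |(cs H t).re| ^ 3 ≤ 20 ^ 3 := pow_le_pow_left₀ (abs_nonneg _) (abs_cs_re H t) 3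
  have h2 : (10 : ℝ) ^ 2 ≤ |t| ^ 2 := pow_le_pow_left₀ (by norm_num) (by linarith) 2
  rw [sq_abs] at h2
  rw [div_le_iff₀ (by linarith)]
  linarith

theorem fcp_exp {κ p H t : ℝ} {m : ℕ} (hκ : 0 < κ) (hH : 10 ≤ H) (hp : p + m + 2 ≤ 20 * κ)
    (ht : H ≤ |t|) :
    (p + κ * (cs H t).re) * Real.log ‖cs H t‖ + (m + 2) * Real.log (1 + |t|) ≤
      (|p| + κ + m + 2) * Real.log (H + 61) + (m + 2) := by
  obtain ⟨n1, n2⟩ := fcp_norm H t
  have hm : (0 : ℝ) ≤ m := Nat.cast_nonneg m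
  have hN : 0 ≤ Real.log ‖cs H t‖ := Real.log_nonneg (by linarith)
  have hL : 0 ≤ Real.log (H + 61) := Real.log_nonneg (by linarith)
  have hp0 := abs_nonneg p
  rcases le_total (H + 122 / 3) |t| with h | h
  · have hre : (cs H t).re = -20 := by
      rw [(cs_end h).1]; simp
    rw [hre]
    have h1 : Real.log (1 + |t|) ≤ 1 + Real.log ‖cs H t‖ := by
      have h2 : Real.log (1 + |t|) ≤ Real.log (2 * ‖cs H t‖) :=
        Real.log_le_log (by linarith) (by linarith)
      rw [Real.log_mul (by norm_num) (by linarith)] at h2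
      have h3 : Real.log 2 ≤ 2 - 1 := Real.log_le_sub_one_of_pos (by norm_num)
      linarith
    have h4 : (p + κ * -20) * Real.log ‖cs H t‖ ≤ -(m + 2) * Real.log ‖cs H t‖ :=
      mul_le_mul_of_nonneg_right (by linarith) hN
    have h5 : (m + 2 : ℝ) * Real.log (1 + |t|) ≤ (m + 2) * (1 + Real.log ‖cs H t‖) :=
      mul_le_mul_of_nonneg_left h1 (by linarith)
    have h6 : 0 ≤ (|p| + κ + m + 2) * Real.log (H + 61) := mul_nonneg (by linarith) hL
    linarith
  · have h1 : Real.log ‖cs H t‖ ≤ Real.log (H + 61) :=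
      Real.log_le_log (by linarith) (by linarith)
    have h2 : Real.log (1 + |t|) ≤ Real.log (H + 61) :=
      Real.log_le_log (by linarith) (by linarith)
    have h3 : κ * (cs H t).re ≤ κ := by
      have := (cs_re_mem H t).2
      nlinarith
    have h4 : (p + κ * (cs H t).re) * Real.log ‖cs H t‖ ≤ (|p| + κ) * Real.log ‖cs H t‖ :=
      mul_le_mul_of_nonneg_right (by linarith [le_abs_self p]) hN
    have h5 : (|p| + κ) * Real.log ‖cs H t‖ ≤ (|p| + κ) * Real.log (H + 61) :=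
      mul_le_mul_of_nonneg_left h1 (by linarith)
    have h6 : (m + 2 : ℝ) * Real.log (1 + |t|) ≤ (m + 2) * Real.log (H + 61) :=
      mul_le_mul_of_nonneg_left h2 (by linarith)
    linarith

theorem stCp : StCp := by
  intro κ p H T m hκ hH hp
  refine ⟨Real.exp (27 * κ + κ * (61 / 3) * Real.log (max 1 T) +
    ((|p| + κ + m + 2) * Real.log (H + 61) + (m + 2))), (Real.exp_pos _).le, ?_⟩
  intro θ M t0 f hθ hM ht0 hT hf t ht
  have hb := hf (cs H t).re t ht (fcp_sector hH ht)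
  rw [fcp_eq] at hb
  refine hb.trans ?_
  obtain ⟨n1, n2⟩ := fcp_norm H t
  have hN : 0 < ‖cs H t‖ := by linarith
  have hu : 0 < 1 + |t| := by linarith
  have e1 : ((1 + |t|) ^ (m + 2))⁻¹ = Real.exp (-((m + 2 : ℝ) * Real.log (1 + |t|))) := by
    rw [Real.exp_neg]
    congr 1
    have : ((m : ℝ) + 2) = ((m + 2 : ℕ) : ℝ) := by push_cast; ring
    rw [this, Real.exp_nat_mul, Real.exp_log hu]
  rw [e1, Real.rpow_def_of_pos hN, Real.rpow_def_of_pos ht0, Real.log_div hN.ne' ht0.ne']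
  have k1 := fcp_exp hκ hH hp ht
  have k2 : κ * (|(cs H t).re| ^ 3 / (3 * t ^ 2)) ≤ κ * 27 :=
    mul_le_mul_of_nonneg_left (fcp_cube hH ht) hκ.le
  have k3 : 0 ≤ θ * |t| := mul_nonneg hθ (abs_nonneg t)
  obtain ⟨r1, r2⟩ := cs_re_mem H t
  have hL : 0 ≤ Real.log (max 1 T) := Real.log_nonneg (le_max_left _ _)
  have k4 : Real.log t0 ≤ Real.log (max 1 T) :=
    Real.log_le_log ht0 (hT.trans (le_max_right _ _))
  have k5 : (1 / 3 - (cs H t).re) * Real.log t0 ≤ 61 / 3 * Real.log (max 1 T) :=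
    (mul_le_mul_of_nonneg_left k4 (by linarith)).trans
      (mul_le_mul_of_nonneg_right (by linarith) hL)
  have k6 := mul_le_mul_of_nonneg_left k5 hκ.le
  have key : ∀ a b c d e : ℝ, a + b ≤ c + d + e →
      M * Real.exp a * Real.exp b ≤ Real.exp c * M * Real.exp d * Real.exp e := by
    intro a b c d e h
    have h1 : M * Real.exp a * Real.exp b = M * Real.exp (a + b) := by
      rw [Real.exp_add]; ring
    have h2 : Real.exp c * M * Real.exp d * Real.exp e = M * Real.exp (c + d + e) := by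
      rw [Real.exp_add, Real.exp_add]; ring
    rw [h1, h2]
    exact mul_le_mul_of_nonneg_left (Real.exp_le_exp.2 h) hM
  apply key
  nlinarith [k1, k2, k3, k6]

end Pool.Agent.Bar58
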