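import Pool.Agent.Lib.MP_d79f69_nt.Bar.Basic

set_option autoImplicit false

namespace Pool.Agent.Bar58

open Complex MeasureTheory Set Filter Topology
open scoped ComplexConjugate

/-- normalised powers -/
noncomputable def fdb_p (x0 : ℝ) (l : ℕ) (x : ℝ) : ℂ := ((x : ℂ) - x0) ^ l / (l.factorial : ℂ)

theorem fdb_p_der (x0 : ℝ) (l : ℕ) (x : ℝ) : HasDerivAt (fdb_p x0 (l + 1)) (fdb_p x0 l x) x := by
  have h1 : HasDerivAt (fun z : ℂ => (z - x0) ^ (l + 1) / ((l + 1).factorial : ℂ))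
      (((l + 1 : ℕ) : ℂ) * ((x : ℂ) - x0) ^ l * 1 / ((l + 1).factorial : ℂ)) (x : ℂ) :=
    (((hasDerivAt_id (x : ℂ)).sub_const (x0 : ℂ)).fun_pow (l + 1)).div_const _
  refine HasDerivAt.congr_deriv h1.comp_ofReal ?_
  have h2 : (l.factorial : ℂ) ≠ 0 := Nat.cast_ne_zero.2 (Nat.factorial_ne_zero l)
  have h3 : ((l + 1 : ℕ) : ℂ) ≠ 0 := Nat.cast_ne_zero.2 (Nat.succ_ne_zero l)
  rw [fdb_p, Nat.factorial_succ, Nat.cast_mul]
  field_simp

theorem fdb_p_cont (x0 : ℝ) (l : ℕ) : Continuous (fdb_p x0 l) := by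
  unfold fdb_p
  fun_prop

theorem fdb_taylor {x0 M : ℝ} (hx0 : 0 < x0) (hM : 0 ≤ M) (J : ℕ) : ∀ F : ℕ → ℝ → ℂ, Chain J F →
    (∀ x, x0 ≤ x → x ≤ x0 + 11 → ‖F J x‖ ≤ M) → ∀ x, x0 ≤ x → x ≤ x0 + 11 →
      ‖F 0 x - ∑ l ∈ Finset.range J, F l x0 * fdb_p x0 l x‖ ≤ 11 ^ J * M := by
  induction J with
  | zero =>
    intro F _ hb x h1 h2
    simpa using hb x h1 h2
  | succ J ih =>
    intro F hF hb x h1 h2
    have h3 := ih (fun i => F (i + 1)) (fun i hi y hy => hF (i + 1) (by omega) y hy) hb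
    have h4 : ∀ y ∈ Icc x0 (x0 + 11), HasDerivWithinAt
        (fun y => F 0 y - ∑ l ∈ Finset.range J, F (l + 1) x0 * fdb_p x0 (l + 1) y)
        (F 1 y - ∑ l ∈ Finset.range J, F (l + 1) x0 * fdb_p x0 l y) (Icc x0 (x0 + 11)) y :=
      fun y hy => ((hF 0 (by omega) y (hx0.trans_le hy.1)).sub
        (HasDerivAt.fun_sum fun l _ => (fdb_p_der x0 l y).const_mul _)).hasDerivWithinAt
    have h5 := norm_image_sub_le_of_norm_deriv_le_segment' h4
      (fun y hy => h3 y hy.1 hy.2.le) x ⟨h1, h2⟩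
    have h6 : ∀ l, fdb_p x0 (l + 1) x0 = 0 := fun l => by simp [fdb_p]
    have h7 : fdb_p x0 0 x = 1 := by simp [fdb_p]
    simp only [h6, mul_zero, Finset.sum_const_zero, sub_zero] at h5
    rw [Finset.sum_range_succ', h7, mul_one, ← sub_sub]
    refine h5.trans ?_
    have h8 : (0 : ℝ) ≤ 11 ^ J * M := by positivity
    calc 11 ^ J * M * (x - x0) ≤ 11 ^ J * M * 11 := by gcongr; linarith
      _ = 11 ^ (J + 1) * M := by ring

theorem fdb_cc (l : ℕ) (hl : l ≤ 10) :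
    ∑ m ∈ Finset.range 11, cc m * (((m : ℝ) + 1) ^ (l + 1) - (m : ℝ) ^ (l + 1)) =
      if l = 0 then 1 else 0 := by
  have c0 : cc 0 = 83711 / 27720 := by
    simp [cc, Finset.sum_Ico_eq_sum_range, Finset.sum_range_succ, Nat.choose]
    norm_num
  have c1 : cc 1 = -221209 / 27720 := by
    simp [cc, Finset.sum_Ico_eq_sum_range, Finset.sum_range_succ, Nat.choose]
    norm_num
  have c2 : cc 2 = 541091 / 27720 := by
    simp [cc, Finset.sum_Ico_eq_sum_range, Finset.sum_range_succ, Nat.choose]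
    norm_num
  have c3 : cc 3 = -983509 / 27720 := by
    simp [cc, Finset.sum_Ico_eq_sum_range, Finset.sum_range_succ, Nat.choose]
    norm_num
  have c4 : cc 4 = 1303391 / 27720 := by
    simp [cc, Finset.sum_Ico_eq_sum_range, Finset.sum_range_succ, Nat.choose]
    norm_num
  have c5 : cc 5 = -1257937 / 27720 := by
    simp [cc, Finset.sum_Ico_eq_sum_range, Finset.sum_range_succ, Nat.choose]
    norm_num
  have c6 : cc 6 = 876503 / 27720 := by
    simp [cc, Finset.sum_Ico_eq_sum_range, Finset.sum_range_succ, Nat.choose]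
    norm_num
  have c7 : cc 7 = -61471 / 3960 := by
    simp [cc, Finset.sum_Ico_eq_sum_range, Finset.sum_range_succ, Nat.choose]
    norm_num
  have c8 : cc 8 = 5051 / 990 := by
    simp [cc, Finset.sum_Ico_eq_sum_range, Finset.sum_range_succ, Nat.choose]
    norm_num
  have c9 : cc 9 = -111 / 110 := by
    simp [cc, Finset.sum_Ico_eq_sum_range, Finset.sum_range_succ, Nat.choose]
    norm_num
  have c10 : cc 10 = 1 / 11 := by
    simp [cc, Finset.sum_Ico_eq_sum_range, Finset.sum_range_succ, Nat.choose]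
    norm_num
  simp only [Finset.sum_range_succ, Finset.sum_range_zero, c0, c1, c2, c3, c4, c5, c6, c7, c8, c9,
    c10]
  interval_cases l <;> norm_num

theorem fdb_int (n l m : ℕ) :
    ∫ x in ((n : ℝ) + 1 + m)..((n : ℝ) + 2 + m), fdb_p (n + 1) l x =
      ((((m : ℝ) + 1) ^ (l + 1) - (m : ℝ) ^ (l + 1) : ℝ) : ℂ) / ((l + 1).factorial : ℂ) := by
  rw [intervalIntegral.integral_eq_sub_of_hasDerivAt (fun x _ => fdb_p_der (n + 1) l x)
    ((fdb_p_cont _ l).intervalIntegrable _ _)]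
  simp only [fdb_p]
  push_cast
  rw [show (n : ℂ) + 2 + m - (n + 1) = m + 1 by ring, show (n : ℂ) + 1 + m - (n + 1) = m by ring]
  ring

theorem fdb_poly (n l : ℕ) (hl : l ≤ 10) :
    ∑ m ∈ Finset.range 11, (cc m : ℂ) *
      ∫ x in ((n : ℝ) + 1 + m)..((n : ℝ) + 2 + m), fdb_p (n + 1) l x = fdb_p (n + 1) l (n + 1) := by
  simp only [fdb_int, ← mul_div_assoc, ← Finset.sum_div, ← ofReal_mul, ← ofReal_sum]
  rw [fdb_cc l hl]
  rcases l with _ | l
  · simp [fdb_p]
  · simp [fdb_p]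

theorem fdb_bound {J : ℕ} (h1 : 1 ≤ J) (h11 : J ≤ 11) {F : ℕ → ℝ → ℂ} (hF : Chain J F) (n : ℕ)
    {M : ℝ} (hM : 0 ≤ M) (hb : ∀ x : ℝ, (n : ℝ) + 1 ≤ x → x ≤ n + 12 → ‖F J x‖ ≤ M) :
    ‖DD (F 0) n‖ ≤ (1 + ∑ m ∈ Finset.range 11, |cc m|) * 11 ^ 11 * M := by
  have hn : (0 : ℝ) ≤ n := Nat.cast_nonneg n
  have hx0 : (0 : ℝ) < n + 1 := by linarith
  set R : ℝ → ℂ := fun x => F 0 x - ∑ l ∈ Finset.range J, F l (n + 1) * fdb_p (n + 1) l x with hR
  have hRb : ∀ x : ℝ, (n : ℝ) + 1 ≤ x → x ≤ n + 12 → ‖R x‖ ≤ 11 ^ 11 * M := fun x h2 h3 => by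
    refine (fdb_taylor hx0 hM J F hF (fun y h4 h5 => hb y h4 (by linarith)) x h2
      (by linarith)).trans ?_
    gcongr
    norm_num
  have hI : ∀ m : ℕ, ∫ x in ((n : ℝ) + 1 + m)..((n : ℝ) + 2 + m), R x =
      (∫ x in ((n : ℝ) + 1 + m)..((n : ℝ) + 2 + m), F 0 x) - ∑ l ∈ Finset.range J, F l (n + 1) *
        ∫ x in ((n : ℝ) + 1 + m)..((n : ℝ) + 2 + m), fdb_p (n + 1) l x := fun m => by
    have hm : (0 : ℝ) ≤ m := Nat.cast_nonneg m
    have i1 : IntervalIntegrable (F 0) volume ((n : ℝ) + 1 + m) ((n : ℝ) + 2 + m) := by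
      refine ((hF.cont h1).mono fun x hx => ?_).intervalIntegrable
      rw [uIcc_of_le (by linarith)] at hx
      exact lt_of_lt_of_le (by linarith) hx.1
    have i2 : ∀ l, Continuous fun x => F l (n + 1) * fdb_p (n + 1) l x := fun l =>
      continuous_const.mul (fdb_p_cont _ l)
    rw [hR, intervalIntegral.integral_sub i1
      ((continuous_finsetSum _ fun l _ => i2 l).intervalIntegrable _ _),
      intervalIntegral.integral_finsetSum fun l _ => (i2 l).intervalIntegrable _ _]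
    simp only [intervalIntegral.integral_const_mul]
  have hD : DD (F 0) n = R (n + 1) - ∑ m ∈ Finset.range 11, (cc m : ℂ) *
      ∫ x in ((n : ℝ) + 1 + m)..((n : ℝ) + 2 + m), R x := by
    have e : ∑ m ∈ Finset.range 11, (cc m : ℂ) * ∑ l ∈ Finset.range J, F l (n + 1) *
        ∫ x in ((n : ℝ) + 1 + m)..((n : ℝ) + 2 + m), fdb_p (n + 1) l x =
        ∑ l ∈ Finset.range J, F l (n + 1) * fdb_p (n + 1) l (n + 1) := by
      simp only [Finset.mul_sum]
      rw [Finset.sum_comm]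
      refine Finset.sum_congr rfl fun l hl => ?_
      rw [← fdb_poly n l (by have := Finset.mem_range.1 hl; omega), Finset.mul_sum]
      exact Finset.sum_congr rfl fun m _ => by ring
    have e2 : R (n + 1) =
        F 0 (n + 1) - ∑ l ∈ Finset.range J, F l (n + 1) * fdb_p (n + 1) l (n + 1) := rfl
    rw [e2, Finset.sum_congr rfl fun m _ => congrArg _ (hI m)]
    simp only [mul_sub, Finset.sum_sub_distrib, e, DD]
    ring
  rw [hD, add_mul, add_mul, one_mul, Finset.sum_mul, Finset.sum_mul]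
  refine (norm_sub_le _ _).trans (add_le_add (hRb _ le_rfl (by linarith)) ?_)
  refine (norm_sum_le _ _).trans (Finset.sum_le_sum fun m hm => ?_)
  have hm0 : (0 : ℝ) ≤ m := Nat.cast_nonneg m
  have hm1 : (m : ℝ) ≤ 10 := by
    have := Finset.mem_range.1 hm
    exact_mod_cast (by omega : m ≤ 10)
  have h6 := intervalIntegral.norm_integral_le_of_norm_le_const (f := R) (C := 11 ^ 11 * M)
    (a := (n : ℝ) + 1 + m) (b := (n : ℝ) + 2 + m) fun x hx => by
      rw [uIoc_of_le (by linarith)] at hx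
      exact hRb x (by linarith [hx.1]) (by linarith [hx.2])
  rw [show (n : ℝ) + 2 + m - (n + 1 + m) = 1 by ring, abs_one, mul_one] at h6
  rw [norm_mul, norm_real, Real.norm_eq_abs, mul_assoc]
  exact mul_le_mul_of_nonneg_left h6 (abs_nonneg _)

/-- the derivatives of a product -/
noncomputable def fdb_lb (a φ : ℕ → ℝ → ℂ) (i : ℕ) (x : ℝ) : ℂ :=
  ∑ l ∈ Finset.range (i + 1), (i.choose l : ℂ) * (a l x * φ (i - l) x)

theorem fdb_chain {J : ℕ} {a φ : ℕ → ℝ → ℂ} (ha : Chain J a) (hφ : Chain J φ) :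
    Chain J (fdb_lb a φ) := by
  intro i hi x hx
  have h1 : HasDerivAt (fdb_lb a φ i) (∑ l ∈ Finset.range (i + 1), (i.choose l : ℂ) *
      (a (l + 1) x * φ (i - l) x + a l x * φ (i - l + 1) x)) x :=
    HasDerivAt.fun_sum fun l hl => by
      have := Finset.mem_range.1 hl
      exact ((ha l (by omega) x hx).mul (hφ (i - l) (by omega) x hx)).const_mul _
  refine h1.congr_deriv ?_
  rw [fdb_lb, Finset.sum_choose_succ_mul (fun p q => a p x * φ q x) i, ← Finset.sum_add_distrib]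
  refine Finset.sum_congr rfl fun l hl => ?_
  have := Finset.mem_range.1 hl
  rw [show i + 1 - l = i - l + 1 by omega]
  ring

theorem stDB : StDB := by
  refine ⟨(1 + ∑ m ∈ Finset.range 11, |cc m|) * 11 ^ 11, by positivity, ?_⟩
  intro J h1 h11 a φ ha hφ n ma ra mφ rφ hma hra hmφ hrφ hab hφb
  have h0 : (fun x => a 0 x * φ 0 x) = fdb_lb a φ 0 := by
    funext x
    simp [fdb_lb]
  have h2 := fdb_bound h1 h11 (fdb_chain ha hφ) n (M := ma * mφ * (ra + rφ) ^ J) (by positivity)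
    fun x hx1 hx2 => by
      rw [fdb_lb, add_pow, Finset.mul_sum]
      refine (norm_sum_le _ _).trans (Finset.sum_le_sum fun l hl => ?_)
      have := Finset.mem_range.1 hl
      have b1 := hab l (by omega) x hx1 hx2
      have b2 := hφb (J - l) (by omega) x hx1 hx2
      rw [norm_mul, norm_mul, Complex.norm_natCast]
      calc (J.choose l : ℝ) * (‖a l x‖ * ‖φ (J - l) x‖)
          ≤ (J.choose l : ℝ) * ((ma * ra ^ l) * (mφ * rφ ^ (J - l))) := by gcongr
        _ = _ := by ring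
  rw [h0]
  exact h2.trans_eq (by ring)

end Pool.Agent.Bar58
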