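import Pool.Agent.Lib.MP_d79f69_nt.Bar.Basic

set_option autoImplicit false

namespace Pool.Agent.Bar58

open Complex MeasureTheory Set Filter Topology
open scoped ComplexConjugate

theorem ffix_nice (hOpN : StOpN) {k : ℕ → ℕ → ℝ → ℝ → ℂ} {C : ℝ} (hk : Kern k C) {A : ℝ}
    {a : ℕ → ℝ → ℂ} (h : Cls 4 (1 / 3) A a) {y : ℝ} (hy : 0 < y) :
    Nice fun x => conj (a 0 x) * k 0 0 x y :=
  (hOpN k C hk 4 (1 / 3) (by norm_num) (by norm_num) (by norm_num) (by norm_num) A a h 0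
    (by norm_num) (by norm_num)).1 y hy

theorem stFix (hKern : StKern) (hOpN : StOpN) (hSolve : StSolve) (hP2 : StP2) (hPoly : StPoly) :
    StFix := by
  intro ν
  obtain ⟨C, hk⟩ := hKern ν
  obtain ⟨r, hr⟩ := hSolve _ _ hk
  set b : Fin (r + 1) → ℕ → ℝ := fun i j => (1 / ((j : ℝ) + 1)) ^ (i : ℕ) with hb
  have hb1 : ∀ i j, |b i j| ≤ 1 := by
    intro i j
    have h0 : (0 : ℝ) ≤ 1 / ((j : ℝ) + 1) := by positivity
    have h1 : 1 / ((j : ℝ) + 1) ≤ 1 := by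
      rw [div_le_one (by positivity)]
      linarith [Nat.cast_nonneg (α := ℝ) j]
    rw [abs_of_nonneg (pow_nonneg h0 _)]
    exact pow_le_one₀ h0 h1
  obtain ⟨x, hx, A, g, hg, heq⟩ := hr (fun i => aa ν (b i)) fun i => (hP2 ν (b i) 1 (hb1 i)).1
  obtain ⟨ε, δ, j₀, hε, hδ, hj⟩ := hPoly r x hx
  set β : ℕ → ℝ := fun j => ε * ∑ i, x i * b i j with hβ
  have hε1 : |ε| = 1 := by rcases hε with h | h <;> simp [h]
  have hβB : ∀ j, |β j| ≤ ∑ i, |x i| := by
    intro j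
    simp only [hβ]
    rw [abs_mul, hε1, one_mul]
    refine (Finset.abs_sum_le_sum_abs _ _).trans (Finset.sum_le_sum fun i _ => ?_)
    rw [abs_mul]
    exact mul_le_of_le_one_right (abs_nonneg _) (hb1 i j)
  obtain ⟨⟨A₁, hA₁⟩, -⟩ := hP2 ν β _ hβB
  have c1 : Cls 4 (1 / 3) A₁ (aa ν β) := hA₁.mono (by norm_num) le_rfl
  have c2 : Cls 4 (1 / 3) (4 * A) g := hg.cls.mono (by norm_num) (by norm_num)
  have c3 := c1.add (c2.const_mul (ε : ℂ))
  have hlin : ∀ y : ℝ, 0 < y → aa ν β 0 y = ε * ∑ i, (x i : ℂ) * aa ν (b i) 0 y := by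
    intro y hy
    have hs : ∀ i, Summable fun j => ((b i j * om j : ℝ) : ℂ) * PP ν (th j) 0 y :=
      fun i => ((hP2 ν (b i) 1 (hb1 i)).2 y hy).of_norm
    unfold aa
    simp_rw [← tsum_mul_left]
    rw [← Summable.tsum_finsetSum fun i _ => (hs i).mul_left _, ← tsum_mul_left]
    refine tsum_congr fun j => ?_
    simp only [hβ]
    push_cast
    simp only [Finset.mul_sum, Finset.sum_mul]
    exact Finset.sum_congr rfl fun i _ => by ring
  refine ⟨β, _, δ, _, j₀, r, _, hβB, hδ, hj, c3, fun y hy => ?_⟩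
  have n2 := ffix_nice hOpN hk c2 hy
  have nv : ∀ i, Nice fun z => conj (aa ν (b i) 0 z) * kk ν 0 0 z y := fun i => by
    obtain ⟨A', h'⟩ := (hP2 ν (b i) 1 (hb1 i)).1
    exact ffix_nice hOpN hk (h'.mono (by norm_num) le_rfl) hy
  obtain ⟨ns, hs⟩ := UU_sum Finset.univ
    (F := fun i z => (x i : ℂ) * (conj (aa ν (b i) 0 z) * kk ν 0 0 z y))
    fun i _ => (nv i).const_mul _
  have e1 : KK (kk ν) (fun z => aa ν β 0 z + ε * g 0 z) 0 y =
      ε * (∑ i, (x i : ℂ) * KK (kk ν) (aa ν (b i) 0) 0 y + KK (kk ν) (g 0) 0 y) := by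
    unfold KK
    simp_rw [← UU_const_mul]
    rw [← hs, ← UU_add ns n2, ← UU_const_mul]
    refine UU_congr fun z hz => ?_
    rw [hlin z hz]
    simp only [map_add, map_mul, map_sum, conj_ofReal, Finset.mul_sum, Finset.sum_mul, add_mul,
      mul_add]
    congr 1
    · exact Finset.sum_congr rfl fun i _ => by ring
    · ring
  show aa ν β 0 y + ε * g 0 y = aa ν β 0 y + KK (kk ν) (fun z => aa ν β 0 z + ε * g 0 z) 0 y
  rw [e1, ← heq y hy]

end Pool.Agent.Bar58
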