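import Pool.Agent.Lib.MP_d79f69_nt.Bar.Basic

set_option autoImplicit false

namespace Pool.Agent.Bar58

open Complex MeasureTheory Set Filter Topology
open scoped ComplexConjugate

theorem ffr_step {E : Type} [NormedAddCommGroup E] [NormedSpace ℝ E] (K : E →L[ℝ] E)
    (Y : Finset E) (h : ∀ b : E, ‖b‖ ≤ 1 → ∃ z ∈ Y, ‖K b - z‖ ≤ 1 / 2) (f : E) :
    ∃ f' : E, ‖f'‖ ≤ ‖f‖ / 2 ∧ K f - f' ∈ Submodule.span ℝ (Y : Set E) := by
  by_cases hf : f = 0
  · exact ⟨0, by simp [hf], by simp [hf]⟩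
  have hn : 0 < ‖f‖ := norm_pos_iff.mpr hf
  obtain ⟨z, hz, hb⟩ := h (‖f‖⁻¹ • f) (by
    rw [norm_smul, norm_inv, norm_norm, inv_mul_cancel₀ hn.ne'])
  refine ⟨K f - ‖f‖ • z, ?_, ?_⟩
  · have e : K f - ‖f‖ • z = ‖f‖ • (K (‖f‖⁻¹ • f) - z) := by
      rw [smul_sub, map_smul, smul_smul, mul_inv_cancel₀ hn.ne', one_smul]
    rw [e, norm_smul, norm_norm]
    nlinarith
  · rw [sub_sub_cancel]
    exact Submodule.smul_mem _ _ (Submodule.subset_span hz)

theorem ffr_dec {E : Type} [NormedAddCommGroup E] [NormedSpace ℝ E] [CompleteSpace E]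
    (K : E →L[ℝ] E) (Y : Finset E) (h : ∀ b : E, ‖b‖ ≤ 1 → ∃ z ∈ Y, ‖K b - z‖ ≤ 1 / 2) (f : E) :
    ∃ g s : E, s ∈ Submodule.span ℝ (Y : Set E) ∧ g - K g = f - s := by
  choose T hT hS using ffr_step K Y h
  have hb : ∀ n : ℕ, ‖T^[n] f‖ ≤ ‖f‖ * (1 / 2) ^ n := by
    intro n
    induction n with
    | zero => simp
    | succ n ih =>
      rw [Function.iterate_succ_apply', pow_succ]
      have := hT (T^[n] f)
      linarith
  have hs : Summable fun n : ℕ => T^[n] f :=
    Summable.of_norm_bounded (summable_geometric_two.mul_left ‖f‖) hb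
  obtain ⟨g, hg⟩ := hs
  have h1 : HasSum (fun n : ℕ => K (T^[n] f)) (K g) := K.hasSum hg
  have h2 : HasSum (fun n : ℕ => T^[n + 1] f) (g - f) := by
    have := (hasSum_nat_add_iff' 1).mpr hg
    simpa using this
  have h3 := h1.sub h2
  have hfin : FiniteDimensional ℝ (Submodule.span ℝ (Y : Set E)) :=
    FiniteDimensional.span_of_finite ℝ Y.finite_toSet
  have hcl : IsClosed (Submodule.span ℝ (Y : Set E) : Set E) :=
    Submodule.closed_of_finiteDimensional _
  refine ⟨g, K g - (g - f), ?_, by abel⟩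
  refine hcl.mem_of_tendsto h3.tendsto_sum_nat (Eventually.of_forall fun N => ?_)
  refine Submodule.sum_mem _ fun n _ => ?_
  rw [Function.iterate_succ_apply']
  exact hS _

theorem stFr : StFr := by
  intro E _ _ _ K Y h
  refine ⟨Y.card, fun v => ?_⟩
  choose g s hs hg using ffr_dec K Y h
  have hfin : FiniteDimensional ℝ (Submodule.span ℝ (Y : Set E)) :=
    FiniteDimensional.span_of_finite ℝ Y.finite_toSet
  have hdep : ¬ LinearIndependent ℝ
      fun i => (⟨s (v i), hs (v i)⟩ : Submodule.span ℝ (Y : Set E)) := by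
    intro hl
    have h1 := hl.fintype_card_le_finrank
    have h2 := finrank_span_finset_le_card (R := ℝ) Y
    rw [Fintype.card_fin] at h1
    unfold Set.finrank at h2
    omega
  obtain ⟨x, hx, i, hi⟩ := Fintype.not_linearIndependent_iff.mp hdep
  have hx' : ∑ i, x i • s (v i) = 0 := by
    have := congrArg (Submodule.subtype _) hx
    simpa using this
  refine ⟨x, fun h0 => hi (by simp [h0]), ∑ i, x i • g (v i), ?_⟩
  rw [map_sum, ← Finset.sum_sub_distrib]
  calc ∑ i, (x i • g (v i) - K (x i • g (v i))) = ∑ i, (x i • v i - x i • s (v i)) := by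
        refine Finset.sum_congr rfl fun i _ => ?_
        rw [map_smul, ← smul_sub, hg, smul_sub]
    _ = _ := by rw [Finset.sum_sub_distrib, hx', sub_zero]

end Pool.Agent.Bar58
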