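import Pool.Agent.Lib.MP_d79f69_nt.Bar.Basic

set_option autoImplicit false

namespace Pool.Agent.Bar58

open Complex MeasureTheory Set Filter Topology
open scoped ComplexConjugate

theorem ffub_tsum {μ : Measure ℝ} {F : ℕ → ℝ → ℂ} (hF : ∀ i, Integrable (F i) μ)
    (hs : Summable fun i => ∫ a, ‖F i a‖ ∂μ) : Integrable (fun a => ∑' i, F i a) μ := by
  refine ⟨(AEMeasurable.tsum fun i => (hF i).1.aemeasurable).aestronglyMeasurable, ?_⟩
  refine lt_of_le_of_lt (lintegral_mono fun a => enorm_tsum_le_tsum_enorm) ?_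
  rw [lintegral_tsum fun i => (hF i).1.enorm]
  have (i : ℕ) : ∫⁻ a, ‖F i a‖ₑ ∂μ = ‖∫ a, ‖F i a‖ ∂μ‖ₑ := by
    rw [← ofReal_integral_norm_eq_lintegral_enorm (hF i),
      Real.enorm_of_nonneg (integral_nonneg fun a => norm_nonneg _)]
  rw [funext this, lt_top_iff_ne_top]
  exact ENNReal.tsum_coe_ne_top_iff_summable.2 <| NNReal.summable_coe.1 hs.abs

section

variable {Φ : ℝ → ℝ → ℂ} (hc : ContinuousOn (fun q : ℝ × ℝ => Φ q.1 q.2) (Ioi 0 ×ˢ Ioi 0))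
  (hG : ∀ X : ℝ, 0 < X → ∃ G : ℝ → ℝ, IntegrableOn G (Ioi 0) ∧ ∀ p : ℝ, 0 < p → ∀ x : ℝ, 0 < x →
    x ≤ X → ‖Φ p x‖ ≤ G p * x ^ (-(19 / 20 : ℝ)))

include hc hG

theorem ffub_prod {a b : ℝ} (ha : 0 ≤ a) (hab : a ≤ b) :
    Integrable (Function.uncurry Φ)
      ((volume.restrict (Ioi (0 : ℝ))).prod (volume.restrict (Ioc a b))) := by
  obtain ⟨G, hG1, hG2⟩ := hG (b + 1) (by linarith)
  have h1 : IntegrableOn (fun x : ℝ => x ^ (-(19 / 20 : ℝ))) (Ioc a b) :=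
    (intervalIntegral.intervalIntegrable_rpow' (a := a) (b := b) (by norm_num)).1
  have h2 := Integrable.mul_prod hG1 h1
  have hm : MeasurableSet (Ioi (0 : ℝ) ×ˢ Ioc a b) := measurableSet_Ioi.prod measurableSet_Ioc
  rw [Measure.prod_restrict] at h2 ⊢
  refine h2.mono' ?_ ?_
  · refine ContinuousOn.aestronglyMeasurable (hc.mono ?_) hm
    exact prod_mono le_rfl fun x hx => lt_of_le_of_lt ha hx.1
  · refine ae_restrict_of_forall_mem hm fun q hq => ?_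
    exact hG2 q.1 hq.1 q.2 (lt_of_le_of_lt ha hq.2.1) (by linarith [hq.2.2])

theorem ffub_int {a b : ℝ} (ha : 0 ≤ a) (hab : a ≤ b) :
    IntegrableOn (fun p => ∫ x in a..b, Φ p x) (Ioi 0) ∧
      ∫ p in Ioi (0 : ℝ), ∫ x in a..b, Φ p x = ∫ x in a..b, ∫ p in Ioi (0 : ℝ), Φ p x := by
  simp only [intervalIntegral.integral_of_le hab]
  exact ⟨(ffub_prod hc hG ha hab).integral_prod_left,
    integral_integral_swap (ffub_prod hc hG ha hab)⟩

theorem ffub_pt {x : ℝ} (hx : 0 < x) : IntegrableOn (fun p => Φ p x) (Ioi 0) := by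
  obtain ⟨G, hG1, hG2⟩ := hG x hx
  refine (hG1.mul_const (x ^ (-(19 / 20 : ℝ)))).mono' ?_ ?_
  · refine ContinuousOn.aestronglyMeasurable ?_ measurableSet_Ioi
    exact hc.comp (f := fun p : ℝ => (p, x)) (by fun_prop) fun p hp => ⟨hp, hx⟩
  · exact ae_restrict_of_forall_mem measurableSet_Ioi fun p hp => hG2 p hp x hx le_rfl

theorem ffub_sum {u v : ℕ → ℝ} (hu : ∀ m, 0 ≤ u m) (huv : ∀ m, u m ≤ v m) :
    IntegrableOn (fun p => ∑ m ∈ Finset.range 11, (cc m : ℂ) * ∫ x in (u m)..(v m), Φ p x)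
        (Ioi 0) ∧
      ∫ p in Ioi (0 : ℝ), ∑ m ∈ Finset.range 11, (cc m : ℂ) * ∫ x in (u m)..(v m), Φ p x =
        ∑ m ∈ Finset.range 11, (cc m : ℂ) * ∫ x in (u m)..(v m), ∫ p in Ioi (0 : ℝ), Φ p x := by
  have h := fun m => ((ffub_int hc hG (hu m) (huv m)).1.const_mul (cc m : ℂ))
  refine ⟨integrable_finsetSum _ fun m _ => h m, ?_⟩
  rw [integral_finsetSum _ fun m _ => h m]
  refine Finset.sum_congr rfl fun m _ => ?_
  rw [integral_const_mul, (ffub_int hc hG (hu m) (huv m)).2]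

theorem ffub_DD (n : ℕ) : IntegrableOn (fun p => DD (Φ p) n) (Ioi 0) ∧
    ∫ p in Ioi (0 : ℝ), DD (Φ p) n = DD (fun x => ∫ p in Ioi (0 : ℝ), Φ p x) n := by
  have h1 := ffub_pt hc hG (x := (n : ℝ) + 1) (by positivity)
  obtain ⟨h2, h3⟩ := ffub_sum hc hG (u := fun m => (n : ℝ) + 1 + m) (v := fun m => (n : ℝ) + 2 + m)
    (fun m => by positivity) (fun m => by linarith)
  refine ⟨h1.sub h2, ?_⟩
  unfold DD
  rw [integral_sub h1 h2, h3]

theorem ffub_B0 : IntegrableOn (fun p => B0 (Φ p)) (Ioi 0) ∧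
    ∫ p in Ioi (0 : ℝ), B0 (Φ p) = B0 (fun x => ∫ p in Ioi (0 : ℝ), Φ p x) :=
  ffub_sum hc hG (u := fun _ => 0) (v := fun m => (m : ℝ) + 1) (fun _ => le_rfl)
    (fun m => by positivity)

end

theorem stFub : StFub := by
  intro Φ b hc hG hb hs hD
  have h1 := fun n => (ffub_DD hc hG n).1
  have h2 : Summable fun n => ∫ p in Ioi (0 : ℝ), ‖DD (Φ p) n‖ := by
    refine hs.of_nonneg_of_le (fun n => integral_nonneg fun p => norm_nonneg _) fun n => ?_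
    exact setIntegral_mono_on (h1 n).norm (hb n) measurableSet_Ioi fun p hp => hD n p hp
  have h3 := ffub_tsum h1 h2
  obtain ⟨h4, h5⟩ := ffub_B0 hc hG
  refine ⟨h3.sub h4, ?_⟩
  unfold UU
  rw [integral_sub h3 h4, h5, ← integral_tsum_of_summable_integral_norm h1 h2]
  congr 1
  exact tsum_congr fun n => (ffub_DD hc hG n).2

end Pool.Agent.Bar58
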