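import Pool.Agent.Lib.MP_d79f69_nt.Bar.Basic

set_option autoImplicit false

namespace Pool.Agent.Bar58

open Complex MeasureTheory Set Filter Topology
open scoped ComplexConjugate

theorem fg0_arctan (y : ℝ) : Real.arctan y - y ≤ |y| ^ 3 / 3 := by
  rcases le_total 0 y with hy | hy
  · have h : Monotone fun x : ℝ => x - Real.arctan x := by
      refine monotone_of_hasDerivAt_nonneg (f' := fun x => 1 - 1 / (1 + x ^ 2))
        (fun x => (hasDerivAt_id x).sub (Real.hasDerivAt_arctan x)) fun x => ?_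
      have : 1 / (1 + x ^ 2) ≤ 1 := by
        rw [div_le_one (by positivity)]
        nlinarith [sq_nonneg x]
      simp only [Pi.zero_apply]
      linarith
    have h1 := h hy
    simp only [Real.arctan_zero, sub_zero] at h1
    have h2 : 0 ≤ |y| ^ 3 / 3 := by positivity
    linarith
  · have h : Monotone fun x : ℝ => Real.arctan x - x + x ^ 3 / 3 := by
      refine monotone_of_hasDerivAt_nonneg
        (f' := fun x => 1 / (1 + x ^ 2) - 1 + ((3 : ℕ) * x ^ (3 - 1)) / 3)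
        (fun x => ((Real.hasDerivAt_arctan x).sub (hasDerivAt_id x)).add
          ((hasDerivAt_pow 3 x).div_const 3)) fun x => ?_
      have : 1 - x ^ 2 ≤ 1 / (1 + x ^ 2) := by
        rw [le_div_iff₀ (by positivity)]
        nlinarith [sq_nonneg (x ^ 2)]
      simp only [Pi.zero_apply]
      push_cast
      linarith
    have h1 := h hy
    simp only [Real.arctan_zero, sub_zero] at h1
    rw [abs_of_nonpos hy]
    linarith

theorem fg0_arg (σ : ℝ) {u : ℝ} (hu : 0 < u) :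
    (Complex.log (σ + u * I)).im = Real.pi / 2 - Real.arctan (σ / u) := by
  rw [Pool.Agent.CubH.stir_log_z σ hu]
  generalize σ / u = y
  have hre : (1 + -(y : ℂ) * I).re = 1 := by simp
  have him : (1 + -(y : ℂ) * I).im = -y := by simp
  have h1 : |arg (1 + -(y : ℂ) * I)| < Real.pi / 2 :=
    abs_arg_lt_pi_div_two_iff.mpr (Or.inl (by rw [hre]; norm_num))
  have h2 := Real.arctan_tan (abs_lt.1 h1).1 (abs_lt.1 h1).2
  rw [tan_arg, hre, him, div_one, Real.arctan_neg] at h2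
  rw [add_im, add_im, log_im, ← h2, ofReal_im]
  simp [sub_eq_add_neg]

theorem fg0_log {a b c d : ℝ} (hc : 0 < c) (ha : c ≤ a) (hb : c ≤ b) (hd : |a - b| ≤ d) :
    |Real.log a - Real.log b| ≤ d / c := by
  have key : ∀ {a b : ℝ}, c ≤ a → c ≤ b → |a - b| ≤ d → Real.log a - Real.log b ≤ d / c := by
    intro a b ha hb hd
    have a0 : 0 < a := hc.trans_le ha
    have b0 : 0 < b := hc.trans_le hb
    have h1 := Real.log_le_sub_one_of_pos (div_pos a0 b0)
    rw [Real.log_div a0.ne' b0.ne', div_sub_one b0.ne'] at h1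
    refine h1.trans ((div_le_div_of_nonneg_right ((le_abs_self _).trans hd) b0.le).trans ?_)
    exact div_le_div_of_nonneg_left ((abs_nonneg _).trans hd) hc hb
  refine abs_le.2 ⟨?_, key ha hb hd⟩
  have := key hb ha (by rwa [abs_sub_comm])
  linarith

theorem fg0_cube {x t u n : ℝ} (hx : 0 ≤ x) (hn : 0 ≤ n) (ht : 0 < t) (hxt : x ≤ 2 * t / 3)
    (h1 : 5 * n ≤ t) (hu : t - n ≤ u) : x ^ 3 / (3 * u ^ 2) ≤ x ^ 3 / (3 * t ^ 2) + n := by
  have v0 : 0 < t - n := by linarith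
  have h2 : x ^ 3 / (3 * u ^ 2) ≤ x ^ 3 / (3 * (t - n) ^ 2) := by gcongr
  refine h2.trans ?_
  have h3 : x ^ 3 ≤ (2 * t / 3) ^ 3 := by gcongr
  have h4 : x ^ 3 / (3 * (t - n) ^ 2) - x ^ 3 / (3 * t ^ 2) =
      x ^ 3 * (n * (2 * t - n)) / (3 * t ^ 2 * (t - n) ^ 2) := by
    field_simp
    ring
  have h5 : x ^ 3 * (n * (2 * t - n)) / (3 * t ^ 2 * (t - n) ^ 2) ≤ n := by
    rw [div_le_iff₀ (by positivity)]
    have h6 : (4 * t / 5) ^ 2 ≤ (t - n) ^ 2 := by
      gcongr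
      linarith
    have h7 : x ^ 3 * (n * (2 * t - n)) ≤ (2 * t / 3) ^ 3 * (n * (2 * t)) := by
      have : 0 ≤ 2 * t - n := by linarith
      gcongr
      linarith
    have h8 : n * (3 * t ^ 2 * (4 * t / 5) ^ 2) ≤ n * (3 * t ^ 2 * (t - n) ^ 2) := by gcongr
    have h9 : 0 ≤ n * t ^ 4 := by positivity
    nlinarith
  linarith

theorem stG0 : StG0 := by
  intro ν
  refine ⟨Real.exp (Real.log (√(2 * Real.pi)) + 5 + 4 * |ν|), (Real.exp_pos _).le,
    fun σ t ht hσ => ?_⟩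
  have n0 := abs_nonneg ν
  obtain ⟨n1, n2⟩ := abs_le.1 (le_refl |ν|)
  obtain ⟨s1, s2⟩ := abs_le.1 hσ
  have t0 : 0 < t := by linarith
  have u0 : 0 < t + ν := by linarith
  have e : (σ : ℂ) + t * I + I * ν = σ + ((t + ν : ℝ) : ℂ) * I := by push_cast; ring
  obtain ⟨S, hS, hG⟩ := Pool.Agent.CubH.stir_gamma (σ := σ) (u := t + ν) (by linarith)
    (by linarith)
  have hS5 : -5 ≤ S.re := by
    have h1 : 20 / (t + ν) ≤ 5 := by
      rw [div_le_iff₀ u0]
      linarith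
    have h2 := (abs_le.1 (abs_re_le_norm S)).1
    linarith
  have hs : t ≤ ‖(σ : ℂ) + t * I‖ := by
    have := im_le_norm ((σ : ℂ) + t * I)
    simpa using this
  have hz : t + ν ≤ ‖(σ : ℂ) + ((t + ν : ℝ) : ℂ) * I‖ := by
    have := im_le_norm ((σ : ℂ) + ((t + ν : ℝ) : ℂ) * I)
    rwa [show ((σ : ℂ) + ((t + ν : ℝ) : ℂ) * I).im = t + ν by simp] at this
  have hd : |‖(σ : ℂ) + ((t + ν : ℝ) : ℂ) * I‖ - ‖(σ : ℂ) + t * I‖| ≤ |ν| := by
    refine (abs_norm_sub_norm_le _ _).trans (le_of_eq ?_)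
    rw [show (σ : ℂ) + ((t + ν : ℝ) : ℂ) * I - (σ + t * I) = ν * I by push_cast; ring, norm_mul,
      norm_I, mul_one, norm_real, Real.norm_eq_abs]
  have hl := fg0_log (c := 4 * t / 5) (by linarith) (by linarith) (by linarith) hd
  have ha := fg0_arg σ u0
  have hb := fg0_arctan (σ / (t + ν))
  have hc := fg0_cube (abs_nonneg σ) n0 t0 hσ (by linarith) (u := t + ν) (by linarith)
  have hb' : (t + ν) * Real.arctan (σ / (t + ν)) - σ ≤ |σ| ^ 3 / (3 * (t + ν) ^ 2) := by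
    have h1 := mul_le_mul_of_nonneg_left hb u0.le
    rw [abs_div, abs_of_pos u0] at h1
    have e1 : (t + ν) * (σ / (t + ν)) = σ := by field_simp
    have e2 : (t + ν) * ((|σ| / (t + ν)) ^ 3 / 3) = |σ| ^ 3 / (3 * (t + ν) ^ 2) := by field_simp
    rw [mul_sub, e1, e2] at h1
    exact h1
  have hre : (Pool.Agent.CubH.stirE (σ + ((t + ν : ℝ) : ℂ) * I)).re =
      (σ - 1 / 2) * Real.log ‖(σ : ℂ) + ((t + ν : ℝ) : ℂ) * I‖ -
        (t + ν) * (Real.pi / 2 - Real.arctan (σ / (t + ν))) - σ := by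
    rw [Pool.Agent.CubH.stirE, sub_re, mul_re, ha, log_re]
    simp
  have hm : (σ - 1 / 2) * (Real.log ‖(σ : ℂ) + ((t + ν : ℝ) : ℂ) * I‖ -
      Real.log ‖(σ : ℂ) + t * I‖) ≤ |ν| := by
    refine (le_abs_self _).trans ?_
    rw [abs_mul]
    have h1 : |σ - 1 / 2| ≤ 4 * t / 5 := abs_le.2 ⟨by linarith, by linarith⟩
    refine (mul_le_mul h1 hl (abs_nonneg _) (by linarith)).trans (le_of_eq ?_)
    field_simp
  have hp : -(Real.pi * ν) ≤ 4 * |ν| := by
    nlinarith [Real.pi_pos, Real.pi_le_four]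
  rw [e, hG, norm_exp, Real.rpow_def_of_pos (by linarith), ← Real.exp_add, ← Real.exp_add,
    Real.exp_le_exp, sub_re, add_re, hre, ofReal_re]
  nlinarith

end Pool.Agent.Bar58
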