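import Pool.Agent.Lib.MP_d79f69_nt.Bar.Basic

set_option autoImplicit false

namespace Pool.Agent.Bar58

open Complex MeasureTheory Set Filter Topology
open scoped ComplexConjugate

theorem fgl_norm (a b : ℝ) : ∃ C : ℝ, 1 ≤ C ∧ ∀ σ u : ℝ, a ≤ σ → σ ≤ b → C ≤ u →
    ∃ ρ : ℝ, |ρ| ≤ 1 ∧ ‖Gammaℝ (σ + (2 * u : ℝ) * I)‖ = Real.pi ^ (-σ / 2) *
      (√(2 * Real.pi) * u ^ (σ / 2 - 1 / 2) * Real.exp (-Real.pi * u / 2) * Real.exp ρ) := by
  obtain ⟨C, hC, h⟩ := Pool.Agent.CubH.sSt (a / 2) (b / 2)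
  refine ⟨C, hC, fun σ u h1 h2 h3 => ?_⟩
  have hu : 0 < u := by linarith
  obtain ⟨R, hR, hG⟩ := h (σ / 2) u (by linarith) (by linarith) h3
  refine ⟨R.re, (abs_re_le_norm R).trans (hR.trans ((div_le_one hu).2 h3)), ?_⟩
  have e1 : ((σ : ℂ) + (2 * u : ℝ) * I) / 2 = (σ / 2 : ℝ) + u * I := by
    push_cast
    ring
  have e2 : (-((σ : ℂ) + (2 * u : ℝ) * I) / 2).re = -σ / 2 := by
    simp
  have e3 : (0 : ℝ) ≤ √(2 * Real.pi) * u ^ (σ / 2 - 1 / 2) * Real.exp (-Real.pi * u / 2) := by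
    positivity
  rw [Gammaℝ_def, norm_mul, norm_cpow_eq_rpow_re_of_pos Real.pi_pos, e1, e2, hG, norm_mul,
    norm_mul, norm_exp_I_mul_ofReal, mul_one, Complex.norm_real, Real.norm_of_nonneg e3,
    Complex.norm_exp]

theorem fgl_neg (hGD : StGD) (ν : Fin 3 → ℝ) (σ t : ℝ) :
    ‖gam ν (σ + t * I)‖ = ‖gam (-ν) (σ + (-t : ℝ) * I)‖ := by
  have h := (hGD ν).2.2.1 (σ + t * I)
  have e : conj ((σ : ℂ) + t * I) = σ + (-t : ℝ) * I := by
    simp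
  rw [← e, ← h, Complex.norm_conj]

theorem fgl_one (ν : ℝ) : ∃ c T : ℝ, 0 < c ∧ ∀ t : ℝ, T ≤ t →
    c * (t ^ (-(1 / 4 : ℝ)) * Real.exp (-(Real.pi * t / 4))) ≤
      ‖Gammaℝ ((1 / 2 : ℝ) + t * I - I * ν)‖ := by
  obtain ⟨C, hC, h⟩ := fgl_norm (1 / 2) (1 / 2)
  refine ⟨Real.pi ^ (-(1 / 2 : ℝ) / 2) *
    (√(2 * Real.pi) * Real.exp (Real.pi * ν / 4) * Real.exp (-1)), 2 * C + |ν|,
    by have := Real.pi_pos; positivity, fun t h3 => ?_⟩
  have n1 := le_abs_self ν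
  have n2 := neg_abs_le ν
  obtain ⟨ρ, hρ, hn⟩ := h (1 / 2) ((t - ν) / 2) le_rfl le_rfl (by linarith)
  have e1 : ((1 / 2 : ℝ) : ℂ) + t * I - I * ν = (1 / 2 : ℝ) + (2 * ((t - ν) / 2) : ℝ) * I := by
    push_cast
    ring
  set u := (t - ν) / 2 with hu
  have hu1 : 1 ≤ u := by linarith
  have b2 : t ^ (-(1 / 4 : ℝ)) ≤ u ^ ((1 / 2 : ℝ) / 2 - 1 / 2) := by
    have e : (1 / 2 : ℝ) / 2 - 1 / 2 = -(1 / 4) := by norm_num
    rw [e]
    exact Real.rpow_le_rpow_of_nonpos (by linarith) (by linarith) (by norm_num)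
  have b3 : Real.exp (-Real.pi * u / 2) =
      Real.exp (Real.pi * ν / 4) * Real.exp (-(Real.pi * t / 4)) := by
    rw [← Real.exp_add, hu]
    congr 1
    ring
  have b5 : Real.exp (-1) ≤ Real.exp ρ := Real.exp_le_exp.2 (abs_le.1 hρ).1
  have hπ := Real.pi_pos
  have ht : 0 < t := by linarith
  rw [e1, hn, b3]
  calc Real.pi ^ (-(1 / 2 : ℝ) / 2) *
        (√(2 * Real.pi) * Real.exp (Real.pi * ν / 4) * Real.exp (-1)) *
        (t ^ (-(1 / 4 : ℝ)) * Real.exp (-(Real.pi * t / 4)))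
      = Real.pi ^ (-(1 / 2 : ℝ) / 2) * (√(2 * Real.pi) * t ^ (-(1 / 4 : ℝ)) *
        (Real.exp (Real.pi * ν / 4) * Real.exp (-(Real.pi * t / 4))) * Real.exp (-1)) := by
        ring
    _ ≤ _ := by gcongr

theorem fgl_pos (ν : Fin 3 → ℝ) : ∃ c T : ℝ, 0 < c ∧ ∀ t : ℝ, T ≤ t →
    c * t ^ (-(3 / 4 : ℝ)) * Real.exp (-(3 * Real.pi * t / 4)) ≤
      ‖gam ν ((1 / 2 : ℝ) + t * I)‖ := by
  choose c T hc h using fun j => fgl_one (ν j)
  refine ⟨∏ j, c j, 1 + ∑ j, |T j|, Finset.prod_pos fun j _ => hc j, fun t h3 => ?_⟩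
  have h0 : 0 ≤ ∑ j, |T j| := Finset.sum_nonneg fun j _ => abs_nonneg _
  have ht : 0 < t := by linarith
  have h4 : ∀ j, T j ≤ t := fun j => (le_abs_self _).trans
    ((Finset.single_le_sum (f := fun j => |T j|) (fun j _ => abs_nonneg _)
      (Finset.mem_univ j)).trans (by linarith))
  have e : t ^ (-(3 / 4 : ℝ)) * Real.exp (-(3 * Real.pi * t / 4)) =
      ∏ _j : Fin 3, (t ^ (-(1 / 4 : ℝ)) * Real.exp (-(Real.pi * t / 4))) := by
    have e1 : t ^ (-(3 / 4 : ℝ)) = t ^ (-(1 / 4 : ℝ)) * t ^ (-(1 / 4 : ℝ)) * t ^ (-(1 / 4 : ℝ)) := by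
      rw [← Real.rpow_add ht, ← Real.rpow_add ht]
      norm_num
    have e2 : Real.exp (-(3 * Real.pi * t / 4)) = Real.exp (-(Real.pi * t / 4)) *
        Real.exp (-(Real.pi * t / 4)) * Real.exp (-(Real.pi * t / 4)) := by
      rw [← Real.exp_add, ← Real.exp_add]
      congr 1
      ring
    rw [Fin.prod_univ_three, e1, e2]
    ring
  rw [gam, norm_prod, mul_assoc, e, ← Finset.prod_mul_distrib]
  refine Finset.prod_le_prod (fun j _ => ?_) fun j _ => h j t (h4 j)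
  have := hc j
  positivity

theorem stGL (hGD : StGD) : StGL := by
  intro ν
  obtain ⟨c1, T1, hc1, h1⟩ := fgl_pos ν
  obtain ⟨c2, T2, hc2, h2⟩ := fgl_pos (-ν)
  refine ⟨min c1 c2, max T1 T2, lt_min hc1 hc2, fun t ht => ?_⟩
  have e : (1 / 2 : ℂ) = ((1 / 2 : ℝ) : ℂ) := by push_cast; rfl
  have p1 : 0 ≤ |t| ^ (-(3 / 4 : ℝ)) := by positivity
  have p2 := (Real.exp_pos (-(3 * Real.pi * |t| / 4))).le
  rw [e]
  rcases le_total 0 t with h0 | h0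
  · rw [abs_of_nonneg h0] at ht p1 p2 ⊢
    refine le_trans ?_ (h1 t ((le_max_left _ _).trans ht))
    exact mul_le_mul_of_nonneg_right (mul_le_mul_of_nonneg_right (min_le_left _ _) p1) p2
  · rw [abs_of_nonpos h0] at ht p1 p2 ⊢
    rw [fgl_neg hGD]
    refine le_trans ?_ (h2 (-t) ((le_max_right _ _).trans ht))
    exact mul_le_mul_of_nonneg_right (mul_le_mul_of_nonneg_right (min_le_right _ _) p1) p2

end Pool.Agent.Bar58
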