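import Pool.Agent.Lib.MP_d79f69_nt.Bar.Basic

set_option autoImplicit false

namespace Pool.Agent.Bar58

open Complex MeasureTheory Set Filter Topology
open scoped ComplexConjugate

/-- one real gamma factor in the upper sector -/
theorem fgp_one (hG0 : StG0) (μ : ℝ) : ∃ C : ℝ, 0 ≤ C ∧ ∀ σ t : ℝ, 10 + 10 * |μ| ≤ t →
    |σ| ≤ 2 * t / 3 → ‖Gammaℝ (σ + t * I - I * μ)‖ ≤ C * Real.exp (-(σ / 2) * Real.log Real.pi +
      (σ / 2 - 1 / 2) * (Real.log ‖(σ : ℂ) + t * I‖ - Real.log 2) - Real.pi * t / 4 +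
        |σ| ^ 3 / (6 * t ^ 2)) := by
  obtain ⟨C, hC, h⟩ := hG0 (-μ / 2)
  refine ⟨C, hC, fun σ t ht hσ => ?_⟩
  have hμ : 0 ≤ |μ| := abs_nonneg _
  have ht0 : 0 < t := by linarith
  have h1 : 5 + 5 * |-μ / 2| ≤ t / 2 := by
    rw [abs_div, abs_neg, abs_two]
    linarith
  have h2 : |σ / 2| ≤ 2 * (t / 2) / 3 := by
    rw [abs_div, abs_two]
    linarith
  have h3 := h (σ / 2) (t / 2) h1 h2
  have hN : 0 < ‖(σ : ℂ) + t * I‖ := by
    have := Complex.abs_im_le_norm ((σ : ℂ) + t * I)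
    simp only [add_im, ofReal_im, mul_im, ofReal_re, I_im, mul_one, I_re, mul_zero, add_zero,
      zero_add] at this
    rw [abs_of_pos ht0] at this
    linarith
  have e1 : (((σ / 2 : ℝ) : ℂ) + ((t / 2 : ℝ) : ℂ) * I + I * ((-μ / 2 : ℝ) : ℂ)) =
      ((σ : ℂ) + t * I - I * μ) / 2 := by
    push_cast
    ring
  have e2 : ‖((σ / 2 : ℝ) : ℂ) + ((t / 2 : ℝ) : ℂ) * I‖ = ‖(σ : ℂ) + t * I‖ / 2 := by
    have : ((σ / 2 : ℝ) : ℂ) + ((t / 2 : ℝ) : ℂ) * I = ((σ : ℂ) + t * I) / 2 := by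
      push_cast
      ring
    rw [this, norm_div]
    simp
  rw [e1, e2] at h3
  have e3 : ‖(Real.pi : ℂ) ^ (-((σ : ℂ) + t * I - I * μ) / 2)‖ =
      Real.exp (-(σ / 2) * Real.log Real.pi) := by
    rw [Complex.norm_cpow_eq_rpow_re_of_pos Real.pi_pos, Real.rpow_def_of_pos Real.pi_pos]
    congr 1
    have : (-((σ : ℂ) + t * I - I * μ) / 2).re = -(σ / 2) := by
      simp
      ring
    rw [this]
    ring
  have e4 : (‖(σ : ℂ) + t * I‖ / 2) ^ (σ / 2 - 1 / 2) =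
      Real.exp ((σ / 2 - 1 / 2) * (Real.log ‖(σ : ℂ) + t * I‖ - Real.log 2)) := by
    rw [Real.rpow_def_of_pos (by positivity), Real.log_div hN.ne' two_ne_zero]
    congr 1
    ring
  have e5 : |σ / 2| ^ 3 / (3 * (t / 2) ^ 2) = |σ| ^ 3 / (6 * t ^ 2) := by
    rw [abs_div, abs_two]
    field_simp
    ring
  rw [Gammaℝ_def, norm_mul, e3]
  rw [e4, e5] at h3
  calc Real.exp (-(σ / 2) * Real.log Real.pi) * ‖Gamma (((σ : ℂ) + t * I - I * μ) / 2)‖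
      ≤ Real.exp (-(σ / 2) * Real.log Real.pi) * (C * Real.exp ((σ / 2 - 1 / 2) *
        (Real.log ‖(σ : ℂ) + t * I‖ - Real.log 2)) *
          Real.exp (-(Real.pi * (t / 2) / 2) + |σ| ^ 3 / (6 * t ^ 2))) :=
        mul_le_mul_of_nonneg_left h3 (Real.exp_pos _).le
    _ = C * (Real.exp (-(σ / 2) * Real.log Real.pi) * Real.exp ((σ / 2 - 1 / 2) *
        (Real.log ‖(σ : ℂ) + t * I‖ - Real.log 2)) *
          Real.exp (-(Real.pi * (t / 2) / 2) + |σ| ^ 3 / (6 * t ^ 2))) := by ring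
    _ = _ := by
        rw [← Real.exp_add, ← Real.exp_add]
        congr 2
        ring

/-- the product of the three factors in the upper sector -/
theorem fgp_up (hG0 : StG0) (ν : Fin 3 → ℝ) : ∃ C : ℝ, 0 ≤ C ∧ ∀ σ t : ℝ, HH ν ≤ t →
    |σ| ≤ 2 * t / 3 → ‖gam ν (σ + t * I)‖ ≤ C * Real.exp (3 * (-(σ / 2) * Real.log Real.pi +
      (σ / 2 - 1 / 2) * (Real.log ‖(σ : ℂ) + t * I‖ - Real.log 2) - Real.pi * t / 4 +
        |σ| ^ 3 / (6 * t ^ 2))) := by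
  choose C hC h using fgp_one hG0
  refine ⟨C (ν 0) * C (ν 1) * C (ν 2), by
    have := hC (ν 0)
    have := hC (ν 1)
    have := hC (ν 2)
    positivity, fun σ t ht hσ => ?_⟩
  have h0 := h (ν 0) σ t ((abs_le_HH ν 0).trans ht) hσ
  have h1 := h (ν 1) σ t ((abs_le_HH ν 1).trans ht) hσ
  have h2 := h (ν 2) σ t ((abs_le_HH ν 2).trans ht) hσ
  set E : ℝ := -(σ / 2) * Real.log Real.pi +
      (σ / 2 - 1 / 2) * (Real.log ‖(σ : ℂ) + t * I‖ - Real.log 2) - Real.pi * t / 4 +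
        |σ| ^ 3 / (6 * t ^ 2) with hE
  have e : Real.exp (3 * E) = Real.exp E * Real.exp E * Real.exp E := by
    rw [← Real.exp_add, ← Real.exp_add]
    congr 1
    ring
  unfold gam
  rw [Fin.prod_univ_three, norm_mul, norm_mul, e]
  have hE0 : 0 ≤ Real.exp E := (Real.exp_pos _).le
  calc _ ≤ (C (ν 0) * Real.exp E) * (C (ν 1) * Real.exp E) * (C (ν 2) * Real.exp E) := by
        have a0 := mul_nonneg (hC (ν 0)) hE0
        have a1 := mul_nonneg (hC (ν 1)) hE0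
        exact mul_le_mul (mul_le_mul h0 h1 (norm_nonneg _) a0) h2 (norm_nonneg _)
          (mul_nonneg a0 a1)
    _ = _ := by ring

/-- the product of the three factors in both sectors -/
theorem fgp_both (hG0 : StG0) (hGD : StGD) (ν : Fin 3 → ℝ) : ∃ C : ℝ, 0 ≤ C ∧ ∀ σ t : ℝ,
    HH ν ≤ |t| → |σ| ≤ 2 * |t| / 3 → ‖gam ν (σ + t * I)‖ ≤ C * Real.exp (3 * (-(σ / 2) *
      Real.log Real.pi + (σ / 2 - 1 / 2) * (Real.log ‖(σ : ℂ) + t * I‖ - Real.log 2) -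
        Real.pi * |t| / 4 + |σ| ^ 3 / (6 * t ^ 2))) := by
  obtain ⟨C1, hC1, h1⟩ := fgp_up hG0 ν
  obtain ⟨C2, hC2, h2⟩ := fgp_up hG0 (-ν)
  refine ⟨max C1 C2, le_max_of_le_left hC1, fun σ t ht hσ => ?_⟩
  rcases le_total 0 t with h0 | h0
  · rw [abs_of_nonneg h0] at ht hσ ⊢
    exact (h1 σ t ht hσ).trans
      (mul_le_mul_of_nonneg_right (le_max_left _ _) (Real.exp_pos _).le)
  · rw [abs_of_nonpos h0] at ht hσ ⊢
    have h3 := h2 σ (-t) (by rw [HH_neg]; exact ht) hσ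
    have e1 : ((σ : ℂ) + ((-t : ℝ) : ℂ) * I) = conj ((σ : ℂ) + t * I) := by
      simp
    rw [e1, ← (hGD ν).2.2.1, Complex.norm_conj, Complex.norm_conj, neg_sq] at h3
    exact h3.trans (mul_le_mul_of_nonneg_right (le_max_right _ _) (Real.exp_pos _).le)

/-- the sector bound -/
theorem fgp_sb (hG0 : StG0) (hGD : StGD) (ν : Fin 3 → ℝ) (i : ℕ) : ∃ M : ℝ, 0 ≤ M ∧
    ∀ M' : ℝ, M ≤ M' → ∀ θ : ℝ, 0 < θ → θ ≤ 1 → ∀ x : ℝ, 0 < x →
    SB (3 / 2) (i + 1 / 2) θ (M' * θ) (2 * Real.pi * x ^ (2 / 3 : ℝ)) (HH ν)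
        (fun s => gam (-ν) s * eta θ s * ff i s * (x : ℂ) ^ (-s)) := by
  obtain ⟨C, hC, h⟩ := fgp_both hG0 hGD (-ν)
  refine ⟨C * 4 * (1 + (i : ℝ)) ^ i * Real.exp (3 / 2 * Real.log 2), by positivity,
    fun M' hM' θ h0 h1 x hx σ t ht hσ => ?_⟩
  have hg := h σ t (by rw [HH_neg]; exact ht) hσ
  have him : ((σ : ℂ) + t * I).im = t := by simp
  have hre : ((σ : ℂ) + t * I).re = σ := by simp
  have hN1 : 1 ≤ ‖(σ : ℂ) + t * I‖ := by
    have a := Complex.abs_im_le_norm ((σ : ℂ) + t * I)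
    rw [him] at a
    have := ten_le_HH ν
    linarith
  set s : ℂ := (σ : ℂ) + t * I with hs
  have hN : 0 < ‖s‖ := by linarith
  set L : ℝ := Real.log ‖s‖ with hL
  have hexp : Real.exp L = ‖s‖ := Real.exp_log hN
  have he : ‖eta θ s‖ ≤ 4 * θ * Real.exp (2 * L + (3 * Real.pi / 4 - θ) * |t|) := by
    have a := norm_eta_le h0.le h1 s
    rw [him] at a
    have b : ‖s - 1 / 2‖ ≤ 2 * ‖s‖ := by
      have c := norm_sub_le s (1 / 2)
      have d : ‖(1 / 2 : ℂ)‖ = 1 / 2 := by simp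
      rw [d] at c
      linarith
    have c : ‖s - 1 / 2‖ ^ 2 ≤ (2 * ‖s‖) ^ 2 := pow_le_pow_left₀ (norm_nonneg _) b 2
    have d : Real.exp (2 * L) = ‖s‖ ^ 2 := by
      rw [← hexp, ← Real.exp_nat_mul]
      norm_num
    rw [Real.exp_add, d]
    calc ‖eta θ s‖ ≤ _ := a
      _ ≤ θ * (2 * ‖s‖) ^ 2 * Real.exp ((3 * Real.pi / 4 - θ) * |t|) := by gcongr
      _ = _ := by ring
  have hf : ‖ff i s‖ ≤ (1 + (i : ℝ)) ^ i * Real.exp (i * L) := by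
    have a := norm_ff_le i s
    have d : Real.exp (i * L) = ‖s‖ ^ i := by
      rw [← hexp, ← Real.exp_nat_mul]
    rw [d, ← mul_pow]
    refine a.trans (pow_le_pow_left₀ (by positivity) ?_ i)
    have : (0 : ℝ) ≤ i := Nat.cast_nonneg i
    nlinarith
  have hxs : ‖(x : ℂ) ^ (-s)‖ = Real.exp (-σ * Real.log x) := by
    rw [Complex.norm_cpow_eq_rpow_re_of_pos hx, Real.rpow_def_of_pos hx, neg_re, hre]
    congr 1
    ring
  have hp : ‖s‖ ^ ((i : ℝ) + 1 / 2) = Real.exp (((i : ℝ) + 1 / 2) * L) := by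
    rw [Real.rpow_def_of_pos hN]
    congr 1
    ring
  have hlog : Real.log (‖s‖ / (2 * Real.pi * x ^ (2 / 3 : ℝ))) =
      L - Real.log 2 - Real.log Real.pi - 2 / 3 * Real.log x := by
    have a : 0 < x ^ (2 / 3 : ℝ) := Real.rpow_pos_of_pos hx _
    have b := Real.pi_pos
    rw [Real.log_div hN.ne' (by positivity), Real.log_mul (by positivity) a.ne',
      Real.log_mul two_ne_zero b.ne', Real.log_rpow hx]
    ring
  show ‖gam (-ν) s * eta θ s * ff i s * (x : ℂ) ^ (-s)‖ ≤ _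
  rw [norm_mul, norm_mul, norm_mul, hxs, hp, hlog]
  set E : ℝ := 3 * (-(σ / 2) * Real.log Real.pi + (σ / 2 - 1 / 2) * (L - Real.log 2) -
        Real.pi * |t| / 4 + |σ| ^ 3 / (6 * t ^ 2)) with hE
  have key : Real.exp E * Real.exp (2 * L + (3 * Real.pi / 4 - θ) * |t|) * Real.exp (i * L) *
      Real.exp (-σ * Real.log x) = Real.exp (3 / 2 * Real.log 2) *
        (Real.exp (((i : ℝ) + 1 / 2) * L) * Real.exp (3 / 2 * (σ * (L - Real.log 2 -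
          Real.log Real.pi - 2 / 3 * Real.log x) + |σ| ^ 3 / (3 * t ^ 2)) - θ * |t|)) := by
    rw [← Real.exp_add, ← Real.exp_add, ← Real.exp_add, ← Real.exp_add, ← Real.exp_add]
    congr 1
    rw [hE]
    ring
  calc _ ≤ (C * Real.exp E) * (4 * θ * Real.exp (2 * L + (3 * Real.pi / 4 - θ) * |t|)) *
        ((1 + (i : ℝ)) ^ i * Real.exp (i * L)) * Real.exp (-σ * Real.log x) := by
        gcongr
    _ = C * 4 * (1 + (i : ℝ)) ^ i * θ * (Real.exp E *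
        Real.exp (2 * L + (3 * Real.pi / 4 - θ) * |t|) * Real.exp (i * L) *
          Real.exp (-σ * Real.log x)) := by ring
    _ = (C * 4 * (1 + (i : ℝ)) ^ i * Real.exp (3 / 2 * Real.log 2)) * θ *
        (Real.exp (((i : ℝ) + 1 / 2) * L) * Real.exp (3 / 2 * (σ * (L - Real.log 2 -
          Real.log Real.pi - 2 / 3 * Real.log x) + |σ| ^ 3 / (3 * t ^ 2)) - θ * |t|)) := by
        rw [key]
        ring
    _ ≤ M' * θ * (Real.exp (((i : ℝ) + 1 / 2) * L) * Real.exp (3 / 2 * (σ * (L - Real.log 2 -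
          Real.log Real.pi - 2 / 3 * Real.log x) + |σ| ^ 3 / (3 * t ^ 2)) - θ * |t|)) := by
        gcongr
    _ = _ := by ring

/-- the middle of the contour -/
theorem fgp_mid (hGD : StGD) (ν : Fin 3 → ℝ) (i : ℕ) : ∃ M : ℝ, 0 ≤ M ∧
    ∀ M' : ℝ, M ≤ M' → ∀ θ : ℝ, 0 < θ → θ ≤ 1 → ∀ x : ℝ, 0 < x → ∀ t : ℝ, |t| ≤ HH ν →
      ‖gam (-ν) (1 / 3 + t * I) * eta θ (1 / 3 + t * I) * ff i (1 / 3 + t * I) *
        (x : ℂ) ^ (-(1 / 3 + t * I))‖ ≤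
          M' * θ * (2 * Real.pi * x ^ (2 / 3 : ℝ)) ^ (-((3 / 2 : ℝ) / 3)) := by
  have hl : Continuous fun t : ℝ => (1 / 3 + t * I : ℂ) := by fun_prop
  have hg : Continuous fun t : ℝ => gam (-ν) (1 / 3 + t * I) := by
    refine (hGD (-ν)).1.continuousOn.comp_continuous hl fun t => Or.inl ?_
    simp
  have hf : Continuous fun t : ℝ => ff i (1 / 3 + t * I) :=
    (differentiable_ff i).continuous.comp hl
  have hc : Continuous fun t : ℝ => ‖gam (-ν) (1 / 3 + t * I)‖ *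
      (‖(1 / 3 + t * I : ℂ) - 1 / 2‖ ^ 2 * Real.exp (3 * Real.pi / 4 * |t|)) *
        ‖ff i (1 / 3 + t * I)‖ := by
    refine (hg.norm.mul ?_).mul hf.norm
    fun_prop
  obtain ⟨B, hB⟩ := (isCompact_Icc (a := -HH ν) (b := HH ν)).exists_bound_of_continuousOn
    hc.continuousOn
  have hH := ten_le_HH ν
  have hB0 : 0 ≤ B := (norm_nonneg _).trans (hB 0 ⟨by linarith, by linarith⟩)
  have hpi := Real.pi_pos
  refine ⟨B * (2 * Real.pi) ^ (1 / 2 : ℝ), by positivity, fun M' hM' θ h0 h1 x hx t ht => ?_⟩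
  have hb := (le_abs_self _).trans ((Real.norm_eq_abs _).symm.trans_le (hB t (abs_le.1 ht)))
  have him : (1 / 3 + t * I : ℂ).im = t := by simp
  have hre : (1 / 3 + t * I : ℂ).re = 1 / 3 := by simp
  set s : ℂ := 1 / 3 + t * I with hs
  have he : ‖eta θ s‖ ≤ θ * (‖s - 1 / 2‖ ^ 2 * Real.exp (3 * Real.pi / 4 * |t|)) := by
    have a := norm_eta_le h0.le h1 s
    rw [him] at a
    have b : Real.exp ((3 * Real.pi / 4 - θ) * |t|) ≤ Real.exp (3 * Real.pi / 4 * |t|) := by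
      apply Real.exp_le_exp.2
      have := abs_nonneg t
      nlinarith
    calc ‖eta θ s‖ ≤ _ := a
      _ ≤ θ * ‖s - 1 / 2‖ ^ 2 * Real.exp (3 * Real.pi / 4 * |t|) := by gcongr
      _ = _ := by ring
  have hxs : ‖(x : ℂ) ^ (-s)‖ = x ^ (-(1 / 3 : ℝ)) := by
    rw [Complex.norm_cpow_eq_rpow_re_of_pos hx, neg_re, hre]
  have hT : 0 < (2 * Real.pi * x ^ (2 / 3 : ℝ)) ^ (-((3 / 2 : ℝ) / 3)) := by positivity
  have hx3 : x ^ (-(1 / 3 : ℝ)) = (2 * Real.pi) ^ (1 / 2 : ℝ) *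
      (2 * Real.pi * x ^ (2 / 3 : ℝ)) ^ (-((3 / 2 : ℝ) / 3)) := by
    rw [Real.mul_rpow (x := 2 * Real.pi) (by positivity) (by positivity), ← mul_assoc,
      ← Real.rpow_add (by positivity), ← Real.rpow_mul hx.le]
    norm_num
  rw [norm_mul, norm_mul, norm_mul, hxs, hx3]
  calc _ ≤ ‖gam (-ν) s‖ * (θ * (‖s - 1 / 2‖ ^ 2 * Real.exp (3 * Real.pi / 4 * |t|))) *
        ‖ff i s‖ * ((2 * Real.pi) ^ (1 / 2 : ℝ) *
          (2 * Real.pi * x ^ (2 / 3 : ℝ)) ^ (-((3 / 2 : ℝ) / 3))) := by gcongr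
    _ = (‖gam (-ν) s‖ * (‖s - 1 / 2‖ ^ 2 * Real.exp (3 * Real.pi / 4 * |t|)) * ‖ff i s‖) *
        (2 * Real.pi) ^ (1 / 2 : ℝ) * θ *
          (2 * Real.pi * x ^ (2 / 3 : ℝ)) ^ (-((3 / 2 : ℝ) / 3)) := by ring
    _ ≤ B * (2 * Real.pi) ^ (1 / 2 : ℝ) * θ *
          (2 * Real.pi * x ^ (2 / 3 : ℝ)) ^ (-((3 / 2 : ℝ) / 3)) := by gcongr
    _ ≤ _ := by gcongr

theorem stGP (hG0 : StG0) (hGD : StGD) : StGP := by
  intro ν i
  obtain ⟨M1, h1, H1⟩ := fgp_sb hG0 hGD ν i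
  obtain ⟨M2, _, H2⟩ := fgp_mid hGD ν i
  exact ⟨max M1 M2, le_max_of_le_left h1, fun θ h0 h1 x hx =>
    ⟨H1 _ (le_max_left _ _) θ h0 h1 x hx, H2 _ (le_max_right _ _) θ h0 h1 x hx⟩⟩

end Pool.Agent.Bar58
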