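import Pool.Agent.Lib.MP_d79f69_nt.Bar.Basic

set_option autoImplicit false

namespace Pool.Agent.Bar58

open Complex MeasureTheory Set Filter Topology
open scoped ComplexConjugate

theorem fgv_norm (a b : ℝ) : ∃ C : ℝ, 1 ≤ C ∧ ∀ σ u : ℝ, a ≤ σ → σ ≤ b → C ≤ u →
    ∃ ρ : ℝ, |ρ| ≤ 1 ∧ ‖Gammaℝ (σ + (2 * u : ℝ) * I)‖ = Real.pi ^ (-σ / 2) *
      (√(2 * Real.pi) * u ^ (σ / 2 - 1 / 2) * Real.exp (-Real.pi * u / 2) * Real.exp ρ) := by
  obtain ⟨C, hC, h⟩ := Pool.Agent.CubH.sSt (a / 2) (b / 2)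
  refine ⟨C, hC, fun σ u h1 h2 h3 => ?_⟩
  have hu : 0 < u := by linarith
  obtain ⟨R, hR, hG⟩ := h (σ / 2) u (by linarith) (by linarith) h3
  refine ⟨R.re, (abs_re_le_norm R).trans (hR.trans ((div_le_one hu).2 h3)), ?_⟩
  have e1 : ((σ : ℂ) + (2 * u : ℝ) * I) / 2 = (σ / 2 : ℝ) + u * I := by
    push_cast
    ring
  have e2 : (-((σ : ℂ) + (2 * u : ℝ) * I) / 2).re = -σ / 2 := by
    simp
  have e3 : (0 : ℝ) ≤ √(2 * Real.pi) * u ^ (σ / 2 - 1 / 2) * Real.exp (-Real.pi * u / 2) := by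
    positivity
  rw [Gammaℝ_def, norm_mul, norm_cpow_eq_rpow_re_of_pos Real.pi_pos, e1, e2, hG, norm_mul,
    norm_mul, norm_exp_I_mul_ofReal, mul_one, Complex.norm_real, Real.norm_of_nonneg e3,
    Complex.norm_exp]

theorem fgv_neg (hGD : StGD) (ν : Fin 3 → ℝ) (σ t : ℝ) :
    ‖gam ν (σ + t * I)‖ = ‖gam (-ν) (σ + (-t : ℝ) * I)‖ := by
  have h := (hGD ν).2.2.1 (σ + t * I)
  have e : conj ((σ : ℂ) + t * I) = σ + (-t : ℝ) * I := by
    simp
  rw [← e, ← h, Complex.norm_conj]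

theorem fgv_one (ν a b : ℝ) : ∃ K T : ℝ, 0 ≤ K ∧ ∀ σ t : ℝ, a ≤ σ → σ ≤ b → T ≤ t →
    ‖Gammaℝ (σ + t * I - I * ν)‖ ≤ K * Real.exp (-(2 * t / 3)) := by
  obtain ⟨C, hC, h⟩ := fgv_norm a b
  obtain ⟨m, hm⟩ := exists_nat_ge (|a| + |b|)
  have hπ := Real.pi_gt_three
  obtain ⟨P, hP, hp⟩ := poly_exp_le m (c := Real.pi / 2 - 4 / 3) (by linarith)
  refine ⟨Real.pi ^ (m : ℝ) * (√(2 * Real.pi) * (P * Real.exp (2 * ν / 3)) * Real.exp 1),
    2 * C + ν, by positivity, fun σ t h1 h2 h3 => ?_⟩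
  obtain ⟨ρ, hρ, hn⟩ := h σ ((t - ν) / 2) h1 h2 (by linarith)
  have e1 : (σ : ℂ) + t * I - I * ν = σ + (2 * ((t - ν) / 2) : ℝ) * I := by
    push_cast
    ring
  set u := (t - ν) / 2 with hu
  have hu1 : 1 ≤ u := by linarith
  have a0 := neg_abs_le a
  have a1 := le_abs_self b
  have a2 := abs_nonneg a
  have a3 := abs_nonneg b
  have b0 : -σ / 2 ≤ (m : ℝ) := by
    by_cases hs : 0 ≤ σ <;> linarith
  have b0' : σ / 2 - 1 / 2 ≤ (m : ℝ) := by
    by_cases hs : 0 ≤ σ <;> linarith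
  have b1 : Real.pi ^ (-σ / 2) ≤ Real.pi ^ (m : ℝ) :=
    Real.rpow_le_rpow_of_exponent_le (by linarith) b0
  have b2 : u ^ (σ / 2 - 1 / 2) ≤ (1 + u) ^ m := by
    refine (Real.rpow_le_rpow_of_exponent_le hu1 b0').trans ?_
    rw [Real.rpow_natCast]
    exact pow_le_pow_left₀ (by linarith) (by linarith) m
  have b3 : Real.exp (-Real.pi * u / 2) = Real.exp (-((Real.pi / 2 - 4 / 3) * u)) *
      (Real.exp (2 * ν / 3) * Real.exp (-(2 * t / 3))) := by
    rw [← Real.exp_add, ← Real.exp_add, hu]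
    congr 1
    ring
  have b4 : u ^ (σ / 2 - 1 / 2) * Real.exp (-Real.pi * u / 2) ≤
      P * (Real.exp (2 * ν / 3) * Real.exp (-(2 * t / 3))) := by
    rw [b3, ← mul_assoc]
    refine mul_le_mul_of_nonneg_right (le_trans ?_ (hp u (by linarith))) (by positivity)
    exact mul_le_mul_of_nonneg_right b2 (Real.exp_pos _).le
  have b5 : Real.exp ρ ≤ Real.exp 1 := Real.exp_le_exp.2 (abs_le.1 hρ).2
  rw [e1, hn]
  calc Real.pi ^ (-σ / 2) *
        (√(2 * Real.pi) * u ^ (σ / 2 - 1 / 2) * Real.exp (-Real.pi * u / 2) * Real.exp ρ)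
      = Real.pi ^ (-σ / 2) *
        (√(2 * Real.pi) * (u ^ (σ / 2 - 1 / 2) * Real.exp (-Real.pi * u / 2)) * Real.exp ρ) := by
        ring
    _ ≤ Real.pi ^ (m : ℝ) * (√(2 * Real.pi) *
        (P * (Real.exp (2 * ν / 3) * Real.exp (-(2 * t / 3)))) * Real.exp 1) := by
        gcongr
    _ = _ := by ring

theorem fgv_pos (ν : Fin 3 → ℝ) (a b : ℝ) : ∃ K T : ℝ, 0 ≤ K ∧ ∀ σ t : ℝ, a ≤ σ → σ ≤ b → T ≤ t →
    ‖gam ν (σ + t * I)‖ ≤ K * Real.exp (-(2 * t)) := by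
  choose K T hK h using fun j => fgv_one (ν j) a b
  refine ⟨∏ j, K j, ∑ j, |T j|, Finset.prod_nonneg fun j _ => hK j, fun σ t h1 h2 h3 => ?_⟩
  have h4 : ∀ j, T j ≤ t := fun j => (le_abs_self _).trans
    ((Finset.single_le_sum (f := fun j => |T j|) (fun j _ => abs_nonneg _)
      (Finset.mem_univ j)).trans h3)
  have e : Real.exp (-(2 * t)) = ∏ _j : Fin 3, Real.exp (-(2 * t / 3)) := by
    rw [Fin.prod_univ_three, ← Real.exp_add, ← Real.exp_add]
    congr 1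
    ring
  rw [gam, norm_prod, e, ← Finset.prod_mul_distrib]
  exact Finset.prod_le_prod (fun j _ => norm_nonneg _) fun j _ => h j σ t h1 h2 (h4 j)

theorem stGV (hGD : StGD) : StGV := by
  intro ν a b
  obtain ⟨K1, T1, hK1, h1⟩ := fgv_pos ν a b
  obtain ⟨K2, T2, hK2, h2⟩ := fgv_pos (-ν) a b
  set T := |T1| + |T2| with hT
  set h : ℝ := if 0 < a then 0 else HH ν with hh
  have hc : IsCompact (Icc a b ×ˢ {t : ℝ | |t| ≤ T ∧ h ≤ |t|}) := by
    refine isCompact_Icc.prod (IsCompact.of_isClosed_subset (isCompact_Icc (a := -T) (b := T))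
      ((isClosed_le continuous_abs continuous_const).inter
        (isClosed_le continuous_const continuous_abs)) fun t ht => abs_le.1 ht.1)
  have hcont : ContinuousOn (fun p : ℝ × ℝ => gam ν (p.1 + p.2 * I))
      (Icc a b ×ˢ {t : ℝ | |t| ≤ T ∧ h ≤ |t|}) := by
    refine (hGD ν).1.continuousOn.comp (f := fun p : ℝ × ℝ => (p.1 : ℂ) + p.2 * I)
      (Continuous.continuousOn (by fun_prop)) fun p hp => ?_
    have a1 : a ≤ p.1 := hp.1.1
    have a2 : h ≤ |p.2| := hp.2.2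
    by_cases ha : 0 < a
    · left
      simpa using ha.trans_le a1
    · right
      rw [hh, if_neg ha] at a2
      simpa using (by linarith : HH ν - 1 < |p.2|)
  obtain ⟨M, hM⟩ := hc.exists_bound_of_continuousOn hcont
  refine ⟨K1 + K2 + |M| * Real.exp (2 * T), by positivity, fun σ t s1 s2 s3 => ?_⟩
  have e0 := Real.exp_pos (-(2 * |t|))
  have e1 : 0 ≤ |M| * Real.exp (2 * T) := by positivity
  have t1 := le_abs_self T1
  have t2 := le_abs_self T2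
  have t3 := abs_nonneg T1
  have t4 := abs_nonneg T2
  by_cases ht : |t| ≤ T
  · have a2 : h ≤ |t| := by
      rw [hh]
      split_ifs with ha
      · exact abs_nonneg t
      · exact s3.resolve_left ha
    have a3 : ‖gam ν (σ + t * I)‖ ≤ |M| := (hM (σ, t) ⟨⟨s1, s2⟩, ht, a2⟩).trans (le_abs_self M)
    have a4 : 1 ≤ Real.exp (2 * T) * Real.exp (-(2 * |t|)) := by
      rw [← Real.exp_add]
      exact Real.one_le_exp (by linarith)
    have a5 := mul_le_mul_of_nonneg_left a4 (abs_nonneg M)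
    nlinarith [mul_nonneg hK1 e0.le, mul_nonneg hK2 e0.le]
  · rcases le_total 0 t with h0 | h0
    · rw [abs_of_nonneg h0] at ht e0 ⊢
      refine (h1 σ t s1 s2 (by linarith)).trans (mul_le_mul_of_nonneg_right ?_ e0.le)
      linarith
    · rw [abs_of_nonpos h0] at ht e0 ⊢
      rw [fgv_neg hGD]
      refine (h2 σ (-t) s1 s2 (by linarith)).trans (mul_le_mul_of_nonneg_right ?_ e0.le)
      linarith

end Pool.Agent.Bar58
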