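import Pool.Agent.Lib.MP_d79f69_nt.Bar.Basic

set_option autoImplicit false

namespace Pool.Agent.Bar58

open Complex MeasureTheory Set Filter Topology
open scoped ComplexConjugate

/-- the common size of one factor -/
noncomputable def fgxQ (σ t : ℝ) : ℝ :=
  (2 * Real.pi) ^ (-σ) * ‖(σ : ℂ) + t * I‖ ^ (σ - 1 / 2) * Real.exp (|σ| ^ 3 / (3 * t ^ 2))

theorem fgxQ_nonneg (σ t : ℝ) : 0 ≤ fgxQ σ t := by
  unfold fgxQ
  have := Real.pi_pos
  positivity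

theorem fgx_conj (σ t : ℝ) : conj ((σ : ℂ) + t * I) = σ + ((-t : ℝ) : ℂ) * I := by
  simp

theorem fgxQ_neg (σ t : ℝ) : fgxQ σ (-t) = fgxQ σ t := by
  unfold fgxQ
  rw [← fgx_conj, Complex.norm_conj, neg_sq]

theorem fgx_factor (hG0 : StG0) (ν : ℝ) : ∃ C : ℝ, 0 ≤ C ∧ ∀ σ t : ℝ, 5 + 5 * |ν| ≤ t →
    |σ| ≤ 2 * t / 3 →
    ‖Gammaℂ (σ + t * I + I * ν) * Complex.cos (Real.pi * (σ + t * I + I * ν) / 2)‖ ≤
      C * fgxQ σ t := by
  obtain ⟨C, hC, h⟩ := hG0 ν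
  have hpi := Real.pi_pos
  refine ⟨2 * C * Real.exp (Real.pi * |ν| / 2), by positivity, fun σ t ht hσ => ?_⟩
  have hG := h σ t ht hσ
  have hν := abs_nonneg ν
  have ht0 : 0 ≤ t := by linarith
  have h1 : ‖Gammaℂ (σ + t * I + I * ν)‖ =
      2 * (2 * Real.pi) ^ (-σ) * ‖Gamma (σ + t * I + I * ν)‖ := by
    rw [Gammaℂ_def, norm_mul, norm_mul]
    have e : (2 * (Real.pi : ℂ)) = ((2 * Real.pi : ℝ) : ℂ) := by push_cast; ring
    rw [e, Complex.norm_cpow_eq_rpow_re_of_pos (by positivity)]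
    simp
  have h2 : ‖Complex.cos (Real.pi * (σ + t * I + I * ν) / 2)‖ ≤
      Real.exp (Real.pi * t / 2 + Real.pi * |ν| / 2) := by
    refine (norm_cos_le _).trans (Real.exp_le_exp.2 ?_)
    have e : ((Real.pi : ℂ) * (σ + t * I + I * ν) / 2).im = Real.pi * (t + ν) / 2 := by
      simp
    rw [e, abs_div, abs_mul, abs_of_pos hpi, abs_two]
    have : |t + ν| ≤ t + |ν| := by
      have := abs_add_le t ν
      rwa [abs_of_nonneg ht0] at this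
    have := mul_le_mul_of_nonneg_left this hpi.le
    linarith
  rw [norm_mul, h1]
  calc 2 * (2 * Real.pi) ^ (-σ) * ‖Gamma (σ + t * I + I * ν)‖ *
        ‖Complex.cos (Real.pi * (σ + t * I + I * ν) / 2)‖
      ≤ 2 * (2 * Real.pi) ^ (-σ) * (C * ‖(σ : ℂ) + t * I‖ ^ (σ - 1 / 2) *
          Real.exp (-(Real.pi * t / 2) + |σ| ^ 3 / (3 * t ^ 2))) *
          Real.exp (Real.pi * t / 2 + Real.pi * |ν| / 2) := by
        gcongr
    _ = 2 * C * Real.exp (Real.pi * |ν| / 2) * fgxQ σ t := by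
        unfold fgxQ
        have e : Real.exp (-(Real.pi * t / 2) + |σ| ^ 3 / (3 * t ^ 2)) *
            Real.exp (Real.pi * t / 2 + Real.pi * |ν| / 2) =
            Real.exp (Real.pi * |ν| / 2) * Real.exp (|σ| ^ 3 / (3 * t ^ 2)) := by
          rw [← Real.exp_add, ← Real.exp_add]
          congr 1
          ring
        calc _ = 2 * C * (2 * Real.pi) ^ (-σ) * ‖(σ : ℂ) + t * I‖ ^ (σ - 1 / 2) *
              (Real.exp (-(Real.pi * t / 2) + |σ| ^ 3 / (3 * t ^ 2)) *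
                Real.exp (Real.pi * t / 2 + Real.pi * |ν| / 2)) := by ring
          _ = _ := by rw [e]; ring

theorem fgx_pos (hG0 : StG0) (ν : Fin 3 → ℝ) : ∃ C : ℝ, 0 ≤ C ∧ ∀ σ t : ℝ, HH ν ≤ t →
    |σ| ≤ 2 * t / 3 → ‖XX ν (σ + t * I)‖ ≤ C * fgxQ σ t ^ 3 := by
  choose C hC h using fun j : Fin 3 => fgx_factor hG0 (ν j)
  refine ⟨∏ j, C j, Finset.prod_nonneg fun j _ => hC j, fun σ t ht hσ => ?_⟩
  unfold XX
  rw [norm_prod]
  calc _ ≤ ∏ j : Fin 3, C j * fgxQ σ t := by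
        refine Finset.prod_le_prod (fun j _ => norm_nonneg _) fun j _ => h j σ t ?_ hσ
        have := abs_le_HH ν j
        have := abs_nonneg (ν j)
        linarith
    _ = _ := by
        rw [Finset.prod_mul_distrib, Finset.prod_const, Finset.card_univ, Fintype.card_fin]

theorem fgx_both (hG0 : StG0) (hGD : StGD) (ν : Fin 3 → ℝ) : ∃ C : ℝ, 0 ≤ C ∧ ∀ σ t : ℝ,
    HH ν ≤ |t| → |σ| ≤ 2 * |t| / 3 → ‖XX ν (σ + t * I)‖ ≤ C * fgxQ σ t ^ 3 := by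
  obtain ⟨C1, hC1, h1⟩ := fgx_pos hG0 ν
  obtain ⟨C2, hC2, h2⟩ := fgx_pos hG0 (-ν)
  refine ⟨C1 + C2, by positivity, fun σ t ht hσ => ?_⟩
  have hQ : 0 ≤ fgxQ σ t ^ 3 := pow_nonneg (fgxQ_nonneg σ t) 3
  rcases le_total 0 t with h0 | h0
  · rw [abs_of_nonneg h0] at ht hσ
    have := h1 σ t ht hσ
    nlinarith [mul_nonneg hC2 hQ]
  · rw [abs_of_nonpos h0] at ht hσ
    have h3 := h2 σ (-t) (by rwa [HH_neg]) hσ
    rw [← fgx_conj, ← (hGD ν).2.2.2.1, Complex.norm_conj, fgxQ_neg] at h3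
    nlinarith [mul_nonneg hC1 hQ]

theorem fgx_ff (i : ℕ) {s : ℂ} (hs : 1 ≤ ‖s‖) : ‖ff i s‖ ≤ (1 + i) ^ i * ‖s‖ ^ i := by
  refine (norm_ff_le i s).trans ?_
  rw [← mul_pow]
  have hi : (0 : ℝ) ≤ i := Nat.cast_nonneg i
  refine pow_le_pow_left₀ (by positivity) ?_ i
  nlinarith

theorem fgx_alg (i j : ℕ) {N z : ℝ} (hN : 0 < N) (hz : 0 < z) (σ E u : ℝ) :
    ((2 * Real.pi) ^ (-σ) * N ^ (σ - 1 / 2) * Real.exp E) ^ 3 * N ^ i * N ^ j * z ^ (-σ) =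
      N ^ ((i : ℝ) + j - 3 / 2) *
        Real.exp (3 * (σ * Real.log (N / (2 * Real.pi * z ^ (1 / 3 : ℝ))) + E) - 0 * u) := by
  have hpi : 0 < 2 * Real.pi := by have := Real.pi_pos; positivity
  have hz3 : 0 < z ^ (1 / 3 : ℝ) := Real.rpow_pos_of_pos hz _
  rw [Real.log_div hN.ne' (mul_pos hpi hz3).ne', Real.log_mul hpi.ne' hz3.ne', Real.log_rpow hz,
    ← Real.rpow_natCast N i, ← Real.rpow_natCast N j]
  simp only [Real.rpow_def_of_pos hN, Real.rpow_def_of_pos hpi, Real.rpow_def_of_pos hz,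
    ← Real.exp_add, ← Real.exp_nat_mul]
  congr 1
  push_cast
  ring

theorem fgx_mid (hGD : StGD) (ν : Fin 3 → ℝ) (i j : ℕ) : ∃ B : ℝ, 0 ≤ B ∧ ∀ t : ℝ, |t| ≤ HH ν →
    ‖XX ν (1 / 3 + t * I) * ff i (1 / 3 + t * I) * ff j (1 / 3 + t * I)‖ ≤ B := by
  have hl : Continuous fun t : ℝ => (1 / 3 + t * I : ℂ) := by fun_prop
  have hX : Continuous fun t : ℝ => XX ν (1 / 3 + t * I) := by
    refine (hGD ν).2.1.continuousOn.comp_continuous hl fun t => Or.inl ?_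
    simp
  have hc : Continuous fun t : ℝ =>
      XX ν (1 / 3 + t * I) * ff i (1 / 3 + t * I) * ff j (1 / 3 + t * I) :=
    (hX.mul ((differentiable_ff i).continuous.comp hl)).mul
      ((differentiable_ff j).continuous.comp hl)
  obtain ⟨B, hB⟩ := (isCompact_Icc (a := -HH ν) (b := HH ν)).exists_bound_of_continuousOn
    hc.continuousOn
  refine ⟨max B 0, le_max_right _ _, fun t ht => ?_⟩
  exact (hB t (abs_le.1 ht)).trans (le_max_left _ _)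

theorem stGX (hG0 : StG0) (hGD : StGD) : StGX := by
  intro ν i j
  obtain ⟨C, hC, h⟩ := fgx_both hG0 hGD ν
  obtain ⟨B, hB, hm⟩ := fgx_mid hGD ν i j
  have hpi : 0 < 2 * Real.pi := by have := Real.pi_pos; positivity
  have hK : 0 ≤ C * (1 + (i : ℝ)) ^ i * (1 + (j : ℝ)) ^ j := by positivity
  refine ⟨C * (1 + i) ^ i * (1 + j) ^ j + 2 * Real.pi * B, by positivity, fun z hz => ⟨?_, ?_⟩⟩
  · intro σ t ht hσ
    have hH := ten_le_HH ν
    have hs : 1 ≤ ‖(σ : ℂ) + t * I‖ := by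
      have := Complex.abs_im_le_norm ((σ : ℂ) + t * I)
      simp only [add_im, ofReal_im, mul_im, ofReal_re, I_im, mul_one, I_re, mul_zero, add_zero,
        zero_add] at this
      linarith
    have hN : 0 < ‖(σ : ℂ) + t * I‖ := by linarith
    have hz1 : ‖(z : ℂ) ^ (-((σ : ℂ) + t * I))‖ = z ^ (-σ) := by
      rw [Complex.norm_cpow_eq_rpow_re_of_pos hz]
      simp
    have hzp : 0 ≤ z ^ (-σ) := (Real.rpow_pos_of_pos hz _).le
    have hQ := fgxQ_nonneg σ t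
    have ha := fgx_alg i j hN hz σ (|σ| ^ 3 / (3 * t ^ 2)) |t|
    show ‖XX ν (σ + t * I) * ff i (σ + t * I) * ff j (σ + t * I) *
      (z : ℂ) ^ (-((σ : ℂ) + t * I))‖ ≤ _
    rw [norm_mul, norm_mul, norm_mul, hz1, mul_assoc (_ + _), ← ha]
    have h1 := h σ t ht hσ
    have h2 := fgx_ff i hs
    have h3 := fgx_ff j hs
    calc ‖XX ν (σ + t * I)‖ * ‖ff i (σ + t * I)‖ * ‖ff j (σ + t * I)‖ * z ^ (-σ)
        ≤ C * fgxQ σ t ^ 3 * ((1 + i) ^ i * ‖(σ : ℂ) + t * I‖ ^ i) *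
            ((1 + j) ^ j * ‖(σ : ℂ) + t * I‖ ^ j) * z ^ (-σ) := by
          gcongr
      _ = C * (1 + i) ^ i * (1 + j) ^ j * (fgxQ σ t ^ 3 * ‖(σ : ℂ) + t * I‖ ^ i *
            ‖(σ : ℂ) + t * I‖ ^ j * z ^ (-σ)) := by ring
      _ ≤ (C * (1 + i) ^ i * (1 + j) ^ j + 2 * Real.pi * B) * (fgxQ σ t ^ 3 *
            ‖(σ : ℂ) + t * I‖ ^ i * ‖(σ : ℂ) + t * I‖ ^ j * z ^ (-σ)) := by
          refine mul_le_mul_of_nonneg_right ?_ (by positivity)
          have : 0 ≤ 2 * Real.pi * B := by positivity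
          linarith
      _ = _ := rfl
  · intro t ht
    have hz1 : ‖(z : ℂ) ^ (-(1 / 3 + (t : ℂ) * I))‖ = (z ^ (1 / 3 : ℝ))⁻¹ := by
      rw [Complex.norm_cpow_eq_rpow_re_of_pos hz, ← Real.rpow_neg hz.le]
      simp
    have hz3 : 0 < z ^ (1 / 3 : ℝ) := Real.rpow_pos_of_pos hz _
    have e : (2 * Real.pi * z ^ (1 / 3 : ℝ)) ^ (-((3 : ℝ) / 3)) =
        (2 * Real.pi)⁻¹ * (z ^ (1 / 3 : ℝ))⁻¹ := by
      rw [div_self (by norm_num : (3 : ℝ) ≠ 0), Real.rpow_neg_one, mul_inv]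
    rw [norm_mul, hz1, e, ← mul_assoc]
    refine mul_le_mul_of_nonneg_right ((hm t ht).trans ?_) (by positivity)
    rw [add_mul, mul_comm (2 * Real.pi) B, mul_inv_cancel_right₀ hpi.ne']
    have : 0 ≤ C * (1 + (i : ℝ)) ^ i * (1 + (j : ℝ)) ^ j * (2 * Real.pi)⁻¹ := by positivity
    linarith

end Pool.Agent.Bar58
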