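import Pool.Agent.Lib.MP_d79f69_nt.Bar.Basic

set_option autoImplicit false

namespace Pool.Agent.Bar58

open Complex MeasureTheory Set Filter Topology
open scoped ComplexConjugate

theorem fk2_rpow_le {y e : ℝ} (hy : 0 < y) (h1 : -(1 / 3) ≤ e) (h2 : e ≤ 20) :
    y ^ e ≤ y ^ (-(1 / 3) : ℝ) + y ^ (20 : ℝ) := by
  rcases le_total y 1 with h | h
  · have := Real.rpow_le_rpow_of_exponent_ge hy h h1
    have := Real.rpow_nonneg hy.le (20 : ℝ)
    linarith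
  · have := Real.rpow_le_rpow_of_exponent_le h h2
    have := Real.rpow_nonneg hy.le (-(1 / 3) : ℝ)
    linarith

theorem fk2_diff {z : ℝ} (hz : 0 < z) : Differentiable ℂ fun s : ℂ => (z : ℂ) ^ (-s) :=
  fun _ => differentiableAt_id.neg.const_cpow (Or.inl (ofReal_ne_zero.2 hz.ne'))

theorem fk2_str (hGD : StGD) (hGV : StGV) (hStr : StStr) (ν : Fin 3 → ℝ) {z : ℝ} (hz : 0 < z) :
    CI (HH ν) (fun s => gam ν s * (z : ℂ) ^ (-s)) = TT ν 0 z := by
  have hd : DifferentiableOn ℂ (fun s => gam ν s * (z : ℂ) ^ (-s)) (Dom (HH ν)) :=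
    (hGD ν).1.mul (fk2_diff hz).differentiableOn
  rw [hStr (HH ν) _ (ten_le_HH ν) (hd.mono fun s hs => Or.inr hs)]
  · simp only [TT, mono_zero]
  · exact hd.continuousOn.comp_continuous (f := fun t : ℝ => (1 / 3 + t * I : ℂ)) (by fun_prop)
      fun t => Or.inl (by simp)
  · obtain ⟨C, hC, h⟩ := hGV ν (-20) (1 / 3)
    refine ⟨C * (z ^ (-(1 / 3) : ℝ) + z ^ (20 : ℝ)), fun σ t h1 h2 h3 => ?_⟩
    have h4 := h σ t h1 h2 (Or.inr h3)
    have h5 := fk2_rpow_le (e := -σ) hz (by linarith) (by linarith)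
    have h6 : Real.exp (-(2 * |t|)) ≤ Real.exp (-|t|) :=
      Real.exp_le_exp.2 (by linarith [abs_nonneg t])
    have e : (-((σ : ℂ) + t * I)).re = -σ := by simp
    rw [norm_mul, norm_cpow_eq_rpow_re_of_pos hz, e]
    calc _ ≤ C * Real.exp (-|t|) * (z ^ (-(1 / 3) : ℝ) + z ^ (20 : ℝ)) :=
          mul_le_mul (h4.trans (mul_le_mul_of_nonneg_left h6 hC)) h5 (Real.rpow_nonneg hz.le _)
            (by positivity)
      _ = _ := by ring

theorem fk2_cpow {x r : ℝ} (hx : 0 < x) (hr : 0 < r) (s : ℂ) :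
    (x : ℂ) ^ (-s) * (r : ℂ) ^ (s - 1) = ((1 / r * x : ℝ) : ℂ) ^ (-s) * (1 / r) := by
  have hr' : (r : ℂ) ≠ 0 := ofReal_ne_zero.2 hr.ne'
  have h1 : (x : ℂ) ^ (-s) = (r : ℂ) ^ (-s) * ((1 / r * x : ℝ) : ℂ) ^ (-s) := by
    rw [← mul_cpow_ofReal_nonneg hr.le (by positivity), ← ofReal_mul]
    congr 2
    field_simp
  have h2 : (r : ℂ) ^ (-s) * (r : ℂ) ^ (s - 1) = 1 / r := by
    rw [← cpow_add _ _ hr', show -s + (s - 1) = -1 by ring, cpow_neg_one, one_div]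
  rw [h1, ← h2]
  ring

theorem stK2 (hGD : StGD) (hGX : StGX) (hGV : StGV) (hDec : StDec) (hMC : StMC) (hStr : StStr)
    (hTest : StTest) (hPair : StPair) : StK2 := by
  intro ν x r hx hr
  have hz : 0 < 1 / r * x := by positivity
  obtain ⟨M, hM, hX⟩ := hGX ν 0 0
  have hD := hDec 3 _ (HH ν) 0 M _ 0 _ (by norm_num) (ten_le_HH ν) (by norm_num) le_rfl hM
    (by positivity) ((((hGD ν).2.1.mul (differentiable_ff 0).differentiableOn).mul
      (differentiable_ff 0).differentiableOn).mul (fk2_diff hx).differentiableOn) (hX x hx).1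
  have hP := hPair ν (HH ν) _ hD r hr
  have hS := fk2_str hGD hGV hStr (-ν) hz
  rw [HH_neg, CI] at hS
  have e1 : ∀ y : ℝ, kk ν 0 0 x y * TT ν 0 (r * y) = 1 / (2 * Real.pi * I) *
      ((∫ t : ℝ, XX ν (cs (HH ν) t) * ff 0 (cs (HH ν) t) * ff 0 (cs (HH ν) t) *
        (x : ℂ) ^ (-cs (HH ν) t) * cd (HH ν) t * mono 0 (cs (HH ν) t) y) * TT ν 0 (r * y)) := by
    intro y
    rw [kk, mul_assoc]
    congr 3
    funext t
    simp only [mono_zero, ff, Finset.range_zero, Finset.prod_empty]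
    ring
  have e2 : ∀ t : ℝ, XX ν (cs (HH ν) t) * ff 0 (cs (HH ν) t) * ff 0 (cs (HH ν) t) *
      (x : ℂ) ^ (-cs (HH ν) t) * cd (HH ν) t *
        (gam ν (1 - cs (HH ν) t) * (r : ℂ) ^ (cs (HH ν) t - 1)) =
      gam (-ν) (cs (HH ν) t) * ((1 / r * x : ℝ) : ℂ) ^ (-cs (HH ν) t) * cd (HH ν) t * (1 / r) := by
    intro t
    have h1 := (hGD ν).2.2.2.2.1 _ (cs_mem_Dom (HH ν) t) (by linarith [(cs_re_mem (HH ν) t).2])
    have h2 := fk2_cpow hx hr (cs (HH ν) t)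
    simp only [ff, Finset.range_zero, Finset.prod_empty]
    linear_combination (x : ℂ) ^ (-cs (HH ν) t) * (r : ℂ) ^ (cs (HH ν) t - 1) * cd (HH ν) t * h1 +
      gam (-ν) (cs (HH ν) t) * cd (HH ν) t * h2
  simp only [Pi.mul_apply, e2, integral_mul_const] at hP
  simp only [e1, integral_const_mul]
  rw [hP, (hTest ν).2.2 _ hz, ← hS]
  ring

end Pool.Agent.Bar58
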