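import Pool.Agent.Lib.MP_d79f69_nt.Bar.Basic

set_option autoImplicit false

namespace Pool.Agent.Bar58

open Complex MeasureTheory Set Filter Topology
open scoped ComplexConjugate

theorem fkern_diff (hGD : StGD) (ν : Fin 3 → ℝ) (i j : ℕ) {z : ℝ} (hz : 0 < z) :
    DifferentiableOn ℂ (fun s => XX ν s * ff i s * ff j s * (z : ℂ) ^ (-s)) (Dom (HH ν)) := by
  have h : Differentiable ℂ fun s : ℂ => (z : ℂ) ^ (-s) :=
    differentiable_id.neg.const_cpow (Or.inl (ofReal_ne_zero.2 hz.ne'))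
  exact (((hGD ν).2.1.mul (differentiable_ff i).differentiableOn).mul
    (differentiable_ff j).differentiableOn).mul h.differentiableOn

theorem fkern_dec (hGD : StGD) (hGX : StGX) (hDec : StDec) (ν : Fin 3 → ℝ) :
    Dec 20 fun t => XX ν (cs (HH ν) t) * cd (HH ν) t := by
  obtain ⟨M, hM, h⟩ := hGX ν 0 0
  have h1 := hDec 3 _ (HH ν) 0 M _ 20 _ (by norm_num) (ten_le_HH ν) (by norm_num) le_rfl hM
    (by positivity) (fkern_diff hGD ν 0 0 one_pos) (h 1 one_pos).1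
  simpa [ff] using h1

theorem fkern_eq (ν : Fin 3 → ℝ) (i j : ℕ) {x y : ℝ} (hx : 0 < x) (hy : 0 < y) :
    kk ν i j x y = ((x ^ (-(i : ℝ)) : ℝ) : ℂ) * ((y ^ (-(j : ℝ)) : ℝ) : ℂ) *
      CI (HH ν) fun s => XX ν s * ff i s * ff j s * ((x * y : ℝ) : ℂ) ^ (-s) := by
  unfold kk CI
  rw [mul_left_comm, ← integral_const_mul (((x ^ (-(i : ℝ)) : ℝ) : ℂ) * ((y ^ (-(j : ℝ)) : ℝ) : ℂ))]
  congr 2
  funext t
  beta_reduce
  rw [mono_eq i _ hx, mono_eq j _ hy, ofReal_mul, mul_cpow_ofReal_nonneg hx.le hy.le]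
  ring

theorem fkern_bd (hGD : StGD) (hGX : StGX) (hCB : StCB) (ν : Fin 3 → ℝ) (i j : ℕ) :
    ∃ K : ℝ, 0 ≤ K ∧ (i ≤ 11 → j ≤ 8 → ∀ z : ℝ, 0 < z →
      ‖CI (HH ν) fun s => XX ν s * ff i s * ff j s * (z : ℂ) ^ (-s)‖ ≤
        K * z ^ (-(1 / 3 : ℝ)) * (1 + z ^ (1 / 3 : ℝ)) ^ (i + j)) := by
  by_cases hij : i ≤ 11 ∧ j ≤ 8
  swap
  · exact ⟨0, le_rfl, fun hi hj => (hij ⟨hi, hj⟩).elim⟩
  have hi : (i : ℝ) ≤ 11 := by exact_mod_cast hij.1
  have hj : (j : ℝ) ≤ 8 := by exact_mod_cast hij.2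
  obtain ⟨M, hM, h⟩ := hGX ν i j
  obtain ⟨C, hC, hb⟩ := hCB 3 (i + j - 3 / 2) (HH ν) (by norm_num) (ten_le_HH ν) (by linarith)
  refine ⟨C * M * (1 + 7 ^ (i + j)), by positivity, fun _ _ z hz => ?_⟩
  have hw : 0 < z ^ (1 / 3 : ℝ) := Real.rpow_pos_of_pos hz _
  have h1 := hb 0 M _ _ le_rfl hM (by positivity) (fkern_diff hGD ν i j hz) (h z hz).1 (h z hz).2
  refine h1.trans ?_
  rw [Real.rpow_neg hz.le]
  generalize z ^ (1 / 3 : ℝ) = w at hw
  have hpi3 := Real.pi_gt_three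
  have hpi4 := Real.pi_lt_d2
  have ht : w ≤ 2 * Real.pi * w := by nlinarith
  have e1 : (2 * Real.pi * w) ^ (-((3 : ℝ) / 3)) ≤ w⁻¹ * (1 + w) ^ (i + j) := by
    rw [show -((3 : ℝ) / 3) = -1 by norm_num, Real.rpow_neg_one]
    exact (inv_anti₀ hw ht).trans
      (le_mul_of_one_le_right (by positivity) (one_le_pow₀ (by linarith)))
  have e2 : (1 + 2 * Real.pi * w) ^ ((i : ℝ) + j - 3 / 2 + 1 / 2) ≤
      7 ^ (i + j) * (w⁻¹ * (1 + w) ^ (i + j)) := by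
    have hp : 0 < 1 + 2 * Real.pi * w := by positivity
    rw [show (i : ℝ) + j - 3 / 2 + 1 / 2 = ((i + j : ℕ) : ℝ) - 1 by push_cast; ring,
      Real.rpow_sub_one hp.ne', Real.rpow_natCast, div_eq_inv_mul, mul_left_comm, ← mul_pow]
    refine mul_le_mul (inv_anti₀ hw (by linarith)) (pow_le_pow_left₀ hp.le (by nlinarith) _)
      (by positivity) (by positivity)
  rw [zero_mul, zero_div, neg_zero, Real.exp_zero, mul_one]
  calc _ ≤ C * M * (w⁻¹ * (1 + w) ^ (i + j) + 7 ^ (i + j) * (w⁻¹ * (1 + w) ^ (i + j))) :=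
        mul_le_mul_of_nonneg_left (add_le_add e1 e2) (mul_nonneg hC hM)
    _ = _ := by ring

theorem stKern (hGD : StGD) (hGX : StGX) (hDec : StDec) (hCB : StCB) (hMC : StMC) : StKern := by
  intro ν
  have hφ := fkern_dec hGD hGX hDec ν
  have mc := fun (φ : ℝ → ℂ) (m : ℕ) =>
    hMC (cs (HH ν)) φ m (continuous_cs _) (abs_cs_re _) (norm_cs_le _)
  have hx : ∀ j ≤ 8, ∀ y : ℝ, 0 < y → Chain 11 fun i x => kk ν i j x y := by
    intro j hj y hy
    exact (((mc _ _ ((mc _ _ hφ).2 j (by omega) y hy)).1.mono (J' := 11) (by omega)).const_mul _)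
  choose K hK0 hK using fkern_bd hGD hGX hCB ν
  refine ⟨∑ i ∈ Finset.range 12, ∑ j ∈ Finset.range 9, K i j, hx, fun x hx0 => ?_,
    fun j hj => ?_, fun i hi j hj x hx0 y hy => ?_⟩
  · have h := ((mc _ _ ((mc _ _ hφ).2 0 (by omega) x hx0)).1.mono (J' := 8) (by omega)).const_mul
      (1 / (2 * Real.pi * I))
    simpa only [kk, mul_right_comm _ (mono 0 _ x)] using h
  · have hg : ContinuousOn (fun z => kk ν 0 j z 1) (Ioi 0) := (hx j hj 1 one_pos).cont (by omega)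
    have h1 : ContinuousOn (fun p : ℝ × ℝ => kk ν 0 j (p.1 * p.2) 1) (Ioi 0 ×ˢ Ioi 0) :=
      hg.comp (continuous_fst.mul continuous_snd).continuousOn fun p hp =>
        mem_Ioi.2 (mul_pos (mem_Ioi.1 hp.1) (mem_Ioi.1 hp.2))
    have h2 : ContinuousOn (fun p : ℝ × ℝ => ((p.2 ^ (-(j : ℝ)) : ℝ) : ℂ)) (Ioi 0 ×ˢ Ioi 0) :=
      continuous_ofReal.comp_continuousOn
        (continuous_snd.continuousOn.rpow_const fun p hp => Or.inl (ne_of_gt hp.2))
    refine (h2.mul h1).congr fun p hp => ?_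
    have hp1 : 0 < p.1 := hp.1
    have hp2 : 0 < p.2 := hp.2
    simp only [Pi.mul_apply]
    rw [fkern_eq ν 0 j hp1 hp2, fkern_eq ν 0 j (mul_pos hp1 hp2) one_pos]
    simp
  · have hle : K i j ≤ ∑ i ∈ Finset.range 12, ∑ j ∈ Finset.range 9, K i j :=
      (Finset.single_le_sum (f := K i) (fun j _ => hK0 i j)
        (Finset.mem_range.2 (by omega))).trans
        (Finset.single_le_sum (f := fun i => ∑ j ∈ Finset.range 9, K i j)
          (fun i _ => Finset.sum_nonneg fun j _ => hK0 i j) (Finset.mem_range.2 (by omega)))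
    have hxy := mul_pos hx0 hy
    have h1 := hK i j hi hj _ hxy
    have ha : 0 < x ^ (-(i : ℝ)) := Real.rpow_pos_of_pos hx0 _
    have hb : 0 < y ^ (-(j : ℝ)) := Real.rpow_pos_of_pos hy _
    rw [fkern_eq ν i j hx0 hy, norm_mul, norm_mul, norm_real, norm_real, Real.norm_of_nonneg ha.le,
      Real.norm_of_nonneg hb.le]
    calc _ ≤ x ^ (-(i : ℝ)) * y ^ (-(j : ℝ)) *
          ((∑ i ∈ Finset.range 12, ∑ j ∈ Finset.range 9, K i j) * (x * y) ^ (-(1 / 3 : ℝ)) *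
            (1 + (x * y) ^ (1 / 3 : ℝ)) ^ (i + j)) :=
          mul_le_mul_of_nonneg_left (h1.trans (by gcongr)) (by positivity)
      _ = _ := by ring

end Pool.Agent.Bar58
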