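import Pool.Agent.Lib.MP_d79f69_nt.Bar.Basic

set_option autoImplicit false

namespace Pool.Agent.Bar58

open Complex MeasureTheory Set Filter Topology
open scoped ComplexConjugate

theorem fline_cpow_conj {t : ℝ} (ht : 0 < t) (z : ℂ) :
    conj ((t : ℂ) ^ z) = (t : ℂ) ^ (conj z) := by
  have h : (t : ℂ).arg ≠ Real.pi := by
    rw [arg_ofReal_of_nonneg ht.le]
    exact Real.pi_ne_zero.symm
  have := cpow_conj (t : ℂ) z h
  rw [this, conj_ofReal]

theorem fline_conj {u : ℝ → ℂ} {s : ℂ} (hu : MellinConvergent u (conj s)) :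
    MellinConvergent (fun r => conj (u r)) s ∧
      mellin (fun r => conj (u r)) s = conj (mellin u (conj s)) := by
  have e : ∀ t ∈ Ioi (0 : ℝ), (t : ℂ) ^ (s - 1) • conj (u t) =
      conj ((t : ℂ) ^ (conj s - 1) • u t) := by
    intro t ht
    rw [smul_eq_mul, smul_eq_mul, map_mul, fline_cpow_conj ht]
    simp
  constructor
  · have h1 : IntegrableOn (fun t : ℝ => conj ((t : ℂ) ^ (conj s - 1) • u t)) (Ioi 0) :=
      (conjCLE.integrable_comp_iff).mpr hu
    exact h1.congr_fun (fun t ht => (e t ht).symm) measurableSet_Ioi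
  · unfold mellin
    rw [← integral_conj]
    exact setIntegral_congr_fun measurableSet_Ioi e

theorem fline_flip {u : ℝ → ℂ} {s : ℂ} (hs : s.re = 1 / 2) (hu : MellinConvergent u s) :
    MellinConvergent (fun r => conj (u (1 / r)) / r) s ∧
      mellin (fun r => conj (u (1 / r)) / r) s = conj (mellin u s) := by
  have h1 : conj (-(s + -1)) = s := by
    apply Complex.ext
    · simp [hs]
      norm_num
    · simp
  obtain ⟨c1, c2⟩ := fline_conj (u := u) (s := -(s + -1)) (by rwa [h1])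
  rw [h1] at c2
  have e : ∀ t ∈ Ioi (0 : ℝ), conj (u (1 / t)) / t =
      (t : ℂ) ^ (-1 : ℂ) • conj (u (t ^ (-1 : ℝ))) := by
    intro t _
    rw [cpow_neg_one, Real.rpow_neg_one, smul_eq_mul, one_div, div_eq_inv_mul]
  constructor
  · have c3 : MellinConvergent (fun t : ℝ => (t : ℂ) ^ (-1 : ℂ) • conj (u (t ^ (-1 : ℝ)))) s := by
      rw [MellinConvergent.cpow_smul,
        MellinConvergent.comp_rpow (f := fun r => conj (u r)) (by norm_num)]
      convert c1 using 1
      push_cast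
      ring
    exact IntegrableOn.congr_fun c3 (fun t ht => by simp only [e t ht]) measurableSet_Ioi
  · have c3 : mellin (fun r : ℝ => conj (u (1 / r)) / r) s =
        mellin (fun t : ℝ => (t : ℂ) ^ (-1 : ℂ) • conj (u t⁻¹)) s := by
      refine setIntegral_congr_fun measurableSet_Ioi fun t ht => ?_
      simp only [e t ht, Real.rpow_neg_one]
    rw [c3, mellin_cpow_smul, mellin_comp_inv (fun r => conj (u r)), c2]

theorem stLine (hKern : StKern) (hTest : StTest) (hK2 : StK2) (hP2 : StP2) (hP4a : StP4a)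
    (hP4b : StP4b) (hSym : StSym) (h7n : St7n) (h7b : St7b) (h7c : St7c) : StLine := by
  intro ν β B A a hβ ha hfix
  obtain ⟨C, hk⟩ := hKern ν
  obtain ⟨hT, hTm, -⟩ := hTest ν
  obtain ⟨⟨A₁, hA₁⟩, -⟩ := hP2 ν β B hβ
  have c1 : Cls 4 (1 / 3) A₁ (aa ν β) := hA₁.mono (by norm_num) le_rfl
  obtain ⟨hd, hv, hsym⟩ := hP4a ν β B hβ
  obtain ⟨s1, s2⟩ := hSym _ hd hv hsym
  have key : ∀ r : ℝ, 0 < r → Th (a 0) (TT ν 0) r = mellinInv (2 / 3) (hh ν β) r +
      uu (a 0) (TT ν 0) r + conj (uu (a 0) (TT ν 0) (1 / r)) / r := by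
    intro r hr
    obtain ⟨i1, e1⟩ := h7n _ hT A a ha r hr
    obtain ⟨i2, -⟩ := h7n _ hT A₁ _ c1 r hr
    have e2 := h7b _ _ hk _ hT (fun x r hx hr => hK2 ν x r hx hr) A a ha r hr
    have e3 := hP4b ν β B hβ r hr
    have e4 : ∫ y in Ioi (0 : ℝ), KK (kk ν) (a 0) 0 y * TT ν 0 (r * y) =
        (∫ y in Ioi (0 : ℝ), a 0 y * TT ν 0 (r * y)) -
          ∫ y in Ioi (0 : ℝ), aa ν β 0 y * TT ν 0 (r * y) := by
      rw [← integral_sub i1 i2]
      refine setIntegral_congr_fun measurableSet_Ioi fun y hy => ?_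
      have := hfix y hy
      show KK (kk ν) (a 0) 0 y * TT ν 0 (r * y) =
        a 0 y * TT ν 0 (r * y) - aa ν β 0 y * TT ν 0 (r * y)
      linear_combination (-TT ν 0 (r * y)) * this
    rw [e1, ← e2, ← e3, e4]
    ring
  refine ⟨fun r hr => ?_, fun s hs => ?_⟩
  · have hr' : (r : ℂ) ≠ 0 := ofReal_ne_zero.mpr hr.ne'
    rw [key r hr, key (1 / r) (by positivity), s1 r hr, one_div_one_div]
    simp only [map_add, map_div₀, conj_conj, conj_ofReal]
    push_cast
    field_simp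
    ring
  · obtain ⟨m1, m2⟩ := s2 s hs
    obtain ⟨m3, m4⟩ := h7c _ hT A a ha s hs
    obtain ⟨m5, m6⟩ := fline_flip hs m3
    rw [(hTm s (by rw [hs]; norm_num)).2] at m4
    obtain ⟨m7, m8⟩ := hasMellin_add m1 m3
    obtain ⟨-, m9⟩ := hasMellin_add m7 m5
    rw [m8, m6, m2, m4] at m9
    rw [← m9]
    exact setIntegral_congr_fun measurableSet_Ioi fun t ht => by simp only [key t ht]

end Pool.Agent.Bar58
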