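import Pool.Agent.Lib.MP_d79f69_nt.Bar.Basic

set_option autoImplicit false

namespace Pool.Agent.Bar58

open Complex MeasureTheory Set Filter Topology
open scoped ComplexConjugate

theorem fmc_bound (i : ℕ) {a : ℝ} (ha : 0 < a) (b : ℝ) : ∃ K : ℝ, 0 ≤ K ∧ ∀ (s : ℂ) (t x : ℝ),
    |s.re| ≤ 20 → ‖s‖ ≤ 21 * (1 + |t|) → a ≤ x → x ≤ b → ‖mono i s x‖ ≤ K * (1 + |t|) ^ i := by
  refine ⟨(21 + i) ^ i * Real.exp ((|Real.log a| + |Real.log b|) * (20 + i)), by positivity, ?_⟩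
  intro s t x h1 h2 h3 h4
  have hx : 0 < x := ha.trans_le h3
  have hi : (0 : ℝ) ≤ i := Nat.cast_nonneg i
  have ht := abs_nonneg t
  have a1 : ‖ff i s‖ ≤ (21 + i) ^ i * (1 + |t|) ^ i := by
    rw [← mul_pow]
    refine (norm_ff_le i s).trans (pow_le_pow_left₀ (by positivity) ?_ i)
    nlinarith
  have a2 : |Real.log x| ≤ |Real.log a| + |Real.log b| := by
    have b1 := Real.log_le_log ha h3
    have b2 := Real.log_le_log hx h4
    have b3 := abs_nonneg (Real.log a)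
    have b4 := abs_nonneg (Real.log b)
    exact abs_le.2 ⟨by linarith [neg_abs_le (Real.log a)], by linarith [le_abs_self (Real.log b)]⟩
  have a3 : |-s.re - i| ≤ 20 + i := by
    have := abs_le.1 h1
    exact abs_le.2 ⟨by linarith [this.2], by linarith [this.1]⟩
  have a4 : x ^ (-s.re - i) ≤ Real.exp ((|Real.log a| + |Real.log b|) * (20 + i)) := by
    rw [Real.rpow_def_of_pos hx, Real.exp_le_exp]
    refine (le_abs_self _).trans ?_
    rw [abs_mul]
    exact mul_le_mul a2 a3 (abs_nonneg _) (by positivity)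
  rw [norm_mono i s hx, mul_right_comm]
  exact mul_le_mul a1 a4 (Real.rpow_nonneg hx.le _) (by positivity)

theorem fmc_cont {s : ℝ → ℂ} (hs : Continuous s) (j : ℕ) {y : ℝ} (hy : 0 < y) :
    Continuous fun t => mono j (s t) y :=
  ((differentiable_ff j).continuous.comp hs).mul
    ((hs.neg.sub continuous_const).const_cpow (Or.inl (ofReal_ne_zero.2 hy.ne')))

theorem fmc_dec {s φ : ℝ → ℂ} {m : ℕ} (hs : Continuous s) (h1 : ∀ t, |(s t).re| ≤ 20)
    (h2 : ∀ t, ‖s t‖ ≤ 21 * (1 + |t|)) (hφ : Dec m φ) {j : ℕ} (hj : j ≤ m) {y : ℝ} (hy : 0 < y) :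
    Dec (m - j) fun t => φ t * mono j (s t) y := by
  obtain ⟨K, hK0, hK⟩ := fmc_bound j hy y
  have hm : AEStronglyMeasurable (fun t => φ t * mono j (s t) y) volume :=
    hφ.1.mul (fmc_cont hs j hy).aestronglyMeasurable
  have hc : Continuous fun t : ℝ => (1 + |t|) ^ (m - j) := by fun_prop
  refine ⟨hm, (hφ.2.const_mul K).mono' (hc.aestronglyMeasurable.mul hm.norm)
    (Eventually.of_forall fun t => ?_)⟩
  have e : (1 + |t|) ^ m = (1 + |t|) ^ (m - j) * (1 + |t|) ^ j := by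
    rw [← pow_add, Nat.sub_add_cancel hj]
  rw [Real.norm_of_nonneg (by positivity), norm_mul, e]
  calc (1 + |t|) ^ (m - j) * (‖φ t‖ * ‖mono j (s t) y‖)
      ≤ (1 + |t|) ^ (m - j) * (‖φ t‖ * (K * (1 + |t|) ^ j)) := by
        gcongr
        exact hK _ t y (h1 t) (h2 t) le_rfl le_rfl
    _ = _ := by ring

theorem stMC : StMC := by
  intro s φ m hs h1 h2 hφ
  refine ⟨fun i hi x hx => ?_, fun j hj y hy => fmc_dec hs h1 h2 hφ hj hy⟩
  obtain ⟨K, hK0, hK⟩ := fmc_bound (i + 1) (half_pos hx) (2 * x)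
  have hb : Ioo (x / 2) (2 * x) ∈ 𝓝 x := Ioo_mem_nhds (by linarith) (by linarith)
  refine (hasDerivAt_integral_of_dominated_loc_of_deriv_le (μ := volume)
    (F := fun x t => φ t * mono i (s t) x) (F' := fun x t => φ t * mono (i + 1) (s t) x)
    (bound := fun t => K * ((1 + |t|) ^ (i + 1) * ‖φ t‖)) hb ?_
    (fmc_dec hs h1 h2 hφ hi.le hx).integrable (fmc_dec hs h1 h2 hφ hi hx).1
    (Eventually.of_forall fun t y hy => ?_) ((hφ.mono hi).2.const_mul K)
    (Eventually.of_forall fun t y hy => ?_)).2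
  · filter_upwards [Ioi_mem_nhds hx] with y hy
    exact (fmc_dec hs h1 h2 hφ hi.le hy).1
  · rw [norm_mul]
    calc ‖φ t‖ * ‖mono (i + 1) (s t) y‖ ≤ ‖φ t‖ * (K * (1 + |t|) ^ (i + 1)) := by
          gcongr
          exact hK _ t y (h1 t) (h2 t) hy.1.le hy.2.le
      _ = _ := by ring
  · exact (mono_chain (i + 1) (s t) i (Nat.lt_succ_self i) y
      ((half_pos hx).trans hy.1)).const_mul (φ t)

end Pool.Agent.Bar58
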