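import Pool.Agent.Lib.MP_d79f69_nt.Bar.Basic

set_option autoImplicit false

namespace Pool.Agent.Bar58

open Complex MeasureTheory Set Filter Topology
open scoped ComplexConjugate

open scoped FourierTransform in
theorem stMI (hShift : StShift) : StMI := by
  intro h a σ b B ha haσ hσb hbB hd hV s hs
  obtain ⟨C, C0, hC⟩ := hV
  have hc : Continuous fun t : ℝ => h (σ + t * I) := by
    refine hd.continuousOn.comp_continuous (by fun_prop) fun t => ?_
    simp only [Strip, mem_ofPred_eq, add_re, ofReal_re, mul_re, I_re, mul_zero, ofReal_im, I_im,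
      mul_one, sub_self, add_zero]
    constructor <;> linarith
  have hσ := fun t => hC σ t haσ.le hσb.le
  have b1 : ∀ r : ℝ, 0 < r → ‖mellinInv σ h r‖ ≤ C * r ^ (-a) := fun r hr => by
    rw [← hShift h a σ B ha haσ.le (hσb.trans hbB) hd
      ⟨C, C0, fun x t h1 h2 => hC x t h1 (h2.trans hσb.le)⟩ r hr]
    exact norm_mellinInv_le (fun t => hC a t le_rfl (haσ.le.trans hσb.le)) hr
  have b2 : ∀ r : ℝ, 0 < r → ‖mellinInv σ h r‖ ≤ C * r ^ (-b) := fun r hr => by
    rw [hShift h σ b B (ha.trans haσ) hσb.le hbB hd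
      ⟨C, C0, fun x t h1 h2 => hC x t (haσ.le.trans h1) h2⟩ r hr]
    exact norm_mellinInv_le (fun t => hC b t (haσ.le.trans hσb.le) le_rfl) hr
  have fc := continuousOn_mellinInv hc hσ
  have nb : ∀ (e r : ℝ), 0 < r → ‖mellinInv σ h r‖ ≤ C * r ^ (-e) →
      ‖(r : ℂ) ^ (s - 1) • mellinInv σ h r‖ ≤ C * r ^ (σ - 1 - e) := by
    intro e r hr h1
    rw [norm_smul, Complex.norm_cpow_eq_rpow_re_of_pos hr, sub_re, hs, one_re,
      show σ - 1 - e = (σ - 1) + -e by ring, Real.rpow_add hr, mul_left_comm]
    exact mul_le_mul_of_nonneg_left h1 (by positivity)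
  refine ⟨?_, ?_⟩
  · refine integrableOn_two_rpow (C := C) (a := σ - 1 - a) (b := σ - 1 - b) ?_ (by linarith)
      (by linarith) (fun x hx _ => nb a x hx (b1 x hx))
      fun x hx => nb b x (by linarith) (b2 x (by linarith))
    refine ContinuousOn.fun_smul (f := fun x : ℝ => (x : ℂ) ^ (s - 1)) (fun x hx => ?_) fc
    exact (Complex.continuousAt_ofReal_cpow_const x (s - 1)
      (Or.inr (ne_of_gt hx))).continuousWithinAt
  let g : ℝ → ℂ := fun y => h (σ + 2 * Real.pi * y * I)
  have p0 : 2 * Real.pi ≠ 0 := by simp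
  have ge : g = fun y => (fun t : ℝ => h (σ + t * I)) (2 * Real.pi * y) := by
    ext y
    simp only [g]
    push_cast
    rfl
  have gc : Continuous g := by
    rw [ge]
    exact hc.comp (by fun_prop)
  have gi : Integrable g := by
    rw [ge]
    exact ((integrable_exp_abs.const_mul C).mono' hc.aestronglyMeasurable
      (Eventually.of_forall hσ)).comp_mul_left' p0
  let F : ℝ → ℂ := fun u => Real.exp (-σ * u) • mellinInv σ h (Real.exp (-u))
  have Fe : F = 𝓕⁻ g := by
    ext u
    simp only [F]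
    rw [mellinInv_eq_fourierInv σ h (Real.exp_pos _), Real.log_exp, neg_neg,
      cpow_def_of_ne_zero (ofReal_ne_zero.2 (Real.exp_pos _).ne'),
      ← Complex.ofReal_log (Real.exp_pos _).le, Real.log_exp, real_smul, smul_eq_mul, ← mul_assoc,
      ofReal_exp, ← Complex.exp_add]
    rw [show ((-σ * u : ℝ) : ℂ) + ((-u : ℝ) : ℂ) * -(σ : ℂ) = 0 by push_cast; ring,
      Complex.exp_zero, one_mul]
  have Fi : Integrable F := by
    have c0 : 0 < min (σ - a) (b - σ) := lt_min (by linarith) (by linarith)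
    refine ((integrable_exp_abs.comp_mul_left' c0.ne').const_mul C).mono' ?_
      (Eventually.of_forall fun u => ?_)
    · refine Continuous.aestronglyMeasurable
        (Continuous.fun_smul (f := fun u : ℝ => Real.exp (-σ * u)) (by fun_prop) ?_)
      exact fc.comp_continuous (by fun_prop) fun u => Real.exp_pos _
    have key : ∀ e : ℝ, ‖mellinInv σ h (Real.exp (-u))‖ ≤ C * Real.exp (-u) ^ (-e) →
        (e - σ) * u ≤ -|min (σ - a) (b - σ) * u| →
        ‖F u‖ ≤ C * Real.exp (-|min (σ - a) (b - σ) * u|) := by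
      intro e h1 h2
      simp only [F]
      rw [norm_smul, Real.norm_of_nonneg (Real.exp_pos _).le]
      rw [← Real.exp_mul] at h1
      refine (mul_le_mul_of_nonneg_left h1 (Real.exp_pos _).le).trans ?_
      rw [mul_left_comm, ← Real.exp_add]
      gcongr
      linarith
    have m1 := min_le_left (σ - a) (b - σ)
    have m2 := min_le_right (σ - a) (b - σ)
    rcases le_total 0 u with hu | hu
    · refine key a (b1 _ (Real.exp_pos _)) ?_
      rw [abs_of_nonneg (by positivity)]
      nlinarith
    · refine key b (b2 _ (Real.exp_pos _)) ?_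
      rw [abs_of_nonpos (mul_nonpos_of_nonneg_of_nonpos c0.le hu)]
      nlinarith
  have Gi : Integrable (𝓕 g) := by
    have : 𝓕 g = fun v => F (-v) := by
      ext v
      rw [Fe, Real.fourierInv_eq_fourier_neg, neg_neg]
    rw [this]
    exact Fi.comp_neg
  rw [mellin_eq_fourier, hs]
  change 𝓕 F _ = _
  rw [Fe, gc.fourier_fourierInv_eq gi Gi]
  simp only [g]
  congr 1
  have : (Real.pi : ℂ) ≠ 0 := by simp
  conv_rhs => rw [← re_add_im s, hs]
  push_cast
  field_simp

end Pool.Agent.Bar58
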