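import Pool.Agent.Lib.MP_d79f69_nt.Bar.Basic

set_option autoImplicit false

namespace Pool.Agent.Bar58

open Complex MeasureTheory Set Filter Topology
open scoped ComplexConjugate

theorem fmain_finite {L : ℂ → ℂ} (hL : Differentiable ℂ L) {T : ℝ}
    (h : ∀ t : ℝ, T ≤ |t| → L (1 / 2 + t * I) ≠ 0) :
    {t : ℝ | L (1 / 2 + t * I) = 0}.Finite := by
  by_contra hinf
  have hsub : {t : ℝ | L (1 / 2 + t * I) = 0} ⊆ Icc (-T) T := by
    intro t ht
    have : |t| ≤ T := by
      by_contra h'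
      exact h t (le_of_lt (not_le.mp h')) ht
    exact abs_le.mp this
  obtain ⟨t₀, -, ht₀⟩ := Set.Infinite.exists_accPt_of_subset_isCompact hinf isCompact_Icc hsub
  have han : AnalyticOnNhd ℂ L univ := hL.differentiableOn.analyticOnNhd isOpen_univ
  have hc : Continuous fun t : ℝ => (1 / 2 : ℂ) + t * I := by fun_prop
  have htend : Tendsto (fun t : ℝ => (1 / 2 : ℂ) + t * I) (𝓝[≠] t₀) (𝓝[≠] (1 / 2 + t₀ * I)) := by
    refine tendsto_nhdsWithin_iff.mpr ⟨(hc.tendsto t₀).mono_left nhdsWithin_le_nhds, ?_⟩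
    filter_upwards [self_mem_nhdsWithin] with t ht h'
    apply ht
    have := congrArg Complex.im (mem_singleton_iff.mp h')
    simpa using this
  have hfr : ∃ᶠ z in 𝓝[≠] ((1 / 2 : ℂ) + t₀ * I), L z = 0 :=
    htend.frequently (accPt_iff_frequently_nhdsNE.mp ht₀)
  have hz := han.eqOn_zero_of_preconnected_of_frequently_eq_zero isPreconnected_univ
    (mem_univ _) hfr
  exact h |T| (by rw [abs_abs]; exact le_abs_self T) (hz (mem_univ _))

theorem stMain (hGD : StGD) (hGL : StGL) (hTest : StTest) (hFix : StFix) (hLine : StLine)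
    (h7d : St7d) (h8 : St8) (h9 : St9) (hCmp : StCmp) : StMain := by
  intro ν
  obtain ⟨β, B, δ, A, j₀, r, a, hβ, hδ, hj, ha, hfix⟩ := hFix ν
  obtain ⟨hsym, hline⟩ := hLine ν β B A a hβ ha hfix
  obtain ⟨hT, hTm, -⟩ := hTest ν
  obtain ⟨-, -, gc, -, -, gne, gd⟩ := hGD ν
  have hA := ha.nonneg
  obtain ⟨d1, d2, d3, d4⟩ := h7d _ hT (a 0) A
    (fun n => ha.top0 (by linarith [Nat.cast_nonneg (α := ℝ) n])) hsym
  set Λ := mellin (Th (a 0) (TT ν 0)) with hΛ
  have hLd : Differentiable ℂ fun s => Λ s / gam ν s := by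
    simp_rw [div_eq_mul_inv]
    exact d1.mul gd
  refine ⟨fun n => a 0 n, fun s => Λ s / gam ν s, Λ, fun ε hε => ?_, fun s hs => ?_, hLd, d1,
    fun s => rfl, d3, d2, ?_⟩
  · obtain ⟨C, -, hC⟩ := W_le_rpow hε
    refine ⟨A * C, fun n hn => ?_⟩
    have h1 : (1 : ℝ) ≤ n := by exact_mod_cast hn
    calc ‖a 0 n‖ ≤ A * W n := ha.top0 h1
      _ ≤ A * (C * (n : ℝ) ^ ε) := mul_le_mul_of_nonneg_left (hC _ h1) hA
      _ = A * C * (n : ℝ) ^ ε := by ring
  · have hg : gam ν s ≠ 0 := gne s (by linarith)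
    have h1 := (d4 s hs).div_const (gam ν s)
    rw [(hTm s (by linarith)).2] at h1
    unfold LSeriesHasSum
    rw [← hasSum_nat_add_iff' 1]
    simp only [Finset.range_one, Finset.sum_singleton, LSeries.term_zero, sub_zero]
    have e : (fun n : ℕ => LSeries.term (fun n : ℕ => a 0 n) s (n + 1)) = fun n : ℕ =>
        gam ν s * (a 0 (n + 1) * (((n : ℝ) + 1 : ℝ) : ℂ) ^ (-s)) / gam ν s := by
      funext n
      rw [LSeries.term_of_ne_zero (Nat.succ_ne_zero n), cpow_neg]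
      push_cast
      field_simp
    rw [e]
    exact h1
  · obtain ⟨c₁, T₁, hc₁, hl⟩ := hGL ν
    obtain ⟨C, -, hR⟩ := h8 A a ha
    obtain ⟨c₂, T₂, hc₂, he⟩ := h9 β B δ j₀ r hβ hδ hj
    obtain ⟨T₃, hcmp⟩ := hCmp (2 * C) (c₁ * c₂) r (mul_pos hc₁ hc₂)
    refine fmain_finite hLd (T := max (max T₁ T₂) (max T₃ 3)) fun t ht => ?_
    have t1 : T₁ ≤ |t| := ((le_max_left _ _).trans (le_max_left _ _)).trans ht
    have t2 : T₂ ≤ |t| := ((le_max_right _ _).trans (le_max_left _ _)).trans ht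
    have t3 : T₃ ≤ |t| := ((le_max_left _ _).trans (le_max_right _ _)).trans ht
    have t4 : 3 ≤ |t| := ((le_max_right _ _).trans (le_max_right _ _)).trans ht
    set s : ℂ := 1 / 2 + t * I with hs
    have hre : s.re = 1 / 2 := by simp [hs]
    have hg : gam ν s ≠ 0 := gne s (by rw [hre]; norm_num)
    refine div_ne_zero (fun h0 => ?_) hg
    rw [hline s hre] at h0
    have hcs : 1 - s = conj s := by
      apply Complex.ext
      · simp [hre]
        norm_num
      · simp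
    have hG : 0 < ‖gam ν s‖ := norm_pos_iff.mpr hg
    have n1 : ‖hh ν β s‖ = ‖gam ν s‖ * (‖gam ν s‖ * ‖etaS β s‖) := by
      unfold hh
      rw [hcs, ← gc, norm_mul, norm_mul, norm_conj, mul_assoc]
    have n2 : ‖hh ν β s‖ ≤ ‖gam ν s‖ * (2 * ‖RR (a 0) s‖) := by
      have : hh ν β s = -(gam ν s * RR (a 0) s + conj (gam ν s * RR (a 0) s)) := by
        linear_combination h0
      rw [this, norm_neg]
      refine (norm_add_le _ _).trans (le_of_eq ?_)
      rw [norm_conj, norm_mul]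
      ring
    have n3 : ‖gam ν s‖ * ‖etaS β s‖ ≤ 2 * ‖RR (a 0) s‖ := by
      rw [n1] at n2
      exact le_of_mul_le_mul_left n2 hG
    have hu : 0 < |t| := by linarith
    have hlog : 0 < 2 + Real.log |t| := by
      have := Real.log_nonneg (show 1 ≤ |t| by linarith)
      linarith
    have n4 := mul_le_mul (hl t t1) (he t t2) (by positivity) hG.le
    have e1 : |t| ^ (-(3 / 4 : ℝ)) * |t| = |t| ^ (1 / 4 : ℝ) := by
      rw [← Real.rpow_add_one hu.ne']
      norm_num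
    have e2 : Real.exp (-(3 * Real.pi * |t| / 4)) * Real.exp (3 * Real.pi * |t| / 4) = 1 := by
      rw [← Real.exp_add]
      simp
    have e3 : c₁ * |t| ^ (-(3 / 4 : ℝ)) * Real.exp (-(3 * Real.pi * |t| / 4)) *
        (c₂ * |t| * Real.exp (3 * Real.pi * |t| / 4) * Real.exp √(Real.log |t|) /
          (2 + Real.log |t|) ^ r) = |t| ^ (1 / 4 : ℝ) *
        (c₁ * c₂ * (Real.exp √(Real.log |t|) / (2 + Real.log |t|) ^ r)) := by
      rw [← e1]
      linear_combination (c₁ * c₂ * |t| ^ (-(3 / 4 : ℝ)) * |t| * Real.exp √(Real.log |t|) /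
        (2 + Real.log |t|) ^ r) * e2
    have n5 := mul_lt_mul_of_pos_left (hcmp _ t3) (Real.rpow_pos_of_pos hu (1 / 4 : ℝ))
    have n6 := hR t t4
    rw [e3] at n4
    nlinarith [n3, n4, n5, n6]

end Pool.Agent.Bar58
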