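import Pool.Agent.Lib.MP_d79f69_nt.Bar.Basic

set_option autoImplicit false

namespace Pool.Agent.Bar58

open Complex MeasureTheory Set Filter Topology
open scoped ComplexConjugate

theorem fnet_ends (A : ℝ) : ∃ d Y0 : ℝ, 0 < d ∧ d ≤ 1 ∧ 1 ≤ Y0 ∧ ∀ g, Out A g → ∀ i ≤ 7,
    ∀ y : ℝ, 0 < y → (y ≤ d ∨ Y0 ≤ y) → ‖g i y‖ ≤ wt i y / 4 := by
  have hB : 0 ≤ |A| := abs_nonneg A
  set c : ℝ := (4 * (|A| + 1))⁻¹ with hc
  have hc0 : 0 < c := by positivity
  have hAc : |A| * c ≤ 1 / 4 := by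
    rw [hc, ← div_eq_mul_inv, div_le_div_iff₀ (by positivity) (by norm_num)]
    linarith
  obtain ⟨Y1, hY1⟩ := eventually_atTop.1 (W_sqrt_tendsto.eventually (eventually_le_nhds hc0))
  refine ⟨min 1 (c ^ 15), max 1 Y1, lt_min one_pos (by positivity), min_le_left _ _,
    le_max_left _ _, fun g hg i hi y hy hcase => ?_⟩
  have hW := W_pos y
  have e1 : 0 < y ^ (-(i / 2 : ℝ)) := Real.rpow_pos_of_pos hy _
  have e2 : 0 < y ^ (-(2 / 5 : ℝ) - i) := Real.rpow_pos_of_pos hy _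
  rcases hcase with h | h
  · have h1 := hg.bot i (by omega) y hy (h.trans (min_le_left _ _))
    have h2 : y ^ (-(1 / 3 : ℝ) - i) = y ^ (1 / 15 : ℝ) * y ^ (-(2 / 5 : ℝ) - i) := by
      rw [← Real.rpow_add hy]
      congr 1
      ring
    have h3 : y ^ (1 / 15 : ℝ) ≤ c := by
      have h4 : y ^ (1 / 15 : ℝ) ≤ (c ^ 15) ^ (1 / 15 : ℝ) :=
        Real.rpow_le_rpow hy.le (h.trans (min_le_right _ _)) (by norm_num)
      have h5 : (c ^ 15) ^ (1 / 15 : ℝ) = c := by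
        rw [← Real.rpow_natCast, ← Real.rpow_mul hc0.le]
        norm_num
      rwa [h5] at h4
    have h6 : 0 < y ^ (1 / 15 : ℝ) := Real.rpow_pos_of_pos hy _
    have h7 : A * y ^ (1 / 15 : ℝ) ≤ 1 / 4 :=
      ((mul_le_mul_of_nonneg_right (le_abs_self A) h6.le).trans
        (mul_le_mul_of_nonneg_left h3 hB)).trans hAc
    rw [h2, ← mul_assoc] at h1
    have h8 := mul_le_mul_of_nonneg_right h7 e2.le
    have h9 := mul_pos hW e1
    unfold wt
    linarith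
  · have h1 := hg.top i (by omega) y ((le_max_left _ _).trans h)
    have h2 : W √y ≤ c * W y := by
      have h3 := hY1 y ((le_max_right _ _).trans h)
      rwa [div_le_iff₀ hW] at h3
    have h3 : A * W √y ≤ 1 / 4 * W y := by
      calc A * W √y ≤ |A| * W √y := mul_le_mul_of_nonneg_right (le_abs_self A) (W_pos _).le
        _ ≤ |A| * (c * W y) := mul_le_mul_of_nonneg_left h2 hB
        _ = |A| * c * W y := by ring
        _ ≤ 1 / 4 * W y := mul_le_mul_of_nonneg_right hAc hW.le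
    have h8 := mul_le_mul_of_nonneg_right h3 e1.le
    unfold wt
    linarith

theorem fnet_mid (A : ℝ) {d Y0 : ℝ} (hd : 0 < d) (hY : 1 ≤ Y0) : ∃ L : ℝ, 0 < L ∧
    ∀ g, Out A g → ∀ j ≤ 8, ∀ y ∈ Icc d Y0, ‖g j y‖ ≤ L := by
  have hB : 0 ≤ |A| := abs_nonneg A
  have e1 : 0 < d ^ (-9 : ℝ) := Real.rpow_pos_of_pos hd _
  have e2 := W_pos √Y0
  refine ⟨|A| * (d ^ (-9 : ℝ) + W √Y0) + 1, by positivity, fun g hg j hj y hy => ?_⟩
  have hy0 : 0 < y := hd.trans_le hy.1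
  have hj' : (j : ℝ) ≤ 8 := by exact_mod_cast hj
  have hj0 : (0 : ℝ) ≤ j := Nat.cast_nonneg j
  rcases le_total y 1 with h | h
  · have h1 := hg.bot j hj y hy0 h
    have h2 : y ^ (-(1 / 3 : ℝ) - j) ≤ d ^ (-9 : ℝ) :=
      (Real.rpow_le_rpow_of_exponent_ge hy0 h (by linarith)).trans
        (Real.rpow_le_rpow_of_nonpos hd hy.1 (by norm_num))
    have h3 : A * y ^ (-(1 / 3 : ℝ) - j) ≤ |A| * d ^ (-9 : ℝ) :=
      (mul_le_mul_of_nonneg_right (le_abs_self A) (Real.rpow_pos_of_pos hy0 _).le).trans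
        (mul_le_mul_of_nonneg_left h2 hB)
    have h4 := mul_nonneg hB e2.le
    linarith [mul_add |A| (d ^ (-9 : ℝ)) (W √Y0)]
  · have h1 := hg.top j hj y h
    have h2 : y ^ (-(j / 2 : ℝ)) ≤ 1 := Real.rpow_le_one_of_one_le_of_nonpos h (by linarith)
    have h3 : W √y ≤ W √Y0 := W_mono (Real.sqrt_nonneg _) (Real.sqrt_le_sqrt hy.2)
    have h5 : A * W √y ≤ |A| * W √Y0 :=
      (mul_le_mul_of_nonneg_right (le_abs_self A) (W_pos _).le).trans
        (mul_le_mul_of_nonneg_left h3 hB)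
    have h6 : A * W √y * y ^ (-(j / 2 : ℝ)) ≤ |A| * W √Y0 * 1 :=
      (mul_le_mul_of_nonneg_right h5 (Real.rpow_pos_of_pos hy0 _).le).trans
        (mul_le_mul_of_nonneg_left h2 (mul_nonneg hB e2.le))
    have h4 := mul_nonneg hB e1.le
    linarith [mul_add |A| (d ^ (-9 : ℝ)) (W √Y0)]

theorem fnet_wt {Y0 y : ℝ} (hY : 1 ≤ Y0) (hy : 0 < y) (h : y ≤ Y0) {i : ℕ} (hi : i ≤ 7) :
    Y0 ^ (-4 : ℝ) ≤ wt i y := by
  have hi' : (i : ℝ) ≤ 7 := by exact_mod_cast hi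
  have hi0 : (0 : ℝ) ≤ i := Nat.cast_nonneg i
  have h1 : Y0 ^ (-4 : ℝ) ≤ y ^ (-(i / 2 : ℝ)) :=
    (Real.rpow_le_rpow_of_exponent_le hY (by linarith)).trans
      (Real.rpow_le_rpow_of_nonpos hy h (by linarith))
  have e1 : 0 < y ^ (-(i / 2 : ℝ)) := Real.rpow_pos_of_pos hy _
  have e2 : 0 < y ^ (-(2 / 5 : ℝ) - i) := Real.rpow_pos_of_pos hy _
  have h2 := mul_le_mul_of_nonneg_right (one_le_W y) e1.le
  unfold wt
  linarith

theorem stNet : StNet := by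
  intro E _ _ ι hι A
  obtain ⟨d, Y0, hd, -, hY, hends⟩ := fnet_ends A
  obtain ⟨L, hL, hmid⟩ := fnet_mid A hd hY
  set w0 : ℝ := Y0 ^ (-4 : ℝ) with hw0
  have hw : 0 < w0 := Real.rpow_pos_of_pos (by linarith) _
  obtain ⟨t, ht, hfin, hcov⟩ := finite_cover_balls_of_compact (isCompact_Icc (a := d) (b := Y0))
    (e := w0 / (8 * L)) (by positivity)
  haveI : Fintype t := hfin.fintype
  let S : Set E := {b | ∃ g, Out A g ∧ ∀ i ≤ 7, ∀ y : ℝ, 0 < y → ι b i y = g i y}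
  let Φ : E → (Fin 8 × t → ℂ) := fun b p => ι b p.1 p.2
  have hsub : Φ '' S ⊆ Metric.closedBall 0 L := by
    rintro _ ⟨b, ⟨g, hg, hb⟩, rfl⟩
    rw [mem_closedBall_zero_iff, pi_norm_le_iff_of_nonneg hL.le]
    rintro ⟨i, q⟩
    have h1 := ht q.2
    have h2 : Φ b (i, q) = g i q := hb i (by omega) q (hd.trans_le h1.1)
    rw [h2]
    exact hmid g hg i (by omega) q h1
  have htb : TotallyBounded (Φ '' S) :=
    (isCompact_closedBall (0 : Fin 8 × t → ℂ) L).totallyBounded.subset hsub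
  obtain ⟨T, hT, hTf, hTc⟩ := Metric.finite_approx_of_totallyBounded htb (w0 / 8) (by positivity)
  obtain ⟨T', hT', hT'f, hT'e⟩ := hTf.exists_subset_finite_image_eq hT
  refine ⟨hT'f.toFinset, fun b hb => ?_⟩
  obtain ⟨c, hc, hbc⟩ := mem_iUnion₂.1 (hTc ⟨b, hb, rfl⟩)
  rw [← hT'e] at hc
  obtain ⟨z, hz, rfl⟩ := hc
  refine ⟨z, hT'f.mem_toFinset.2 hz, hι.le _ _ (by norm_num) fun i hi y hy => ?_⟩
  obtain ⟨g, hg, hbg⟩ := hb
  obtain ⟨g', hg', hzg⟩ := hT' hz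
  have h0 : ι (b - z) i y = g i y - g' i y := by
    rw [map_sub, Pi.sub_apply, Pi.sub_apply, hbg i hi y hy, hzg i hi y hy]
  rw [h0]
  by_cases hcase : y ≤ d ∨ Y0 ≤ y
  · have h1 := hends g hg i hi y hy hcase
    have h2 := hends g' hg' i hi y hy hcase
    linarith [norm_sub_le (g i y) (g' i y)]
  · push Not at hcase
    have hyI : y ∈ Icc d Y0 := ⟨hcase.1.le, hcase.2.le⟩
    obtain ⟨q, hq, hyq⟩ := mem_iUnion₂.1 (hcov hyI)
    have hqI := ht hq
    have hq0 : 0 < q := hd.trans_le hqI.1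
    have hmv : ∀ f, Out A f → ‖f i y - f i q‖ ≤ w0 / 8 := fun f hf => by
      have h1 := (convex_Icc d Y0).norm_image_sub_le_of_norm_hasDerivWithin_le (f := f i)
        (f' := f (i + 1)) (C := L)
        (fun x hx => (hf.ch i (by omega) x (hd.trans_le hx.1)).hasDerivWithinAt)
        (fun x hx => hmid f hf (i + 1) (by omega) x hx) hqI hyI
      have h2 : ‖y - q‖ ≤ w0 / (8 * L) := by
        rw [← dist_eq_norm]
        exact (Metric.mem_ball.1 hyq).le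
      refine h1.trans ((mul_le_mul_of_nonneg_left h2 hL.le).trans (le_of_eq ?_))
      field_simp
    have h3 : ‖g i q - g' i q‖ ≤ w0 / 8 := by
      have h4 := (dist_le_pi_dist (Φ b) (Φ z) (⟨i, by omega⟩, ⟨q, hq⟩)).trans
        (Metric.mem_ball.1 hbc).le
      rw [dist_eq_norm] at h4
      have h5 : Φ b (⟨i, by omega⟩, ⟨q, hq⟩) = g i q := hbg i hi q hq0
      have h6 : Φ z (⟨i, by omega⟩, ⟨q, hq⟩) = g' i q := hzg i hi q hq0
      rwa [h5, h6] at h4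
    have h7 : g i y - g' i y = (g i y - g i q) + (g i q - g' i q) - (g' i y - g' i q) := by ring
    have h8 := norm_sub_le ((g i y - g i q) + (g i q - g' i q)) (g' i y - g' i q)
    have h9 := norm_add_le (g i y - g i q) (g i q - g' i q)
    have h10 := fnet_wt hY hy hyI.2 hi
    rw [h7]
    linarith [hmv g hg, hmv g' hg']

end Pool.Agent.Bar58
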