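import Pool.Agent.Lib.MP_d79f69_nt.Bar.Basic

set_option autoImplicit false

namespace Pool.Agent.Bar58

open Complex MeasureTheory Set Filter Topology
open scoped ComplexConjugate

theorem fopb1_sq {r : ℝ} (hr : 0 < r) (e : ℝ) : (r ^ 2) ^ e = r ^ (2 * e) := by
  rw [Real.rpow_mul hr.le]
  norm_num

theorem fopb1_Q {r : ℝ} (hr : 0 < r) (j : ℕ) :
    (r ^ 2) ^ (-(j : ℝ)) * r ^ j = (r ^ 2) ^ (-(j / 2 : ℝ)) := by
  rw [fopb1_sq hr, fopb1_sq hr, ← Real.rpow_natCast, ← Real.rpow_add hr]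
  congr 1
  ring

theorem fopb1_cube {r : ℝ} (hr : 0 < r) (e : ℝ) : (r ^ 3) ^ e = r ^ (3 * e) := by
  rw [Real.rpow_mul hr.le]
  norm_num

theorem fopb1_ker {k : ℕ → ℕ → ℝ → ℝ → ℂ} {C : ℝ} (hk : Kern k C) {j : ℕ} (hj : j ≤ 8) {r x : ℝ}
    (hr : 1 ≤ r) (hx : 0 < x) (hxr : x ≤ 13 * r) :
    ‖k 0 j x (r ^ 2)‖ ≤ C * 4 ^ 8 * (r ^ 2) ^ (-(j / 2 : ℝ)) *
      (x ^ (-(1 / 3 : ℝ)) * r ^ (-(2 / 3 : ℝ))) := by
  have hr0 : 0 < r := by linarith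
  have hC := hk.nonneg
  have h0 := hk.bd 0 (by norm_num) j hj x hx (r ^ 2) (by positivity)
  simp only [Nat.cast_zero, neg_zero, Real.rpow_zero, mul_one, zero_add] at h0
  have h1 : (x * r ^ 2) ^ (1 / 3 : ℝ) ≤ 3 * r := by
    calc (x * r ^ 2) ^ (1 / 3 : ℝ) ≤ ((3 * r) ^ 3) ^ (1 / 3 : ℝ) := by
          refine Real.rpow_le_rpow (by positivity) ?_ (by norm_num)
          nlinarith [mul_le_mul_of_nonneg_right hxr (sq_nonneg r), pow_pos hr0 3]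
      _ = 3 * r := by
          rw [fopb1_cube (by positivity)]
          norm_num
  have h2 : (x * r ^ 2) ^ (-(1 / 3 : ℝ)) = x ^ (-(1 / 3 : ℝ)) * r ^ (-(2 / 3 : ℝ)) := by
    rw [Real.mul_rpow hx.le (by positivity), fopb1_sq hr0]
    norm_num
  have h3 : (1 + (x * r ^ 2) ^ (1 / 3 : ℝ)) ^ j ≤ 4 ^ 8 * r ^ j := by
    calc (1 + (x * r ^ 2) ^ (1 / 3 : ℝ)) ^ j ≤ (4 * r) ^ j := by
          refine pow_le_pow_left₀ (by positivity) (by linarith) j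
      _ = 4 ^ j * r ^ j := mul_pow _ _ _
      _ ≤ 4 ^ 8 * r ^ j := by
          gcongr
          norm_num
  rw [← fopb1_Q hr0, ← h2]
  refine h0.trans ?_
  calc C * (r ^ 2) ^ (-(j : ℝ)) * (x * r ^ 2) ^ (-(1 / 3 : ℝ)) *
        (1 + (x * r ^ 2) ^ (1 / 3 : ℝ)) ^ j
      ≤ C * (r ^ 2) ^ (-(j : ℝ)) * (x * r ^ 2) ^ (-(1 / 3 : ℝ)) * (4 ^ 8 * r ^ j) := by gcongr
    _ = _ := by ring

theorem fopb1_tail {j J : ℕ} (hj : j ≤ 8) (hJ : J ≤ 11) {θ l r : ℝ} (hθ : 0 < θ)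
    (hθ' : θ ≤ 2 / 3) (hl : 1 ≤ l) (hr : 1 ≤ r) :
    (r ^ 2) ^ (-(j : ℝ)) * (l * r * r ^ 2) ^ (-(1 / 3 : ℝ)) *
        (1 + (l * r * r ^ 2) ^ (1 / 3 : ℝ)) ^ j *
        ((l * r) ^ (-θ) + (r ^ 2) ^ (1 / 3 : ℝ) * (l * r) ^ (-(2 / 3 : ℝ))) ^ J ≤
      2 ^ 19 * (r ^ 2) ^ (-(j / 2 : ℝ)) * r⁻¹ * l ^ (7 / 3 - θ * J) := by
  have hr0 : 0 < r := by linarith
  have hl0 : 0 < l := by linarith
  have e0 : l * r * r ^ 2 = l * r ^ 3 := by ring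
  have h1 : (l * r * r ^ 2) ^ (-(1 / 3 : ℝ)) = l ^ (-(1 / 3 : ℝ)) * r⁻¹ := by
    rw [e0, Real.mul_rpow hl0.le (by positivity), fopb1_cube hr0, ← Real.rpow_neg_one]
    norm_num
  have h2 : (l * r * r ^ 2) ^ (1 / 3 : ℝ) = l ^ (1 / 3 : ℝ) * r := by
    rw [e0, Real.mul_rpow hl0.le (by positivity), fopb1_cube hr0]
    norm_num
  have h3 : 1 ≤ l ^ (1 / 3 : ℝ) := Real.one_le_rpow hl (by norm_num)
  have h4 : (1 + l ^ (1 / 3 : ℝ) * r) ^ j ≤ 2 ^ 8 * l ^ (8 / 3 : ℝ) * r ^ j := by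
    calc (1 + l ^ (1 / 3 : ℝ) * r) ^ j ≤ (2 * l ^ (1 / 3 : ℝ) * r) ^ j := by
          refine pow_le_pow_left₀ (by positivity) ?_ j
          nlinarith [mul_le_mul h3 hr zero_le_one (by positivity)]
      _ = (2 * l ^ (1 / 3 : ℝ)) ^ j * r ^ j := mul_pow _ _ _
      _ ≤ (2 * l ^ (1 / 3 : ℝ)) ^ 8 * r ^ j := by
          gcongr
          linarith
      _ = 2 ^ 8 * l ^ (8 / 3 : ℝ) * r ^ j := by
          rw [mul_pow, ← Real.rpow_natCast (l ^ (1 / 3 : ℝ)), ← Real.rpow_mul hl0.le]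
          norm_num
  have h5 : (l * r) ^ (-θ) ≤ l ^ (-θ) :=
    Real.rpow_le_rpow_of_nonpos hl0 (by nlinarith) (by linarith)
  have h6 : (r ^ 2) ^ (1 / 3 : ℝ) * (l * r) ^ (-(2 / 3 : ℝ)) ≤ l ^ (-θ) := by
    have : (r ^ 2) ^ (1 / 3 : ℝ) * (l * r) ^ (-(2 / 3 : ℝ)) = l ^ (-(2 / 3 : ℝ)) := by
      rw [Real.mul_rpow hl0.le hr0.le, fopb1_sq hr0, mul_left_comm, ← Real.rpow_add hr0]
      norm_num
    rw [this]
    exact Real.rpow_le_rpow_of_exponent_le hl (by linarith)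
  have h7 : ((l * r) ^ (-θ) + (r ^ 2) ^ (1 / 3 : ℝ) * (l * r) ^ (-(2 / 3 : ℝ))) ^ J ≤
      2 ^ 11 * l ^ (-θ * J) := by
    calc ((l * r) ^ (-θ) + (r ^ 2) ^ (1 / 3 : ℝ) * (l * r) ^ (-(2 / 3 : ℝ))) ^ J
        ≤ (2 * l ^ (-θ)) ^ J := pow_le_pow_left₀ (by positivity) (by linarith) J
      _ = 2 ^ J * l ^ (-θ * J) := by
          rw [mul_pow, Real.rpow_mul hl0.le, Real.rpow_natCast]
      _ ≤ 2 ^ 11 * l ^ (-θ * J) := by
          gcongr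
          norm_num
  have h8 : l ^ (7 / 3 - θ * J) = l ^ (-(1 / 3 : ℝ)) * l ^ (8 / 3 : ℝ) * l ^ (-θ * J) := by
    rw [← Real.rpow_add hl0, ← Real.rpow_add hl0]
    congr 1
    ring
  rw [h1, h2, h8, ← fopb1_Q hr0]
  calc (r ^ 2) ^ (-(j : ℝ)) * (l ^ (-(1 / 3 : ℝ)) * r⁻¹) * (1 + l ^ (1 / 3 : ℝ) * r) ^ j *
        ((l * r) ^ (-θ) + (r ^ 2) ^ (1 / 3 : ℝ) * (l * r) ^ (-(2 / 3 : ℝ))) ^ J
      ≤ (r ^ 2) ^ (-(j : ℝ)) * (l ^ (-(1 / 3 : ℝ)) * r⁻¹) * (2 ^ 8 * l ^ (8 / 3 : ℝ) * r ^ j) *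
        (2 ^ 11 * l ^ (-θ * J)) := by gcongr
    _ = _ := by ring

theorem fopb1_pow {r X : ℝ} (hr : 1 ≤ r) (hX : 0 ≤ X) (hXr : X ≤ 13 * r) :
    X ^ (2 / 3 : ℝ) * r ^ (-(2 / 3 : ℝ)) ≤ 13 := by
  have hr0 : 0 < r := by linarith
  calc X ^ (2 / 3 : ℝ) * r ^ (-(2 / 3 : ℝ))
      ≤ (13 * r) ^ (2 / 3 : ℝ) * r ^ (-(2 / 3 : ℝ)) := by gcongr
    _ = (13 : ℝ) ^ (2 / 3 : ℝ) := by
        rw [Real.mul_rpow (by norm_num) hr0.le, mul_assoc, ← Real.rpow_add hr0]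
        norm_num
    _ ≤ (13 : ℝ) ^ (1 : ℝ) := Real.rpow_le_rpow_of_exponent_le (by norm_num) (by norm_num)
    _ = 13 := Real.rpow_one _

theorem stOpB1 (hSum : StSum) (hUN : StUN) (hOpT : StOpT) (hOpN : StOpN) : StOpB1 := by
  intro k C hk J θ hJ1 hJ hθ hθ' h10
  have hC := hk.nonneg
  obtain ⟨C₁, hC₁, hW₁⟩ := W_const_mul 13
  obtain ⟨C₂, hC₂, hW₂⟩ := W_mul_le (η := (θ * J - 10 / 3) / 2) (by linarith)
  obtain ⟨C₃, hC₃, hT⟩ := hOpT k C hk J θ hJ1 hJ hθ hθ'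
  obtain ⟨C₄, hC₄, hS⟩ := hSum.1 (2 / 3 - θ * J / 2) (by linarith)
  have hcc : 0 ≤ ∑ m ∈ Finset.range 11, |cc m| := Finset.sum_nonneg fun _ _ => abs_nonneg _
  refine ⟨C₁ * C * 4 ^ 8 * (20 + 49 * ∑ m ∈ Finset.range 11, |cc m|) + C₃ * C₂ * 2 ^ 19 * C₄,
    by positivity, fun A a ha j hj y hy => ?_⟩
  obtain ⟨r, hr, rfl⟩ : ∃ r : ℝ, 1 ≤ r ∧ y = r ^ 2 :=
    ⟨√y, Real.one_le_sqrt.2 hy, (Real.sq_sqrt (by linarith)).symm⟩
  have hr0 : 0 < r := by linarith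
  have hA := ha.nonneg
  have hWr := one_le_W r
  rw [Real.sqrt_sq hr0.le]
  have hj' : (j : ℝ) ≤ 8 := by exact_mod_cast hj
  have hnice := (hOpN k C hk J θ hJ1 hJ hθ hθ' A a ha j hj (by linarith)).1 (r ^ 2) (by positivity)
  have hN1 : r ≤ (⌈r⌉₊ : ℝ) := Nat.le_ceil r
  have hN2 : (⌈r⌉₊ : ℝ) ≤ 2 * r := by linarith [Nat.ceil_lt_add_one hr0.le]
  generalize ⌈r⌉₊ = N at hN1 hN2
  unfold KK
  rw [hUN _ hnice N]
  have hQ : 0 < (r ^ 2) ^ (-(j / 2 : ℝ)) := by positivity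
  have hker := fun x => fopb1_ker hk hj hr (x := x)
  have htail := fun l => fopb1_tail hj hJ hθ hθ' (l := l) (r := r)
  generalize (r ^ 2) ^ (-(j / 2 : ℝ)) = Q at hQ hker htail ⊢
  obtain ⟨K, hK⟩ : ∃ K, K = C₁ * C * 4 ^ 8 * A * W r * Q := ⟨_, rfl⟩
  have hK0 : 0 ≤ K := by rw [hK]; positivity
  have hF : ∀ x : ℝ, 1 ≤ x → x ≤ 13 * r → ‖conj (a 0 x) * k 0 j x (r ^ 2)‖ ≤
      K * r ^ (-(2 / 3 : ℝ)) * x ^ (-(1 / 3 : ℝ)) := by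
    intro x hx hxr
    rw [norm_mul, Complex.norm_conj]
    have h1 : ‖a 0 x‖ ≤ A * (C₁ * W r) :=
      (ha.top0 hx).trans (mul_le_mul_of_nonneg_left (hW₁ r x hr0.le (by linarith) hxr) hA)
    calc ‖a 0 x‖ * ‖k 0 j x (r ^ 2)‖ ≤ A * (C₁ * W r) *
          (C * 4 ^ 8 * Q * (x ^ (-(1 / 3 : ℝ)) * r ^ (-(2 / 3 : ℝ)))) :=
          mul_le_mul h1 (hker x (by linarith) hxr) (norm_nonneg _) (by positivity)
      _ = _ := by rw [hK]; ring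
  have hhead : ‖∑ n ∈ Finset.range N, conj (a 0 (n + 1)) * k 0 j (n + 1) (r ^ 2)‖ ≤ 20 * K := by
    refine (norm_sum_le _ _).trans ?_
    have h1 := hSum.2 (-(1 / 3)) (by norm_num) (by norm_num) N
    have h2 := fopb1_pow hr (Nat.cast_nonneg N) (by linarith)
    have e1 : (-(1 / 3) + 1 : ℝ) = 2 / 3 := by norm_num
    rw [e1] at h1
    calc ∑ n ∈ Finset.range N, ‖conj (a 0 (n + 1)) * k 0 j (n + 1) (r ^ 2)‖
        ≤ ∑ n ∈ Finset.range N, K * r ^ (-(2 / 3 : ℝ)) * ((n : ℝ) + 1) ^ (-(1 / 3 : ℝ)) := by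
          refine Finset.sum_le_sum fun n hn => hF _ (by linarith [Nat.cast_nonneg (α := ℝ) n]) ?_
          have : (n : ℝ) + 1 ≤ N := by exact_mod_cast Finset.mem_range.1 hn
          linarith
      _ = K * r ^ (-(2 / 3 : ℝ)) * ∑ n ∈ Finset.range N, ((n : ℝ) + 1) ^ (-(1 / 3 : ℝ)) := by
          rw [Finset.mul_sum]
      _ ≤ K * r ^ (-(2 / 3 : ℝ)) * ((N : ℝ) ^ (2 / 3 : ℝ) / (2 / 3)) := by gcongr
      _ = K * (3 / 2) * ((N : ℝ) ^ (2 / 3 : ℝ) * r ^ (-(2 / 3 : ℝ))) := by ring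
      _ ≤ K * (3 / 2) * 13 := by gcongr
      _ ≤ 20 * K := by linarith
  have hcont : ContinuousOn (fun x => conj (a 0 x) * k 0 j x (r ^ 2)) (Ioi 0) :=
    (ha.ch.conj.cont (i := 0) hJ1).mul
      ((hk.hx j hj (r ^ 2) (by positivity)).cont (i := 0) (by norm_num))
  have hint : ∀ X : ℝ, 1 ≤ X → X ≤ 13 * r →
      ‖∫ x in (0 : ℝ)..X, conj (a 0 x) * k 0 j x (r ^ 2)‖ ≤ 49 * K := by
    intro X hX hXr
    have hX0 : 0 < X := by linarith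
    have h1 := (intervalIntegrable_rpow_le (C := K * r ^ (-(2 / 3 : ℝ)) * X ^ (2 / 5 : ℝ))
      (a := -(11 / 15)) hcont (by norm_num) hX0.le fun x hx hxX => ?_).2
    · refine h1.trans ?_
      have h2 := fopb1_pow hr hX0.le hXr
      have h3 : X ^ (2 / 3 : ℝ) = X ^ (2 / 5 : ℝ) * X ^ (-(11 / 15) + 1 : ℝ) := by
        rw [← Real.rpow_add hX0]
        norm_num
      calc K * r ^ (-(2 / 3 : ℝ)) * X ^ (2 / 5 : ℝ) * X ^ (-(11 / 15) + 1 : ℝ) /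
            (-(11 / 15) + 1)
          = K * (15 / 4) * (X ^ (2 / 3 : ℝ) * r ^ (-(2 / 3 : ℝ))) := by rw [h3]; ring
        _ ≤ K * (15 / 4) * 13 := by gcongr
        _ ≤ 49 * K := by linarith
    · have h3 : x ^ (-(11 / 15) : ℝ) = x ^ (-(2 / 5 : ℝ)) * x ^ (-(1 / 3 : ℝ)) := by
        rw [← Real.rpow_add hx]
        norm_num
      rcases le_total 1 x with hx1 | hx1
      · refine (hF x hx1 (hxX.trans hXr)).trans ?_
        have h4 : 1 ≤ X ^ (2 / 5 : ℝ) * x ^ (-(2 / 5 : ℝ)) := by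
          calc (1 : ℝ) = x ^ (2 / 5 : ℝ) * x ^ (-(2 / 5 : ℝ)) := by
                rw [← Real.rpow_add hx]
                norm_num
            _ ≤ X ^ (2 / 5 : ℝ) * x ^ (-(2 / 5 : ℝ)) := by gcongr
        calc K * r ^ (-(2 / 3 : ℝ)) * x ^ (-(1 / 3 : ℝ))
            = K * r ^ (-(2 / 3 : ℝ)) * x ^ (-(1 / 3 : ℝ)) * 1 := (mul_one _).symm
          _ ≤ K * r ^ (-(2 / 3 : ℝ)) * x ^ (-(1 / 3 : ℝ)) *
              (X ^ (2 / 5 : ℝ) * x ^ (-(2 / 5 : ℝ))) := by gcongr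
          _ = _ := by rw [h3]; ring
      · rw [norm_mul, Complex.norm_conj]
        have h4 : 1 ≤ C₁ * W r * X ^ (2 / 5 : ℝ) :=
          one_le_mul_of_one_le_of_one_le (one_le_mul_of_one_le_of_one_le hC₁ hWr)
            (Real.one_le_rpow hX (by norm_num))
        have h5 : ‖a 0 x‖ ≤ A * x ^ (-(2 / 5 : ℝ)) * (C₁ * W r * X ^ (2 / 5 : ℝ)) :=
          (ha.bot x hx hx1).trans (le_mul_of_one_le_right (by positivity) h4)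
        calc ‖a 0 x‖ * ‖k 0 j x (r ^ 2)‖
            ≤ A * x ^ (-(2 / 5 : ℝ)) * (C₁ * W r * X ^ (2 / 5 : ℝ)) *
              (C * 4 ^ 8 * Q * (x ^ (-(1 / 3 : ℝ)) * r ^ (-(2 / 3 : ℝ)))) :=
              mul_le_mul h5 (hker x hx (hxX.trans hXr)) (norm_nonneg _) (by positivity)
          _ = _ := by rw [hK, h3]; ring
  have hmid : ‖∑ m ∈ Finset.range 11, (cc m : ℂ) *
      ∫ x in (0 : ℝ)..((N : ℝ) + m + 1), conj (a 0 x) * k 0 j x (r ^ 2)‖ ≤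
      (∑ m ∈ Finset.range 11, |cc m|) * (49 * K) := by
    refine (norm_sum_le _ _).trans ?_
    rw [Finset.sum_mul]
    refine Finset.sum_le_sum fun m hm => ?_
    rw [norm_mul, Complex.norm_real, Real.norm_eq_abs]
    have h1 : (m : ℝ) + 1 ≤ 11 := by exact_mod_cast Finset.mem_range.1 hm
    have h2 : (0 : ℝ) ≤ m := Nat.cast_nonneg m
    exact mul_le_mul_of_nonneg_left (hint _ (by linarith) (by linarith)) (abs_nonneg _)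
  obtain ⟨hs1, hs2⟩ := hS r N hr (by linarith)
  obtain ⟨e, he⟩ : ∃ e, e = 2 / 3 - θ * J / 2 := ⟨_, rfl⟩
  rw [← he] at hs1 hs2
  obtain ⟨L, hL⟩ : ∃ L, L = C₃ * C₂ * 2 ^ 19 * A * W r * Q := ⟨_, rfl⟩
  have hL0 : 0 ≤ L := by rw [hL]; positivity
  have hterm : ∀ n : ℕ, ‖DD (fun x => conj (a 0 x) * k 0 j x (r ^ 2)) (n + N)‖ ≤
      L * r ^ (-(e + 1)) * ((n : ℝ) + N + 1) ^ e := by
    intro n
    have h1 := hT A a ha j hj (r ^ 2) (by positivity) (n + N)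
    push_cast at h1
    obtain ⟨l, hl, hx⟩ : ∃ l : ℝ, 1 ≤ l ∧ (n : ℝ) + N + 1 = l * r :=
      ⟨((n : ℝ) + N + 1) / r, (one_le_div hr0).2 (by linarith [Nat.cast_nonneg (α := ℝ) n]),
        (div_mul_cancel₀ _ hr0.ne').symm⟩
    have hl0 : 0 < l := by linarith
    rw [hx] at h1 ⊢
    refine h1.trans ?_
    have h2 := htail l hl hr
    have h3 := hW₂ l r hl hr0.le
    have h4 : r ^ (-(e + 1)) * (l * r) ^ e =
        r⁻¹ * (l ^ ((θ * J - 10 / 3) / 2) * l ^ (7 / 3 - θ * J)) := by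
      rw [Real.mul_rpow hl0.le hr0.le, mul_left_comm, ← Real.rpow_add hr0, ← Real.rpow_add hl0,
        ← Real.rpow_neg_one, mul_comm]
      congr 2
      · ring
      · rw [he]; ring
    calc C₃ * A * W (l * r) * (r ^ 2) ^ (-(j : ℝ)) * (l * r * r ^ 2) ^ (-(1 / 3 : ℝ)) *
          (1 + (l * r * r ^ 2) ^ (1 / 3 : ℝ)) ^ j *
          ((l * r) ^ (-θ) + (r ^ 2) ^ (1 / 3 : ℝ) * (l * r) ^ (-(2 / 3 : ℝ))) ^ J
        = C₃ * A * (W (l * r) * ((r ^ 2) ^ (-(j : ℝ)) * (l * r * r ^ 2) ^ (-(1 / 3 : ℝ)) *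
          (1 + (l * r * r ^ 2) ^ (1 / 3 : ℝ)) ^ j *
          ((l * r) ^ (-θ) + (r ^ 2) ^ (1 / 3 : ℝ) * (l * r) ^ (-(2 / 3 : ℝ))) ^ J)) := by ring
      _ ≤ C₃ * A * ((C₂ * l ^ ((θ * J - 10 / 3) / 2) * W r) *
          (2 ^ 19 * Q * r⁻¹ * l ^ (7 / 3 - θ * J))) :=
          mul_le_mul_of_nonneg_left (mul_le_mul h3 h2 (by positivity) (by positivity))
            (by positivity)
      _ = _ := by rw [mul_assoc L, h4, hL]; ring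
  have htl : ‖∑' n, DD (fun x => conj (a 0 x) * k 0 j x (r ^ 2)) (n + N)‖ ≤ L * C₄ := by
    refine (tsum_of_norm_bounded (hs1.mul_left (L * r ^ (-(e + 1)))).hasSum hterm).trans ?_
    rw [tsum_mul_left]
    calc L * r ^ (-(e + 1)) * ∑' n : ℕ, ((n : ℝ) + N + 1) ^ e
        ≤ L * r ^ (-(e + 1)) * (C₄ * r ^ (e + 1)) := by gcongr
      _ = L * C₄ * (r ^ (-(e + 1)) * r ^ (e + 1)) := by ring
      _ = L * C₄ := by
          rw [← Real.rpow_add hr0]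
          simp
  refine (norm_add_le _ _).trans ?_
  refine (add_le_add ((norm_sub_le _ _).trans (add_le_add hhead hmid)) htl).trans (le_of_eq ?_)
  rw [hK, hL]
  ring

end Pool.Agent.Bar58
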