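import Pool.Agent.Lib.MP_d79f69_nt.Bar.Basic

set_option autoImplicit false

namespace Pool.Agent.Bar58

open Complex MeasureTheory Set Filter Topology
open scoped ComplexConjugate

theorem fopb2_term {J j : ℕ} {θ x y : ℝ} (hθ : θ ≤ 2 / 3) (hj : j ≤ 8) (hx : 1 ≤ x) (hy : 0 < y)
    (hy1 : y ≤ 1) :
    y ^ (-(j : ℝ)) * (x * y) ^ (-(1 / 3 : ℝ)) * (1 + (x * y) ^ (1 / 3 : ℝ)) ^ j *
        (x ^ (-θ) + y ^ (1 / 3 : ℝ) * x ^ (-(2 / 3 : ℝ))) ^ J ≤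
      256 * 2 ^ J * y ^ (-(1 / 3 : ℝ) - j) * x ^ (7 / 3 - θ * J) := by
  have hx0 : 0 < x := by linarith
  have h1 : (1 + (x * y) ^ (1 / 3 : ℝ)) ^ j ≤ 256 * x ^ (8 / 3 : ℝ) := by
    have a1 : (x * y) ^ (1 / 3 : ℝ) ≤ x ^ (1 / 3 : ℝ) :=
      Real.rpow_le_rpow (by positivity) (by nlinarith) (by norm_num)
    have a2 : 1 ≤ x ^ (1 / 3 : ℝ) := Real.one_le_rpow hx (by norm_num)
    have a3 : 0 ≤ (x * y) ^ (1 / 3 : ℝ) := by positivity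
    calc (1 + (x * y) ^ (1 / 3 : ℝ)) ^ j ≤ (2 * x ^ (1 / 3 : ℝ)) ^ j :=
          pow_le_pow_left₀ (by positivity) (by linarith) j
      _ ≤ (2 * x ^ (1 / 3 : ℝ)) ^ 8 := pow_le_pow_right₀ (by linarith) hj
      _ = 256 * x ^ (8 / 3 : ℝ) := by
          rw [mul_pow, ← Real.rpow_natCast (x ^ (1 / 3 : ℝ)), ← Real.rpow_mul hx0.le]
          norm_num
  have h2 : (x ^ (-θ) + y ^ (1 / 3 : ℝ) * x ^ (-(2 / 3 : ℝ))) ^ J ≤ 2 ^ J * x ^ (-θ * J) := by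
    have a1 : y ^ (1 / 3 : ℝ) ≤ 1 := Real.rpow_le_one hy.le hy1 (by norm_num)
    have a2 : x ^ (-(2 / 3 : ℝ)) ≤ x ^ (-θ) :=
      Real.rpow_le_rpow_of_exponent_le hx (by linarith)
    have a3 : 0 ≤ x ^ (-(2 / 3 : ℝ)) := by positivity
    have a4 : y ^ (1 / 3 : ℝ) * x ^ (-(2 / 3 : ℝ)) ≤ x ^ (-θ) :=
      (mul_le_of_le_one_left a3 a1).trans a2
    calc _ ≤ (2 * x ^ (-θ)) ^ J := pow_le_pow_left₀ (by positivity) (by linarith) J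
      _ = 2 ^ J * x ^ (-θ * J) := by
          rw [mul_pow, ← Real.rpow_natCast (x ^ (-θ)), ← Real.rpow_mul hx0.le]
  have h3 : y ^ (-(1 / 3 : ℝ) - j) = y ^ (-(j : ℝ)) * y ^ (-(1 / 3 : ℝ)) := by
    rw [← Real.rpow_add hy]; congr 1; ring
  have h4 : x ^ (7 / 3 - θ * J) = x ^ (-(1 / 3 : ℝ)) * x ^ (8 / 3 : ℝ) * x ^ (-θ * J) := by
    rw [← Real.rpow_add hx0, ← Real.rpow_add hx0]; congr 1; ring
  rw [Real.mul_rpow hx0.le hy.le (z := -(1 / 3 : ℝ)), h3, h4]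
  calc _ ≤ y ^ (-(j : ℝ)) * (x ^ (-(1 / 3 : ℝ)) * y ^ (-(1 / 3 : ℝ))) * (256 * x ^ (8 / 3 : ℝ)) *
        (2 ^ J * x ^ (-θ * J)) := by gcongr
    _ = _ := by ring

theorem fopb2_low {J : ℕ} {θ A : ℝ} {a : ℕ → ℝ → ℂ} (h : Cls J θ A a) {x : ℝ} (hx : 0 < x)
    (hx1 : x ≤ 11) : ‖a 0 x‖ ≤ A * (W 11 * 11) * x ^ (-(2 / 5 : ℝ)) := by
  have hA := h.nonneg
  have hW := one_le_W 11
  rcases le_total x 1 with h1 | h1
  · refine (h.bot x hx h1).trans ?_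
    gcongr
    exact le_mul_of_one_le_right hA (by nlinarith)
  · have a1 : 1 ≤ 11 * x ^ (-(2 / 5 : ℝ)) := by
      have a2 : x ^ (-(1 : ℝ)) ≤ x ^ (-(2 / 5 : ℝ)) :=
        Real.rpow_le_rpow_of_exponent_le h1 (by norm_num)
      rw [Real.rpow_neg_one] at a2
      have a3 : 1 ≤ 11 * x⁻¹ := by
        rw [← div_eq_mul_inv, le_div_iff₀ hx]; linarith
      linarith
    calc ‖a 0 x‖ ≤ A * W x := h.top0 h1
      _ ≤ A * W 11 * 1 := by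
          rw [mul_one]
          exact mul_le_mul_of_nonneg_left (W_mono hx.le hx1) hA
      _ ≤ A * W 11 * (11 * x ^ (-(2 / 5 : ℝ))) := by gcongr
      _ = _ := by ring

theorem fopb2_int {k : ℕ → ℕ → ℝ → ℝ → ℂ} {C : ℝ} (hk : Kern k C) {J : ℕ} {θ A : ℝ}
    {a : ℕ → ℝ → ℂ} (hJ : 1 ≤ J) (h : Cls J θ A a) {j : ℕ} (hj : j ≤ 8) {y : ℝ} (hy : 0 < y)
    (hy1 : y ≤ 1) {X : ℝ} (hX : 1 ≤ X) (hX1 : X ≤ 11) :
    ‖∫ x in (0 : ℝ)..X, conj (a 0 x) * k 0 j x y‖ ≤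
      W 11 * 11 * C * 12 ^ 8 * 44 * A * y ^ (-(1 / 3 : ℝ) - j) := by
  have hA := h.nonneg
  have hC := hk.nonneg
  have hW := W_pos 11
  have hc : ContinuousOn (fun x => conj (a 0 x) * k 0 j x y) (Ioi 0) :=
    (h.ch.conj.cont hJ).mul ((hk.hx j hj y hy).cont (i := 0) (by norm_num))
  have h3 : y ^ (-(1 / 3 : ℝ) - j) = y ^ (-(j : ℝ)) * y ^ (-(1 / 3 : ℝ)) := by
    rw [← Real.rpow_add hy]; congr 1; ring
  have hb : ∀ x : ℝ, 0 < x → x ≤ X → ‖conj (a 0 x) * k 0 j x y‖ ≤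
      W 11 * 11 * C * 12 ^ 8 * A * y ^ (-(1 / 3 : ℝ) - j) * x ^ (-(11 / 15 : ℝ)) := by
    intro x hx hxX
    have a1 := fopb2_low h hx (hxX.trans hX1)
    have a2 := hk.bd 0 (by norm_num) j hj x hx y hy
    have a3 : (1 + (x * y) ^ (1 / 3 : ℝ)) ^ (0 + j) ≤ 12 ^ 8 := by
      have b1 : (x * y) ^ (1 / 3 : ℝ) ≤ (11 : ℝ) ^ (1 / 3 : ℝ) :=
        Real.rpow_le_rpow (by positivity) (by nlinarith) (by norm_num)
      have b2 : (11 : ℝ) ^ (1 / 3 : ℝ) ≤ 11 ^ (1 : ℝ) :=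
        Real.rpow_le_rpow_of_exponent_le (by norm_num) (by norm_num)
      rw [Real.rpow_one] at b2
      calc _ ≤ (12 : ℝ) ^ (0 + j) := pow_le_pow_left₀ (by positivity) (by linarith) _
        _ ≤ _ := pow_le_pow_right₀ (by norm_num) (by omega)
    have a4 : x ^ (-(11 / 15 : ℝ)) = x ^ (-(2 / 5 : ℝ)) * x ^ (-(1 / 3 : ℝ)) := by
      rw [← Real.rpow_add hx]; congr 1; norm_num
    rw [Nat.cast_zero, neg_zero, Real.rpow_zero, mul_one,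
      Real.mul_rpow hx.le hy.le (z := -(1 / 3 : ℝ))] at a2
    rw [norm_mul, Complex.norm_conj, h3, a4]
    calc _ ≤ A * (W 11 * 11) * x ^ (-(2 / 5 : ℝ)) * (C * y ^ (-(j : ℝ)) *
          (x ^ (-(1 / 3 : ℝ)) * y ^ (-(1 / 3 : ℝ))) * 12 ^ 8) := by
          refine mul_le_mul a1 (a2.trans ?_) (norm_nonneg _) (by positivity)
          gcongr
      _ = _ := by ring
  refine (intervalIntegrable_rpow_le hc (by norm_num) (by linarith) hb).2.trans ?_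
  have a5 : X ^ (-(11 / 15 : ℝ) + 1) ≤ 11 := by
    have b1 : X ^ (-(11 / 15 : ℝ) + 1) ≤ X ^ (1 : ℝ) :=
      Real.rpow_le_rpow_of_exponent_le hX (by norm_num)
    rw [Real.rpow_one] at b1
    linarith
  have a6 : 0 ≤ W 11 * 11 * C * 12 ^ 8 * A * y ^ (-(1 / 3 : ℝ) - j) := by positivity
  rw [div_le_iff₀ (by norm_num)]
  nlinarith

theorem stOpB2 (hUN : StUN) (hOpT : StOpT) (hOpN : StOpN) : StOpB2 := by
  intro k C hk J θ hJ hJ' hθ hθ' h10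
  obtain ⟨C₁, hC₁, hT⟩ := hOpT k C hk J θ hJ hJ' hθ hθ'
  have hC := hk.nonneg
  have hW := W_pos 11
  have hs := summable_W (e := 7 / 3 - θ * J) (by linarith)
  have hs0 : 0 ≤ ∑' n : ℕ, W (n + 1) * ((n : ℝ) + 1) ^ (7 / 3 - θ * J) :=
    tsum_nonneg fun n => mul_nonneg (W_pos _).le (by positivity)
  refine ⟨C₁ * (256 * 2 ^ J) * (∑' n : ℕ, W (n + 1) * ((n : ℝ) + 1) ^ (7 / 3 - θ * J)) +
    (∑ m ∈ Finset.range 11, |cc m|) * (W 11 * 11 * C * 12 ^ 8 * 44), by positivity, ?_⟩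
  intro A a h j hj y hy hy1
  have hA := h.nonneg
  have h1 : ‖∑' n, DD (fun x => conj (a 0 x) * k 0 j x y) n‖ ≤
      C₁ * A * (256 * 2 ^ J * y ^ (-(1 / 3 : ℝ) - j)) *
        ∑' n : ℕ, W (n + 1) * ((n : ℝ) + 1) ^ (7 / 3 - θ * J) := by
    refine tsum_of_norm_bounded (hs.hasSum.mul_left _) fun n => (hT A a h j hj y hy n).trans ?_
    have a1 := fopb2_term (J := J) (x := (n : ℝ) + 1) hθ' hj (by simp) hy hy1
    have a2 : 0 ≤ C₁ * A * W (n + 1) := mul_nonneg (mul_nonneg hC₁ hA) (W_pos _).le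
    refine le_trans (le_of_eq (by ring)) ((mul_le_mul_of_nonneg_left a1 a2).trans (le_of_eq ?_))
    ring
  have h2 : ‖B0 fun x => conj (a 0 x) * k 0 j x y‖ ≤ (∑ m ∈ Finset.range 11, |cc m|) *
      (W 11 * 11 * C * 12 ^ 8 * 44 * A * y ^ (-(1 / 3 : ℝ) - j)) := by
    rw [Finset.sum_mul]
    refine (norm_sum_le _ _).trans (Finset.sum_le_sum fun m hm => ?_)
    have hm' : (m : ℝ) + 1 ≤ 11 := by exact_mod_cast Finset.mem_range.1 hm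
    rw [norm_mul, Complex.norm_real, Real.norm_eq_abs]
    exact mul_le_mul_of_nonneg_left
      (fopb2_int hk hJ h hj hy hy1 (by simp) hm') (abs_nonneg _)
  refine (norm_sub_le _ _).trans ((add_le_add h1 h2).trans (le_of_eq ?_))
  ring

end Pool.Agent.Bar58
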