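import Pool.Agent.Lib.MP_d79f69_nt.Bar.Basic

set_option autoImplicit false

namespace Pool.Agent.Bar58

open Complex MeasureTheory Set Filter Topology
open scoped ComplexConjugate

theorem fopd_bd {k : ℕ → ℕ → ℝ → ℝ → ℂ} {C : ℝ} (hk : Kern k C) {j : ℕ} (hj : j ≤ 8)
    {y₁ : ℝ} (y₂ X : ℝ) (hy₁ : 0 < y₁) : ∃ K : ℝ, 0 ≤ K ∧ ∀ y : ℝ, y₁ ≤ y → y ≤ y₂ →
      ∀ x : ℝ, 0 < x → x ≤ X → ‖k 0 j x y‖ ≤ K * x ^ (-(1 / 3 : ℝ)) := by
  have hC := hk.nonneg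
  refine ⟨C * y₁ ^ (-(j : ℝ)) * y₁ ^ (-(1 / 3 : ℝ)) * (1 + |X * y₂| ^ (1 / 3 : ℝ)) ^ j,
    by positivity, fun y h1 h2 x hx hX => ?_⟩
  have hy : 0 < y := lt_of_lt_of_le hy₁ h1
  have h := hk.bd 0 (by norm_num) j hj x hx y hy
  simp only [Nat.cast_zero, neg_zero, Real.rpow_zero, mul_one, zero_add] at h
  refine h.trans ?_
  have e1 : y ^ (-(j : ℝ)) ≤ y₁ ^ (-(j : ℝ)) :=
    Real.rpow_le_rpow_of_nonpos hy₁ h1 (by simp)
  have e2 : y ^ (-(1 / 3 : ℝ)) ≤ y₁ ^ (-(1 / 3 : ℝ)) :=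
    Real.rpow_le_rpow_of_nonpos hy₁ h1 (by norm_num)
  have e3 : (x * y) ^ (1 / 3 : ℝ) ≤ |X * y₂| ^ (1 / 3 : ℝ) := by
    refine Real.rpow_le_rpow (by positivity) ?_ (by norm_num)
    exact (mul_le_mul hX h2 hy.le (hx.le.trans hX)).trans (le_abs_self _)
  rw [Real.mul_rpow hx.le hy.le (z := -(1 / 3 : ℝ))]
  calc C * y ^ (-(j : ℝ)) * (x ^ (-(1 / 3 : ℝ)) * y ^ (-(1 / 3 : ℝ))) *
        (1 + (x * y) ^ (1 / 3 : ℝ)) ^ j
      ≤ C * y₁ ^ (-(j : ℝ)) * (x ^ (-(1 / 3 : ℝ)) * y₁ ^ (-(1 / 3 : ℝ))) *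
        (1 + |X * y₂| ^ (1 / 3 : ℝ)) ^ j := by gcongr
    _ = _ := by ring

theorem fopd_int {k : ℕ → ℕ → ℝ → ℝ → ℂ} {C : ℝ} (hk : Kern k C) {J : ℕ} {θ A : ℝ}
    {a : ℕ → ℝ → ℂ} (ha : Cls J θ A a) {j : ℕ} (hj : j < 8)
    (h0 : ∀ y : ℝ, 0 < y → Nice fun x => conj (a 0 x) * k 0 j x y)
    (h1 : ∀ y : ℝ, 0 < y → Nice fun x => conj (a 0 x) * k 0 (j + 1) x y)
    {y : ℝ} (hy : 0 < y) {p q : ℝ} (hp : 0 ≤ p) (hpq : p ≤ q) :
    HasDerivAt (fun z : ℝ => ∫ x in p..q, conj (a 0 x) * k 0 j x z)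
      (∫ x in p..q, conj (a 0 x) * k 0 (j + 1) x y) y := by
  have hq : 0 ≤ q := hp.trans hpq
  obtain ⟨K, hK, hKb⟩ := fopd_bd hk (j := j + 1) hj (2 * y) q (half_pos hy)
  obtain ⟨D, hD, hDb⟩ := ha.loc q
  have hs : Ioo (y / 2) (2 * y) ∈ 𝓝 y := Ioo_mem_nhds (by linarith) (by linarith)
  have hmem : ∀ x : ℝ, x ∈ Set.uIoc p q → 0 < x ∧ x ≤ q := by
    intro x hx
    rw [uIoc_of_le hpq] at hx
    exact ⟨lt_of_le_of_lt hp hx.1, hx.2⟩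
  refine (intervalIntegral.hasDerivAt_integral_of_dominated_loc_of_deriv_le
    (F := fun z x => conj (a 0 x) * k 0 j x z) (F' := fun z x => conj (a 0 x) * k 0 (j + 1) x z)
    (bound := fun x => D * K * x ^ (-(11 / 15 : ℝ))) hs ?_ ((h0 y hy).int' hp hq) ?_ ?_ ?_ ?_).2
  · filter_upwards [hs] with z hz
    exact (intervalIntegrable_iff.mp
      ((h0 z (lt_trans (half_pos hy) hz.1)).int' hp hq)).aestronglyMeasurable
  · exact (intervalIntegrable_iff.mp ((h1 y hy).int' hp hq)).aestronglyMeasurable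
  · refine Eventually.of_forall fun x hx z hz => ?_
    obtain ⟨hx0, hxq⟩ := hmem x hx
    rw [norm_mul, RCLike.norm_conj]
    calc ‖a 0 x‖ * ‖k 0 (j + 1) x z‖
        ≤ (D * x ^ (-(2 / 5 : ℝ))) * (K * x ^ (-(1 / 3 : ℝ))) :=
          mul_le_mul (hDb x hx0 hxq) (hKb z hz.1.le hz.2.le x hx0 hxq) (norm_nonneg _)
            (by positivity)
      _ = D * K * (x ^ (-(2 / 5 : ℝ)) * x ^ (-(1 / 3 : ℝ))) := by ring
      _ = _ := by rw [← Real.rpow_add hx0]; norm_num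
  · exact (intervalIntegral.intervalIntegrable_rpow' (by norm_num)).const_mul _
  · refine Eventually.of_forall fun x hx z hz => ?_
    exact (hk.hy x (hmem x hx).1 j hj z (lt_trans (half_pos hy) hz.1)).const_mul _

theorem stOpD (hOpN : StOpN) : StOpD := by
  intro k C hk J θ hJ1 hJ hθ0 hθ h10 A a ha j hj y hy
  have hc : ∀ i : ℕ, i ≤ 8 → (i : ℝ) + 2 < 3 * θ * J := by
    intro i hi
    have : (i : ℝ) ≤ 8 := by exact_mod_cast hi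
    linarith
  obtain ⟨h0, -⟩ := hOpN k C hk J θ hJ1 hJ hθ0 hθ A a ha j hj.le (hc j hj.le)
  obtain ⟨h1, h2⟩ := hOpN k C hk J θ hJ1 hJ hθ0 hθ A a ha (j + 1) hj (hc (j + 1) hj)
  obtain ⟨u, hu, hub⟩ := h2 (y / 2) (2 * y) (half_pos hy)
  have hD : ∀ (n : ℕ) (z : ℝ), 0 < z →
      HasDerivAt (fun w : ℝ => DD (fun x => conj (a 0 x) * k 0 j x w) n)
        (DD (fun x => conj (a 0 x) * k 0 (j + 1) x z) n) z := by
    intro n z hz
    unfold DD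
    refine HasDerivAt.sub ((hk.hy _ (by positivity) j hj z hz).const_mul _) ?_
    refine HasDerivAt.fun_sum fun m _ => HasDerivAt.const_mul _ ?_
    exact fopd_int hk ha hj h0 h1 hz (by positivity) (by linarith)
  have hB : HasDerivAt (fun w : ℝ => B0 fun x => conj (a 0 x) * k 0 j x w)
      (B0 fun x => conj (a 0 x) * k 0 (j + 1) x y) y := by
    unfold B0
    refine HasDerivAt.fun_sum fun m _ => HasDerivAt.const_mul _ ?_
    exact fopd_int hk ha hj h0 h1 hy le_rfl (by positivity)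
  have hy' : y ∈ Ioo (y / 2) (2 * y) := ⟨by linarith, by linarith⟩
  have hS := hasDerivAt_tsum_of_isPreconnected
    (g := fun (n : ℕ) (w : ℝ) => DD (fun x => conj (a 0 x) * k 0 j x w) n)
    (g' := fun (n : ℕ) (w : ℝ) => DD (fun x => conj (a 0 x) * k 0 (j + 1) x w) n)
    hu isOpen_Ioo isPreconnected_Ioo
    (fun n z hz => hD n z (lt_trans (half_pos hy) hz.1))
    (fun n z hz => hub z hz.1.le hz.2.le n) hy' (h0 y hy).sum.of_norm hy'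
  exact hS.sub hB

end Pool.Agent.Bar58
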