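import Pool.Agent.Lib.MP_d79f69_nt.Bar.Basic

set_option autoImplicit false

namespace Pool.Agent.Bar58

open Complex MeasureTheory Set Filter Topology
open scoped ComplexConjugate

theorem fopn_bd {N y y₁ Y θ : ℝ} (j J : ℕ) (hN : 1 ≤ N) (h1 : 0 < y₁) (hy : y₁ ≤ y) (hY : y ≤ Y)
    (hθ : θ ≤ 2 / 3) :
    y ^ (-(j : ℝ)) * (N * y) ^ (-(1 / 3 : ℝ)) * (1 + (N * y) ^ (1 / 3 : ℝ)) ^ j *
        (N ^ (-θ) + y ^ (1 / 3 : ℝ) * N ^ (-(2 / 3 : ℝ))) ^ J ≤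
      (y₁ ^ (-(j : ℝ)) * y₁ ^ (-(1 / 3 : ℝ)) * (1 + Y ^ (1 / 3 : ℝ)) ^ j *
        (1 + Y ^ (1 / 3 : ℝ)) ^ J) * N ^ (-(1 / 3 : ℝ) + 1 / 3 * j + -θ * J) := by
  have hN0 : 0 < N := by linarith
  have hy0 : 0 < y := by linarith
  have hY0 : 0 < Y := by linarith
  have e0 : y ^ (1 / 3 : ℝ) ≤ Y ^ (1 / 3 : ℝ) := Real.rpow_le_rpow hy0.le hY (by norm_num)
  have e1 : y ^ (-(j : ℝ)) ≤ y₁ ^ (-(j : ℝ)) :=
    Real.rpow_le_rpow_of_nonpos h1 hy (by simp)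
  have e2 : (N * y) ^ (-(1 / 3 : ℝ)) ≤ N ^ (-(1 / 3 : ℝ)) * y₁ ^ (-(1 / 3 : ℝ)) := by
    rw [Real.mul_rpow hN0.le hy0.le]
    exact mul_le_mul_of_nonneg_left (Real.rpow_le_rpow_of_nonpos h1 hy (by norm_num))
      (by positivity)
  have e3 : 1 + (N * y) ^ (1 / 3 : ℝ) ≤ N ^ (1 / 3 : ℝ) * (1 + Y ^ (1 / 3 : ℝ)) := by
    rw [Real.mul_rpow hN0.le hy0.le, mul_add, mul_one]
    have : 1 ≤ N ^ (1 / 3 : ℝ) := Real.one_le_rpow hN (by norm_num)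
    gcongr
  have e4 : N ^ (-θ) + y ^ (1 / 3 : ℝ) * N ^ (-(2 / 3 : ℝ)) ≤
      N ^ (-θ) * (1 + Y ^ (1 / 3 : ℝ)) := by
    have : N ^ (-(2 / 3 : ℝ)) ≤ N ^ (-θ) := Real.rpow_le_rpow_of_exponent_le hN (by linarith)
    rw [mul_add, mul_one, mul_comm (N ^ (-θ)) (Y ^ (1 / 3 : ℝ))]
    gcongr
  calc _ ≤ y₁ ^ (-(j : ℝ)) * (N ^ (-(1 / 3 : ℝ)) * y₁ ^ (-(1 / 3 : ℝ))) *
        (N ^ (1 / 3 : ℝ) * (1 + Y ^ (1 / 3 : ℝ))) ^ j * (N ^ (-θ) * (1 + Y ^ (1 / 3 : ℝ))) ^ J := by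
        gcongr
    _ = _ := by
        rw [Real.rpow_add hN0, Real.rpow_add hN0, Real.rpow_mul_natCast hN0.le,
          Real.rpow_mul_natCast hN0.le, mul_pow, mul_pow]
        ring

theorem fopn_int {k : ℕ → ℕ → ℝ → ℝ → ℂ} {C : ℝ} (hk : Kern k C) {J : ℕ} {θ A : ℝ}
    {a : ℕ → ℝ → ℂ} (ha : Cls J θ A a) (hJ : 1 ≤ J) {j : ℕ} (hj : j ≤ 8) {y : ℝ} (hy : 0 < y)
    {X : ℝ} (hX : 0 ≤ X) :
    IntervalIntegrable (fun x => conj (a 0 x) * k 0 j x y) volume 0 X := by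
  have hC := hk.nonneg
  obtain ⟨L, hL0, hL⟩ := ha.loc X
  refine (intervalIntegrable_rpow_le (f := fun x => conj (a 0 x) * k 0 j x y)
    (a := -(2 / 5 : ℝ) + -(1 / 3 : ℝ))
    (C := L * (C * y ^ (-(j : ℝ)) * y ^ (-(1 / 3 : ℝ)) * (1 + (X * y) ^ (1 / 3 : ℝ)) ^ j))
    ((ha.ch.conj.cont (i := 0) hJ).mul ((hk.hx j hj y hy).cont (i := 0) (by norm_num)))
    (by norm_num) hX fun x hx hxX => ?_).1
  have h1 := hL x hx hxX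
  have h2 := hk.bd 0 (by norm_num) j hj x hx y hy
  simp only [Nat.cast_zero, neg_zero, Real.rpow_zero, mul_one, zero_add] at h2
  have h3 : (x * y) ^ (1 / 3 : ℝ) ≤ (X * y) ^ (1 / 3 : ℝ) :=
    Real.rpow_le_rpow (by positivity) (mul_le_mul_of_nonneg_right hxX hy.le) (by norm_num)
  rw [norm_mul, Complex.norm_conj]
  calc _ ≤ (L * x ^ (-(2 / 5 : ℝ))) * (C * y ^ (-(j : ℝ)) * (x * y) ^ (-(1 / 3 : ℝ)) *
        (1 + (x * y) ^ (1 / 3 : ℝ)) ^ j) := by gcongr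
    _ ≤ (L * x ^ (-(2 / 5 : ℝ))) * (C * y ^ (-(j : ℝ)) * (x * y) ^ (-(1 / 3 : ℝ)) *
        (1 + (X * y) ^ (1 / 3 : ℝ)) ^ j) := by gcongr
    _ = _ := by
        rw [Real.mul_rpow hx.le hy.le, Real.rpow_add hx]
        ring

theorem stOpN (hOpT : StOpT) : StOpN := by
  intro k C hk J θ hJ1 hJ hθ0 hθ A a ha j hj hjJ
  obtain ⟨D, hD0, hD⟩ := hOpT k C hk J θ hJ1 hJ hθ0 hθ
  have hA := ha.nonneg
  have main : ∀ y₁ y₂ : ℝ, 0 < y₁ → ∃ u : ℕ → ℝ, Summable u ∧ ∀ y : ℝ, y₁ ≤ y → y ≤ y₂ → ∀ n,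
      ‖DD (fun x => conj (a 0 x) * k 0 j x y) n‖ ≤ u n := by
    intro y₁ y₂ h1
    refine ⟨fun n => (D * A * (y₁ ^ (-(j : ℝ)) * y₁ ^ (-(1 / 3 : ℝ)) *
      (1 + y₂ ^ (1 / 3 : ℝ)) ^ j * (1 + y₂ ^ (1 / 3 : ℝ)) ^ J)) *
        (W (n + 1) * ((n : ℝ) + 1) ^ (-(1 / 3 : ℝ) + 1 / 3 * j + -θ * J)),
      (summable_W (by linarith)).mul_left _, fun y hy hY n => ?_⟩
    have hN : (1 : ℝ) ≤ n + 1 := by linarith [Nat.cast_nonneg (α := ℝ) n]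
    have hW := W_pos ((n : ℝ) + 1)
    have hb := mul_le_mul_of_nonneg_left (fopn_bd j J hN h1 hy hY hθ)
      (show 0 ≤ D * A * W (n + 1) by positivity)
    refine (hD A a ha j hj y (by linarith) n).trans ?_
    calc _ = _ := by ring
      _ ≤ _ := hb
      _ = _ := by ring
  refine ⟨fun y hy => ⟨fun X hX => fopn_int hk ha hJ1 hj hy hX, ?_⟩, main⟩
  obtain ⟨u, hu, hb⟩ := main y y hy
  exact Summable.of_nonneg_of_le (fun n => norm_nonneg _) (hb y le_rfl le_rfl) hu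

end Pool.Agent.Bar58
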