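import Pool.Agent.Lib.MP_d79f69_nt.Bar.Basic

set_option autoImplicit false

namespace Pool.Agent.Bar58

open Complex MeasureTheory Set Filter Topology
open scoped ComplexConjugate

theorem fopt_cube {N x y : ℝ} (hN : 1 ≤ N) (hy : 0 < y) (h1 : N ≤ x) (h2 : x ≤ N + 11) :
    (x * y) ^ (1 / 3 : ℝ) ≤ 3 * (N * y) ^ (1 / 3 : ℝ) := by
  have h27 : (27 : ℝ) ^ (1 / 3 : ℝ) = 3 := by
    rw [show (27 : ℝ) = 3 ^ (3 : ℝ) by norm_num, ← Real.rpow_mul (by norm_num)]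
    norm_num
  have hNy : 0 ≤ N * y := by positivity
  calc (x * y) ^ (1 / 3 : ℝ) ≤ (27 * (N * y)) ^ (1 / 3 : ℝ) := by
        refine Real.rpow_le_rpow (mul_nonneg (by linarith) hy.le) ?_ (by norm_num)
        have : x ≤ 27 * N := by linarith
        nlinarith
    _ = 3 * (N * y) ^ (1 / 3 : ℝ) := by rw [Real.mul_rpow (by norm_num) hNy, h27]

theorem fopt_ker {k : ℕ → ℕ → ℝ → ℝ → ℂ} {C : ℝ} (hk : Kern k C) {i j : ℕ} (hi : i ≤ 11)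
    (hj : j ≤ 8) {N x y : ℝ} (hN : 1 ≤ N) (hy : 0 < y) (h1 : N ≤ x) (h2 : x ≤ N + 11) :
    ‖k i j x y‖ ≤ (C * 3 ^ 8 * y ^ (-(j : ℝ)) * (N * y) ^ (-(1 / 3 : ℝ)) *
      (1 + (N * y) ^ (1 / 3 : ℝ)) ^ j) * ((1 + 3 * (N * y) ^ (1 / 3 : ℝ)) / N) ^ i := by
  have hC := hk.nonneg
  have hN0 : 0 < N := by linarith
  have hx : 0 < x := by linarith
  have hc := fopt_cube hN hy h1 h2
  set w := (N * y) ^ (1 / 3 : ℝ) with hw
  have hw0 : 0 ≤ w := by positivity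
  have hv0 : 0 ≤ (x * y) ^ (1 / 3 : ℝ) := by positivity
  have e1 : x ^ (-(i : ℝ)) ≤ (1 / N) ^ i := by
    rw [Real.rpow_neg hx.le, Real.rpow_natCast, one_div, inv_pow]
    exact inv_anti₀ (by positivity) (pow_le_pow_left₀ hN0.le h1 i)
  have e2 : (x * y) ^ (-(1 / 3 : ℝ)) ≤ (N * y) ^ (-(1 / 3 : ℝ)) :=
    Real.rpow_le_rpow_of_nonpos (by positivity) (mul_le_mul_of_nonneg_right h1 hy.le)
      (by norm_num)
  have e3 : (1 + (x * y) ^ (1 / 3 : ℝ)) ^ (i + j) ≤ (1 + 3 * w) ^ i * (3 ^ 8 * (1 + w) ^ j) := by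
    rw [pow_add]
    refine mul_le_mul (pow_le_pow_left₀ (by positivity) (by linarith) i) ?_ (by positivity)
      (by positivity)
    calc (1 + (x * y) ^ (1 / 3 : ℝ)) ^ j ≤ (3 * (1 + w)) ^ j :=
          pow_le_pow_left₀ (by positivity) (by linarith) j
      _ = 3 ^ j * (1 + w) ^ j := mul_pow _ _ _
      _ ≤ 3 ^ 8 * (1 + w) ^ j :=
          mul_le_mul_of_nonneg_right (pow_le_pow_right₀ (by norm_num) hj) (by positivity)
  calc ‖k i j x y‖ ≤ C * x ^ (-(i : ℝ)) * y ^ (-(j : ℝ)) * (x * y) ^ (-(1 / 3 : ℝ)) *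
        (1 + (x * y) ^ (1 / 3 : ℝ)) ^ (i + j) := hk.bd i hi j hj x hx y hy
    _ ≤ C * (1 / N) ^ i * y ^ (-(j : ℝ)) * (N * y) ^ (-(1 / 3 : ℝ)) *
        ((1 + 3 * w) ^ i * (3 ^ 8 * (1 + w) ^ j)) := by gcongr
    _ = _ := by rw [div_pow, div_pow, one_pow]; ring

theorem fopt_rad {N y θ : ℝ} (hN : 1 ≤ N) (hy : 0 < y) (hθ : θ ≤ 1) :
    N ^ (-θ) + (1 + 3 * (N * y) ^ (1 / 3 : ℝ)) / N ≤
      3 * (N ^ (-θ) + y ^ (1 / 3 : ℝ) * N ^ (-(2 / 3 : ℝ))) := by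
  have hN0 : 0 < N := by linarith
  have e1 : 1 / N ≤ N ^ (-θ) := by
    rw [one_div, ← Real.rpow_neg_one]
    exact Real.rpow_le_rpow_of_exponent_le hN (by linarith)
  have e2 : (N * y) ^ (1 / 3 : ℝ) / N = y ^ (1 / 3 : ℝ) * N ^ (-(2 / 3 : ℝ)) := by
    rw [Real.mul_rpow hN0.le hy.le, show (-(2 / 3 : ℝ)) = 1 / 3 - 1 by norm_num,
      Real.rpow_sub_one hN0.ne']
    ring
  have e3 : 0 ≤ N ^ (-θ) := by positivity
  rw [add_div, mul_div_assoc, e2]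
  linarith

theorem stOpT (hDB : StDB) : StOpT := by
  obtain ⟨D, hD0, hD⟩ := hDB
  obtain ⟨Cw, hCw, hwin⟩ := Cls.window
  intro k C hk J θ hJ1 hJ hθ0 hθ
  have hC := hk.nonneg
  refine ⟨D * Cw * C * 3 ^ 8 * 3 ^ J, by positivity, fun A a ha j hj y hy n => ?_⟩
  have hA := ha.nonneg
  have hW := W_pos ((n : ℝ) + 1)
  have hN : (1 : ℝ) ≤ n + 1 := by linarith [Nat.cast_nonneg (α := ℝ) n]
  have key := hD J hJ1 hJ (fun i x => conj (a i x)) (fun i x => k i j x y) ha.ch.conj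
    ((hk.hx j hj y hy).mono hJ) n (Cw * A * W (n + 1)) (((n : ℝ) + 1) ^ (-θ))
    (C * 3 ^ 8 * y ^ (-(j : ℝ)) * (((n : ℝ) + 1) * y) ^ (-(1 / 3 : ℝ)) *
      (1 + (((n : ℝ) + 1) * y) ^ (1 / 3 : ℝ)) ^ j)
    ((1 + 3 * (((n : ℝ) + 1) * y) ^ (1 / 3 : ℝ)) / ((n : ℝ) + 1))
    (by positivity) (by positivity) (by positivity) (by positivity)
    (fun i hi x h1 h2 => by
      rw [Complex.norm_conj]
      exact hwin J θ A a ha hθ0.le n i hi x h1 h2)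
    (fun i hi x h1 h2 => fopt_ker hk (hi.trans hJ) hj hN hy h1 (by linarith))
  have hr := fopt_rad hN hy (θ := θ) (by linarith)
  refine key.trans ?_
  calc _ ≤ D * (Cw * A * W (n + 1)) *
        (C * 3 ^ 8 * y ^ (-(j : ℝ)) * (((n : ℝ) + 1) * y) ^ (-(1 / 3 : ℝ)) *
          (1 + (((n : ℝ) + 1) * y) ^ (1 / 3 : ℝ)) ^ j) *
        (3 * (((n : ℝ) + 1) ^ (-θ) + y ^ (1 / 3 : ℝ) * ((n : ℝ) + 1) ^ (-(2 / 3 : ℝ)))) ^ J := by
        gcongr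
    _ = _ := by rw [mul_pow]; ring

end Pool.Agent.Bar58
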