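import Pool.Agent.Lib.MP_d79f69_nt.Bar.Basic

set_option autoImplicit false

namespace Pool.Agent.Bar58

open Complex MeasureTheory Set Filter Topology
open scoped ComplexConjugate

theorem fp1_diff (hGD : StGD) (ν : Fin 3 → ℝ) (θ : ℝ) (i : ℕ) {x : ℝ} (hx : 0 < x) :
    DifferentiableOn ℂ (fun s => gam (-ν) s * eta θ s * ff i s * (x : ℂ) ^ (-s))
      (Dom (HH ν)) := by
  have h1 : DifferentiableOn ℂ (gam (-ν)) (Dom (HH ν)) := by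
    have := (hGD (-ν)).1
    rwa [HH_neg] at this
  have hx0 : (x : ℂ) ≠ 0 := by exact_mod_cast hx.ne'
  have h4 : Differentiable ℂ fun s : ℂ => (x : ℂ) ^ (-s) :=
    Differentiable.const_cpow differentiable_neg (Or.inl hx0)
  exact ((h1.mul (differentiable_eta θ).differentiableOn).mul
    (differentiable_ff i).differentiableOn).mul h4.differentiableOn

theorem fp1_eq (ν : Fin 3 → ℝ) (θ : ℝ) (i : ℕ) {x : ℝ} (hx : 0 < x) :
    PP ν θ i x = ((x ^ (-(i : ℝ)) : ℝ) : ℂ) *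
      CI (HH ν) (fun s => gam (-ν) s * eta θ s * ff i s * (x : ℂ) ^ (-s)) := by
  unfold PP CI
  rw [mul_left_comm ((x ^ (-(i : ℝ)) : ℝ) : ℂ), ← integral_const_mul ((x ^ (-(i : ℝ)) : ℝ) : ℂ)]
  refine congrArg _ (congrArg _ (funext fun t => ?_))
  simp only [mono_eq i _ hx]
  ring

theorem fp1_t0 {x : ℝ} (hx : 0 < x) :
    (2 * Real.pi * x ^ (2 / 3 : ℝ)) ^ (-((3 / 2 : ℝ) / 3)) ≤ x ^ (-(1 / 3 : ℝ)) := by
  have h1 : 0 < x ^ (2 / 3 : ℝ) := Real.rpow_pos_of_pos hx _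
  have h2 : x ^ (2 / 3 : ℝ) ≤ 2 * Real.pi * x ^ (2 / 3 : ℝ) := by
    nlinarith [Real.pi_gt_three]
  calc (2 * Real.pi * x ^ (2 / 3 : ℝ)) ^ (-((3 / 2 : ℝ) / 3))
      ≤ (x ^ (2 / 3 : ℝ)) ^ (-((3 / 2 : ℝ) / 3)) :=
        Real.rpow_le_rpow_of_nonpos h1 h2 (by norm_num)
    _ = x ^ (-(1 / 3 : ℝ)) := by
        rw [← Real.rpow_mul hx.le]
        norm_num

theorem fp1_one (hGD : StGD) (hGP : StGP) (hCB : StCB) (ν : Fin 3 → ℝ) (i : ℕ) :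
    ∃ C : ℝ, 0 ≤ C ∧ (i ≤ 11 → ∀ θ : ℝ, 0 < θ → θ ≤ 1 → ∀ x : ℝ, 0 < x →
      ‖PP ν θ i x‖ ≤ C * θ * x ^ (-(i : ℝ)) *
        (x ^ (-(1 / 3 : ℝ)) + (1 + 2 * Real.pi * x ^ (2 / 3 : ℝ)) ^ (i + 1) *
          Real.exp (-(θ * (2 * Real.pi * x ^ (2 / 3 : ℝ)) / 4)))) := by
  by_cases hi : i ≤ 11
  swap
  · exact ⟨0, le_rfl, fun h => absurd h hi⟩
  have hi' : (i : ℝ) ≤ 11 := by exact_mod_cast hi
  obtain ⟨M, hM, hMb⟩ := hGP ν i
  obtain ⟨C, hC, hCb⟩ := hCB (3 / 2) (i + 1 / 2) (HH ν) (by norm_num) (ten_le_HH ν) (by linarith)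
  refine ⟨C * M, mul_nonneg hC hM, fun _ θ h0 h1 x hx => ?_⟩
  have ht0 : 0 < 2 * Real.pi * x ^ (2 / 3 : ℝ) := by
    have := Real.rpow_pos_of_pos hx (2 / 3 : ℝ)
    have := Real.pi_pos
    positivity
  obtain ⟨hs, hm⟩ := hMb θ h0 h1 x hx
  have hb := hCb θ (M * θ) _ _ h0.le (mul_nonneg hM h0.le) ht0 (fp1_diff hGD ν θ i hx) hs hm
  have hp : (1 + 2 * Real.pi * x ^ (2 / 3 : ℝ)) ^ ((i : ℝ) + 1 / 2 + 1 / 2) =
      (1 + 2 * Real.pi * x ^ (2 / 3 : ℝ)) ^ (i + 1) := by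
    rw [← Real.rpow_natCast]
    congr 1
    push_cast
    ring
  rw [hp] at hb
  have hxi : 0 < x ^ (-(i : ℝ)) := Real.rpow_pos_of_pos hx _
  rw [fp1_eq ν θ i hx, norm_mul, Complex.norm_real, Real.norm_of_nonneg hxi.le]
  have hc : 0 ≤ C * (M * θ) := mul_nonneg hC (mul_nonneg hM h0.le)
  have hb2 := hb.trans (mul_le_mul_of_nonneg_left (add_le_add_left (fp1_t0 hx) _) hc)
  calc _ ≤ x ^ (-(i : ℝ)) * _ := mul_le_mul_of_nonneg_left hb2 hxi.le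
    _ = _ := by ring

theorem fp1_chain (hGD : StGD) (hGP : StGP) (hDec : StDec) (hMC : StMC) (ν : Fin 3 → ℝ) {θ : ℝ}
    (h0 : 0 < θ) (h1 : θ ≤ 1) : Chain 11 (PP ν θ) := by
  obtain ⟨M, hM, hMb⟩ := hGP ν 0
  obtain ⟨hs, -⟩ := hMb θ h0 h1 1 one_pos
  have ht0 : 0 < 2 * Real.pi * (1 : ℝ) ^ (2 / 3 : ℝ) := by
    have := Real.pi_pos
    positivity
  have hd := hDec (3 / 2) _ (HH ν) θ (M * θ) _ 11 _ (by norm_num) (ten_le_HH ν) (by norm_num)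
    h0.le (mul_nonneg hM h0.le) ht0 (fp1_diff hGD ν θ 0 one_pos) hs
  have hd' : Dec 11 fun t => gam (-ν) (cs (HH ν) t) * eta θ (cs (HH ν) t) * cd (HH ν) t := by
    simpa [ff] using hd
  exact (hMC (cs (HH ν)) _ 11 (continuous_cs _) (abs_cs_re _) (norm_cs_le _) hd').1.const_mul
    (1 / (2 * Real.pi * I))

theorem stP1 (hGD : StGD) (hGP : StGP) (hDec : StDec) (hCB : StCB) (hMC : StMC) : StP1 := by
  intro ν
  choose C hC hCb using fp1_one hGD hGP hCB ν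
  refine ⟨∑ i ∈ Finset.range 12, C i, Finset.sum_nonneg fun i _ => hC i, fun θ h0 h1 =>
    ⟨fp1_chain hGD hGP hDec hMC ν h0 h1, fun i hi x hx => (hCb i hi θ h0 h1 x hx).trans ?_⟩⟩
  have hle : C i ≤ ∑ i ∈ Finset.range 12, C i :=
    Finset.single_le_sum (fun i _ => hC i) (Finset.mem_range.2 (by omega))
  have := Real.pi_pos
  gcongr

end Pool.Agent.Bar58
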