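import Pool.Agent.Lib.MP_d79f69_nt.Bar.Basic

set_option autoImplicit false

namespace Pool.Agent.Bar58

open Complex MeasureTheory Set Filter Topology
open scoped ComplexConjugate

/-- crude majorant -/
noncomputable def fp2g (i : ℕ) (x : ℝ) : ℝ :=
  x ^ (-(i : ℝ)) * (x ^ (-(1 / 3 : ℝ)) + (1 + 2 * Real.pi * x ^ (2 / 3 : ℝ)) ^ (i + 1))

theorem fp2_bdd (i : ℕ) {x : ℝ} (hx : 0 < x) :
    ∃ K : ℝ, ∀ y ∈ Ioo (x / 2) (2 * x), fp2g i y ≤ K := by
  have hc : ContinuousOn (fp2g i) (Icc (x / 2) (2 * x)) := by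
    have h0 : ∀ e : ℝ, ContinuousOn (fun y : ℝ => y ^ e) (Icc (x / 2) (2 * x)) := fun e =>
      continuousOn_id.rpow_const fun y hy => Or.inl (ne_of_gt (by
        simp only [id]
        linarith [hy.1]))
    exact (h0 _).mul ((h0 _).add ((continuousOn_const.add (continuousOn_const.mul (h0 _))).pow _))
  obtain ⟨K, hK⟩ := isCompact_Icc.exists_bound_of_continuousOn hc
  exact ⟨K, fun y hy => (le_abs_self _).trans (hK y (Ioo_subset_Icc_self hy))⟩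

theorem fp2_t0 {x : ℝ} (hx : 1 ≤ x) : 1 + 2 * Real.pi * x ^ (2 / 3 : ℝ) ≤ 9 * x ^ (2 / 3 : ℝ) := by
  have h1 : 1 ≤ x ^ (2 / 3 : ℝ) := Real.one_le_rpow hx (by norm_num)
  nlinarith [Real.pi_le_four]

theorem fp2_W {x : ℝ} (hx : 1 ≤ x) :
    Real.exp √(Real.log (1 + 2 * Real.pi * x ^ (2 / 3 : ℝ))) ≤ W (27 * x) := by
  have hx0 : 0 < x := by linarith
  refine Real.exp_le_exp.2 (Real.sqrt_le_sqrt ?_)
  have h1 : Real.log (1 + 2 * Real.pi * x ^ (2 / 3 : ℝ)) ≤ Real.log (9 * x ^ (2 / 3 : ℝ)) :=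
    Real.log_le_log (by positivity) (fp2_t0 hx)
  have h2 : Real.log (27 * x) ≤ Real.log (1 + 27 * x) :=
    Real.log_le_log (by positivity) (by linarith)
  have h3 : Real.log 9 = 2 * Real.log 3 := by
    rw [show (9 : ℝ) = 3 ^ 2 by norm_num, Real.log_pow]
    norm_num
  have h4 : Real.log 27 = 3 * Real.log 3 := by
    rw [show (27 : ℝ) = 3 ^ 3 by norm_num, Real.log_pow]
    norm_num
  rw [Real.log_mul (by norm_num) (by positivity), Real.log_rpow hx0] at h1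
  rw [Real.log_mul (by norm_num) hx0.ne'] at h2
  linarith

theorem fp2_pow {x : ℝ} (hx : 1 ≤ x) {i : ℕ} (hi : i ≤ 11) :
    x ^ (-(i : ℝ)) * (1 + 2 * Real.pi * x ^ (2 / 3 : ℝ)) ^ i ≤
      9 ^ 11 * x ^ (-((i : ℝ) * (1 / 3))) := by
  have hx0 : 0 < x := by linarith
  have h1 : (1 + 2 * Real.pi * x ^ (2 / 3 : ℝ)) ^ i ≤ (9 * x ^ (2 / 3 : ℝ)) ^ i :=
    pow_le_pow_left₀ (by positivity) (fp2_t0 hx) i
  have h2 : (9 : ℝ) ^ i ≤ 9 ^ 11 := pow_le_pow_right₀ (by norm_num) hi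
  have h3 : x ^ (-(i : ℝ)) * (x ^ (2 / 3 : ℝ)) ^ i = x ^ (-((i : ℝ) * (1 / 3))) := by
    rw [← Real.rpow_natCast, ← Real.rpow_mul hx0.le, ← Real.rpow_add hx0]
    congr 1
    ring
  calc _ ≤ x ^ (-(i : ℝ)) * (9 * x ^ (2 / 3 : ℝ)) ^ i := by gcongr
    _ = 9 ^ i * x ^ (-((i : ℝ) * (1 / 3))) := by rw [mul_pow, ← h3]; ring
    _ ≤ _ := by gcongr

theorem fp2_small {x : ℝ} (hx : 0 < x) (h1 : x ≤ 1) : fp2g 0 x ≤ 10 * x ^ (-(2 / 5 : ℝ)) := by
  have h2 : x ^ (-(1 / 3 : ℝ)) ≤ x ^ (-(2 / 5 : ℝ)) :=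
    Real.rpow_le_rpow_of_exponent_ge hx h1 (by norm_num)
  have h3 : 1 ≤ x ^ (-(2 / 5 : ℝ)) :=
    Real.one_le_rpow_of_pos_of_le_one_of_nonpos hx h1 (by norm_num)
  have h4 : x ^ (2 / 3 : ℝ) ≤ 1 := Real.rpow_le_one hx.le h1 (by norm_num)
  have h5 : 0 ≤ x ^ (2 / 3 : ℝ) := by positivity
  simp only [fp2g, Nat.cast_zero, neg_zero, Real.rpow_zero, one_mul, zero_add, pow_one]
  nlinarith [Real.pi_le_four, Real.pi_pos]

theorem stP2 (hP1 : StP1) (hP2a : StP2a) : StP2 := by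
  intro ν β B hβ
  obtain ⟨C, hC, hP⟩ := hP1 ν
  obtain ⟨hS, C2, hC2, h2⟩ := hP2a
  obtain ⟨C3, hC3, h3⟩ := W_const_mul 27
  have hB : 0 ≤ B := (abs_nonneg _).trans (hβ 0)
  have hot : ∀ j, 0 ≤ om j * th j := fun j => (mul_pos (om_pos j) (th_pos j)).le
  have hS0 : 0 ≤ ∑' j, om j * th j := tsum_nonneg hot
  have hterm : ∀ i ≤ 11, ∀ x : ℝ, 0 < x → ∀ j, ‖((β j * om j : ℝ) : ℂ) * PP ν (th j) i x‖ ≤
      B * C * (x ^ (-(i : ℝ)) * x ^ (-(1 / 3 : ℝ))) * (om j * th j) +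
      B * C * (x ^ (-(i : ℝ)) * (1 + 2 * Real.pi * x ^ (2 / 3 : ℝ)) ^ i) *
        (om j * th j * ((1 + 2 * Real.pi * x ^ (2 / 3 : ℝ)) *
          Real.exp (-(th j * (2 * Real.pi * x ^ (2 / 3 : ℝ)) / 4)))) := by
    intro i hi x hx j
    have h1 := (hP (th j) (th_pos j) (th_le_one j)).2 i hi x hx
    rw [norm_mul, Complex.norm_real, Real.norm_eq_abs, abs_mul, abs_of_pos (om_pos j)]
    refine (mul_le_mul (mul_le_mul_of_nonneg_right (hβ j) (om_pos j).le) h1 (norm_nonneg _)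
      (mul_nonneg hB (om_pos j).le)).trans (le_of_eq ?_)
    ring
  have hexp : ∀ (j : ℕ) (x : ℝ), 0 < x →
      Real.exp (-(th j * (2 * Real.pi * x ^ (2 / 3 : ℝ)) / 4)) ≤ 1 := by
    intro j x hx
    have := th_pos j
    exact Real.exp_le_one_iff.2 (neg_nonpos.2 (by positivity))
  have hcrude : ∀ i ≤ 11, ∀ x : ℝ, 0 < x → ∀ j, ‖((β j * om j : ℝ) : ℂ) * PP ν (th j) i x‖ ≤
      B * C * fp2g i x * (om j * th j) := by
    intro i hi x hx j
    refine (hterm i hi x hx j).trans ?_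
    have h4 := hexp j x hx
    have h5 := hot j
    calc _ ≤ B * C * (x ^ (-(i : ℝ)) * x ^ (-(1 / 3 : ℝ))) * (om j * th j) +
        B * C * (x ^ (-(i : ℝ)) * (1 + 2 * Real.pi * x ^ (2 / 3 : ℝ)) ^ i) *
          (om j * th j * ((1 + 2 * Real.pi * x ^ (2 / 3 : ℝ)) * 1)) := by gcongr
      _ = _ := by
        unfold fp2g
        ring
  have hsum : ∀ i ≤ 11, ∀ x : ℝ, 0 < x →
      Summable fun j => ‖((β j * om j : ℝ) : ℂ) * PP ν (th j) i x‖ := fun i hi x hx =>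
    Summable.of_nonneg_of_le (fun _ => norm_nonneg _) (hcrude i hi x hx) (hS.mul_left _)
  refine ⟨⟨B * C * ((∑' j, om j * th j) * 10 + 9 ^ 11 * C2 * C3), fun i hi x hx => ?_,
    fun i hi x hx => ?_, fun x hx h1 => ?_⟩, hsum 0 (by norm_num)⟩
  · obtain ⟨K, hK⟩ := fp2_bdd (i + 1) hx
    have hm : x ∈ Ioo (x / 2) (2 * x) := ⟨by linarith, by linarith⟩
    refine hasDerivAt_tsum_of_isPreconnected (hS.mul_left (B * C * K)) isOpen_Ioo
      isPreconnected_Ioo (g := fun j y => ((β j * om j : ℝ) : ℂ) * PP ν (th j) i y)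
      (g' := fun j y => ((β j * om j : ℝ) : ℂ) * PP ν (th j) (i + 1) y)
      (fun j y hy => ((hP (th j) (th_pos j) (th_le_one j)).1 i hi y
        (by linarith [hy.1])).const_mul _)
      (fun j y hy => (hcrude (i + 1) hi y (by linarith [hy.1]) j).trans ?_) hm
      (hsum i hi.le x hx).of_norm hm
    have h4 := hK y hy
    have h5 := hot j
    gcongr
  · have hx0 : 0 < x := by linarith
    have ht : 0 ≤ 2 * Real.pi * x ^ (2 / 3 : ℝ) := by positivity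
    have hs2 : Summable fun j => om j * th j * ((1 + 2 * Real.pi * x ^ (2 / 3 : ℝ)) *
        Real.exp (-(th j * (2 * Real.pi * x ^ (2 / 3 : ℝ)) / 4))) := by
      refine Summable.of_nonneg_of_le (fun j => mul_nonneg (hot j) (by positivity)) (fun j => ?_)
        (hS.mul_right ((1 + 2 * Real.pi * x ^ (2 / 3 : ℝ)) * 1))
      have h4 := hexp j x hx0
      have h5 := hot j
      gcongr
    have h4 := tsum_of_norm_bounded
      ((hS.hasSum.mul_left _).add (hs2.hasSum.mul_left _)) (hterm i hi x hx0)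
    refine h4.trans ?_
    have h5 := ((h2 _ ht).trans (mul_le_mul_of_nonneg_left
      ((fp2_W hx).trans (h3 x (27 * x) hx0.le (by positivity) le_rfl)) hC2))
    have h6 := fp2_pow hx hi
    have h7 : x ^ (-(i : ℝ)) * x ^ (-(1 / 3 : ℝ)) ≤ 10 * W x * x ^ (-((i : ℝ) * (1 / 3))) := by
      rw [← Real.rpow_add hx0]
      have h8 : x ^ (-(i : ℝ) + -(1 / 3 : ℝ)) ≤ x ^ (-((i : ℝ) * (1 / 3))) :=
        Real.rpow_le_rpow_of_exponent_le hx (by linarith [Nat.cast_nonneg (α := ℝ) i])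
      have h9 : 0 ≤ x ^ (-((i : ℝ) * (1 / 3))) := by positivity
      nlinarith [one_le_W x]
    have h10 := W_pos x
    have h11 : 0 ≤ ∑' j, om j * th j * ((1 + 2 * Real.pi * x ^ (2 / 3 : ℝ)) *
        Real.exp (-(th j * (2 * Real.pi * x ^ (2 / 3 : ℝ)) / 4))) :=
      tsum_nonneg fun j => mul_nonneg (hot j) (by positivity)
    calc _ ≤ B * C * (10 * W x * x ^ (-((i : ℝ) * (1 / 3)))) * (∑' j, om j * th j) +
        B * C * (9 ^ 11 * x ^ (-((i : ℝ) * (1 / 3)))) * (C2 * (C3 * W x)) := by gcongr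
      _ = _ := by ring
  · have h4 := tsum_of_norm_bounded (hS.hasSum.mul_left _) (hcrude 0 (by norm_num) x hx)
    refine h4.trans ?_
    have h5 := fp2_small hx h1
    have h6 : 0 ≤ 9 ^ 11 * C2 * C3 := by
      have : 0 ≤ C3 := by linarith
      positivity
    calc _ ≤ B * C * (10 * x ^ (-(2 / 5 : ℝ))) * ∑' j, om j * th j := by gcongr
      _ = B * C * ((∑' j, om j * th j) * 10 + 0) * x ^ (-(2 / 5 : ℝ)) := by ring
      _ ≤ _ := by gcongr

end Pool.Agent.Bar58
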