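import Pool.Agent.Lib.MP_d79f69_nt.Bar.Basic

set_option autoImplicit false

namespace Pool.Agent.Bar58

open Complex MeasureTheory Set Filter Topology
open scoped ComplexConjugate

theorem fp3_diff (hGD : StGD) (ν : Fin 3 → ℝ) (θ : ℝ) {r : ℝ} (hr : 0 < r) {w : ℂ}
    (h1 : w ∈ Dom (HH ν)) (h2 : 1 - w ∈ Dom (HH ν)) :
    DifferentiableAt ℂ (fun w => gam (-ν) w * eta θ w * (gam ν (1 - w) * (r : ℂ) ^ (w - 1))) w := by
  have a1 : DifferentiableAt ℂ (gam (-ν)) w := by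
    have := (hGD (-ν)).1
    rw [HH_neg] at this
    exact this.differentiableAt ((isOpen_Dom _).mem_nhds h1)
  have a2 : DifferentiableAt ℂ (fun w => gam ν (1 - w)) w :=
    ((hGD ν).1.differentiableAt ((isOpen_Dom _).mem_nhds h2)).comp w
      (differentiableAt_id.const_sub 1)
  have a3 : DifferentiableAt ℂ (fun w : ℂ => (r : ℂ) ^ (w - 1)) w :=
    (differentiableAt_id.sub_const 1).const_cpow (Or.inl (ofReal_ne_zero.2 hr.ne'))
  exact (a1.mul (differentiable_eta θ w)).mul (a2.mul a3)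

theorem fp3_bound (hGV : StGV) (ν : Fin 3 → ℝ) {θ r : ℝ} (h0 : 0 < θ) (h1 : θ ≤ 1) (hr : 0 < r) :
    ∃ C : ℝ, ∀ σ t : ℝ, -20 ≤ σ → σ ≤ 1 / 3 → HH ν ≤ |t| →
      ‖gam (-ν) (σ + t * I) * eta θ (σ + t * I) *
        (gam ν (1 - (σ + t * I)) * (r : ℂ) ^ ((σ : ℂ) + t * I - 1))‖ ≤ C * Real.exp (-|t|) := by
  obtain ⟨C1, p1, b1⟩ := hGV (-ν) (-20) (1 / 3)
  obtain ⟨C2, p2, b2⟩ := hGV ν (2 / 3) 21
  obtain ⟨C3, p3, b3⟩ := poly_exp_le 2 (c := 1 / 2) (by norm_num)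
  refine ⟨C1 * 441 * C2 * Real.exp (21 * |Real.log r|) * C3, fun σ t s1 s2 ht => ?_⟩
  have t0 := abs_nonneg t
  have a1 := b1 σ t s1 s2 (Or.inr (by rwa [HH_neg]))
  have a2 := b2 (1 - σ) (-t) (by linarith) (by linarith) (Or.inl (by norm_num))
  rw [abs_neg, show (((1 - σ : ℝ) : ℂ) + ((-t : ℝ) : ℂ) * I) = 1 - (σ + t * I) by
    push_cast; ring] at a2
  have a3 : ‖eta θ (σ + t * I)‖ ≤ 441 * (1 + |t|) ^ 2 * Real.exp (5 / 2 * |t|) := by
    refine (norm_eta_le h0.le h1 _).trans ?_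
    have e1 : ((σ : ℂ) + t * I).im = t := by simp
    have e2 : ‖(σ : ℂ) + t * I - 1 / 2‖ ≤ 21 * (1 + |t|) := by
      rw [show (σ : ℂ) + t * I - 1 / 2 = ((σ - 1 / 2 : ℝ) : ℂ) + t * I by push_cast; ring]
      refine (norm_add_le _ _).trans ?_
      rw [norm_mul, norm_I, mul_one, norm_real, norm_real, Real.norm_eq_abs, Real.norm_eq_abs]
      have : |σ - 1 / 2| ≤ 21 := abs_le.2 ⟨by linarith, by linarith⟩
      linarith
    have e3 : ‖(σ : ℂ) + t * I - 1 / 2‖ ^ 2 ≤ (21 * (1 + |t|)) ^ 2 := by gcongr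
    have e4 : Real.exp ((3 * Real.pi / 4 - θ) * |t|) ≤ Real.exp (5 / 2 * |t|) :=
      Real.exp_le_exp.2 (mul_le_mul_of_nonneg_right (by linarith [Real.pi_lt_d2]) t0)
    rw [e1]
    refine mul_le_mul ?_ e4 (Real.exp_pos _).le (by positivity)
    nlinarith [sq_nonneg ‖(σ : ℂ) + t * I - 1 / 2‖]
  have a4 : ‖(r : ℂ) ^ ((σ : ℂ) + t * I - 1)‖ ≤ Real.exp (21 * |Real.log r|) := by
    rw [norm_cpow_eq_rpow_re_of_pos hr, Real.rpow_def_of_pos hr, Real.exp_le_exp,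
      show ((σ : ℂ) + t * I - 1).re = σ - 1 by simp]
    refine (le_abs_self _).trans ?_
    rw [abs_mul, mul_comm]
    exact mul_le_mul_of_nonneg_right (abs_le.2 ⟨by linarith, by linarith⟩) (abs_nonneg _)
  have a5 := b3 |t| t0
  have e : Real.exp (-(2 * |t|)) * Real.exp (5 / 2 * |t|) * Real.exp (-(2 * |t|)) =
      Real.exp (-(1 / 2 * |t|)) * Real.exp (-|t|) := by
    rw [← Real.exp_add, ← Real.exp_add, ← Real.exp_add]
    congr 1
    ring
  rw [norm_mul, norm_mul, norm_mul]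
  calc _ ≤ C1 * Real.exp (-(2 * |t|)) * (441 * (1 + |t|) ^ 2 * Real.exp (5 / 2 * |t|)) *
        (C2 * Real.exp (-(2 * |t|)) * Real.exp (21 * |Real.log r|)) := by gcongr
    _ = C1 * 441 * C2 * Real.exp (21 * |Real.log r|) *
        ((1 + |t|) ^ 2 * Real.exp (-(1 / 2 * |t|))) * Real.exp (-|t|) := by
      linear_combination (C1 * 441 * C2 * Real.exp (21 * |Real.log r|) * (1 + |t|) ^ 2) * e
    _ ≤ _ := by gcongr

theorem stP3 (hGD : StGD) (hGP : StGP) (hGV : StGV) (hDec : StDec) (hStr : StStr)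
    (hPair : StPair) : StP3 := by
  intro ν θ r h0 h1 hr
  obtain ⟨M, hM, hb⟩ := hGP ν 0
  have hs := (hb θ h0 h1 1 one_pos).1
  have e0 : (fun s : ℂ => gam (-ν) s * eta θ s * ff 0 s * ((1 : ℝ) : ℂ) ^ (-s)) =
      fun s => gam (-ν) s * eta θ s := by
    funext s
    simp [ff]
  rw [e0] at hs
  have hd : DifferentiableOn ℂ (fun s => gam (-ν) s * eta θ s) (Dom (HH ν)) := by
    have := (hGD (-ν)).1
    rw [HH_neg] at this
    exact this.mul (differentiable_eta θ).differentiableOn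
  have hφ := hDec _ _ _ _ _ _ 0 _ (by norm_num) (ten_le_HH ν) (by norm_num) h0.le
    (mul_nonneg hM h0.le) (by have := Real.pi_pos; positivity) hd hs
  have hp := hPair ν (HH ν) _ hφ r hr
  have hS := hStr (HH ν) (fun w => gam (-ν) w * eta θ w * (gam ν (1 - w) * (r : ℂ) ^ (w - 1)))
    (ten_le_HH ν)
    (fun w hw => (fp3_diff hGD ν θ hr (Or.inr hw)
      (Or.inr (by rw [sub_im, one_im, zero_sub, abs_neg]; exact hw))).differentiableWithinAt)
    (continuous_iff_continuousAt.2 fun t =>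
      (fp3_diff hGD ν θ hr (w := 1 / 3 + t * I) (Or.inl (by simp)) (Or.inl (by
        simp only [sub_re, one_re, add_re, div_ofNat_re, mul_re, ofReal_re, I_re, ofReal_im, I_im]
        norm_num))).continuousAt.comp_of_eq
        (f := fun t : ℝ => (1 / 3 : ℂ) + t * I) (by fun_prop) rfl)
    (fp3_bound hGV ν h0 h1 hr)
  have e1 : ∫ x in Ioi (0 : ℝ), PP ν θ 0 x * TT ν 0 (r * x) = CI (HH ν)
      (fun w => gam (-ν) w * eta θ w * (gam ν (1 - w) * (r : ℂ) ^ (w - 1))) := by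
    simp only [PP, mul_assoc (1 / (2 * (Real.pi : ℂ) * I))]
    rw [integral_const_mul, hp, CI]
    congr 2
    funext t
    ring
  rw [e1, hS, mellinInv_eq, ← integral_neg_eq_self]
  congr 2
  funext t
  have e2 : (((2 / 3 : ℝ) : ℂ) + t * I) = 1 - (1 / 3 + ((-t : ℝ) : ℂ) * I) := by push_cast; ring
  rw [e2, eta_symm, sub_sub_cancel, neg_sub]
  ring

end Pool.Agent.Bar58
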