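import Pool.Agent.Lib.MP_d79f69_nt.Bar.Basic

set_option autoImplicit false

namespace Pool.Agent.Bar58

open Complex MeasureTheory Set Filter Topology
open scoped ComplexConjugate

theorem fp4a_term {β : ℕ → ℝ} {B : ℝ} (hB : ∀ j, |β j| ≤ B) (j : ℕ) (s : ℂ) :
    ‖((β j * om j : ℝ) : ℂ) * eta (th j) s‖ ≤
      om j * th j * (B * (‖s - 1 / 2‖ ^ 2 * Real.exp (5 / 2 * |s.im|))) := by
  have h1 := norm_eta_le (th_pos j).le (th_le_one j) s
  have h2 : Real.exp ((3 * Real.pi / 4 - th j) * |s.im|) ≤ Real.exp (5 / 2 * |s.im|) :=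
    Real.exp_le_exp.2 (mul_le_mul_of_nonneg_right (by linarith [Real.pi_lt_d2, th_pos j])
      (abs_nonneg _))
  have h3 := h1.trans (mul_le_mul_of_nonneg_left h2 (mul_nonneg (th_pos j).le (sq_nonneg _)))
  rw [norm_mul, norm_real, Real.norm_eq_abs, abs_mul, abs_of_pos (om_pos j)]
  exact (mul_le_mul (mul_le_mul_of_nonneg_right (hB j) (om_pos j).le) h3 (norm_nonneg _)
    (mul_nonneg ((abs_nonneg _).trans (hB j)) (om_pos j).le)).trans_eq (by ring)

theorem fp4a_diff (hs : Summable fun j => om j * th j) {β : ℕ → ℝ} {B : ℝ}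
    (hB : ∀ j, |β j| ≤ B) : Differentiable ℂ (etaS β) := by
  intro s
  have hB0 : 0 ≤ B := (abs_nonneg _).trans (hB 0)
  have h := differentiableOn_tsum_of_summable_norm (U := Metric.ball 0 (‖s‖ + 1))
    (F := fun j w => ((β j * om j : ℝ) : ℂ) * eta (th j) w)
    (hs.mul_right (B * ((‖s‖ + 2) ^ 2 * Real.exp (5 / 2 * (‖s‖ + 1)))))
    (fun j => ((differentiable_eta (th j)).const_mul _).differentiableOn) Metric.isOpen_ball
    fun j w hw => by
      have a : ‖w‖ < ‖s‖ + 1 := by simpa using hw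
      have b : ‖w - 1 / 2‖ ≤ ‖s‖ + 2 := by
        have := norm_sub_le w (1 / 2)
        rw [norm_div, norm_one, Complex.norm_two] at this
        linarith
      have c := abs_im_le_norm w
      refine (fp4a_term hB j w).trans (mul_le_mul_of_nonneg_left (mul_le_mul_of_nonneg_left ?_ hB0)
        (mul_pos (om_pos j) (th_pos j)).le)
      exact mul_le_mul (pow_le_pow_left₀ (norm_nonneg _) b 2) (Real.exp_le_exp.2 (by linarith))
        (Real.exp_pos _).le (sq_nonneg _)
  exact h.differentiableAt (Metric.isOpen_ball.mem_nhds (by simp))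

theorem stP4a (hGD : StGD) (hGV : StGV) (hP2a : StP2a) : StP4a := by
  intro ν β B hB
  have hB0 : 0 ≤ B := (abs_nonneg _).trans (hB 0)
  refine ⟨?_, ?_, fun s => ?_⟩
  · refine (((hGD ν).1.mono fun s hs => Or.inl hs.1).mul ?_).mul
      (fp4a_diff hP2a.1 hB).differentiableOn
    exact (hGD (-ν)).1.comp (f := fun s => 1 - s) (by fun_prop) fun s hs =>
      Or.inl (by simpa using hs.2)
  · obtain ⟨C1, c1, h1⟩ := hGV ν (1 / 3) (2 / 3)
    obtain ⟨C2, c2, h2⟩ := hGV (-ν) (1 / 3) (2 / 3)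
    obtain ⟨C3, c3, h3⟩ := poly_exp_le 2 (c := 1 / 2) (by norm_num)
    have s0 : 0 ≤ ∑' j, om j * th j := tsum_nonneg fun j => (mul_pos (om_pos j) (th_pos j)).le
    refine ⟨C1 * C2 * ((∑' j, om j * th j) * B) * C3, by positivity, fun σ t a b => ?_⟩
    have k1 := h1 σ t a b (Or.inl (by norm_num))
    have k2 := h2 (1 - σ) (-t) (by linarith) (by linarith) (Or.inl (by norm_num))
    rw [abs_neg, show ((1 - σ : ℝ) : ℂ) + ((-t : ℝ) : ℂ) * I = 1 - (σ + t * I) by
      push_cast; ring] at k2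
    have k3 : ‖etaS β (σ + t * I)‖ ≤ _ :=
      tsum_of_norm_bounded (hP2a.1.hasSum.mul_right _) fun j => fp4a_term hB j (σ + t * I)
    have k4 : ‖(σ : ℂ) + t * I - 1 / 2‖ ≤ 1 + |t| := by
      have := norm_add_le (((σ - 1 / 2 : ℝ) : ℂ)) (t * I)
      rw [norm_mul, norm_I, mul_one, norm_real, norm_real, Real.norm_eq_abs, Real.norm_eq_abs,
        show ((σ - 1 / 2 : ℝ) : ℂ) + t * I = σ + t * I - 1 / 2 by push_cast; ring] at this
      linarith [abs_le.2 (show -1 ≤ σ - 1 / 2 ∧ σ - 1 / 2 ≤ 1 by constructor <;> linarith)]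
    have e : ((σ : ℂ) + t * I).im = t := by simp
    rw [e] at k3
    have k5 := k3.trans (mul_le_mul_of_nonneg_left (mul_le_mul_of_nonneg_left
      (mul_le_mul_of_nonneg_right (pow_le_pow_left₀ (norm_nonneg _) k4 2) (Real.exp_pos _).le)
      hB0) s0)
    have k6 : Real.exp (-(2 * |t|)) * Real.exp (-(2 * |t|)) * Real.exp (5 / 2 * |t|)
        = Real.exp (-(1 / 2 * |t|)) * Real.exp (-|t|) := by
      rw [← Real.exp_add, ← Real.exp_add, ← Real.exp_add]; congr 1; ring
    have k7 := mul_le_mul_of_nonneg_left (h3 |t| (abs_nonneg t))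
      (show 0 ≤ C1 * C2 * ((∑' j, om j * th j) * B) * Real.exp (-|t|) by positivity)
    rw [hh, norm_mul, norm_mul]
    refine (mul_le_mul (mul_le_mul k1 k2 (norm_nonneg _) (by positivity)) k5 (norm_nonneg _)
      (by positivity)).trans (le_of_eq_of_le ?_ (k7.trans_eq (by ring)))
    linear_combination C1 * C2 * ((∑' j, om j * th j) * B) * (1 + |t|) ^ 2 * k6
  · have e : etaS β (1 - conj s) = conj (etaS β s) := by
      rw [etaS, etaS, Complex.conj_tsum]
      exact tsum_congr fun j => by rw [map_mul, conj_ofReal, eta_conj, eta_symm]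
    rw [hh, hh, map_mul, map_mul, (hGD ν).2.2.1, (hGD (-ν)).2.2.1, neg_neg, e, map_sub, map_one,
      sub_sub_cancel, mul_comm (gam ν _)]

end Pool.Agent.Bar58
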