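import Pool.Agent.Lib.MP_d79f69_nt.Bar.Basic

set_option autoImplicit false

namespace Pool.Agent.Bar58

open Complex MeasureTheory Set Filter Topology
open scoped ComplexConjugate

theorem fp4b_sum {μ : Measure ℝ} {F : ℕ → ℝ → ℂ} {G : ℝ → ℝ} {u : ℕ → ℝ} (hG : Integrable G μ)
    (hu : Summable u) (hF : ∀ j, AEStronglyMeasurable (F j) μ)
    (hb : ∀ j, ∀ᵐ x ∂μ, ‖F j x‖ ≤ u j * G x) :
    HasSum (fun j => ∫ x, F j x ∂μ) (∫ x, ∑' j, F j x ∂μ) := by
  have hi : ∀ j, Integrable (F j) μ := fun j => (hG.const_mul (u j)).mono' (hF j) (hb j)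
  refine hasSum_integral_of_summable_integral_norm hi
    (Summable.of_nonneg_of_le (fun j => integral_nonneg fun x => norm_nonneg _) (fun j => ?_)
      (hu.mul_right (∫ x, G x ∂μ)))
  rw [← integral_const_mul]
  exact integral_mono_ae (hi j).norm (hG.const_mul (u j)) (hb j)

theorem fp4b_mel {T : ℝ → ℂ} (hT : ∀ s : ℂ, 0 < s.re → MellinConvergent T s) {r : ℝ} (hr : 0 < r)
    {e : ℝ} (he : -1 < e) : IntegrableOn (fun x : ℝ => x ^ e * ‖T (r * x)‖) (Ioi 0) := by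
  have h1 : MellinConvergent (fun x => T (r * x)) ((e + 1 : ℝ) : ℂ) :=
    (MellinConvergent.comp_mul_left hr).2 (hT _ (by rw [ofReal_re]; linarith))
  refine IntegrableOn.congr_fun (Integrable.norm h1) (fun x hx => ?_) measurableSet_Ioi
  simp only [norm_smul]
  rw [norm_cpow_eq_rpow_re_of_pos hx, sub_re, ofReal_re, one_re, add_sub_cancel_right]

theorem fp4b_coef {β : ℕ → ℝ} {B : ℝ} (hB : ∀ j, |β j| ≤ B) (j : ℕ) :
    ‖((β j * om j : ℝ) : ℂ)‖ ≤ B * om j := by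
  rw [norm_real, Real.norm_eq_abs, abs_mul, abs_of_pos (om_pos j)]
  exact mul_le_mul_of_nonneg_right (hB j) (om_pos j).le

theorem fp4b_line (hGV : StGV) (ν : Fin 3 → ℝ) : ∃ C : ℝ, 0 ≤ C ∧ ∀ θ : ℝ, 0 < θ → θ ≤ 1 →
    ∀ t : ℝ, ‖gam ν ((2 / 3 : ℝ) + t * I) * gam (-ν) (1 - ((2 / 3 : ℝ) + t * I)) *
      eta θ ((2 / 3 : ℝ) + t * I)‖ ≤ C * θ * Real.exp (-|t|) := by
  obtain ⟨C1, c1, h1⟩ := hGV ν (2 / 3) (2 / 3)
  obtain ⟨C2, c2, h2⟩ := hGV (-ν) (1 / 3) (1 / 3)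
  obtain ⟨C3, c3, h3⟩ := poly_exp_le 2 (c := 1 / 2) (by norm_num)
  refine ⟨C1 * C2 * C3, by positivity, fun θ h0 hθ t => ?_⟩
  have a1 := h1 (2 / 3) t le_rfl le_rfl (Or.inl (by norm_num))
  have a2 := h2 (1 / 3) (-t) le_rfl le_rfl (Or.inl (by norm_num))
  have e2 : (1 : ℂ) - ((2 / 3 : ℝ) + t * I) = (1 / 3 : ℝ) + (-t : ℝ) * I := by
    push_cast
    ring
  rw [← e2, abs_neg] at a2
  have a3 := norm_eta_le h0.le hθ ((2 / 3 : ℝ) + t * I)
  have e3 : (((2 / 3 : ℝ) : ℂ) + t * I).im = t := by simp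
  have a4 : ‖((2 / 3 : ℝ) : ℂ) + t * I - 1 / 2‖ ≤ 1 + |t| := by
    have e4 : ((2 / 3 : ℝ) : ℂ) + t * I - 1 / 2 = (1 / 6 : ℝ) + t * I := by
      push_cast
      ring
    rw [e4]
    refine (norm_add_le _ _).trans (add_le_add ?_ ?_)
    · rw [norm_real, Real.norm_of_nonneg (by norm_num)]
      norm_num
    · rw [norm_mul, norm_I, mul_one, norm_real, Real.norm_eq_abs]
  have ht := abs_nonneg t
  have a5 : Real.exp ((3 * Real.pi / 4 - θ) * |t|) ≤ Real.exp (5 / 2 * |t|) := by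
    have := Real.pi_lt_d2
    gcongr
    linarith
  have a6 : ‖eta θ ((2 / 3 : ℝ) + t * I)‖ ≤ θ * (1 + |t|) ^ 2 * Real.exp (5 / 2 * |t|) := by
    rw [e3] at a3
    refine a3.trans ?_
    gcongr
  have a7 : Real.exp (-(2 * |t|)) * Real.exp (-(2 * |t|)) * Real.exp (5 / 2 * |t|) =
      Real.exp (-(1 / 2 * |t|)) * Real.exp (-|t|) := by
    rw [← Real.exp_add, ← Real.exp_add, ← Real.exp_add]
    congr 1
    ring
  rw [norm_mul, norm_mul]
  calc _ ≤ C1 * Real.exp (-(2 * |t|)) * (C2 * Real.exp (-(2 * |t|))) *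
        (θ * (1 + |t|) ^ 2 * Real.exp (5 / 2 * |t|)) := by gcongr
    _ = C1 * C2 * θ * (1 + |t|) ^ 2 *
        (Real.exp (-(2 * |t|)) * Real.exp (-(2 * |t|)) * Real.exp (5 / 2 * |t|)) := by ring
    _ = C1 * C2 * ((1 + |t|) ^ 2 * Real.exp (-(1 / 2 * |t|))) * θ * Real.exp (-|t|) := by
        rw [a7]
        ring
    _ ≤ _ := by
        gcongr
        exact h3 _ ht

theorem stP4b (hGD : StGD) (hGV : StGV) (hTest : StTest) (hP1 : StP1) (hP2a : StP2a)
    (hP3 : StP3) : StP4b := by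
  intro ν β B hB r hr
  have hB0 : 0 ≤ B := (abs_nonneg _).trans (hB 0)
  obtain ⟨hT, hM, -⟩ := hTest ν
  obtain ⟨C, hC0, hC⟩ := hP1 ν
  obtain ⟨D, hD0, hD⟩ := fp4b_line hGV ν
  have hM' : ∀ s : ℂ, 0 < s.re → MellinConvergent (TT ν 0) s := fun s hs => (hM s hs).1
  have i1 := fp4b_mel hM' hr (e := -(1 / 3)) (by norm_num)
  have i2 := fp4b_mel hM' hr (e := 0) (by norm_num)
  have i3 := fp4b_mel hM' hr (e := 2 / 3) (by norm_num)
  have cT : ContinuousOn (fun x => TT ν 0 (r * x)) (Ioi 0) :=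
    (hT.ch.cont (by norm_num)).comp (by fun_prop) fun x hx => mul_pos hr hx
  have s1 := fp4b_sum (μ := volume.restrict (Ioi 0))
    (F := fun j x => ((β j * om j : ℝ) : ℂ) * (PP ν (th j) 0 x * TT ν 0 (r * x)))
    ((i1.add i2).add (i3.const_mul (2 * Real.pi))) (hP2a.1.mul_left (B * C))
    (fun j => (continuousOn_const.mul ((((hC _ (th_pos j) (th_le_one j)).1.cont
      (by norm_num))).mul cT)).aestronglyMeasurable measurableSet_Ioi)
    (fun j => (ae_restrict_iff' measurableSet_Ioi).2 (Eventually.of_forall fun x hx => by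
      have hx0 : 0 < x := hx
      have a1 := (hC _ (th_pos j) (th_le_one j)).2 0 (by norm_num) x hx0
      have a2 : Real.exp (-(th j * (2 * Real.pi * x ^ (2 / 3 : ℝ)) / 4)) ≤ 1 := by
        have := th_pos j
        have := Real.pi_pos
        rw [Real.exp_le_one_iff, neg_nonpos]
        positivity
      have a3 := th_pos j
      have a4 := om_pos j
      have a5 := Real.pi_pos
      have a6 : ‖PP ν (th j) 0 x‖ ≤
          C * th j * (x ^ (-(1 / 3 : ℝ)) + (1 + 2 * Real.pi * x ^ (2 / 3 : ℝ))) := by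
        rw [Nat.cast_zero, neg_zero, Real.rpow_zero, mul_one, zero_add, pow_one] at a1
        refine a1.trans (mul_le_mul_of_nonneg_left (add_le_add le_rfl ?_) (by positivity))
        exact mul_le_of_le_one_right (by positivity) a2
      rw [norm_mul, norm_mul]
      simp only [Pi.add_apply, Real.rpow_zero]
      calc _ ≤ B * om j * (C * th j * (x ^ (-(1 / 3 : ℝ)) + (1 + 2 * Real.pi * x ^ (2 / 3 : ℝ))) *
            ‖TT ν 0 (r * x)‖) := by
            gcongr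
            exact fp4b_coef hB j
        _ = _ := by ring))
  have c0 : Continuous fun t : ℝ => ((2 / 3 : ℝ) : ℂ) + t * I := by fun_prop
  have c1 : Continuous fun t : ℝ => gam ν ((2 / 3 : ℝ) + t * I) :=
    (hGD ν).1.continuousOn.comp_continuous c0 fun t => Or.inl (by simp)
  have c2 : Continuous fun t : ℝ => gam (-ν) (1 - ((2 / 3 : ℝ) + t * I)) :=
    (hGD (-ν)).1.continuousOn.comp_continuous (continuous_const.sub c0) fun t =>
      Or.inl (by simp; norm_num)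
  have c3 : Continuous fun t : ℝ => (r : ℂ) ^ (-(((2 / 3 : ℝ) : ℂ) + t * I)) :=
    c0.neg.const_cpow (Or.inl (ofReal_ne_zero.2 hr.ne'))
  have s2 := fp4b_sum (μ := volume)
    (F := fun j t => ((β j * om j : ℝ) : ℂ) * (gam ν ((2 / 3 : ℝ) + t * I) *
      gam (-ν) (1 - ((2 / 3 : ℝ) + t * I)) * eta (th j) ((2 / 3 : ℝ) + t * I) *
        (r : ℂ) ^ (-(((2 / 3 : ℝ) : ℂ) + t * I))))
    integrable_exp_abs (hP2a.1.mul_left (B * D * r ^ (-(2 / 3 : ℝ))))
    (fun j => (continuous_const.mul (((c1.mul c2).mul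
      ((differentiable_eta (th j)).continuous.comp c0)).mul c3)).aestronglyMeasurable)
    (fun j => Eventually.of_forall fun t => by
      have a1 := hD _ (th_pos j) (th_le_one j) t
      have a2 : ‖(r : ℂ) ^ (-(((2 / 3 : ℝ) : ℂ) + t * I))‖ = r ^ (-(2 / 3 : ℝ)) := by
        rw [norm_cpow_eq_rpow_re_of_pos hr]
        simp
      have a3 := om_pos j
      rw [norm_mul, norm_mul, a2]
      calc _ ≤ B * om j * (D * th j * Real.exp (-|t|) * r ^ (-(2 / 3 : ℝ))) := by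
            gcongr
            exact fp4b_coef hB j
        _ = _ := by ring)
  have s3 := s2.mul_left (1 / (2 * Real.pi) : ℂ)
  simp only [integral_const_mul] at s1 s3
  have e1 : ∀ j, ((β j * om j : ℝ) : ℂ) * ∫ x in Ioi (0 : ℝ), PP ν (th j) 0 x * TT ν 0 (r * x) =
      1 / (2 * Real.pi) * (((β j * om j : ℝ) : ℂ) * ∫ t : ℝ, gam ν ((2 / 3 : ℝ) + t * I) *
        gam (-ν) (1 - ((2 / 3 : ℝ) + t * I)) * eta (th j) ((2 / 3 : ℝ) + t * I) *
          (r : ℂ) ^ (-(((2 / 3 : ℝ) : ℂ) + t * I))) := fun j => by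
    rw [hP3 ν _ r (th_pos j) (th_le_one j) hr, mellinInv_eq, mul_left_comm]
  simp only [e1] at s1
  have e3 : ∀ x : ℝ, aa ν β 0 x * TT ν 0 (r * x) =
      ∑' j, ((β j * om j : ℝ) : ℂ) * (PP ν (th j) 0 x * TT ν 0 (r * x)) := fun x => by
    rw [aa, ← tsum_mul_right]
    simp only [mul_assoc]
  have e4 : ∀ s z : ℂ, hh ν β s * z = ∑' j, ((β j * om j : ℝ) : ℂ) *
      (gam ν s * gam (-ν) (1 - s) * eta (th j) s * z) := fun s z => by
    rw [hh, etaS, ← tsum_mul_left, ← tsum_mul_right]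
    exact tsum_congr fun j => by ring
  rw [mellinInv_eq]
  simp only [e3, e4]
  exact s1.unique s3

end Pool.Agent.Bar58
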