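import Pool.Agent.Lib.MP_d79f69_nt.Bar.Basic

set_option autoImplicit false

namespace Pool.Agent.Bar58

open Complex MeasureTheory Set Filter Topology
open scoped ComplexConjugate

theorem fpair_rpow_le {y e : ℝ} (hy : 0 < y) (h1 : -(1 / 3) ≤ e) (h2 : e ≤ 20) :
    y ^ e ≤ y ^ (-(1 / 3) : ℝ) + y ^ (20 : ℝ) := by
  rcases le_total y 1 with h | h
  · have := Real.rpow_le_rpow_of_exponent_ge hy h h1
    have := Real.rpow_nonneg hy.le (20 : ℝ)
    linarith
  · have := Real.rpow_le_rpow_of_exponent_le h h2
    have := Real.rpow_nonneg hy.le (-(1 / 3) : ℝ)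
    linarith

theorem stPair (hTest : StTest) : StPair := by
  intro ν H φ hφ r hr
  obtain ⟨hT, hM, -⟩ := hTest ν
  have hc : ContinuousOn (fun y : ℝ => TT ν 0 (r * y)) (Ioi 0) :=
    (hT.ch.cont (by norm_num : 0 < 4)).comp (by fun_prop) fun y hy => mul_pos hr hy
  have hA := ((MellinConvergent.comp_mul_left hr).2 (hM (2 / 3) (by norm_num)).1).norm
  have hB := ((MellinConvergent.comp_mul_left hr).2 (hM 21 (by norm_num)).1).norm
  have hG := hA.add hB
  have hint : Integrable (Function.uncurry fun y t : ℝ =>
      φ t * mono 0 (cs H t) y * TT ν 0 (r * y)) ((volume.restrict (Ioi 0)).prod volume) := by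
    refine (hG.mul_prod hφ.integrable.norm).mono' ?_ ?_
    · refine (hφ.1.comp_snd.mul ?_).mul (hc.aestronglyMeasurable measurableSet_Ioi).comp_fst
      simp only [mono_zero]
      exact ((measurable_ofReal.comp measurable_fst).pow
        ((continuous_cs H).measurable.comp measurable_snd).neg).aestronglyMeasurable
    · have : ∀ᵐ p : ℝ × ℝ ∂((volume.restrict (Ioi 0)).prod volume), 0 < p.1 :=
        Measure.quasiMeasurePreserving_fst.ae (ae_restrict_mem measurableSet_Ioi)
      filter_upwards [this] with p hp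
      have h1 := cs_re_mem H p.2
      have h2 := fpair_rpow_le (e := -(cs H p.2).re) hp (by linarith [h1.2]) (by linarith [h1.1])
      have e1 : ((2 / 3 : ℂ) - 1).re = -(1 / 3) := by norm_num
      have e2 : ((21 : ℂ) - 1).re = 20 := by norm_num
      simp only [Function.uncurry, mono_zero, norm_mul, Pi.add_apply, smul_eq_mul,
        norm_cpow_eq_rpow_re_of_pos hp, neg_re, e1, e2]
      have h3 := norm_nonneg (φ p.2)
      have h4 := norm_nonneg (TT ν 0 (r * p.1))
      nlinarith [mul_le_mul_of_nonneg_left h2 (mul_nonneg h3 h4)]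
  simp only [← integral_mul_const]
  rw [integral_integral_swap hint]
  refine integral_congr_ae (Eventually.of_forall fun t => ?_)
  have h1 := (cs_re_mem H t).2
  have h2 := mellin_comp_mul_left (TT ν 0) (1 - cs H t) hr
  rw [(hM (1 - cs H t) (by simp only [sub_re, one_re]; linarith)).2, mellin] at h2
  simp only [smul_eq_mul, neg_sub, sub_sub_cancel_left] at h2
  simp only [mono_zero, mul_assoc, integral_const_mul, h2, mul_comm (gam ν (1 - cs H t))]

end Pool.Agent.Bar58
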