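import Pool.Agent.Lib.MP_d79f69_nt.Bar.Basic

set_option autoImplicit false

namespace Pool.Agent.Bar58

open Complex MeasureTheory Set Filter Topology
open scoped ComplexConjugate

theorem fpoly_main {r : ℕ} (x : Fin (r + 1) → ℝ) (i₀ : Fin (r + 1)) (ε : ℝ)
    (hε : ε = 1 ∨ ε = -1) (hpos : 0 < ε * x i₀) (hmin : ∀ i, i < i₀ → x i = 0) {v : ℝ}
    (hv0 : 0 < v) (hv1 : v ≤ 1) (hv : v * ∑ i, |x i| ≤ ε * x i₀ / 2) :
    ε * x i₀ / 2 * v ^ r ≤ ε * ∑ i, x i * v ^ (i : ℕ) := by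
  have hterm : ∀ i : Fin (r + 1), (if i = i₀ then ε * x i₀ * v ^ (i₀ : ℕ) else 0) -
      |x i| * (v * v ^ (i₀ : ℕ)) ≤ ε * (x i * v ^ (i : ℕ)) := by
    intro i
    have hA : 0 ≤ |x i| * (v * v ^ (i₀ : ℕ)) := by positivity
    by_cases h : i = i₀
    · subst h
      simp only [if_true]
      nlinarith
    · simp only [h, if_false]
      rcases lt_or_gt_of_ne h with hlt | hgt
      · rw [hmin i hlt]
        simp
      · have hle : (i₀ : ℕ) + 1 ≤ (i : ℕ) := hgt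
        have h1 : v ^ (i : ℕ) ≤ v ^ ((i₀ : ℕ) + 1) := pow_le_pow_of_le_one hv0.le hv1 hle
        have h2 : -|x i| ≤ ε * x i := by
          rcases hε with h | h
          · rw [h, one_mul]
            exact neg_abs_le _
          · rw [h, neg_one_mul]
            exact neg_le_neg (le_abs_self _)
        have h3 : 0 ≤ v ^ (i : ℕ) := by positivity
        have h4 : -|x i| * v ^ (i : ℕ) ≤ ε * x i * v ^ (i : ℕ) := mul_le_mul_of_nonneg_right h2 h3
        have h5 : |x i| * v ^ (i : ℕ) ≤ |x i| * v ^ ((i₀ : ℕ) + 1) :=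
          mul_le_mul_of_nonneg_left h1 (abs_nonneg _)
        rw [pow_succ] at h5
        nlinarith
  have hsum := Finset.sum_le_sum (s := Finset.univ) fun i _ => hterm i
  rw [Finset.sum_sub_distrib, Finset.sum_ite_eq', ← Finset.sum_mul, ← Finset.mul_sum] at hsum
  simp only [Finset.mem_univ, if_true] at hsum
  have hw : 0 < v ^ (i₀ : ℕ) := by positivity
  have hr : v ^ r ≤ v ^ (i₀ : ℕ) := pow_le_pow_of_le_one hv0.le hv1 (Nat.lt_succ_iff.mp i₀.2)
  have h6 : (v * ∑ i, |x i|) * v ^ (i₀ : ℕ) ≤ ε * x i₀ / 2 * v ^ (i₀ : ℕ) :=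
    mul_le_mul_of_nonneg_right hv hw.le
  have h7 : ε * x i₀ / 2 * v ^ r ≤ ε * x i₀ / 2 * v ^ (i₀ : ℕ) :=
    mul_le_mul_of_nonneg_left hr (by linarith)
  nlinarith

theorem stPoly : StPoly := by
  classical
  intro r x hx
  have hne : (Finset.univ.filter fun i : Fin (r + 1) => x i ≠ 0).Nonempty := by
    by_contra h
    apply hx
    funext i
    by_contra hi
    exact h ⟨i, Finset.mem_filter.mpr ⟨Finset.mem_univ _, hi⟩⟩
  set i₀ := (Finset.univ.filter fun i : Fin (r + 1) => x i ≠ 0).min' hne with hi₀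
  have h0 : x i₀ ≠ 0 := (Finset.mem_filter.mp (Finset.min'_mem _ hne)).2
  have hmin : ∀ i, i < i₀ → x i = 0 := by
    intro i hi
    by_contra h
    have := Finset.min'_le (Finset.univ.filter fun i : Fin (r + 1) => x i ≠ 0) i
      (Finset.mem_filter.mpr ⟨Finset.mem_univ _, h⟩)
    exact absurd hi (not_lt.mpr this)
  obtain ⟨ε, hε, hpos⟩ : ∃ ε : ℝ, (ε = 1 ∨ ε = -1) ∧ 0 < ε * x i₀ := by
    rcases lt_or_gt_of_ne h0 with h | h
    · exact ⟨-1, Or.inr rfl, by linarith⟩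
    · exact ⟨1, Or.inl rfl, by linarith⟩
  obtain ⟨j₀, hj₀⟩ := exists_nat_ge ((∑ i, |x i|) / (ε * x i₀ / 2))
  refine ⟨ε, ε * x i₀ / 2, j₀, hε, by linarith, fun j hj => ?_⟩
  have hj1 : (0 : ℝ) < (j : ℝ) + 1 := by positivity
  have hv1 : 1 / ((j : ℝ) + 1) ≤ 1 := by
    rw [div_le_one hj1]
    have : (0 : ℝ) ≤ j := Nat.cast_nonneg j
    linarith
  have hv : 1 / ((j : ℝ) + 1) * ∑ i, |x i| ≤ ε * x i₀ / 2 := by
    have h1 : (j₀ : ℝ) ≤ j := by exact_mod_cast hj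
    rw [div_le_iff₀ (by linarith)] at hj₀
    rw [one_div, inv_mul_le_iff₀ hj1]
    nlinarith
  have h := fpoly_main x i₀ ε hε hpos hmin (by positivity) hv1 hv
  rw [one_div_pow] at h
  rw [div_eq_mul_one_div]
  exact h

end Pool.Agent.Bar58
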