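import Pool.Agent.Lib.MP_d79f69_nt.Bar.Basic

set_option autoImplicit false

namespace Pool.Agent.Bar58

open Complex MeasureTheory Set Filter Topology
open scoped ComplexConjugate

theorem fshift_line {g : ℂ → ℂ} {a b B K : ℝ} (ha : 0 < a) (hab : a ≤ b) (hb : b < B)
    (hg : DifferentiableOn ℂ g (Strip B))
    (hK : ∀ σ t : ℝ, a ≤ σ → σ ≤ b → ‖g (σ + t * I)‖ ≤ K * Real.exp (-|t|)) :
    ∫ t : ℝ, g (a + t * I) = ∫ t : ℝ, g (b + t * I) := by
  have hint : ∀ σ : ℝ, a ≤ σ → σ ≤ b → Integrable fun t : ℝ => g (σ + t * I) := by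
    intro σ h1 h2
    have hc : Continuous fun t : ℝ => g (σ + t * I) :=
      hg.continuousOn.comp_continuous (by fun_prop) fun t => by
        constructor <;> simp <;> linarith
    exact (integrable_exp_abs.const_mul K).mono' hc.aestronglyMeasurable
      (Eventually.of_forall fun t => hK σ t h1 h2)
  have hhor : ∀ e : ℝ → ℝ, (∀ R, 0 ≤ R → |e R| = R) →
      Tendsto (fun R : ℝ => ∫ x : ℝ in a..b, g (x + (e R : ℝ) * I)) atTop (𝓝 0) := by
    intro e he
    have h0 : Tendsto (fun R : ℝ => K * Real.exp (-R) * |b - a|) atTop (𝓝 0) := by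
      simpa using (Real.tendsto_exp_neg_atTop_nhds_zero.const_mul K).mul_const |b - a|
    refine squeeze_zero_norm' ?_ h0
    filter_upwards [eventually_ge_atTop (0 : ℝ)] with R hR
    refine intervalIntegral.norm_integral_le_of_norm_le_const fun x hx => ?_
    rw [uIoc_of_le hab] at hx
    have := hK x (e R) hx.1.le hx.2
    rwa [he R hR] at this
  have h1 := hhor (fun R => -R) fun R hR => by rw [abs_neg, abs_of_nonneg hR]
  have h2 := hhor (fun R => R) fun R hR => abs_of_nonneg hR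
  have h3 := intervalIntegral_tendsto_integral (hint b hab le_rfl) tendsto_neg_atTop_atBot
    (tendsto_id (α := ℝ))
  have h4 := intervalIntegral_tendsto_integral (hint a le_rfl hab) tendsto_neg_atTop_atBot
    (tendsto_id (α := ℝ))
  have h5 := ((h1.sub h2).add (h3.const_smul I)).sub (h4.const_smul I)
  have h6 : ∀ R : ℝ, (∫ x : ℝ in a..b, g (x + ((-R : ℝ) : ℂ) * I)) -
      (∫ x : ℝ in a..b, g (x + (R : ℂ) * I)) + I • (∫ y : ℝ in (-R)..id R, g (b + y * I)) -
      I • (∫ y : ℝ in (-R)..id R, g (a + y * I)) = 0 := fun R =>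
    integral_boundary_rect_eq_zero_of_differentiableOn g ⟨a, -R⟩ ⟨b, R⟩ (hg.mono fun s hs => by
      have h7 : s.re ∈ uIcc a b := hs.1
      rw [uIcc_of_le hab] at h7
      exact ⟨ha.trans_le h7.1, h7.2.trans_lt hb⟩)
  have h8 := tendsto_nhds_unique h5 (tendsto_const_nhds.congr fun R => (h6 R).symm)
  simp only [sub_zero, zero_add, smul_eq_mul] at h8
  exact (mul_left_cancel₀ I_ne_zero (sub_eq_zero.1 h8)).symm

theorem stShift : StShift := by
  intro h a b B ha hab hb hd ⟨C, hC, hv⟩ r hr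
  rw [mellinInv_eq, mellinInv_eq]
  congr 1
  have hr0 : (r : ℂ) ≠ 0 := ofReal_ne_zero.2 hr.ne'
  refine fshift_line (g := fun s => h s * (r : ℂ) ^ (-s)) (K := C * (r ^ (-a) + r ^ (-b)))
    ha hab hb (hd.mul (differentiable_id.neg.const_cpow (Or.inl hr0)).differentiableOn)
    fun σ t h1 h2 => ?_
  have h3 : r ^ (-σ) ≤ r ^ (-a) + r ^ (-b) := by
    have pa := Real.rpow_pos_of_pos hr (-a)
    have pb := Real.rpow_pos_of_pos hr (-b)
    rcases le_total 1 r with h4 | h4
    · have := Real.rpow_le_rpow_of_exponent_le h4 (neg_le_neg h1)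
      linarith
    · have := Real.rpow_le_rpow_of_exponent_ge hr h4 (neg_le_neg h2)
      linarith
  have h4 : ‖(r : ℂ) ^ (-((σ : ℂ) + t * I))‖ = r ^ (-σ) := by
    rw [norm_cpow_eq_rpow_re_of_pos hr]
    simp
  rw [norm_mul, h4]
  calc ‖h (σ + t * I)‖ * r ^ (-σ) ≤ C * Real.exp (-|t|) * (r ^ (-a) + r ^ (-b)) :=
        mul_le_mul (hv σ t h1 h2) h3 (Real.rpow_nonneg hr.le _) (by positivity)
    _ = C * (r ^ (-a) + r ^ (-b)) * Real.exp (-|t|) := by ring

end Pool.Agent.Bar58
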