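import Pool.Agent.Lib.MP_d79f69_nt.Bar.Basic

set_option autoImplicit false

namespace Pool.Agent.Bar58

open Complex MeasureTheory Set Filter Topology
open scoped ComplexConjugate

theorem fsolve_mono {A B : ℝ} {g : ℕ → ℝ → ℂ} (h : Out A g) (hAB : A ≤ B) : Out B g := by
  refine ⟨h.ch, fun j hj y hy => (h.top j hj y hy).trans ?_,
    fun j hj y hy hy1 => (h.bot j hj y hy hy1).trans ?_⟩
  · exact mul_le_mul_of_nonneg_right (mul_le_mul_of_nonneg_right hAB (W_pos _).le)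
      (Real.rpow_nonneg (by linarith) _)
  · exact mul_le_mul_of_nonneg_right hAB (Real.rpow_nonneg hy.le _)

theorem fsolve_out (hOpB1 : StOpB1) (hOpB2 : StOpB2) (hOpD : StOpD) {k : ℕ → ℕ → ℝ → ℝ → ℂ}
    {C : ℝ} (hk : Kern k C) (J : ℕ) (θ : ℝ) (h1 : 1 ≤ J) (h2 : J ≤ 11) (h3 : 0 < θ)
    (h4 : θ ≤ 2 / 3) (h5 : 10 < 3 * θ * J) :
    ∃ C' : ℝ, 0 ≤ C' ∧ ∀ A a, Cls J θ A a → Out (C' * A) (KK k (a 0)) := by
  obtain ⟨C1, hC1, hb1⟩ := hOpB1 k C hk J θ h1 h2 h3 h4 h5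
  obtain ⟨C2, hC2, hb2⟩ := hOpB2 k C hk J θ h1 h2 h3 h4 h5
  refine ⟨C1 + C2, add_nonneg hC1 hC2, fun A a ha => ?_⟩
  have hA := ha.nonneg
  refine ⟨hOpD k C hk J θ h1 h2 h3 h4 h5 A a ha, fun j hj y hy => (hb1 A a ha j hj y hy).trans ?_,
    fun j hj y hy hy1 => (hb2 A a ha j hj y hy hy1).trans ?_⟩
  · exact mul_le_mul_of_nonneg_right (mul_le_mul_of_nonneg_right
      (mul_le_mul_of_nonneg_right (by linarith) hA) (W_pos _).le)
      (Real.rpow_nonneg (by linarith) _)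
  · exact mul_le_mul_of_nonneg_right (mul_le_mul_of_nonneg_right (by linarith) hA)
      (Real.rpow_nonneg hy.le _)

theorem fsolve_inj {E : Type} [NormedAddCommGroup E] [NormedSpace ℝ E]
    {ι : E →ₗ[ℝ] (ℕ → ℝ → ℂ)} (hι : Rep ι) {b b' : E}
    (h : ∀ i ≤ 7, ∀ y : ℝ, 0 < y → ι b i y = ι b' i y) : b = b' := by
  have h1 := hι.le (b - b') 0 le_rfl (fun i hi y hy => by
    rw [map_sub, Pi.sub_apply, Pi.sub_apply, h i hi y hy, sub_self, norm_zero, zero_mul])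
  exact sub_eq_zero.1 (norm_le_zero_iff.1 h1)

theorem fsolve_op (hOpN : StOpN) {k : ℕ → ℕ → ℝ → ℝ → ℂ} {C : ℝ} (hk : Kern k C)
    {E : Type} [NormedAddCommGroup E] [NormedSpace ℝ E] {ι : E →ₗ[ℝ] (ℕ → ℝ → ℂ)} (hι : Rep ι)
    {C' : ℝ} (hC' : 0 ≤ C') (ho : ∀ b : E, Out (C' * ‖b‖) (KK k (ι b 0))) :
    ∃ K : E →L[ℝ] E, ∀ b, ∀ i ≤ 7, ∀ y : ℝ, 0 < y → ι (K b) i y = KK k (ι b 0) i y := by
  choose K hK using fun b : E => hι.ex _ _ (ho b).nm
  have hN : ∀ b : E, ∀ i ≤ 7, ∀ y : ℝ, 0 < y → Nice fun x => conj (ι b 0 x) * k 0 i x y := by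
    intro b i hi y hy
    refine (hOpN k C hk 7 (1 / 2) (by norm_num) (by norm_num) (by norm_num) (by norm_num) _ _
      (hι.nm b).cls i (by omega) ?_).1 y hy
    have : (i : ℝ) ≤ 7 := by exact_mod_cast hi
    push_cast
    linarith
  have hadd : ∀ b b', K (b + b') = K b + K b' := by
    intro b b'
    refine fsolve_inj hι fun i hi y hy => ?_
    rw [map_add ι (K b), Pi.add_apply, Pi.add_apply, hK _ i hi y hy, hK _ i hi y hy,
      hK _ i hi y hy, KK, KK, KK, ← UU_add (hN b i hi y hy) (hN b' i hi y hy)]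
    congr 1
    funext x
    rw [map_add ι, Pi.add_apply, Pi.add_apply, map_add, add_mul]
  have hsmul : ∀ (c : ℝ) b, K (c • b) = c • K b := by
    intro c b
    refine fsolve_inj hι fun i hi y hy => ?_
    rw [map_smul ι c (K b), Pi.smul_apply, Pi.smul_apply, hK _ i hi y hy, hK _ i hi y hy, KK, KK,
      Complex.real_smul, ← UU_const_mul]
    congr 1
    funext x
    rw [map_smul ι, Pi.smul_apply, Pi.smul_apply, Complex.real_smul, map_mul, Complex.conj_ofReal,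
      mul_assoc]
  let L : E →ₗ[ℝ] E := ⟨⟨K, hadd⟩, hsmul⟩
  refine ⟨L.mkContinuous C' fun b => ?_, fun b i hi y hy => hK b i hi y hy⟩
  refine hι.le (K b) _ (mul_nonneg hC' (norm_nonneg _)) fun i hi y hy => ?_
  rw [hK b i hi y hy]
  exact (ho b).nm.bd i hi y hy

theorem stSolve (hOpN : StOpN) (hOpB1 : StOpB1) (hOpB2 : StOpB2) (hOpD : StOpD) (hBan : StBan)
    (hNet : StNet) (hFr : StFr) : StSolve := by
  intro k C hk
  obtain ⟨E, _, _, _, ι, hι⟩ := hBan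
  obtain ⟨C1, hC1, ho1⟩ := fsolve_out hOpB1 hOpB2 hOpD hk 7 (1 / 2) (by norm_num) (by norm_num)
    (by norm_num) (by norm_num) (by norm_num)
  obtain ⟨C2, -, ho2⟩ := fsolve_out hOpB1 hOpB2 hOpD hk 11 (1 / 3) (by norm_num) (by norm_num)
    (by norm_num) (by norm_num) (by norm_num)
  have ho : ∀ b : E, Out (C1 * 4 * ‖b‖) (KK k (ι b 0)) := fun b => by
    rw [mul_assoc]
    exact ho1 _ _ (hι.nm b).cls
  have hC4 : 0 ≤ C1 * 4 := by positivity
  obtain ⟨K, hK⟩ := fsolve_op hOpN hk hι hC4 ho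
  obtain ⟨Y, hY⟩ := hNet E ι hι (C1 * 4)
  obtain ⟨r, hr⟩ := hFr E K Y fun b hb =>
    hY (K b) ⟨_, fsolve_mono (ho b) (mul_le_of_le_one_right hC4 hb), hK b⟩
  refine ⟨r, fun v hv => ?_⟩
  choose A hA using hv
  choose w hw using fun i => hι.ex _ _ (ho2 _ _ (hA i)).nm
  obtain ⟨x, hx, g, hg⟩ := hr w
  refine ⟨x, hx, ‖g‖, ι g, hι.nm g, fun y hy => ?_⟩
  have h1 := congrArg (fun b => ι b 0 y) hg
  simp only [map_sub, map_sum, map_smul, Pi.sub_apply, Finset.sum_apply, Pi.smul_apply,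
    Complex.real_smul] at h1
  rw [hK g 0 (Nat.zero_le _) y hy] at h1
  rw [← sub_eq_iff_eq_add, h1]
  exact Finset.sum_congr rfl fun i _ => by rw [hw i 0 (Nat.zero_le _) y hy]

end Pool.Agent.Bar58
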