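import Pool.Agent.Lib.MP_d79f69_nt.Bar.Basic

set_option autoImplicit false

namespace Pool.Agent.Bar58

open Complex MeasureTheory Set Filter Topology
open scoped ComplexConjugate

theorem fstr_cs_eq (H t : ℝ) : cs H t = ((cs H t).re : ℂ) + t * I := by
  apply Complex.ext
  · simp
  · simp [cs_im]

theorem fstr_intA {H C : ℝ} {f : ℂ → ℂ} (hd : DifferentiableOn ℂ f {s | H - 1 < s.im})
    (hb : ∀ σ t : ℝ, -20 ≤ σ → σ ≤ 1 / 3 → H ≤ t → ‖f (σ + t * I)‖ ≤ C * Real.exp (-t)) :
    IntegrableOn (fun t : ℝ => f (cs H t) * cd H t) (Ioi H) := by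
  have hc : ContinuousOn (fun t : ℝ => f (cs H t)) (Ioi H) := by
    refine hd.continuousOn.comp (continuous_cs H).continuousOn ?_
    intro t ht
    show H - 1 < (cs H t).im
    rw [cs_im]
    have : H < t := ht
    linarith
  refine Integrable.mono' (((integrableOn_exp_neg_Ioi H).const_mul C).mul_const 2)
    ((hc.aestronglyMeasurable measurableSet_Ioi).mul (measurable_cd H).aestronglyMeasurable) ?_
  refine (ae_restrict_iff' measurableSet_Ioi).2 (Eventually.of_forall fun t ht => ?_)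
  have h1 := hb (cs H t).re t (cs_re_mem H t).1 (cs_re_mem H t).2 (le_of_lt ht)
  rw [← fstr_cs_eq] at h1
  rw [norm_mul]
  exact mul_le_mul h1 (norm_cd_le H t) (norm_nonneg _) ((norm_nonneg _).trans h1)

theorem fstr_intB {H C : ℝ} {f : ℂ → ℂ} (hd : DifferentiableOn ℂ f {s | H - 1 < s.im})
    (hb : ∀ σ t : ℝ, -20 ≤ σ → σ ≤ 1 / 3 → H ≤ t → ‖f (σ + t * I)‖ ≤ C * Real.exp (-t)) :
    IntegrableOn (fun t : ℝ => f (1 / 3 + t * I) * I) (Ioi H) := by
  have hc : ContinuousOn (fun t : ℝ => f (1 / 3 + t * I)) (Ioi H) := by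
    refine hd.continuousOn.comp (by fun_prop) ?_
    intro t ht
    show H - 1 < ((1 / 3 : ℂ) + t * I).im
    have : H < t := ht
    simp
    linarith
  refine Integrable.mono' ((integrableOn_exp_neg_Ioi H).const_mul C)
    ((hc.aestronglyMeasurable measurableSet_Ioi).mul aestronglyMeasurable_const) ?_
  refine (ae_restrict_iff' measurableSet_Ioi).2 (Eventually.of_forall fun t ht => ?_)
  have h1 := hb (1 / 3) t (by norm_num) le_rfl (le_of_lt ht)
  rw [norm_mul, Complex.norm_I, mul_one]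
  simpa using h1

/-- the two truncated integrals differ by a horizontal segment -/
theorem fstr_trunc (hTri : StTri) {H C : ℝ} {f : ℂ → ℂ} (hH : 10 ≤ H)
    (hd : DifferentiableOn ℂ f {s | H - 1 < s.im})
    (hb : ∀ σ t : ℝ, -20 ≤ σ → σ ≤ 1 / 3 → H ≤ t → ‖f (σ + t * I)‖ ≤ C * Real.exp (-t))
    {R : ℝ} (hR : H + 122 / 3 ≤ R) :
    (∫ t in H..R, f (1 / 3 + t * I) * I) - (∫ t in H..R, f (cs H t) * cd H t) =
      seg f (-20 + R * I) (1 / 3 + R * I) := by
  have hA := fstr_intA hd hb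
  have hH0 : 0 ≤ H := by linarith
  have i1 : IntervalIntegrable (fun t : ℝ => f (cs H t) * cd H t) volume H (H + 122 / 3) :=
    (intervalIntegrable_iff_integrableOn_Ioc_of_le (by linarith)).2
      (hA.mono_set Ioc_subset_Ioi_self)
  have i2 : IntervalIntegrable (fun t : ℝ => f (cs H t) * cd H t) volume (H + 122 / 3) R :=
    (intervalIntegrable_iff_integrableOn_Ioc_of_le hR).2
      (hA.mono_set fun t ht => by
        have := ht.1
        show H < t
        linarith)
  have e1 : ∫ t in H..(H + 122 / 3), f (cs H t) * cd H t =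
      seg f (1 / 3 + H * I) (-20 + ((H + 122 / 3 : ℝ) : ℂ) * I) := by
    have h1 : ∫ t in H..(H + 122 / 3), f (cs H t) * cd H t = ∫ t in H..(H + 122 / 3),
        f ((1 / 3 + H * I - H * (-1 / 2 + I)) + t * (-1 / 2 + I)) * (-1 / 2 + I) := by
      refine intervalIntegral.integral_congr_Ioo_of_le (by linarith) fun t ht => ?_
      show f (cs H t) * cd H t = _
      rw [cs_slant hH0 ht.1.le ht.2.le, cd_slant hH0 ht.1 ht.2]
      congr 2
      ring
    rw [h1, seg_eq]
    congr 1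
    · ring
    · push_cast
      ring
  have e2 : ∫ t in (H + 122 / 3)..R, f (cs H t) * cd H t =
      seg f (-20 + ((H + 122 / 3 : ℝ) : ℂ) * I) (-20 + R * I) := by
    have h1 : ∫ t in (H + 122 / 3)..R, f (cs H t) * cd H t = ∫ t in (H + 122 / 3)..R,
        f (-20 + t * I) * I := by
      refine intervalIntegral.integral_congr_Ioo_of_le hR fun t ht => ?_
      show f (cs H t) * cd H t = _
      have h2 : H + 122 / 3 ≤ |t| := ht.1.le.trans (le_abs_self t)
      rw [(cs_end h2).1, (cs_end h2).2]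
    rw [h1, seg_eq]
  have e3 : ∫ t in H..R, f (1 / 3 + t * I) * I = seg f (1 / 3 + H * I) (1 / 3 + R * I) :=
    seg_eq f (1 / 3) I H R
  have m0 : H - 1 < ((1 / 3 : ℂ) + H * I).im := by simp
  have m1 : H - 1 < ((-20 : ℂ) + ((H + 122 / 3 : ℝ) : ℂ) * I).im := by
    simp
    linarith
  have m2 : H - 1 < ((-20 : ℂ) + R * I).im := by
    simp
    linarith
  have m3 : H - 1 < ((1 / 3 : ℂ) + R * I).im := by
    simp
    linarith
  rw [← intervalIntegral.integral_add_adjacent_intervals i1 i2, e1, e2, e3,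
    hTri (H - 1) f hd _ _ _ m0 m1 m2, ← hTri (H - 1) f hd _ _ _ m0 m2 m3]
  ring

theorem fstr_hor {H C : ℝ} {f : ℂ → ℂ}
    (hb : ∀ σ t : ℝ, -20 ≤ σ → σ ≤ 1 / 3 → H ≤ t → ‖f (σ + t * I)‖ ≤ C * Real.exp (-t))
    {R : ℝ} (hR : H ≤ R) :
    ‖seg f (-20 + R * I) (1 / 3 + R * I)‖ ≤ C * Real.exp (-R) * (61 / 3) := by
  unfold seg
  have h1 : ((1 / 3 : ℂ) + R * I) - (-20 + R * I) = ((61 / 3 : ℝ) : ℂ) := by
    push_cast
    ring
  rw [h1]
  have h2 := intervalIntegral.norm_integral_le_of_norm_le_const (a := (0 : ℝ)) (b := 1)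
    (C := C * Real.exp (-R) * (61 / 3))
    (f := fun τ : ℝ => f (-20 + R * I + τ * ((61 / 3 : ℝ) : ℂ)) * ((61 / 3 : ℝ) : ℂ)) ?_
  · simpa using h2
  · intro τ hτ
    rw [uIoc_of_le zero_le_one] at hτ
    have h3 : (-20 : ℂ) + R * I + τ * ((61 / 3 : ℝ) : ℂ) = ((-20 + τ * (61 / 3) : ℝ) : ℂ) + R * I := by
      push_cast
      ring
    have h4 := hb (-20 + τ * (61 / 3)) R (by linarith [hτ.1]) (by linarith [hτ.2]) hR
    rw [norm_mul, h3, Complex.norm_real, Real.norm_of_nonneg (by norm_num)]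
    exact mul_le_mul_of_nonneg_right h4 (by norm_num)

theorem fstr_up (hTri : StTri) {H C : ℝ} {f : ℂ → ℂ} (hH : 10 ≤ H)
    (hd : DifferentiableOn ℂ f {s | H - 1 < s.im})
    (hb : ∀ σ t : ℝ, -20 ≤ σ → σ ≤ 1 / 3 → H ≤ t → ‖f (σ + t * I)‖ ≤ C * Real.exp (-t)) :
    ∫ t in Ioi H, f (cs H t) * cd H t = ∫ t : ℝ in Ioi H, f (1 / 3 + t * I) * I := by
  have tA := intervalIntegral_tendsto_integral_Ioi H (fstr_intA hd hb) tendsto_id
  have tB := intervalIntegral_tendsto_integral_Ioi H (fstr_intB hd hb) tendsto_id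
  have t1 := tB.sub tA
  have t2 : Tendsto (fun R : ℝ => (∫ t in H..R, f (1 / 3 + t * I) * I) -
      (∫ t in H..R, f (cs H t) * cd H t)) atTop (𝓝 0) := by
    have t3 : Tendsto (fun R : ℝ => C * Real.exp (-R) * (61 / 3)) atTop (𝓝 0) := by
      simpa using (Real.tendsto_exp_neg_atTop_nhds_zero.const_mul C).mul_const (61 / 3)
    refine squeeze_zero_norm' ?_ t3
    filter_upwards [eventually_ge_atTop (H + 122 / 3)] with R hR
    rw [fstr_trunc hTri hH hd hb hR]
    exact fstr_hor hb (by linarith)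
  have := tendsto_nhds_unique t1 t2
  exact (sub_eq_zero.1 this).symm

theorem stStr (hTri : StTri) : StStr := by
  rintro H f hH hd hc ⟨C, hb⟩
  have hH0 : 0 ≤ H := by linarith
  have hsub : {s : ℂ | H - 1 < s.im} ⊆ {s : ℂ | H - 1 < |s.im|} := fun s hs =>
    lt_of_lt_of_le (show H - 1 < s.im from hs) (le_abs_self s.im)
  have hopen : IsOpen {s : ℂ | H - 1 < |s.im|} :=
    isOpen_lt continuous_const (Complex.continuous_im.abs)
  have hd1 := hd.mono hsub
  have hb1 : ∀ σ t : ℝ, -20 ≤ σ → σ ≤ 1 / 3 → H ≤ t → ‖f (σ + t * I)‖ ≤ C * Real.exp (-t) := by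
    intro σ t h1 h2 h3
    have h4 : |t| = t := abs_of_nonneg (by linarith)
    have := hb σ t h1 h2 (by rw [h4]; exact h3)
    rwa [h4] at this
  set g : ℂ → ℂ := fun s => conj (f (conj s)) with hg
  have hd2 : DifferentiableOn ℂ g {s | H - 1 < s.im} :=
    (diffOn_sharp hopen (fun s hs => by simpa using hs) hd).mono hsub
  have hb2 : ∀ σ t : ℝ, -20 ≤ σ → σ ≤ 1 / 3 → H ≤ t → ‖g (σ + t * I)‖ ≤ C * Real.exp (-t) := by
    intro σ t h1 h2 h3
    have h4 : |(-t)| = t := by rw [abs_neg]; exact abs_of_nonneg (by linarith)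
    have := hb σ (-t) h1 h2 (by rw [h4]; exact h3)
    rw [h4] at this
    simpa [hg] using this
  set A : ℝ → ℂ := fun t => f (cs H t) * cd H t with hA
  set B : ℝ → ℂ := fun t => f (1 / 3 + t * I) * I with hB
  have nA : ∀ t : ℝ, A (-t) = -conj (g (cs H t) * cd H t) := by
    intro t
    simp only [hA, hg, cs_neg, cd_neg hH0, map_mul, Complex.conj_conj]
    ring
  have nB : ∀ t : ℝ, B (-t) = -conj (g (1 / 3 + t * I) * I) := by
    intro t
    have h1 : conj ((1 / 3 : ℂ) + t * I) = 1 / 3 + ((-t : ℝ) : ℂ) * I := by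
      simp [map_ofNat]
    simp only [hB, hg, map_mul, Complex.conj_conj, h1, Complex.conj_I]
    ring
  have uA : IntegrableOn A (Ioi H) := fstr_intA hd1 hb1
  have uB : IntegrableOn B (Ioi H) := fstr_intB hd1 hb1
  have ue : ∫ t in Ioi H, A t = ∫ t in Ioi H, B t := fstr_up hTri hH hd1 hb1
  have low : ∀ (F G : ℝ → ℂ), IntegrableOn G (Ioi H) → (∀ t, F (-t) = -conj (G t)) →
      IntegrableOn F (Iic (-H)) ∧ ∫ t in Iic (-H), F t = -conj (∫ t in Ioi H, G t) := by
    intro F G hG hFG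
    have h1 : IntegrableOn (fun t => F (-t)) (Ioi H) := by
      simp only [hFG]
      exact (Complex.conjCLE.toContinuousLinearMap.integrable_comp hG).neg
    constructor
    · have h2 : IntegrableOn (fun t => F (-t)) (Ici (- -H)) := by
        rw [neg_neg]
        exact (integrableOn_Ici_iff_integrableOn_Ioi).2 h1
      simpa using h2.comp_neg_Iic
    · rw [← integral_comp_neg_Ioi]
      simp only [hFG]
      rw [integral_neg, integral_conj]
  obtain ⟨lA, leA⟩ := low A _ (fstr_intA hd2 hb2) nA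
  obtain ⟨lB, leB⟩ := low B _ (fstr_intB hd2 hb2) nB
  have le : ∫ t in Iic (-H), A t = ∫ t in Iic (-H), B t := by
    rw [leA, leB, fstr_up hTri hH hd2 hb2]
  have mid : EqOn A B (Icc (-H) H) := by
    intro t ht
    have h1 := cs_mid (abs_le.2 ht)
    simp only [hA, hB]
    rw [h1.1, h1.2]
  have mB : IntegrableOn B (Icc (-H) H) :=
    (hc.mul continuous_const).continuousOn.integrableOn_Icc
  have mA : IntegrableOn A (Icc (-H) H) := mB.congr_fun mid.symm measurableSet_Icc
  have hun : Iic H = Iic (-H) ∪ Icc (-H) H := (Iic_union_Icc_eq_Iic (by linarith)).symm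
  have iA : IntegrableOn A (Iic H) := by rw [hun]; exact lA.union mA
  have iB : IntegrableOn B (Iic H) := by rw [hun]; exact lB.union mB
  have me : ∫ t in (-H)..H, A t = ∫ t in (-H)..H, B t := by
    refine intervalIntegral.integral_congr ?_
    rw [uIcc_of_le (by linarith)]
    exact mid
  have sA := intervalIntegral.integral_Iic_sub_Iic lA iA
  have sB := intervalIntegral.integral_Iic_sub_Iic lB iB
  have tA := intervalIntegral.integral_Iic_add_Ioi iA uA
  have tB := intervalIntegral.integral_Iic_add_Ioi iB uB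
  have tot : ∫ t, A t = ∫ t, B t := by
    rw [← tA, ← tB, ue]
    congr 1
    linear_combination sA - sB + le + me
  unfold CI
  change 1 / (2 * Real.pi * I) * ∫ t, A t = _
  rw [tot, hB, integral_mul_const]
  have hpi : (Real.pi : ℂ) ≠ 0 := Complex.ofReal_ne_zero.2 Real.pi_ne_zero
  field_simp

end Pool.Agent.Bar58
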