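import Pool.Agent.Lib.MP_d79f69_nt.Bar.Basic

set_option autoImplicit false

namespace Pool.Agent.Bar58

open Complex MeasureTheory Set Filter Topology
open scoped ComplexConjugate

theorem fsym_cpow {r : ℝ} (hr : 0 < r) (t : ℝ) :
    conj (((1 / r : ℝ) : ℂ) ^ (-(((1 / 2 : ℝ) : ℂ) + t * I))) / r =
      (r : ℂ) ^ (-(((1 / 2 : ℝ) : ℂ) + t * I)) := by
  have h1 : ((1 / r : ℝ) : ℂ) ≠ 0 := ofReal_ne_zero.2 (one_div_pos.2 hr).ne'
  have h2 : (r : ℂ) ≠ 0 := ofReal_ne_zero.2 hr.ne'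
  have h3 : (r : ℂ) = cexp (Real.log r : ℝ) := by
    rw [← ofReal_exp, Real.exp_log hr]
  rw [cpow_def_of_ne_zero h1, cpow_def_of_ne_zero h2, ← ofReal_log (one_div_pos.2 hr).le,
    ← ofReal_log hr.le, ← exp_conj, one_div r, Real.log_inv, div_eq_iff h2]
  conv_rhs => rw [h3]
  rw [← ofReal_exp, Real.exp_log hr]
  conv_rhs => enter [2]; rw [h3]
  rw [← Complex.exp_add]
  congr 1
  simp only [map_mul, map_neg, map_add, conj_ofReal, conj_I]
  push_cast
  ring

theorem stSym (hShift : StShift) (hMI : StMI) : StSym := by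
  intro h hd hv hs
  have hv' : VD (1 / 2) (2 / 3) h := by
    obtain ⟨C, hC, hb⟩ := hv
    exact ⟨C, hC, fun σ t h1 h2 => hb σ t (by linarith) h2⟩
  have hsh : ∀ r : ℝ, 0 < r → mellinInv (1 / 2) h r = mellinInv (2 / 3) h r :=
    hShift h (1 / 2) (2 / 3) 1 (by norm_num) (by norm_num) (by norm_num) hd hv'
  have hreal : ∀ t : ℝ, conj (h (((1 / 2 : ℝ) : ℂ) + t * I)) = h (((1 / 2 : ℝ) : ℂ) + t * I) := by
    intro t
    rw [← hs]
    congr 1
    simp only [map_mul, map_add, conj_ofReal, conj_I]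
    push_cast
    ring
  refine ⟨fun r hr => ?_, fun s hs2 => ?_⟩
  · rw [← hsh r hr, ← hsh (1 / r) (one_div_pos.2 hr), mellinInv_eq, mellinInv_eq, map_mul,
      ← integral_conj, mul_div_assoc, ← integral_div]
    congr 1
    · simp only [map_div₀, map_one, map_mul, conj_ofReal, map_ofNat]
    · congr 1
      funext t
      rw [map_mul, hreal, mul_div_assoc, fsym_cpow hr]
  · obtain ⟨h1, h2⟩ := hMI h (1 / 3) (1 / 2) (2 / 3) 1 (by norm_num) (by norm_num) (by norm_num)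
      (by norm_num) hd hv s hs2
    have e : EqOn (fun t : ℝ => (t : ℂ) ^ (s - 1) • mellinInv (1 / 2) h t)
        (fun t : ℝ => (t : ℂ) ^ (s - 1) • mellinInv (2 / 3) h t) (Ioi 0) := fun t ht => by
      simp only [hsh t ht]
    exact ⟨IntegrableOn.congr_fun h1 e measurableSet_Ioi,
      (setIntegral_congr_fun measurableSet_Ioi e).symm.trans h2⟩

end Pool.Agent.Bar58
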