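import Pool.Agent.Lib.MP_d79f69_nt.Bar.Basic

set_option autoImplicit false

namespace Pool.Agent.Bar58

open Complex MeasureTheory Set Filter Topology
open scoped ComplexConjugate

theorem ftest_poly (hGV : StGV) (ν : Fin 3 → ℝ) (m : ℕ) {a : ℝ} (b : ℝ) (ha : 0 < a) :
    ∃ C : ℝ, 0 ≤ C ∧ ∀ σ t : ℝ, a ≤ σ → σ ≤ b →
      (1 + |t|) ^ m * ‖gam ν (σ + t * I)‖ ≤ C * Real.exp (-|t|) := by
  obtain ⟨C, hC, H⟩ := hGV ν a b
  obtain ⟨D, hD, H'⟩ := poly_exp_le m one_pos
  refine ⟨D * C, by positivity, fun σ t h1 h2 => ?_⟩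
  have h3 := H' |t| (abs_nonneg t)
  rw [one_mul] at h3
  calc _ ≤ (1 + |t|) ^ m * (C * Real.exp (-(2 * |t|))) := by gcongr; exact H σ t h1 h2 (Or.inl ha)
    _ = ((1 + |t|) ^ m * Real.exp (-|t|)) * C * Real.exp (-|t|) := by
        rw [show -(2 * |t|) = -|t| + -|t| by ring, Real.exp_add]; ring
    _ ≤ _ := by gcongr

theorem ftest_vd (hGV : StGV) (ν : Fin 3 → ℝ) (i : ℕ) {a : ℝ} (b : ℝ) (ha : 0 < a) :
    VD a b fun s => gam ν s * ff i s := by
  obtain ⟨C, hC, H⟩ := ftest_poly hGV ν i b ha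
  refine ⟨(|b| + i + 1) ^ i * C, by positivity, fun σ t h1 h2 => ?_⟩
  have h3 : ‖(σ : ℂ) + t * I‖ + i ≤ (|b| + i + 1) * (1 + |t|) := by
    have h4 : ‖(σ : ℂ) + t * I‖ ≤ |σ| + |t| := by
      simpa using norm_add_le (σ : ℂ) (t * I)
    have h5 : |σ| ≤ |b| := abs_le_abs h2 (by linarith)
    have h6 : (0 : ℝ) ≤ i := Nat.cast_nonneg i
    nlinarith [abs_nonneg b, abs_nonneg t]
  calc _ ≤ ‖gam ν (σ + t * I)‖ * ((|b| + i + 1) * (1 + |t|)) ^ i := by
        rw [norm_mul]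
        gcongr
        exact (norm_ff_le i _).trans (by gcongr)
    _ = (|b| + i + 1) ^ i * ((1 + |t|) ^ i * ‖gam ν (σ + t * I)‖) := by rw [mul_pow]; ring
    _ ≤ _ := by rw [mul_assoc]; exact mul_le_mul_of_nonneg_left (H σ t h1 h2) (by positivity)

theorem ftest_diff (hGD : StGD) (ν : Fin 3 → ℝ) (i : ℕ) (B : ℝ) :
    DifferentiableOn ℂ (fun s => gam ν s * ff i s) (Strip B) :=
  ((hGD ν).1.mono fun _ h => Or.inl h.1).mul (differentiable_ff i).differentiableOn

theorem ftest_eq (hGD : StGD) (hGV : StGV) (hShift : StShift) (ν : Fin 3 → ℝ) (i : ℕ) {σ x : ℝ}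
    (hσ : 0 < σ) (hx : 0 < x) :
    TT ν i x = ((x ^ (-(i : ℝ)) : ℝ) : ℂ) * mellinInv σ (fun s => gam ν s * ff i s) x := by
  have h1 : mellinInv σ (fun s => gam ν s * ff i s) x =
      mellinInv (1 / 3) (fun s => gam ν s * ff i s) x := by
    rcases le_total σ (1 / 3) with h | h
    · exact hShift _ σ (1 / 3) 1 hσ h (by norm_num) (ftest_diff hGD ν i _)
        (ftest_vd hGV ν i _ hσ) x hx
    · exact (hShift _ (1 / 3) σ (σ + 1) (by norm_num) h (by linarith) (ftest_diff hGD ν i _)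
        (ftest_vd hGV ν i _ (by norm_num)) x hx).symm
  rw [h1, mellinInv_eq, TT, mul_left_comm]
  congr 1
  rw [← integral_const_mul]
  congr 1
  funext t
  rw [mono_eq _ _ hx]
  push_cast
  ring

theorem stTest (hGD : StGD) (hGV : StGV) (hMC : StMC) (hShift : StShift) (hMI : StMI) : StTest := by
  intro ν
  refine ⟨⟨?_, fun σ hσ => ?_⟩, fun s hs => ?_, fun x hx => ?_⟩
  · have hc : Continuous fun t : ℝ => (1 / 3 + t * I : ℂ) := by fun_prop
    have hg : Continuous fun t : ℝ => gam ν (1 / 3 + t * I) :=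
      (hGD ν).1.continuousOn.comp_continuous hc fun t => Or.inl (by simp)
    obtain ⟨C, hC, H⟩ := ftest_poly hGV ν 4 (a := 1 / 3) (1 / 3) (by norm_num)
    refine (hMC (fun t => 1 / 3 + t * I) (fun t => gam ν (1 / 3 + t * I)) 4 hc
      (fun t => by norm_num [abs_le]) (fun t => ?_) ⟨hg.aestronglyMeasurable, ?_⟩).1.const_mul _
    · have h4 : ‖(1 / 3 + t * I : ℂ)‖ ≤ 1 / 3 + |t| := by
        simpa using norm_add_le (1 / 3 : ℂ) (t * I)
      linarith [abs_nonneg t]
    · refine (integrable_exp_abs.const_mul C).mono' (by fun_prop) (ae_of_all _ fun t => ?_)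
      have := H (1 / 3) t le_rfl le_rfl
      push_cast at this
      rwa [Real.norm_of_nonneg (by positivity)]
  · choose C hC H using fun i : ℕ => ftest_vd hGV ν i σ hσ
    refine ⟨∑ i ∈ Finset.range 5, C i, Finset.sum_nonneg fun i _ => hC i, fun i hi x hx => ?_⟩
    have h1 := norm_mellinInv_le (h := fun s => gam ν s * ff i s) (fun t => H i σ t le_rfl le_rfl) hx
    have h2 : C i ≤ ∑ i ∈ Finset.range 5, C i :=
      Finset.single_le_sum (fun i _ => hC i) (Finset.mem_range.2 (by omega))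
    rw [ftest_eq hGD hGV hShift ν i hσ hx, norm_mul, Complex.norm_real,
      Real.norm_of_nonneg (by positivity), sub_eq_add_neg, Real.rpow_add hx]
    calc _ ≤ x ^ (-(i : ℝ)) * ((∑ i ∈ Finset.range 5, C i) * x ^ (-σ)) := by
          gcongr
          exact h1.trans (by gcongr)
      _ = _ := by ring
  · obtain ⟨h1, h2⟩ := hMI _ (s.re / 2) s.re (s.re + 1) (s.re + 2) (by linarith) (by linarith)
      (by linarith) (by linarith) (ftest_diff hGD ν 0 _) (ftest_vd hGV ν 0 _ (by linarith)) s rfl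
    have h3 : EqOn (fun t : ℝ => (t : ℂ) ^ (s - 1) • mellinInv s.re (fun s => gam ν s * ff 0 s) t)
        (fun t : ℝ => (t : ℂ) ^ (s - 1) • TT ν 0 t) (Ioi 0) := fun t ht => by
      simp only [ftest_eq hGD hGV hShift ν 0 hs ht]
      simp
    refine ⟨IntegrableOn.congr_fun h1 h3 measurableSet_Ioi, ?_⟩
    rw [mellin, ← setIntegral_congr_fun measurableSet_Ioi h3]
    exact h2.trans (by simp [ff])
  · rw [TT, TT, map_mul, ← integral_conj, ← integral_neg_eq_self]
    congr 1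
    · simp [map_ofNat]
    · congr 1
      funext t
      have e : conj (1 / 3 + ((-t : ℝ) : ℂ) * I) = 1 / 3 + t * I := by simp [map_ofNat]
      have a : (x : ℂ).arg ≠ Real.pi := by
        rw [Complex.arg_ofReal_of_nonneg hx.le]; exact Real.pi_ne_zero.symm
      rw [map_mul, (hGD ν).2.2.1, mono_zero, mono_zero, e, ← e, ← map_neg, Complex.cpow_conj _ _ a,
        conj_ofReal]

end Pool.Agent.Bar58
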