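import Pool.Agent.Lib.MP_d79f69_nt.Bar.Basic

set_option autoImplicit false

namespace Pool.Agent.Bar58

open Complex MeasureTheory Set Filter Topology
open scoped ComplexConjugate

theorem ftri_sub (c R : ℝ) : Metric.ball (((c + R : ℝ) : ℂ) * I) R ⊆ {s : ℂ | c < s.im} := by
  intro s hs
  rw [Metric.mem_ball, dist_eq_norm] at hs
  have h1 := (Complex.abs_im_le_norm (s - ((c + R : ℝ) : ℂ) * I)).trans_lt hs
  have h2 : (s - ((c + R : ℝ) : ℂ) * I).im = s.im - (c + R) := by simp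
  rw [h2] at h1
  have h3 := (abs_lt.1 h1).1
  show c < s.im
  linarith

theorem ftri_mem (c : ℝ) {a : ℂ} (ha : c < a.im) :
    ∀ᶠ R : ℝ in atTop, a ∈ Metric.ball (((c + R : ℝ) : ℂ) * I) R := by
  have hh : 0 < a.im - c := by linarith
  filter_upwards [eventually_gt_atTop ((a.re ^ 2 + (a.im - c) ^ 2) / (2 * (a.im - c)))] with R hR
  have hq : 0 ≤ (a.re ^ 2 + (a.im - c) ^ 2) / (2 * (a.im - c)) := by positivity
  have hR0 : 0 < R := lt_of_le_of_lt hq hR
  rw [div_lt_iff₀ (by positivity)] at hR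
  rw [Metric.mem_ball, dist_eq_norm]
  have h1 : ‖a - ((c + R : ℝ) : ℂ) * I‖ ^ 2 = a.re ^ 2 + (a.im - (c + R)) ^ 2 := by
    rw [Complex.sq_norm, Complex.normSq_apply]
    simp
    ring
  have h2 : ‖a - ((c + R : ℝ) : ℂ) * I‖ ^ 2 < R ^ 2 := by
    rw [h1]
    nlinarith
  exact lt_of_pow_lt_pow_left₀ 2 hR0.le h2

theorem ftri_seg {U : Set ℂ} (hU : Convex ℝ U) {f F : ℂ → ℂ} (hf : ContinuousOn f U)
    (hF : ∀ z ∈ U, HasDerivAt F (f z) z) {a b : ℂ} (ha : a ∈ U) (hb : b ∈ U) :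
    seg f a b = F b - F a := by
  have hm : ∀ τ ∈ uIcc (0 : ℝ) 1, a + (τ : ℂ) * (b - a) ∈ U := by
    intro τ hτ
    rw [uIcc_of_le zero_le_one] at hτ
    have := hU.add_smul_sub_mem ha hb hτ
    simpa using this
  have hc : Continuous fun τ : ℝ => a + (τ : ℂ) * (b - a) := by fun_prop
  have hd : ∀ τ ∈ uIcc (0 : ℝ) 1, HasDerivAt (fun τ : ℝ => F (a + (τ : ℂ) * (b - a)))
      (f (a + (τ : ℂ) * (b - a)) * (b - a)) τ := by
    intro τ hτ
    have h1 : HasDerivAt (fun z : ℂ => a + z * (b - a)) (b - a) (τ : ℂ) := by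
      simpa using ((hasDerivAt_id (τ : ℂ)).mul_const (b - a)).const_add a
    have h2 := (hF _ (hm τ hτ)).comp (τ : ℂ) h1
    exact h2.comp_ofReal
  have hi : IntervalIntegrable (fun τ : ℝ => f (a + (τ : ℂ) * (b - a)) * (b - a)) volume 0 1 := by
    apply ContinuousOn.intervalIntegrable
    exact (hf.comp hc.continuousOn hm).mul continuousOn_const
  unfold seg
  rw [intervalIntegral.integral_eq_sub_of_hasDerivAt hd hi]
  simp

theorem stTri : StTri := by
  intro c f hf a b e ha hb he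
  obtain ⟨R, hRa, hRb, hRe⟩ := ((ftri_mem c ha).and ((ftri_mem c hb).and (ftri_mem c he))).exists
  have hd := hf.mono (ftri_sub c R)
  obtain ⟨F, hF⟩ := hd.isExactOn_ball
  have hU := convex_ball (((c + R : ℝ) : ℂ) * I) R
  rw [ftri_seg hU hd.continuousOn hF hRa hRb, ftri_seg hU hd.continuousOn hF hRb hRe,
    ftri_seg hU hd.continuousOn hF hRa hRe]
  ring

end Pool.Agent.Bar58
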