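import Pool.Agent.Lib.MP_d79f69_nt.Bar.Basic

set_option autoImplicit false

namespace Pool.Agent.Bar58

open Complex MeasureTheory Set Filter Topology
open scoped ComplexConjugate

theorem fun_part {F : ℝ → ℂ} (hF : Nice F) (N : ℕ) :
    ∑ n ∈ Finset.range N, DD F n - B0 F = ∑ n ∈ Finset.range N, F (n + 1) -
      ∑ m ∈ Finset.range 11, (cc m : ℂ) * (∫ x in (0 : ℝ)..((N : ℝ) + m + 1), F x) := by
  induction N with
  | zero => simp [B0]
  | succ N ih =>
    have h : ∀ m ∈ Finset.range 11,
        (cc m : ℂ) * (∫ x in (0 : ℝ)..(((N + 1 : ℕ) : ℝ) + m + 1), F x) =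
          (cc m : ℂ) * (∫ x in (0 : ℝ)..((N : ℝ) + m + 1), F x) +
            (cc m : ℂ) * ∫ x in ((N : ℝ) + 1 + m)..((N : ℝ) + 2 + m), F x := by
      intro m _
      have e1 : ((N + 1 : ℕ) : ℝ) + m + 1 = (N : ℝ) + 2 + m := by
        push_cast
        ring
      have e2 : (N : ℝ) + m + 1 = (N : ℝ) + 1 + m := by ring
      rw [e1, e2, ← mul_add, intervalIntegral.integral_add_adjacent_intervals
        (hF.int _ (by positivity)) (hF.int' (by positivity) (by positivity))]
    rw [Finset.sum_range_succ (fun n => DD F n), Finset.sum_range_succ (fun n : ℕ => F (n + 1)),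
      Finset.sum_congr rfl h, Finset.sum_add_distrib]
    have hD : DD F N = F (N + 1) - ∑ m ∈ Finset.range 11,
        (cc m : ℂ) * ∫ x in ((N : ℝ) + 1 + m)..((N : ℝ) + 2 + m), F x := rfl
    rw [hD]
    linear_combination ih

theorem stUN : StUN := by
  intro F hF N
  rw [← fun_part hF N, UU, ← (Summable.of_norm hF.sum).sum_add_tsum_nat_add N]
  ring

end Pool.Agent.Bar58
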