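import Pool.Agent.Lib.MP_d79f69_nt.Bar.Basic

set_option autoImplicit false

namespace Pool.Agent.Bar58

open Complex MeasureTheory Set Filter Topology
open scoped ComplexConjugate

theorem fup1_pt {κ p H θ M t0 R σ : ℝ} {f : ℂ → ℂ} (hκ : 0 < κ) (hp : p + 2 ≤ 20 * κ)
    (hθ : 0 ≤ θ) (hM : 0 ≤ M) (h1 : 1 ≤ t0) (hH : H ≤ t0) (h : SB κ p θ M t0 H f)
    (hR : 2 * t0 ≤ R) (hs : -(R / 2) ≤ σ) (hs' : σ ≤ -20) :
    ‖f (σ + R * I)‖ ≤ M * Real.exp (20 * κ * (Real.log t0 + 1 / 12)) / R ^ 2 := by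
  have hR0 : 0 < R := by linarith
  have ha : |σ| = -σ := abs_of_nonpos (by linarith)
  have key := h σ R (by rw [abs_of_pos hR0]; linarith) (by rw [abs_of_pos hR0, ha]; linarith)
  have hN : R ≤ ‖(σ : ℂ) + R * I‖ := by
    simpa [abs_of_pos hR0] using Complex.abs_im_le_norm ((σ : ℂ) + R * I)
  generalize ‖(σ : ℂ) + R * I‖ = N at key hN
  have hN0 : 0 < N := by linarith
  have l1 : Real.log R ≤ Real.log N := Real.log_le_log hR0 hN
  have l2 : 0 ≤ Real.log R := Real.log_nonneg (by linarith)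
  have l3 : Real.log 2 + Real.log t0 ≤ Real.log R := by
    rw [← Real.log_mul (by norm_num) (by linarith)]
    exact Real.log_le_log (by linarith) hR
  have l4 := Real.log_two_gt_d9
  have c1 : (-σ) ^ 3 / (3 * R ^ 2) ≤ -σ / 12 := by
    rw [div_le_div_iff₀ (by positivity) (by norm_num)]
    have : σ ^ 2 ≤ (R / 2) ^ 2 := sq_le_sq' hs (by linarith)
    nlinarith
  have c2 : σ * (Real.log N - Real.log t0) + (-σ) ^ 3 / (3 * R ^ 2) ≤
      -20 * (Real.log N - Real.log t0 - 1 / 12) := by nlinarith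
  have c3 := mul_le_mul_of_nonneg_left c2 hκ.le
  have c4 : Real.log N * p ≤ Real.log N * (20 * κ - 2) :=
    mul_le_mul_of_nonneg_left (by linarith) (by linarith)
  have c5 : 0 ≤ θ * R := by positivity
  have e : R ^ 2 = Real.exp (2 * Real.log R) := by
    rw [show 2 * Real.log R = Real.log R + Real.log R by ring, Real.exp_add, Real.exp_log hR0, sq]
  rw [ha, abs_of_pos hR0, Real.rpow_def_of_pos hN0, Real.log_div hN0.ne' (by linarith), mul_assoc,
    ← Real.exp_add] at key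
  rw [mul_div_assoc]
  conv_rhs => rw [e, ← Real.exp_sub]
  refine key.trans (mul_le_mul_of_nonneg_left (Real.exp_le_exp.2 ?_) hM)
  nlinarith

theorem fup1_seg {κ p H θ M t0 R : ℝ} {f : ℂ → ℂ} (hκ : 0 < κ) (hp : p + 2 ≤ 20 * κ)
    (hθ : 0 ≤ θ) (hM : 0 ≤ M) (h1 : 40 ≤ t0) (hH : H ≤ t0) (h : SB κ p θ M t0 H f)
    (hR : 2 * t0 ≤ R) :
    ‖seg f (-20 + R * I) (t0 * I + (R - t0 : ℝ) * (-1 / 2 + I))‖ ≤
      M * Real.exp (20 * κ * (Real.log t0 + 1 / 12)) * R⁻¹ := by
  have hR0 : 0 < R := by linarith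
  have e : (t0 : ℂ) * I + (R - t0 : ℝ) * (-1 / 2 + I) - (-20 + R * I) =
      ((20 - (R - t0) / 2 : ℝ) : ℂ) := by
    push_cast
    ring
  unfold seg
  rw [e]
  refine (intervalIntegral.norm_integral_le_of_norm_le_const
    (C := M * Real.exp (20 * κ * (Real.log t0 + 1 / 12)) * R⁻¹) fun τ hτ => ?_).trans (by simp)
  rw [uIoc_of_le zero_le_one] at hτ
  have e2 : -20 + (R : ℂ) * I + τ * ((20 - (R - t0) / 2 : ℝ) : ℂ) =
      ((-20 + τ * (20 - (R - t0) / 2) : ℝ) : ℂ) + R * I := by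
    push_cast
    ring
  have b1 := fup1_pt hκ hp hθ hM (by linarith) hH h hR (σ := -20 + τ * (20 - (R - t0) / 2))
    (by nlinarith [hτ.1, hτ.2]) (by nlinarith [hτ.1, hτ.2])
  have b2 : ‖((20 - (R - t0) / 2 : ℝ) : ℂ)‖ ≤ R := by
    rw [Complex.norm_real, Real.norm_eq_abs, abs_le]
    constructor <;> linarith
  rw [e2, norm_mul]
  refine (mul_le_mul b1 b2 (norm_nonneg _) (by positivity)).trans (le_of_eq ?_)
  field_simp

theorem fup1_upper (hTri : StTri) {H R : ℝ} {f : ℂ → ℂ} (hH : 10 ≤ H)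
    (hf : DifferentiableOn ℂ f {s | H - 1 < s.im}) (hi : Integrable fun t => f (cs H t) * cd H t)
    (hR : H + 122 / 3 ≤ R) :
    ∫ t in H..R, f (cs H t) * cd H t = seg f (1 / 3 + H * I) (-20 + R * I) := by
  have e1 : ∫ t in H..(H + 122 / 3), f (cs H t) * cd H t =
      seg f (1 / 3 + H * I) (-20 + (H + 122 / 3 : ℝ) * I) := by
    have := seg_eq f (1 / 3 + H * I - H * (-1 / 2 + I)) (-1 / 2 + I) H (H + 122 / 3)
    rw [show 1 / 3 + (H : ℂ) * I - H * (-1 / 2 + I) + H * (-1 / 2 + I) = 1 / 3 + H * I by ring,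
      show 1 / 3 + (H : ℂ) * I - H * (-1 / 2 + I) + (H + 122 / 3 : ℝ) * (-1 / 2 + I) =
        -20 + (H + 122 / 3 : ℝ) * I by push_cast; ring] at this
    rw [← this, intervalIntegral.integral_of_le (by linarith),
      intervalIntegral.integral_of_le (by linarith), integral_Ioc_eq_integral_Ioo,
      integral_Ioc_eq_integral_Ioo]
    refine setIntegral_congr_fun measurableSet_Ioo fun t ht => ?_
    rw [cs_slant (by linarith) ht.1.le ht.2.le, cd_slant (by linarith) ht.1 ht.2]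
    congr 2
    ring
  have e2 : ∫ t in (H + 122 / 3)..R, f (cs H t) * cd H t =
      seg f (-20 + (H + 122 / 3 : ℝ) * I) (-20 + R * I) := by
    rw [← seg_eq]
    refine intervalIntegral.integral_congr fun t ht => ?_
    rw [uIcc_of_le hR] at ht
    have := cs_end (H := H) (t := t) (ht.1.trans (le_abs_self t))
    rw [this.1, this.2]
  rw [← intervalIntegral.integral_add_adjacent_intervals (b := H + 122 / 3)
    hi.intervalIntegrable hi.intervalIntegrable, e1, e2]
  exact hTri _ f hf _ _ _ (by simp) (by simp; linarith) (by simp; linarith)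

theorem stUp1 (hTri : StTri) (hDec : StDec) (hUpC : StUpC) : StUp1 := by
  intro κ p H θ M t0 f hκ hH hp hθ hM ht hf hS
  have hf' : DifferentiableOn ℂ f {s | H - 1 < s.im} :=
    hf.mono fun s hs => Or.inr (lt_of_lt_of_le hs (le_abs_self _))
  have hd := hDec κ p H θ M t0 0 f hκ hH (by simpa using hp) hθ hM (by linarith) hf hS
  have hi : Integrable fun t => f (cs H t) * cd H t :=
    (integrable_norm_iff hd.1).1 (by simpa using hd.2)
  obtain ⟨C, -, hC⟩ := hUpC κ p H hκ hH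
  obtain ⟨G, hG, hG', -⟩ := hC θ M t0 f hθ hM ht hS
  have hc : ContinuousOn (fun τ : ℝ => f (t0 * I + τ * (-1 / 2 + I)) * (-1 / 2 + I)) (Ioi 0) := by
    refine (hf'.continuousOn.comp (by fun_prop) fun τ hτ => ?_).mul continuousOn_const
    have : (0 : ℝ) < τ := hτ
    simp
    linarith
  have hj : IntegrableOn (fun τ : ℝ => f (t0 * I + τ * (-1 / 2 + I)) * (-1 / 2 + I)) (Ioi 0) :=
    hG.mono' (hc.aestronglyMeasurable measurableSet_Ioi)
      ((ae_restrict_iff' measurableSet_Ioi).2 (Eventually.of_forall hG'))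
  have t1 := intervalIntegral_tendsto_integral_Ioi H hi.integrableOn (tendsto_id (x := atTop))
  have t2 := intervalIntegral_tendsto_integral_Ioi 0 hj
    (tendsto_atTop_add_const_right atTop (-t0) tendsto_id)
  have t3 : Tendsto (fun R : ℝ => seg f (-20 + R * I) (t0 * I + (R - t0 : ℝ) * (-1 / 2 + I)))
      atTop (𝓝 0) := by
    refine squeeze_zero_norm' ((eventually_ge_atTop (2 * t0)).mono fun R hR =>
      fup1_seg hκ hp hθ hM (by linarith) (by linarith) hS hR) ?_
    simpa using tendsto_inv_atTop_zero.const_mul (M * Real.exp (20 * κ * (Real.log t0 + 1 / 12)))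
  have t4 := t1.add t3
  rw [add_zero] at t4
  refine tendsto_nhds_unique t4 ((t2.const_add _).congr' ?_)
  filter_upwards [eventually_ge_atTop (2 * t0)] with R hR
  simp only [id]
  rw [fup1_upper hTri hH hf' hi (by linarith), seg_eq, ← sub_eq_add_neg, ofReal_zero, zero_mul,
    add_zero, hTri _ f hf' _ _ _ (by simp) (by simp; linarith) (by simp; linarith),
    hTri _ f hf' _ _ _ (by simp) (by simp; linarith) (by simp; linarith),
    hTri _ f hf' _ _ _ (by simp) (by simp; linarith) (by simp; linarith)]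

end Pool.Agent.Bar58
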