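import Pool.Agent.Lib.MP_d79f69_nt.Bar.Basic

set_option autoImplicit false

namespace Pool.Agent.Bar58

open Complex MeasureTheory Set Filter Topology
open scoped ComplexConjugate

theorem fupa_int {c t0 : ℝ} (hc : 0 < c) :
    ∫ τ in (0 : ℝ)..1, t0 * Real.exp (-(c * (τ * t0))) ≤ 1 / c := by
  have h : ∀ τ ∈ uIcc (0 : ℝ) 1, HasDerivAt (fun τ : ℝ => -Real.exp (-(c * (τ * t0))) / c)
      (t0 * Real.exp (-(c * (τ * t0)))) τ := by
    intro τ _
    have h1 : HasDerivAt (fun τ : ℝ => -(c * (τ * t0))) (-(c * (1 * t0))) τ :=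
      (((hasDerivAt_id τ).mul_const t0).const_mul c).neg
    have h2 := (h1.exp.neg).div_const c
    refine h2.congr_deriv ?_
    field_simp
  rw [intervalIntegral.integral_eq_sub_of_hasDerivAt h
    (Continuous.intervalIntegrable (by fun_prop) _ _)]
  have h3 : 0 ≤ Real.exp (-(c * (1 * t0))) / c := by positivity
  simp only [zero_mul, mul_zero, neg_zero, Real.exp_zero, neg_div]
  linarith

theorem fupa_pt {κ p H C θ M t0 : ℝ} {m : ℕ} {f : ℂ → ℂ} (hκ : 0 < κ) (hH : 10 ≤ H)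
    (hm : p + κ / 3 ≤ m) (hC : ∀ u : ℝ, 0 ≤ u → (1 + u) ^ m * Real.exp (-(κ / 40 * u)) ≤ C)
    (hθ : 0 ≤ θ) (hM : 0 ≤ M) (ht0 : 8 * H ≤ t0) (hf : SB κ p θ M t0 H f) {τ : ℝ} (h0 : 0 ≤ τ)
    (h1 : τ ≤ 1) :
    ‖f (((1 / 3 + τ * (t0 / 4 - 1 / 3) : ℝ) : ℂ) + ((H + τ * (t0 / 2 - H) : ℝ) : ℂ) * I)‖ ≤
      M * ((H + 1) ^ m * C * Real.exp (κ / 36)) * t0 ^ (-(κ / 3)) *
        Real.exp (-(κ / 25 * (τ * t0))) := by
  set w : ℝ := τ * (t0 / 4 - 1 / 3) with hw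
  set t : ℝ := H + τ * (t0 / 2 - H) with ht
  have hp0 : 0 < t0 := by linarith
  have hτ : 0 ≤ τ * t0 := by positivity
  have hw5 : τ * t0 / 5 ≤ w := by
    rw [hw]
    linarith [mul_nonneg h0 (show 0 ≤ t0 / 20 - 1 / 3 by linarith)]
  have hw0 : 0 ≤ w := by linarith
  have htH : H ≤ t := by
    rw [ht]
    linarith [mul_nonneg h0 (show 0 ≤ t0 / 2 - H by linarith)]
  have ht3 : t ≤ H + 3 * w := by
    rw [ht]
    linarith [mul_nonneg h0 (show 0 ≤ H by linarith)]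
  have ht2 : t ≤ t0 / 2 := by
    rw [ht]
    linarith [mul_nonneg (sub_nonneg.2 h1) (show 0 ≤ t0 / 2 - H by linarith)]
  have hσ : 1 / 3 + w ≤ t / 2 := by
    rw [ht, hw]
    linarith [mul_nonneg (sub_nonneg.2 h1) (show 0 ≤ H / 2 - 1 / 3 by linarith)]
  have htp : 0 < t := by linarith
  have hb := hf (1 / 3 + w) t (by rwa [abs_of_pos htp])
    (by rw [abs_of_pos htp, abs_of_nonneg (by linarith)]; linarith)
  rw [abs_of_pos htp, abs_of_nonneg (show 0 ≤ 1 / 3 + w by linarith)] at hb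
  refine hb.trans ?_
  set ρ : ℝ := ‖((1 / 3 + w : ℝ) : ℂ) + t * I‖ with hρ
  have hsq : ρ ^ 2 = (1 / 3 + w) ^ 2 + t ^ 2 := by
    rw [hρ, Complex.sq_norm, Complex.normSq_add_mul_I]
  have hρ0 : 0 ≤ ρ := norm_nonneg _
  have hρ1 : 1 ≤ ρ := by
    refine (pow_le_pow_iff_left₀ zero_le_one hρ0 two_ne_zero).1 ?_
    have : (10 : ℝ) ^ 2 ≤ t ^ 2 := pow_le_pow_left₀ (by norm_num) (by linarith) 2
    linarith [sq_nonneg (1 / 3 + w)]
  have hσ2 : (1 / 3 + w) ^ 2 ≤ (t / 2) ^ 2 := pow_le_pow_left₀ (by linarith) hσ 2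
  have hρ2 : ρ ≤ 3 / 5 * t0 := by
    refine (pow_le_pow_iff_left₀ hρ0 (by linarith) two_ne_zero).1 ?_
    have : t ^ 2 ≤ (t0 / 2) ^ 2 := pow_le_pow_left₀ htp.le ht2 2
    linarith [sq_nonneg t0]
  have hρ3 : ρ ≤ (H + 1) * (1 + 4 * w) := by
    have h2 : ρ ≤ 1 / 3 + w + t := by
      refine (pow_le_pow_iff_left₀ hρ0 (by linarith) two_ne_zero).1 ?_
      linarith [mul_nonneg (show 0 ≤ 1 / 3 + w by linarith) htp.le]
    linarith [mul_nonneg hw0 (show 0 ≤ H by linarith)]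
  have hq : 0 < ρ / t0 := by positivity
  have hL : Real.log (ρ / t0) ≤ -(2 / 5) := by
    have h2 := Real.log_le_sub_one_of_pos hq
    have h3 : ρ / t0 ≤ 3 / 5 := by rwa [div_le_iff₀ hp0]
    linarith
  have hc : (1 / 3 + w) ^ 3 / (3 * t ^ 2) ≤ (1 / 3 + w) / 12 := by
    rw [div_le_div_iff₀ (by positivity) (by norm_num)]
    linarith [mul_le_mul_of_nonneg_left hσ2 (show 0 ≤ 1 / 3 + w by linarith)]
  have hE : κ * ((1 / 3 + w) * Real.log (ρ / t0) + (1 / 3 + w) ^ 3 / (3 * t ^ 2)) - θ * t ≤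
      Real.log (ρ / t0) * (κ / 3) + κ / 36 + -(κ / 40 * (4 * w)) + -(κ / 25 * (τ * t0)) := by
    have h2 : w * Real.log (ρ / t0) ≤ w * -(2 / 5) := mul_le_mul_of_nonneg_left hL hw0
    have h3 : (1 / 3 + w) * Real.log (ρ / t0) + (1 / 3 + w) ^ 3 / (3 * t ^ 2) ≤
        Real.log (ρ / t0) / 3 + 1 / 36 - w / 10 - τ * t0 / 25 := by linarith
    have h4 := mul_le_mul_of_nonneg_left h3 hκ.le
    have h5 : 0 ≤ θ * t := by positivity
    linarith
  have hX : Real.exp (Real.log (ρ / t0) * (κ / 3)) = ρ ^ (κ / 3) * t0 ^ (-(κ / 3)) := by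
    rw [← Real.rpow_def_of_pos hq, Real.div_rpow hρ0 hp0.le, Real.rpow_neg hp0.le, div_eq_mul_inv]
  have hP : ρ ^ p * ρ ^ (κ / 3) ≤ (H + 1) ^ m * (1 + 4 * w) ^ m := by
    rw [← Real.rpow_add (by linarith), ← mul_pow]
    refine (Real.rpow_le_rpow_of_exponent_le hρ1 hm).trans ?_
    rw [Real.rpow_natCast]
    exact pow_le_pow_left₀ hρ0 hρ3 m
  have hQ := hC (4 * w) (by linarith)
  calc M * ρ ^ p * Real.exp (κ * ((1 / 3 + w) * Real.log (ρ / t0) +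
          (1 / 3 + w) ^ 3 / (3 * t ^ 2)) - θ * t)
      ≤ M * ρ ^ p * Real.exp (Real.log (ρ / t0) * (κ / 3) + κ / 36 + -(κ / 40 * (4 * w)) +
          -(κ / 25 * (τ * t0))) := by gcongr
    _ = M * ((ρ ^ p * ρ ^ (κ / 3)) * Real.exp (-(κ / 40 * (4 * w))) * Real.exp (κ / 36)) *
          t0 ^ (-(κ / 3)) * Real.exp (-(κ / 25 * (τ * t0))) := by
        rw [Real.exp_add, Real.exp_add, Real.exp_add, hX]
        ring
    _ ≤ M * (((H + 1) ^ m * (1 + 4 * w) ^ m) * Real.exp (-(κ / 40 * (4 * w))) *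
          Real.exp (κ / 36)) * t0 ^ (-(κ / 3)) * Real.exp (-(κ / 25 * (τ * t0))) := by gcongr
    _ = M * ((H + 1) ^ m * ((1 + 4 * w) ^ m * Real.exp (-(κ / 40 * (4 * w)))) *
          Real.exp (κ / 36)) * t0 ^ (-(κ / 3)) * Real.exp (-(κ / 25 * (τ * t0))) := by ring
    _ ≤ _ := by
        have : 0 ≤ H + 1 := by linarith
        gcongr

theorem stUpA : StUpA := by
  intro κ p H hκ hH
  obtain ⟨C, hC1, hC⟩ := poly_exp_le ⌈p + κ / 3⌉₊ (show 0 < κ / 40 by positivity)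
  have hH1 : 0 ≤ H + 1 := by linarith
  have hC0 : 0 ≤ C := by linarith
  set K : ℝ := (H + 1) ^ ⌈p + κ / 3⌉₊ * C * Real.exp (κ / 36) with hK
  have hK0 : 0 ≤ K := by positivity
  refine ⟨K * (1 / (κ / 25)), by positivity, fun θ M t0 f hθ hM ht0 hf => ?_⟩
  have hp0 : 0 < t0 := by linarith
  have hd : (t0 / 4 + t0 / 2 * I : ℂ) - (1 / 3 + H * I) =
      ((t0 / 4 - 1 / 3 : ℝ) : ℂ) + ((t0 / 2 - H : ℝ) : ℂ) * I := by
    push_cast
    ring
  have hn : ‖(t0 / 4 + t0 / 2 * I : ℂ) - (1 / 3 + H * I)‖ ≤ t0 := by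
    rw [hd]
    refine (norm_add_le _ _).trans ?_
    rw [norm_mul, Complex.norm_I, mul_one, Complex.norm_real, Complex.norm_real,
      Real.norm_of_nonneg (by linarith), Real.norm_of_nonneg (by linarith)]
    linarith
  have hA : 0 ≤ M * K * t0 ^ (-(κ / 3)) := by positivity
  unfold seg
  refine (intervalIntegral.norm_integral_le_of_norm_le zero_le_one
    (g := fun τ => M * K * t0 ^ (-(κ / 3)) * (t0 * Real.exp (-(κ / 25 * (τ * t0)))))
    (Eventually.of_forall fun τ hτ => ?_) (Continuous.intervalIntegrable (by fun_prop) _ _)).trans ?_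
  · have h1 := fupa_pt hκ hH (Nat.le_ceil _) hC hθ hM ht0 hf hτ.1.le hτ.2
    have h2 : (1 / 3 + H * I : ℂ) + τ * ((t0 / 4 + t0 / 2 * I : ℂ) - (1 / 3 + H * I)) =
        ((1 / 3 + τ * (t0 / 4 - 1 / 3) : ℝ) : ℂ) + ((H + τ * (t0 / 2 - H) : ℝ) : ℂ) * I := by
      push_cast
      ring
    rw [norm_mul, h2]
    calc _ ≤ (M * K * t0 ^ (-(κ / 3)) * Real.exp (-(κ / 25 * (τ * t0)))) * t0 :=
          mul_le_mul h1 hn (norm_nonneg _) (by positivity)
      _ = _ := by ring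
  · rw [intervalIntegral.integral_const_mul]
    calc _ ≤ M * K * t0 ^ (-(κ / 3)) * (1 / (κ / 25)) :=
          mul_le_mul_of_nonneg_left (fupa_int (by positivity)) hA
      _ = _ := by ring

end Pool.Agent.Bar58
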