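import Pool.Agent.Lib.MP_d79f69_nt.Bar.Basic

set_option autoImplicit false

namespace Pool.Agent.Bar58

open Complex MeasureTheory Set Filter Topology
open scoped ComplexConjugate

theorem fupb_rpow {N t0 : ℝ} (p : ℝ) (ht : 0 < t0) (h1 : t0 / 2 ≤ N) (h2 : N ≤ t0) :
    N ^ p ≤ 2 ^ |p| * t0 ^ p := by
  have hN : 0 < N := by linarith
  have htp : 0 < t0 ^ p := Real.rpow_pos_of_pos ht p
  rcases le_total 0 p with hp | hp
  · have a1 : N ^ p ≤ t0 ^ p := Real.rpow_le_rpow hN.le h2 hp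
    have a2 : (1 : ℝ) ≤ 2 ^ |p| := Real.one_le_rpow (by norm_num) (abs_nonneg p)
    nlinarith
  · have a1 : N ^ p ≤ (t0 / 2) ^ p := Real.rpow_le_rpow_of_nonpos (by linarith) h1 hp
    rw [Real.div_rpow ht.le (by norm_num)] at a1
    rw [abs_of_nonpos hp, Real.rpow_neg (by norm_num)]
    rw [div_eq_mul_inv, mul_comm] at a1
    exact a1

theorem fupb_gauss {b : ℝ} (hb : 0 < b) :
    ∫ τ in (0 : ℝ)..1, Real.exp (-b * (1 - τ) ^ 2) ≤ √(Real.pi / b) := by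
  have h := intervalIntegral.integral_comp_sub_left (a := 0) (b := 1)
    (fun x : ℝ => Real.exp (-b * x ^ 2)) 1
  simp only [sub_self, sub_zero] at h
  rw [h, ← integral_gaussian, intervalIntegral.integral_of_le zero_le_one]
  exact setIntegral_le_integral (integrable_exp_neg_mul_sq hb)
    (Eventually.of_forall fun x => (Real.exp_pos _).le)

theorem fupb_exp {t0 v N : ℝ} (ht : 0 < t0) (h0 : 0 ≤ v) (h1 : v ≤ 1) (hN : 0 < N)
    (hsq : N ^ 2 = (v * t0 / 4) ^ 2 + (t0 * (1 - v / 2)) ^ 2) :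
    v * t0 / 4 * Real.log (N / t0) + (v * t0 / 4) ^ 3 / (3 * (t0 * (1 - v / 2)) ^ 2)
      ≤ -(t0 / 16) * v ^ 2 := by
  have hq : (N / t0) ^ 2 = 1 - v + 5 * v ^ 2 / 16 := by
    rw [div_pow, hsq]; field_simp; ring
  have hpos : 0 < N / t0 := div_pos hN ht
  have hl : 2 * Real.log (N / t0) ≤ -v + 5 * v ^ 2 / 16 := by
    have := Real.log_le_sub_one_of_pos (pow_pos hpos 2)
    rw [Real.log_pow, hq] at this
    push_cast at this
    linarith
  have hl2 : Real.log (N / t0) ≤ -(11 * v / 32) := by nlinarith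
  have hs : 0 ≤ v * t0 / 4 := by positivity
  have a1 : v * t0 / 4 * Real.log (N / t0) ≤ v * t0 / 4 * -(11 * v / 32) :=
    mul_le_mul_of_nonneg_left hl2 hs
  have hd : 0 < 1 - v / 2 := by linarith
  have a2 : (v * t0 / 4) ^ 3 / (3 * (t0 * (1 - v / 2)) ^ 2) ≤ t0 / 48 * v ^ 2 := by
    rw [div_le_iff₀ (by positivity)]
    have b1 : v ≤ 4 * (1 - v / 2) ^ 2 := by nlinarith
    have b2 : 0 ≤ t0 ^ 3 * v ^ 2 / 64 := by positivity
    have b3 := mul_le_mul_of_nonneg_left b1 b2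
    calc (v * t0 / 4) ^ 3 = t0 ^ 3 * v ^ 2 / 64 * v := by ring
      _ ≤ t0 ^ 3 * v ^ 2 / 64 * (4 * (1 - v / 2) ^ 2) := b3
      _ = t0 / 48 * v ^ 2 * (3 * (t0 * (1 - v / 2)) ^ 2) := by ring
  have a3 : 0 ≤ t0 * v ^ 2 := by positivity
  nlinarith

theorem stUpB : StUpB := by
  intro κ p H hκ hH
  refine ⟨2 ^ |p| * √(16 * Real.pi / κ), by positivity, ?_⟩
  intro θ M t0 f hθ hM ht hf
  have ht0 : 0 < t0 := by linarith
  have hb : 0 < κ * t0 / 16 := by positivity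
  set K : ℝ := M * (2 ^ |p| * t0 ^ p) * Real.exp (-(θ * t0 / 4)) * t0 with hK
  have hK0 : 0 ≤ K := by positivity
  have hd : ‖(t0 : ℂ) * I - (t0 / 4 + t0 / 2 * I)‖ ≤ t0 := by
    have e : (t0 : ℂ) * I - (t0 / 4 + t0 / 2 * I) = ((-(t0 / 4) : ℝ) : ℂ) + ((t0 / 2 : ℝ) : ℂ) * I := by
      push_cast; ring
    rw [e, Complex.norm_add_mul_I]
    apply Real.sqrt_le_iff.mpr
    exact ⟨ht0.le, by nlinarith⟩
  have hbd : ∀ τ ∈ Ioc (0 : ℝ) 1,
      ‖f (t0 / 4 + t0 / 2 * I + τ * (t0 * I - (t0 / 4 + t0 / 2 * I))) *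
        (t0 * I - (t0 / 4 + t0 / 2 * I))‖ ≤ K * Real.exp (-(κ * t0 / 16) * (1 - τ) ^ 2) := by
    intro τ hτ
    obtain ⟨hτ0, hτ1⟩ := hτ
    obtain ⟨v, hv⟩ : ∃ v : ℝ, v = 1 - τ := ⟨_, rfl⟩
    have hv0 : 0 ≤ v := by linarith
    have hv1 : v ≤ 1 := by linarith
    have e : (t0 : ℂ) / 4 + t0 / 2 * I + τ * (t0 * I - (t0 / 4 + t0 / 2 * I)) =
        ((v * t0 / 4 : ℝ) : ℂ) + ((t0 * (1 - v / 2) : ℝ) : ℂ) * I := by
      rw [hv]; push_cast; ring
    have hs : 0 ≤ v * t0 / 4 := by positivity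
    have htt : t0 / 2 ≤ t0 * (1 - v / 2) := by nlinarith
    have htp : 0 ≤ t0 * (1 - v / 2) := by linarith
    have h := hf (v * t0 / 4) (t0 * (1 - v / 2)) (by rw [abs_of_nonneg htp]; linarith)
      (by rw [abs_of_nonneg htp, abs_of_nonneg hs]; nlinarith)
    rw [abs_of_nonneg htp, abs_of_nonneg hs] at h
    rw [e, ← hv, norm_mul]
    obtain ⟨N, hN⟩ : ∃ N : ℝ, N = ‖((v * t0 / 4 : ℝ) : ℂ) + ((t0 * (1 - v / 2) : ℝ) : ℂ) * I‖ :=
      ⟨_, rfl⟩
    rw [← hN] at h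
    have hN0 : 0 ≤ N := hN ▸ norm_nonneg _
    have hsq : N ^ 2 = (v * t0 / 4) ^ 2 + (t0 * (1 - v / 2)) ^ 2 := by
      rw [hN, Complex.norm_add_mul_I, Real.sq_sqrt (by positivity)]
    have hN1 : t0 / 2 ≤ N := by
      refine htt.trans (abs_le_of_sq_le_sq' ?_ hN0).2
      rw [hsq]; nlinarith [sq_nonneg (v * t0 / 4)]
    have hN2 : N ≤ t0 := by
      refine (abs_le_of_sq_le_sq' ?_ ht0.le).2
      rw [hsq]
      have c1 : v ^ 2 ≤ v := by nlinarith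
      have c2 : 0 ≤ t0 ^ 2 * (v - 5 * v ^ 2 / 16) := mul_nonneg (by positivity) (by linarith)
      nlinarith
    have hE := fupb_exp ht0 hv0 hv1 (by linarith) hsq
    have hE2 : κ * (v * t0 / 4 * Real.log (N / t0) +
        (v * t0 / 4) ^ 3 / (3 * (t0 * (1 - v / 2)) ^ 2)) - θ * (t0 * (1 - v / 2)) ≤
        -(θ * t0 / 4) + -(κ * t0 / 16) * v ^ 2 := by
      have d1 := mul_le_mul_of_nonneg_left hE hκ.le
      have d2 : θ * (t0 / 4) ≤ θ * (t0 * (1 - v / 2)) :=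
        mul_le_mul_of_nonneg_left (by linarith) hθ
      linarith
    have h2 : ‖f (((v * t0 / 4 : ℝ) : ℂ) + ((t0 * (1 - v / 2) : ℝ) : ℂ) * I)‖ ≤
        M * (2 ^ |p| * t0 ^ p) * Real.exp (-(θ * t0 / 4) + -(κ * t0 / 16) * v ^ 2) := by
      refine h.trans ?_
      exact mul_le_mul (mul_le_mul_of_nonneg_left (fupb_rpow p ht0 hN1 hN2) hM)
        (Real.exp_le_exp.mpr hE2) (Real.exp_pos _).le (by positivity)
    calc _ ≤ M * (2 ^ |p| * t0 ^ p) * Real.exp (-(θ * t0 / 4) + -(κ * t0 / 16) * v ^ 2) * t0 :=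
          mul_le_mul h2 hd (norm_nonneg _) (by positivity)
      _ = K * Real.exp (-(κ * t0 / 16) * v ^ 2) := by rw [hK, Real.exp_add]; ring
  have hint : IntervalIntegrable (fun τ : ℝ => K * Real.exp (-(κ * t0 / 16) * (1 - τ) ^ 2))
      volume 0 1 := by
    apply Continuous.intervalIntegrable
    fun_prop
  have h1 := intervalIntegral.norm_integral_le_of_norm_le zero_le_one
    (Eventually.of_forall hbd) hint
  rw [intervalIntegral.integral_const_mul] at h1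
  have h2 := mul_le_mul_of_nonneg_left (fupb_gauss hb) hK0
  have hsq : √(Real.pi / (κ * t0 / 16)) * t0 = √(16 * Real.pi / κ) * t0 ^ (1 / 2 : ℝ) := by
    rw [← Real.sqrt_eq_rpow, ← Real.sqrt_mul (by positivity)]
    have e : 16 * Real.pi / κ * t0 = Real.pi / (κ * t0 / 16) * t0 ^ 2 := by
      field_simp
    rw [e, Real.sqrt_mul (by positivity), Real.sqrt_sq ht0.le]
  unfold seg
  refine h1.trans (h2.trans (le_of_eq ?_))
  rw [hK, Real.rpow_add ht0]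
  calc M * (2 ^ |p| * t0 ^ p) * Real.exp (-(θ * t0 / 4)) * t0 * √(Real.pi / (κ * t0 / 16))
      = M * (2 ^ |p| * t0 ^ p) * Real.exp (-(θ * t0 / 4)) * (√(Real.pi / (κ * t0 / 16)) * t0) := by
        ring
    _ = _ := by rw [hsq]; ring

end Pool.Agent.Bar58
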