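import Pool.Agent.Lib.MP_d79f69_nt.Bar.Basic

set_option autoImplicit false

namespace Pool.Agent.Bar58

open Complex MeasureTheory Set Filter Topology
open scoped ComplexConjugate

theorem fupc_expo {t0 τ n : ℝ} (h0 : 1 ≤ t0) (hτ : 0 < τ) (hn : t0 + τ ≤ n) :
    -τ / 2 * Real.log (n / t0) + |-τ / 2| ^ 3 / (3 * (t0 + τ) ^ 2) ≤
      -(11 / 24 * (τ / √t0 - 1)) := by
  have ht : 0 < t0 + τ := by linarith
  have ht0 : 0 < t0 := by linarith
  have h1 : τ / (t0 + τ) ≤ Real.log (n / t0) := by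
    have a1 := Real.one_sub_inv_le_log_of_pos (div_pos ht ht0)
    have a2 : Real.log ((t0 + τ) / t0) ≤ Real.log (n / t0) :=
      Real.log_le_log (div_pos ht ht0) (by gcongr)
    have a3 : 1 - ((t0 + τ) / t0)⁻¹ = τ / (t0 + τ) := by
      field_simp
      ring
    linarith
  have h2 : |-τ / 2| = τ / 2 := by
    rw [neg_div, abs_neg, abs_of_pos (by linarith)]
  have h3 : (τ / 2) ^ 3 / (3 * (t0 + τ) ^ 2) ≤ 1 / 24 * (τ * (τ / (t0 + τ))) := by
    have a1 : τ / (t0 + τ) ≤ 1 := (div_le_one ht).2 (by linarith)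
    have a2 : (τ / 2) ^ 3 / (3 * (t0 + τ) ^ 2) =
        1 / 24 * (τ * (τ / (t0 + τ))) * (τ / (t0 + τ)) := by
      field_simp
      ring
    rw [a2]
    exact mul_le_of_le_one_right (by positivity) a1
  have h4 : τ / √t0 - 1 ≤ τ * (τ / (t0 + τ)) := by
    obtain ⟨r, hr1, hr⟩ : ∃ r : ℝ, 1 ≤ r ∧ √t0 = r := ⟨√t0, Real.one_le_sqrt.2 h0, rfl⟩
    have e : t0 = r ^ 2 := by rw [← hr, Real.sq_sqrt ht0.le]
    obtain ⟨v, hv⟩ : ∃ v : ℝ, v = τ / r := ⟨_, rfl⟩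
    have e2 : τ = v * r := by rw [hv]; field_simp
    rw [hr, ← hv, ← mul_div_assoc, le_div_iff₀ ht, e, e2]
    have a1 : 0 ≤ v ^ 2 - v + 1 := by nlinarith [sq_nonneg (v - 1 / 2)]
    have a2 : 0 ≤ r * ((r - 1) * (v ^ 2 - v + 1)) := by positivity
    nlinarith
  have h5 := mul_le_mul_of_nonneg_left h1 hτ.le
  rw [h2]
  linarith

theorem fupc_pow {t0 τ n p : ℝ} {m : ℕ} (h0 : 1 ≤ t0) (hτ : 0 < τ) (hn : t0 + τ ≤ n)
    (hn' : n ≤ 2 * (t0 + τ)) (hm : p ≤ m) : n ^ p ≤ t0 ^ p * (2 ^ m * (1 + τ / √t0) ^ m) := by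
  have ht0 : 0 < t0 := by linarith
  have h1 : 1 ≤ n / t0 := (one_le_div ht0).2 (by linarith)
  have h2 : n / t0 ≤ 2 * (1 + τ / √t0) := by
    have a1 : √t0 ≤ t0 := Real.sqrt_le_self_iff.2 (Or.inr h0)
    have a2 : τ / t0 ≤ τ / √t0 := by
      have := Real.sqrt_pos.2 ht0
      gcongr
    have a3 : n / t0 ≤ 2 * (t0 + τ) / t0 := by gcongr
    have a4 : 2 * (t0 + τ) / t0 = 2 * (1 + τ / t0) := by field_simp
    linarith
  have h3 : n ^ p = t0 ^ p * (n / t0) ^ p := by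
    rw [← Real.mul_rpow ht0.le (by linarith)]
    congr 1
    field_simp
  rw [h3, ← mul_pow]
  refine mul_le_mul_of_nonneg_left ?_ (Real.rpow_nonneg ht0.le _)
  calc (n / t0) ^ p ≤ (n / t0) ^ (m : ℝ) := Real.rpow_le_rpow_of_exponent_le h1 hm
    _ = (n / t0) ^ m := Real.rpow_natCast _ _
    _ ≤ _ := pow_le_pow_left₀ (by linarith) h2 m

theorem stUpC : StUpC := by
  intro κ p H hκ hH
  obtain ⟨m, hm⟩ := exists_nat_ge p
  obtain ⟨c, hc⟩ : ∃ c : ℝ, c = 11 / 48 * κ := ⟨_, rfl⟩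
  have hc0 : 0 < c := by rw [hc]; positivity
  obtain ⟨C₁, hC₁, hb⟩ := poly_exp_le m hc0
  obtain ⟨K, hK⟩ : ∃ K : ℝ, K = 2 * 2 ^ m * C₁ * Real.exp (2 * c) := ⟨_, rfl⟩
  have hK0 : 0 ≤ K := by rw [hK]; positivity
  refine ⟨K / c, by positivity, fun θ M t0 f hθ hM ht0 hf => ?_⟩
  have h1 : 1 ≤ t0 := by linarith
  have h0 : 0 < t0 := by linarith
  have hr : 0 < √t0 := Real.sqrt_pos.2 h0
  have ha : -(c / √t0) < 0 := neg_lt_zero.2 (by positivity)
  refine ⟨fun τ => K * M * t0 ^ p * Real.exp (-(θ * t0 / 4)) * Real.exp (-(c / √t0) * τ),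
    (integrableOn_exp_mul_Ioi ha 0).const_mul _, fun τ hτ => ?_, ?_⟩
  · have e : (t0 : ℂ) * I + τ * (-1 / 2 + I) = ((-τ / 2 : ℝ) : ℂ) + ((t0 + τ : ℝ) : ℂ) * I := by
      push_cast
      ring
    have ht : |t0 + τ| = t0 + τ := abs_of_pos (by linarith)
    have h2 : |-τ / 2| = τ / 2 := by
      rw [neg_div, abs_neg, abs_of_pos (by linarith)]
    have hs := hf (-τ / 2) (t0 + τ) (by rw [ht]; linarith) (by rw [ht, h2]; linarith)
    obtain ⟨n, hn⟩ : ∃ n, n = ‖((-τ / 2 : ℝ) : ℂ) + ((t0 + τ : ℝ) : ℂ) * I‖ := ⟨_, rfl⟩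
    have n1 : t0 + τ ≤ n := by
      have := Complex.im_le_norm (((-τ / 2 : ℝ) : ℂ) + ((t0 + τ : ℝ) : ℂ) * I)
      rw [← hn] at this
      simpa using this
    have n2 : n ≤ 2 * (t0 + τ) := by
      have := norm_add_le ((-τ / 2 : ℝ) : ℂ) (((t0 + τ : ℝ) : ℂ) * I)
      rw [← hn, norm_mul, Complex.norm_I, Complex.norm_real, Complex.norm_real, Real.norm_eq_abs,
        Real.norm_eq_abs, ht, h2] at this
      linarith
    rw [← hn, ht] at hs
    have hd : ‖(-1 / 2 + I : ℂ)‖ ≤ 2 := by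
      have := norm_add_le (-1 / 2 : ℂ) I
      rw [Complex.norm_I] at this
      have a : ‖(-1 / 2 : ℂ)‖ = 1 / 2 := by simp
      linarith
    obtain ⟨v, hv⟩ : ∃ v, v = τ / √t0 := ⟨_, rfl⟩
    have hv0 : 0 ≤ v := by rw [hv]; positivity
    have x1 := fupc_expo h1 hτ n1
    have x2 := fupc_pow h1 hτ n1 n2 hm
    rw [← hv] at x1 x2
    have x3 : Real.exp (κ * (-τ / 2 * Real.log (n / t0) + |-τ / 2| ^ 3 / (3 * (t0 + τ) ^ 2)) -
        θ * (t0 + τ)) ≤ Real.exp (-(c * v)) * (Real.exp (2 * c) * Real.exp (-(θ * t0 / 4)) *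
          Real.exp (-(c * v))) := by
      rw [← Real.exp_add, ← Real.exp_add, ← Real.exp_add]
      refine Real.exp_le_exp.2 ?_
      have a1 := mul_le_mul_of_nonneg_left x1 hκ.le
      have a2 : θ * t0 / 4 ≤ θ * (t0 + τ) := by nlinarith [mul_nonneg hθ h0.le, mul_nonneg hθ hτ.le]
      have a3 : κ * -(11 / 24 * (v - 1)) = -(c * v) + 2 * c + -(c * v) := by rw [hc]; ring
      linarith
    have x4 : -(c / √t0) * τ = -(c * v) := by rw [hv]; ring
    have hp0 : 0 ≤ t0 ^ p := Real.rpow_nonneg h0.le _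
    have hn0 : 0 ≤ n ^ p := Real.rpow_nonneg (by linarith) _
    beta_reduce
    rw [e, norm_mul, x4]
    calc _ ≤ (M * (t0 ^ p * (2 ^ m * (1 + v) ^ m)) * (Real.exp (-(c * v)) *
            (Real.exp (2 * c) * Real.exp (-(θ * t0 / 4)) * Real.exp (-(c * v))))) * 2 := by
          refine mul_le_mul (hs.trans ?_) hd (norm_nonneg _) (by positivity)
          exact mul_le_mul (mul_le_mul_of_nonneg_left x2 hM) x3 (Real.exp_pos _).le
            (by positivity)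
      _ = (2 * 2 ^ m * Real.exp (2 * c) * M * t0 ^ p * Real.exp (-(θ * t0 / 4)) *
            Real.exp (-(c * v))) * ((1 + v) ^ m * Real.exp (-(c * v))) := by ring
      _ ≤ (2 * 2 ^ m * Real.exp (2 * c) * M * t0 ^ p * Real.exp (-(θ * t0 / 4)) *
            Real.exp (-(c * v))) * C₁ := mul_le_mul_of_nonneg_left (hb v hv0) (by positivity)
      _ = _ := by rw [hK]; ring
  · rw [integral_const_mul, integral_exp_mul_Ioi ha 0, Real.rpow_add h0, ← Real.sqrt_eq_rpow]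
    refine le_of_eq ?_
    simp only [mul_zero, Real.exp_zero]
    field_simp

end Pool.Agent.Bar58
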