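import Pool.Agent.Lib.MP_d79f69_nt.Bar.Basic

set_option autoImplicit false

namespace Pool.Agent.Bar58

open Complex MeasureTheory Set Filter Topology
open scoped ComplexConjugate

/-- the test function at a dilated argument -/
theorem s7b_T {T : ℕ → ℝ → ℂ} (hT : Test T) {σ : ℝ} (hσ : 0 < σ) {r : ℝ} (hr : 0 < r) :
    ∃ C : ℝ, 0 ≤ C ∧ ∀ x : ℝ, 0 < x → ‖T 0 (r * x)‖ ≤ C * x ^ (-σ) := by
  obtain ⟨C, hC, h⟩ := hT.bd σ hσ
  refine ⟨C * r ^ (-σ), mul_nonneg hC (Real.rpow_nonneg hr.le _), fun x hx => ?_⟩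
  have h1 := h 0 (Nat.zero_le _) (r * x) (mul_pos hr hx)
  rw [Nat.cast_zero, sub_zero, Real.mul_rpow hr.le hx.le] at h1
  calc ‖T 0 (r * x)‖ ≤ C * (r ^ (-σ) * x ^ (-σ)) := h1
    _ = C * r ^ (-σ) * x ^ (-σ) := by ring

theorem s7b_contT {T : ℕ → ℝ → ℂ} (hT : Test T) {r : ℝ} (hr : 0 < r) :
    ContinuousOn (fun x : ℝ => T 0 (r * x)) (Ioi 0) :=
  (hT.ch.cont (by norm_num : 0 < 4)).comp (continuous_const.mul continuous_id).continuousOn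
    fun x hx => mul_pos hr hx

/-- the majorant in the outer variable -/
noncomputable def s7b_g (T : ℕ → ℝ → ℂ) (r p : ℝ) : ℝ :=
  p ^ (-(1 / 3 : ℝ)) * (1 + p ^ (1 / 3 : ℝ)) ^ 4 * ‖T 0 (r * p)‖

theorem s7b_g_nonneg (T : ℕ → ℝ → ℂ) (r : ℝ) {p : ℝ} (hp : 0 < p) : 0 ≤ s7b_g T r p := by
  unfold s7b_g
  have h1 : 0 ≤ p ^ (-(1 / 3 : ℝ)) := Real.rpow_nonneg hp.le _
  have h2 : 0 ≤ p ^ (1 / 3 : ℝ) := Real.rpow_nonneg hp.le _
  positivity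

theorem s7b_g_int {T : ℕ → ℝ → ℂ} (hT : Test T) {r : ℝ} (hr : 0 < r) :
    IntegrableOn (s7b_g T r) (Ioi 0) := by
  obtain ⟨C₁, hC₁, h₁⟩ := s7b_T hT (by norm_num : (0 : ℝ) < 1 / 3) hr
  obtain ⟨C₂, hC₂, h₂⟩ := s7b_T hT (by norm_num : (0 : ℝ) < 6) hr
  have hc : ContinuousOn (s7b_g T r) (Ioi 0) := by
    unfold s7b_g
    refine ContinuousOn.mul (ContinuousOn.mul ?_ (ContinuousOn.pow ?_ 4)) (s7b_contT hT hr).norm
    · exact continuousOn_id.rpow_const fun x hx => Or.inl (ne_of_gt hx)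
    · exact continuousOn_const.add (continuousOn_id.rpow_const fun x hx => Or.inl (ne_of_gt hx))
  refine integrableOn_two_rpow (C := 16 * C₁ + 16 * C₂) (a := -(2 / 3)) (b := -2) hc
    (by norm_num) (by norm_num) (fun p hp hp1 => ?_) (fun p hp1 => ?_)
  · rw [Real.norm_of_nonneg (s7b_g_nonneg T r hp)]
    unfold s7b_g
    have e : p ^ (-(2 / 3 : ℝ)) = p ^ (-(1 / 3 : ℝ)) * p ^ (-(1 / 3 : ℝ)) := by
      rw [← Real.rpow_add hp]; norm_num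
    have h0 : 0 ≤ p ^ (-(1 / 3 : ℝ)) := Real.rpow_nonneg hp.le _
    have h1 : 0 ≤ p ^ (1 / 3 : ℝ) := Real.rpow_nonneg hp.le _
    have h2 : p ^ (1 / 3 : ℝ) ≤ 1 := Real.rpow_le_one hp.le hp1 (by norm_num)
    have h3 : (1 + p ^ (1 / 3 : ℝ)) ^ 4 ≤ 2 ^ 4 :=
      pow_le_pow_left₀ (by linarith) (by linarith) 4
    have hq : 0 ≤ p ^ (-(2 / 3 : ℝ)) := Real.rpow_nonneg hp.le _
    calc p ^ (-(1 / 3 : ℝ)) * (1 + p ^ (1 / 3 : ℝ)) ^ 4 * ‖T 0 (r * p)‖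
        ≤ p ^ (-(1 / 3 : ℝ)) * 2 ^ 4 * (C₁ * p ^ (-(1 / 3 : ℝ))) :=
          mul_le_mul (mul_le_mul_of_nonneg_left h3 h0) (h₁ p hp) (norm_nonneg _) (by positivity)
      _ = 16 * C₁ * p ^ (-(2 / 3 : ℝ)) := by rw [e]; ring
      _ ≤ (16 * C₁ + 16 * C₂) * p ^ (-(2 / 3 : ℝ)) :=
          mul_le_mul_of_nonneg_right (by linarith) hq
  · have hp : 0 < p := by linarith
    rw [Real.norm_of_nonneg (s7b_g_nonneg T r hp)]
    unfold s7b_g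
    have e : p ^ (-2 : ℝ) = p ^ 4 * p ^ (-(6 : ℝ)) := by
      rw [← Real.rpow_natCast, ← Real.rpow_add hp]; norm_num
    have h0 : p ^ (-(1 / 3 : ℝ)) ≤ 1 := Real.rpow_le_one_of_one_le_of_nonpos hp1 (by norm_num)
    have h1 : 0 ≤ p ^ (1 / 3 : ℝ) := Real.rpow_nonneg hp.le _
    have h2 : p ^ (1 / 3 : ℝ) ≤ p := by
      have := Real.rpow_le_rpow_of_exponent_le hp1 (by norm_num : (1 / 3 : ℝ) ≤ 1)
      rwa [Real.rpow_one] at this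
    have h3 : (1 + p ^ (1 / 3 : ℝ)) ^ 4 ≤ (2 * p) ^ 4 :=
      pow_le_pow_left₀ (by linarith) (by linarith) 4
    have hq : 0 ≤ p ^ (-2 : ℝ) := Real.rpow_nonneg hp.le _
    calc p ^ (-(1 / 3 : ℝ)) * (1 + p ^ (1 / 3 : ℝ)) ^ 4 * ‖T 0 (r * p)‖
        ≤ 1 * (2 * p) ^ 4 * (C₂ * p ^ (-(6 : ℝ))) :=
          mul_le_mul (mul_le_mul h0 h3 (by positivity) zero_le_one) (h₂ p hp) (norm_nonneg _)
            (by positivity)
      _ = 16 * C₂ * p ^ (-2 : ℝ) := by rw [e]; ring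
      _ ≤ (16 * C₁ + 16 * C₂) * p ^ (-2 : ℝ) :=
          mul_le_mul_of_nonneg_right (by linarith) hq

theorem st7b (hFub : StFub) (hOpT : StOpT) : St7b := by
  intro k C hk T hT hK A a ha r hr
  have hA : 0 ≤ A := ha.nonneg
  have hC : 0 ≤ C := hk.nonneg
  obtain ⟨C', hC', hD⟩ := hOpT k C hk 4 (1 / 3) (by norm_num) (by norm_num) (by norm_num)
    (by norm_num)
  have hg := s7b_g_int hT hr
  have hcont : ContinuousOn
      (fun q : ℝ × ℝ => T 0 (r * q.1) * (conj (a 0 q.2) * k 0 0 q.2 q.1)) (Ioi 0 ×ˢ Ioi 0) := by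
    refine ContinuousOn.mul ?_ (ContinuousOn.mul ?_ ?_)
    · exact (s7b_contT hT hr).comp continuousOn_fst fun q hq => hq.1
    · exact (ha.ch.conj.cont (by norm_num : 0 < 4)).comp continuousOn_snd fun q hq => hq.2
    · exact (hk.cont 0 (Nat.zero_le _)).comp continuous_swap.continuousOn
        fun q hq => ⟨hq.2, hq.1⟩
  have hloc : ∀ X : ℝ, 0 < X → ∃ G : ℝ → ℝ, IntegrableOn G (Ioi 0) ∧ ∀ p : ℝ, 0 < p →
      ∀ x : ℝ, 0 < x → x ≤ X →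
        ‖T 0 (r * p) * (conj (a 0 x) * k 0 0 x p)‖ ≤ G p * x ^ (-(19 / 20 : ℝ)) := by
    intro X hX
    obtain ⟨Ca, hCa, hl⟩ := ha.loc X
    refine ⟨fun p => Ca * C * X ^ (13 / 60 : ℝ) * s7b_g T r p, hg.const_mul _,
      fun p hp x hx hxX => ?_⟩
    have h1 := hk.bd 0 (Nat.zero_le _) 0 (Nat.zero_le _) x hx p hp
    simp only [Nat.cast_zero, neg_zero, Real.rpow_zero, mul_one, add_zero, pow_zero] at h1
    rw [Real.mul_rpow hx.le hp.le] at h1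
    have e : x ^ (-(2 / 5 : ℝ)) * x ^ (-(1 / 3 : ℝ)) =
        x ^ (13 / 60 : ℝ) * x ^ (-(19 / 20 : ℝ)) := by
      rw [← Real.rpow_add hx, ← Real.rpow_add hx]; norm_num
    have h2 : x ^ (13 / 60 : ℝ) ≤ X ^ (13 / 60 : ℝ) := Real.rpow_le_rpow hx.le hxX (by norm_num)
    have h3 : 0 ≤ p ^ (1 / 3 : ℝ) := Real.rpow_nonneg hp.le _
    have h4 : (1 : ℝ) ≤ (1 + p ^ (1 / 3 : ℝ)) ^ 4 := one_le_pow₀ (by linarith)
    have h5 : 0 ≤ p ^ (-(1 / 3 : ℝ)) := Real.rpow_nonneg hp.le _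
    have h6 : 0 ≤ x ^ (-(19 / 20 : ℝ)) := Real.rpow_nonneg hx.le _
    have h7 : 0 ≤ x ^ (-(2 / 5 : ℝ)) := Real.rpow_nonneg hx.le _
    have h8 : 0 ≤ X ^ (13 / 60 : ℝ) := Real.rpow_nonneg hX.le _
    have h9 : x ^ (13 / 60 : ℝ) * 1 ≤ X ^ (13 / 60 : ℝ) * (1 + p ^ (1 / 3 : ℝ)) ^ 4 :=
      mul_le_mul h2 h4 zero_le_one h8
    calc ‖T 0 (r * p) * (conj (a 0 x) * k 0 0 x p)‖
        = ‖T 0 (r * p)‖ * (‖a 0 x‖ * ‖k 0 0 x p‖) := by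
          rw [norm_mul, norm_mul, Complex.norm_conj]
      _ ≤ ‖T 0 (r * p)‖ * ((Ca * x ^ (-(2 / 5 : ℝ))) *
            (C * (x ^ (-(1 / 3 : ℝ)) * p ^ (-(1 / 3 : ℝ))))) :=
          mul_le_mul_of_nonneg_left
            (mul_le_mul (hl x hx hxX) h1 (norm_nonneg _) (mul_nonneg hCa h7)) (norm_nonneg _)
      _ = (‖T 0 (r * p)‖ * Ca * C * p ^ (-(1 / 3 : ℝ))) *
            (x ^ (-(2 / 5 : ℝ)) * x ^ (-(1 / 3 : ℝ))) := by ring
      _ = (‖T 0 (r * p)‖ * Ca * C * p ^ (-(1 / 3 : ℝ)) * x ^ (-(19 / 20 : ℝ))) *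
            (x ^ (13 / 60 : ℝ) * 1) := by rw [e]; ring
      _ ≤ (‖T 0 (r * p)‖ * Ca * C * p ^ (-(1 / 3 : ℝ)) * x ^ (-(19 / 20 : ℝ))) *
            (X ^ (13 / 60 : ℝ) * (1 + p ^ (1 / 3 : ℝ)) ^ 4) :=
          mul_le_mul_of_nonneg_left h9 (by positivity)
      _ = Ca * C * X ^ (13 / 60 : ℝ) * s7b_g T r p * x ^ (-(19 / 20 : ℝ)) := by
          unfold s7b_g; ring
  have hsum : Summable fun n : ℕ => ∫ p in Ioi (0 : ℝ),
      C' * A * (W (n + 1) * ((n : ℝ) + 1) ^ (-(5 / 3) : ℝ)) * s7b_g T r p := by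
    simp only [integral_const_mul]
    exact ((summable_W (by norm_num : (-(5 / 3) : ℝ) < -1)).mul_left (C' * A)).mul_right _
  have hDD : ∀ n : ℕ, ∀ p : ℝ, 0 < p →
      ‖DD (fun x => T 0 (r * p) * (conj (a 0 x) * k 0 0 x p)) n‖ ≤
        C' * A * (W (n + 1) * ((n : ℝ) + 1) ^ (-(5 / 3) : ℝ)) * s7b_g T r p := by
    intro n p hp
    have h1 := hD A a ha 0 (Nat.zero_le _) p hp n
    simp only [Nat.cast_zero, neg_zero, Real.rpow_zero, mul_one, pow_zero] at h1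
    have hn1 : (1 : ℝ) ≤ (n : ℝ) + 1 := by
      have : (0 : ℝ) ≤ n := Nat.cast_nonneg n
      linarith
    have hn : (0 : ℝ) < (n : ℝ) + 1 := by linarith
    rw [Real.mul_rpow hn.le hp.le] at h1
    generalize (n : ℝ) + 1 = x at h1 hn1 hn ⊢
    have h3 : 0 ≤ p ^ (1 / 3 : ℝ) := Real.rpow_nonneg hp.le _
    have h5 : 0 ≤ p ^ (-(1 / 3 : ℝ)) := Real.rpow_nonneg hp.le _
    have h6 : 0 ≤ x ^ (-(1 / 3 : ℝ)) := Real.rpow_nonneg hn.le _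
    have h7 : 0 ≤ x ^ (-(2 / 3 : ℝ)) := Real.rpow_nonneg hn.le _
    have h8 : x ^ (-(2 / 3 : ℝ)) ≤ x ^ (-(1 / 3 : ℝ)) :=
      Real.rpow_le_rpow_of_exponent_le hn1 (by norm_num)
    have h9 : x ^ (-(1 / 3 : ℝ)) + p ^ (1 / 3 : ℝ) * x ^ (-(2 / 3 : ℝ)) ≤
        x ^ (-(1 / 3 : ℝ)) * (1 + p ^ (1 / 3 : ℝ)) := by
      have := mul_le_mul_of_nonneg_left h8 h3
      linarith
    have h10 : (x ^ (-(1 / 3 : ℝ)) + p ^ (1 / 3 : ℝ) * x ^ (-(2 / 3 : ℝ))) ^ 4 ≤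
        (x ^ (-(1 / 3 : ℝ)) * (1 + p ^ (1 / 3 : ℝ))) ^ 4 :=
      pow_le_pow_left₀ (by positivity) h9 4
    have e : x ^ (-(5 / 3) : ℝ) = (x ^ (-(1 / 3 : ℝ))) ^ 5 := by
      rw [← Real.rpow_natCast, ← Real.rpow_mul hn.le]; norm_num
    have hW := (W_pos x).le
    rw [DD_const_mul, norm_mul]
    calc ‖T 0 (r * p)‖ * ‖DD (fun x => conj (a 0 x) * k 0 0 x p) n‖
        ≤ ‖T 0 (r * p)‖ * (C' * A * W x * (x ^ (-(1 / 3 : ℝ)) * p ^ (-(1 / 3 : ℝ))) *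
            (x ^ (-(1 / 3 : ℝ)) * (1 + p ^ (1 / 3 : ℝ))) ^ 4) :=
          mul_le_mul_of_nonneg_left
            (h1.trans (mul_le_mul_of_nonneg_left h10 (by positivity))) (norm_nonneg _)
      _ = C' * A * (W x * x ^ (-(5 / 3) : ℝ)) * s7b_g T r p := by
          rw [e]; unfold s7b_g; ring
  have hF := (hFub (fun p x => T 0 (r * p) * (conj (a 0 x) * k 0 0 x p))
    (fun n p => C' * A * (W (n + 1) * ((n : ℝ) + 1) ^ (-(5 / 3) : ℝ)) * s7b_g T r p)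
    hcont hloc (fun n => hg.const_mul _) hsum hDD).2
  have e1 : ∀ y : ℝ, KK k (a 0) 0 y * T 0 (r * y) =
      UU fun x => T 0 (r * y) * (conj (a 0 x) * k 0 0 x y) := by
    intro y
    rw [UU_const_mul, mul_comm]
    rfl
  have e2 : ∀ x : ℝ, 0 < x → ∫ p in Ioi (0 : ℝ), T 0 (r * p) * (conj (a 0 x) * k 0 0 x p) =
      (1 / (r : ℂ)) * conj (a 0 x * T 0 (1 / r * x)) := by
    intro x hx
    have e3 : ∀ p : ℝ, T 0 (r * p) * (conj (a 0 x) * k 0 0 x p) =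
        conj (a 0 x) * (k 0 0 x p * T 0 (r * p)) := fun p => by ring
    simp only [e3]
    rw [integral_const_mul, hK x r hx hr, map_mul]
    ring
  simp only [e1]
  rw [hF, UU_congr e2, UU_const_mul, UU_conj]
  unfold uu
  ring

end Pool.Agent.Bar58
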