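import Pool.Agent.Lib.MP_d79f69_nt.Bar.Basic

set_option autoImplicit false

namespace Pool.Agent.Bar58

open Complex MeasureTheory Set Filter Topology
open scoped ComplexConjugate

theorem s7c_g : IntegrableOn
    (fun p : ℝ => min (p ^ (-(19 / 20 : ℝ))) (p ^ (-(21 / 20 : ℝ)))) (Ioi 0) := by
  refine integrableOn_two_rpow (C := 1) (a := -(19 / 20)) (b := -(21 / 20)) ?_ (by norm_num)
    (by norm_num) (fun x hx _ => ?_) (fun x hx => ?_)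
  · intro x hx
    have hx' : x ≠ 0 := ne_of_gt hx
    exact ContinuousAt.continuousWithinAt ((Real.continuousAt_rpow_const x _ (Or.inl hx')).min
      (Real.continuousAt_rpow_const x _ (Or.inl hx')))
  · rw [Real.norm_of_nonneg (le_min (by positivity) (by positivity)), one_mul]
    exact min_le_left _ _
  · have hx0 : 0 < x := by linarith
    rw [Real.norm_of_nonneg (le_min (by positivity) (by positivity)), one_mul]
    exact min_le_right _ _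

theorem s7c_min {K v a b c : ℝ} (hK : 0 ≤ K) (hc : 0 ≤ c) (h1 : v ≤ K * a * c)
    (h2 : v ≤ K * b * c) : v ≤ K * min a b * c := by
  rcases min_choice a b with h | h <;> rw [h] <;> assumption

theorem s7c_pow {s : ℂ} (hs : s.re = 1 / 2) {p : ℝ} (hp : 0 < p) :
    ‖(p : ℂ) ^ (s - 1)‖ = p ^ (-(1 / 2 : ℝ)) := by
  rw [Complex.norm_cpow_eq_rpow_re_of_pos hp]
  congr 1
  simp [hs]; norm_num

theorem s7c_dd (hDB : StDB) {T : ℕ → ℝ → ℂ} (hT : Test T) {A : ℝ} {a : ℕ → ℝ → ℂ}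
    (ha : Cls 4 (1 / 3) A a) {σ : ℝ} (hσ : 0 < σ) : ∃ K : ℝ, 0 ≤ K ∧ ∀ (n : ℕ) (p : ℝ), 0 < p →
      ‖DD (fun x => a 0 x * T 0 (p * x)) n‖ ≤
        K * p ^ (-σ) * (W (n + 1) * ((n : ℝ) + 1) ^ (-(4 / 3 : ℝ))) := by
  obtain ⟨CD, hCD, hD⟩ := hDB
  obtain ⟨Cw, hCw, hw⟩ := Cls.window
  obtain ⟨C, hC, hb⟩ := hT.bd σ hσ
  have hA := ha.nonneg
  refine ⟨CD * (Cw * A) * C * 16, by positivity, fun n p hp => ?_⟩
  have hn : (1 : ℝ) ≤ (n : ℝ) + 1 := by linarith [(Nat.cast_nonneg n : (0 : ℝ) ≤ n)]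
  have hW := W_pos ((n : ℝ) + 1)
  have h := hD 4 (by norm_num) (by norm_num) a (fun i x => (p : ℂ) ^ i * T i (p * x)) ha.ch
    (hT.ch.comp_mul hp) n (Cw * A * W (n + 1)) (((n : ℝ) + 1) ^ (-(1 / 3 : ℝ))) (C * p ^ (-σ))
    (((n : ℝ) + 1) ^ (-(1 / 3 : ℝ))) (by positivity) (by positivity) (by positivity)
    (by positivity) (hw 4 (1 / 3) A a ha (by norm_num) n) (fun i hi x hx1 hx2 => by
      have hx : 1 ≤ x := hn.trans hx1
      have hx0 : 0 < x := by linarith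
      rw [norm_mul, norm_pow, Complex.norm_real, Real.norm_of_nonneg hp.le]
      have e1 : p ^ i * (C * (p * x) ^ (-σ - i)) = C * p ^ (-σ) * x ^ (-σ - i) := by
        rw [Real.mul_rpow hp.le hx0.le, Real.rpow_sub hp, Real.rpow_natCast]
        field_simp
      have e2 : x ^ (-σ - i) ≤ (((n : ℝ) + 1) ^ (-(1 / 3 : ℝ))) ^ i := by
        rw [← Real.rpow_natCast, ← Real.rpow_mul (by positivity)]
        have hi0 : (0 : ℝ) ≤ i := Nat.cast_nonneg i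
        calc x ^ (-σ - i) ≤ x ^ (-(1 / 3 : ℝ) * i) :=
              Real.rpow_le_rpow_of_exponent_le hx (by linarith)
          _ ≤ _ := Real.rpow_le_rpow_of_nonpos (by positivity) hx1 (by linarith)
      calc p ^ i * ‖T i (p * x)‖ ≤ p ^ i * (C * (p * x) ^ (-σ - i)) := by
            gcongr
            exact hb i hi _ (by positivity)
        _ = _ := e1
        _ ≤ _ := by gcongr)
  have e3 : (((n : ℝ) + 1) ^ (-(1 / 3 : ℝ)) + ((n : ℝ) + 1) ^ (-(1 / 3 : ℝ))) ^ 4 =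
      16 * ((n : ℝ) + 1) ^ (-(4 / 3 : ℝ)) := by
    rw [← two_mul, mul_pow, ← Real.rpow_natCast (((n : ℝ) + 1) ^ (-(1 / 3 : ℝ))),
      ← Real.rpow_mul (by positivity)]
    norm_num
  simp only [pow_zero, one_mul] at h
  rw [e3] at h
  refine h.trans (le_of_eq ?_)
  ring

theorem s7c_loc {T : ℕ → ℝ → ℂ} (hT : Test T) {A : ℝ} {a : ℕ → ℝ → ℂ}
    (ha : Cls 4 (1 / 3) A a) {σ : ℝ} (hσ : 0 < σ) (hσ' : σ ≤ 11 / 20) {X : ℝ} (hX : 0 < X) :
    ∃ K : ℝ, 0 ≤ K ∧ ∀ p : ℝ, 0 < p → ∀ x : ℝ, 0 < x → x ≤ X →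
      ‖a 0 x * T 0 (p * x)‖ ≤ K * p ^ (-σ) * x ^ (-(19 / 20 : ℝ)) := by
  obtain ⟨Ca, hCa, hl⟩ := ha.loc X
  obtain ⟨C, hC, hb⟩ := hT.bd σ hσ
  refine ⟨Ca * C * X ^ (11 / 20 - σ), by positivity, fun p hp x hx hxX => ?_⟩
  have h1 := hb 0 (by norm_num) (p * x) (by positivity)
  simp only [Nat.cast_zero, sub_zero] at h1
  rw [Real.mul_rpow hp.le hx.le] at h1
  have e : x ^ (-(2 / 5 : ℝ)) * x ^ (-σ) = x ^ (11 / 20 - σ) * x ^ (-(19 / 20 : ℝ)) := by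
    rw [← Real.rpow_add hx, ← Real.rpow_add hx]
    congr 1
    ring
  have e2 : x ^ (11 / 20 - σ) ≤ X ^ (11 / 20 - σ) :=
    Real.rpow_le_rpow hx.le hxX (by linarith)
  calc ‖a 0 x * T 0 (p * x)‖ ≤ (Ca * x ^ (-(2 / 5 : ℝ))) * (C * (p ^ (-σ) * x ^ (-σ))) := by
        rw [norm_mul]
        exact mul_le_mul (hl x hx hxX) h1 (norm_nonneg _) (by positivity)
    _ = Ca * C * p ^ (-σ) * (x ^ (-(2 / 5 : ℝ)) * x ^ (-σ)) := by ring
    _ = Ca * C * p ^ (-σ) * (x ^ (11 / 20 - σ) * x ^ (-(19 / 20 : ℝ))) := by rw [e]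
    _ ≤ Ca * C * p ^ (-σ) * (X ^ (11 / 20 - σ) * x ^ (-(19 / 20 : ℝ))) := by gcongr
    _ = _ := by ring

theorem s7c_two {K₁ K₂ v c p : ℝ} (hp : 0 < p) (h₁ : 0 ≤ K₁) (h₂ : 0 ≤ K₂) (hc : 0 ≤ c)
    (hv₁ : v ≤ K₁ * p ^ (-(9 / 20 : ℝ)) * c) (hv₂ : v ≤ K₂ * p ^ (-(11 / 20 : ℝ)) * c) :
    p ^ (-(1 / 2 : ℝ)) * v ≤
      (K₁ + K₂) * min (p ^ (-(19 / 20 : ℝ))) (p ^ (-(21 / 20 : ℝ))) * c := by
  have e1 : p ^ (-(19 / 20 : ℝ)) = p ^ (-(1 / 2 : ℝ)) * p ^ (-(9 / 20 : ℝ)) := by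
    rw [← Real.rpow_add hp]; norm_num
  have e2 : p ^ (-(21 / 20 : ℝ)) = p ^ (-(1 / 2 : ℝ)) * p ^ (-(11 / 20 : ℝ)) := by
    rw [← Real.rpow_add hp]; norm_num
  refine s7c_min (by positivity) hc ?_ ?_
  · rw [e1]
    calc _ ≤ p ^ (-(1 / 2 : ℝ)) * ((K₁ + K₂) * p ^ (-(9 / 20 : ℝ)) * c) := by
          gcongr
          exact hv₁.trans (by gcongr; linarith)
      _ = _ := by ring
  · rw [e2]
    calc _ ≤ p ^ (-(1 / 2 : ℝ)) * ((K₁ + K₂) * p ^ (-(11 / 20 : ℝ)) * c) := by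
          gcongr
          exact hv₂.trans (by gcongr; linarith)
      _ = _ := by ring

theorem st7c (hFub : StFub) (hDB : StDB) : St7c := by
  intro T hT A a ha s hs
  obtain ⟨K₁, hK₁, hd₁⟩ := s7c_dd hDB hT ha (σ := 9 / 20) (by norm_num)
  obtain ⟨K₂, hK₂, hd₂⟩ := s7c_dd hDB hT ha (σ := 11 / 20) (by norm_num)
  have key := hFub (fun p x => (p : ℂ) ^ (s - 1) * (a 0 x * T 0 (p * x)))
    (fun n p => (K₁ + K₂) * min (p ^ (-(19 / 20 : ℝ))) (p ^ (-(21 / 20 : ℝ))) *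
      (W (n + 1) * ((n : ℝ) + 1) ^ (-(4 / 3 : ℝ)))) ?_ ?_ ?_ ?_ ?_
  · have e1 : (fun p : ℝ => UU fun x => (p : ℂ) ^ (s - 1) * (a 0 x * T 0 (p * x))) =
        fun p : ℝ => (p : ℂ) ^ (s - 1) • uu (a 0) (T 0) p := by
      funext p
      rw [UU_const_mul]
      rfl
    rw [e1] at key
    refine ⟨key.1, ?_⟩
    rw [mellin, key.2, RR, ← UU_const_mul]
    refine UU_congr fun x hx => ?_
    have e2 : (fun p : ℝ => (p : ℂ) ^ (s - 1) * (a 0 x * T 0 (p * x))) =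
        fun p : ℝ => a 0 x * ((p : ℂ) ^ (s - 1) • T 0 (p * x)) := by
      funext p
      rw [smul_eq_mul]
      ring
    have e3 := mellin_comp_mul_right (T 0) s hx
    rw [mellin] at e3
    rw [e2, integral_const_mul, e3, smul_eq_mul]
    ring
  · have c1 : ContinuousOn (fun q : ℝ × ℝ => (q.1 : ℂ) ^ (s - 1)) (Ioi 0 ×ˢ Ioi 0) := by
      intro q hq
      have hq1 : (0 : ℝ) < q.1 := hq.1
      exact ((Complex.continuousAt_ofReal_cpow_const q.1 (s - 1) (Or.inr hq1.ne')).comp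
        continuous_fst.continuousAt).continuousWithinAt
    have c2 : ContinuousOn (fun q : ℝ × ℝ => a 0 q.2) (Ioi 0 ×ˢ Ioi 0) :=
      (ha.ch.cont (by norm_num)).comp continuous_snd.continuousOn fun q hq => hq.2
    have c3 : ContinuousOn (fun q : ℝ × ℝ => T 0 (q.1 * q.2)) (Ioi 0 ×ˢ Ioi 0) :=
      (hT.ch.cont (by norm_num)).comp (continuous_fst.mul continuous_snd).continuousOn
        fun q hq => mul_pos (mem_Ioi.1 hq.1) (mem_Ioi.1 hq.2)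
    exact c1.mul (c2.mul c3)
  · intro X hX
    obtain ⟨L₁, hL₁, hl₁⟩ := s7c_loc hT ha (σ := 9 / 20) (by norm_num) (by norm_num) hX
    obtain ⟨L₂, hL₂, hl₂⟩ := s7c_loc hT ha (σ := 11 / 20) (by norm_num) (by norm_num) hX
    refine ⟨fun p => (L₁ + L₂) * min (p ^ (-(19 / 20 : ℝ))) (p ^ (-(21 / 20 : ℝ))),
      s7c_g.const_mul _, fun p hp x hx hxX => ?_⟩
    rw [norm_mul, s7c_pow hs hp]
    exact s7c_two hp hL₁ hL₂ (by positivity) (hl₁ p hp x hx hxX) (hl₂ p hp x hx hxX)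
  · intro n
    exact (s7c_g.const_mul _).mul_const _
  · simp only [integral_mul_const]
    exact (summable_W (by norm_num)).mul_left _
  · intro n p hp
    rw [DD_const_mul, norm_mul, s7c_pow hs hp]
    have hW := W_pos ((n : ℝ) + 1)
    exact s7c_two hp hK₁ hK₂ (by positivity) (hd₁ n p hp) (hd₂ n p hp)

end Pool.Agent.Bar58
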