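import Pool.Agent.Lib.MP_d79f69_nt.Bar.Basic

set_option autoImplicit false

namespace Pool.Agent.Bar58

open Complex MeasureTheory Set Filter Topology
open scoped ComplexConjugate

theorem s7d_bigO {g : ℝ → ℂ} {C e : ℝ} (h : ∀ x : ℝ, 0 < x → ‖g x‖ ≤ C * x ^ e) {l : Filter ℝ}
    (hl : ∀ᶠ x in l, 0 < x) : g =O[l] fun x : ℝ => x ^ e := by
  refine Asymptotics.IsBigO.of_bound C ?_
  filter_upwards [hl] with x hx
  rw [Real.norm_of_nonneg (Real.rpow_nonneg hx.le e)]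
  exact h x hx

theorem s7d_T0 {T : ℕ → ℝ → ℂ} (hT : Test T) {σ : ℝ} (hσ : 0 < σ) :
    ∃ C : ℝ, 0 ≤ C ∧ ∀ x : ℝ, 0 < x → ‖T 0 x‖ ≤ C * x ^ (-σ) := by
  obtain ⟨C, hC, h⟩ := hT.bd σ hσ
  exact ⟨C, hC, fun x hx => by simpa using h 0 (by norm_num) x hx⟩

theorem s7d_term {T : ℕ → ℝ → ℂ} (hT : Test T) {f : ℝ → ℂ} {A : ℝ}
    (hf : ∀ n : ℕ, ‖f (n + 1)‖ ≤ A * W (n + 1)) {σ : ℝ} (hσ : 0 < σ) :
    ∃ C : ℝ, 0 ≤ C ∧ ∀ r : ℝ, 0 < r → ∀ n : ℕ, ‖f (n + 1) * T 0 (r * (n + 1))‖ ≤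
      C * r ^ (-σ) * (W (n + 1) * ((n : ℝ) + 1) ^ (-σ)) := by
  obtain ⟨C, hC, h⟩ := s7d_T0 hT hσ
  refine ⟨|A| * C, by positivity, fun r hr n => ?_⟩
  have hn : (0 : ℝ) < (n : ℝ) + 1 := by positivity
  have h1 := h (r * (n + 1)) (mul_pos hr hn)
  rw [Real.mul_rpow hr.le hn.le] at h1
  have h2 : ‖f (n + 1)‖ ≤ |A| * W (n + 1) :=
    (hf n).trans (mul_le_mul_of_nonneg_right (le_abs_self A) (W_pos _).le)
  have hW := (W_pos ((n : ℝ) + 1)).le
  rw [norm_mul]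
  calc ‖f (n + 1)‖ * ‖T 0 (r * (n + 1))‖
      ≤ (|A| * W (n + 1)) * (C * (r ^ (-σ) * ((n : ℝ) + 1) ^ (-σ))) :=
        mul_le_mul h2 h1 (norm_nonneg _) (by positivity)
    _ = _ := by ring

theorem s7d_top {T : ℕ → ℝ → ℂ} (hT : Test T) {f : ℝ → ℂ} {A : ℝ}
    (hf : ∀ n : ℕ, ‖f (n + 1)‖ ≤ A * W (n + 1)) {σ : ℝ} (hσ : 1 < σ) :
    ∃ C : ℝ, ∀ r : ℝ, 0 < r → ‖Th f (T 0) r‖ ≤ C * r ^ (-σ) := by
  obtain ⟨C, hC, h⟩ := s7d_term hT hf (by linarith : 0 < σ)
  have hs := summable_W (e := -σ) (by linarith)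
  refine ⟨C * ∑' n : ℕ, W (n + 1) * ((n : ℝ) + 1) ^ (-σ), fun r hr => ?_⟩
  have h1 := tsum_of_norm_bounded (hs.hasSum.mul_left (C * r ^ (-σ))) (h r hr)
  unfold Th
  refine h1.trans (le_of_eq ?_)
  ring

theorem s7d_bot {g : ℝ → ℂ} (hs : ∀ r : ℝ, 0 < r → g r = conj (g (1 / r)) / r) {C σ : ℝ}
    (h : ∀ r : ℝ, 0 < r → ‖g r‖ ≤ C * r ^ (-σ)) (r : ℝ) (hr : 0 < r) :
    ‖g r‖ ≤ C * r ^ (-(1 - σ)) := by
  have h1 := h (1 / r) (by positivity)
  rw [hs r hr, norm_div, Complex.norm_conj, Complex.norm_real, Real.norm_of_nonneg hr.le,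
    div_le_iff₀ hr]
  refine h1.trans (le_of_eq ?_)
  rw [one_div, Real.inv_rpow hr.le, ← Real.rpow_neg hr.le, neg_neg, mul_assoc,
    ← Real.rpow_add_one hr.ne']
  congr 2
  ring

theorem s7d_cont {T : ℕ → ℝ → ℂ} (hT : Test T) {f : ℝ → ℂ} {A : ℝ}
    (hf : ∀ n : ℕ, ‖f (n + 1)‖ ≤ A * W (n + 1)) : ContinuousOn (Th f (T 0)) (Ioi 0) := by
  obtain ⟨C, hC, h⟩ := s7d_term hT hf (by norm_num : (0 : ℝ) < 2)
  have hs := summable_W (e := -2) (by norm_num)
  have hc : ContinuousOn (T 0) (Ioi 0) := hT.ch.cont (by norm_num)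
  intro r hr
  have hr : 0 < r := hr
  have hr2 : 0 < r / 2 := by positivity
  have key : ContinuousOn (Th f (T 0)) (Ioi (r / 2)) := by
    refine continuousOn_tsum (u := fun n : ℕ =>
      C * (r / 2) ^ (-2 : ℝ) * (W (n + 1) * ((n : ℝ) + 1) ^ (-2 : ℝ))) (fun n => ?_)
      (hs.mul_left _) (fun n x hx => ?_)
    · refine continuousOn_const.mul (hc.comp (by fun_prop) fun x hx => ?_)
      have hx : r / 2 < x := hx
      have hn : (0 : ℝ) < (n : ℝ) + 1 := by positivity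
      exact mul_pos (hr2.trans hx) hn
    · have hx : r / 2 < x := hx
      refine (h x (hr2.trans hx) n).trans ?_
      have hW := (W_pos ((n : ℝ) + 1)).le
      have h3 : x ^ (-2 : ℝ) ≤ (r / 2) ^ (-2 : ℝ) :=
        Real.rpow_le_rpow_of_nonpos hr2 hx.le (by norm_num)
      gcongr
  exact (key.continuousAt (Ioi_mem_nhds (by linarith))).continuousWithinAt

theorem s7d_norm (g : ℝ → ℂ) (s : ℂ) {r : ℝ} (hr : 0 < r) :
    ‖(r : ℂ) ^ (s - 1) • g r‖ = r ^ (s.re - 1) * ‖g r‖ := by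
  rw [norm_smul, Complex.norm_cpow_eq_rpow_re_of_pos hr, sub_re, one_re]

theorem s7d_conj (g : ℝ → ℂ) (s : ℂ) :
    mellin (fun r => conj (g r)) (conj s) = conj (mellin g s) := by
  unfold mellin
  rw [← integral_conj]
  refine setIntegral_congr_fun measurableSet_Ioi fun r hr => ?_
  have hr : 0 < r := hr
  have ha : (r : ℂ).arg ≠ Real.pi := by
    rw [Complex.arg_ofReal_of_nonneg hr.le]
    exact Real.pi_pos.ne
  have h1 := Complex.cpow_conj (r : ℂ) (s - 1) ha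
  simp only [smul_eq_mul, map_mul]
  rw [Complex.conj_ofReal] at h1
  rw [← h1]
  simp

theorem st7d : St7d := by
  intro T hT f A hf hsym
  set g := Th f (T 0) with hg
  have hloc : LocallyIntegrableOn g (Ioi 0) :=
    (s7d_cont hT hf).locallyIntegrableOn measurableSet_Ioi
  have hO : ∀ s : ℂ, ∃ a b : ℝ, (g =O[atTop] fun x : ℝ => x ^ (-a)) ∧ s.re < a ∧
      (g =O[𝓝[>] 0] fun x : ℝ => x ^ (-b)) ∧ b < s.re := by
    intro s
    have h1 := le_abs_self s.re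
    have h2 := neg_abs_le s.re
    have h3 := abs_nonneg s.re
    obtain ⟨C, hC⟩ := s7d_top hT hf (σ := |s.re| + 2) (by linarith)
    exact ⟨|s.re| + 2, 1 - (|s.re| + 2), s7d_bigO hC (eventually_gt_atTop 0), by linarith,
      s7d_bigO (s7d_bot hsym hC) self_mem_nhdsWithin, by linarith⟩
  have hconv : ∀ s : ℂ, MellinConvergent g s := fun s => by
    obtain ⟨a, b, h1, h2, h3, h4⟩ := hO s
    exact mellinConvergent_of_isBigO_rpow hloc h1 h2 h3 h4
  refine ⟨fun s => ?_, fun a b => ?_, fun s => ?_, fun s hs => ?_⟩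
  · obtain ⟨a, b, h1, h2, h3, h4⟩ := hO s
    exact mellin_differentiableAt_of_isBigO_rpow hloc h1 h2 h3 h4
  · have ha : IntegrableOn _ _ _ := (hconv a).norm
    have hb : IntegrableOn _ _ _ := (hconv b).norm
    refine ⟨∫ r in Ioi (0 : ℝ), (‖(r : ℂ) ^ ((a : ℂ) - 1) • g r‖ + ‖(r : ℂ) ^ ((b : ℂ) - 1) • g r‖),
      fun s h1 h2 => ?_⟩
    refine norm_integral_le_of_norm_le (ha.add hb) ?_
    refine (ae_restrict_iff' measurableSet_Ioi).2 (Eventually.of_forall fun r hr => ?_)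
    have hr : 0 < r := hr
    rw [s7d_norm g s hr, s7d_norm g a hr, s7d_norm g b hr, ← add_mul, ofReal_re, ofReal_re]
    refine mul_le_mul_of_nonneg_right ?_ (norm_nonneg _)
    rcases le_total r 1 with h | h
    · have := Real.rpow_le_rpow_of_exponent_ge hr h (by linarith : a - 1 ≤ s.re - 1)
      have := Real.rpow_nonneg hr.le (b - 1)
      linarith
    · have := Real.rpow_le_rpow_of_exponent_le h (by linarith : s.re - 1 ≤ b - 1)
      have := Real.rpow_nonneg hr.le (a - 1)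
      linarith
  · rw [← s7d_conj g s]
    have h1 := mellin_comp_inv (fun r => conj (g r)) (-conj s)
    rw [neg_neg] at h1
    rw [← h1]
    unfold mellin
    refine setIntegral_congr_fun measurableSet_Ioi fun r hr => ?_
    have hr : 0 < r := hr
    have hr' : (r : ℂ) ≠ 0 := ofReal_ne_zero.2 hr.ne'
    simp only [smul_eq_mul]
    rw [hsym r hr, one_div, Complex.cpow_sub (-conj s) 1 hr', cpow_one,
      show 1 - conj s - 1 = -conj s by ring]
    ring
  · have hTc : MellinConvergent (T 0) s := by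
      obtain ⟨C₁, -, h1⟩ := s7d_T0 hT (σ := s.re + 1) (by linarith)
      obtain ⟨C₂, -, h2⟩ := s7d_T0 hT (σ := 1) one_pos
      exact mellinConvergent_of_isBigO_rpow
        ((hT.ch.cont (by norm_num : 0 < 4)).locallyIntegrableOn measurableSet_Ioi)
        (s7d_bigO h1 (eventually_gt_atTop 0)) (by linarith) (s7d_bigO h2 self_mem_nhdsWithin) hs
    have hn : ∀ n : ℕ, (0 : ℝ) < (n : ℝ) + 1 := fun n => by positivity
    have hint : ∀ n : ℕ, Integrable
        (fun r : ℝ => (r : ℂ) ^ (s - 1) • (f (n + 1) * T 0 (r * (n + 1))))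
        (volume.restrict (Ioi 0)) := fun n => by
      have h1 := ((MellinConvergent.comp_mul_left (hn n)).2 hTc).const_smul (f (n + 1))
      simpa only [MellinConvergent, IntegrableOn, smul_eq_mul, mul_comm ((n : ℝ) + 1)] using h1
    have hnorm : ∀ n : ℕ,
        ∫ r in Ioi (0 : ℝ), ‖(r : ℂ) ^ (s - 1) • (f (n + 1) * T 0 (r * (n + 1)))‖ =
        ‖f (n + 1)‖ * ((n : ℝ) + 1) ^ (-s.re) *
          ∫ r in Ioi (0 : ℝ), r ^ (s.re - 1) * ‖T 0 r‖ := fun n => by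
      have h1 := integral_comp_mul_right_Ioi (fun r : ℝ => r ^ (s.re - 1) * ‖T 0 r‖) 0 (hn n)
      rw [zero_mul, smul_eq_mul] at h1
      have h2 : ((n : ℝ) + 1) ^ (-s.re) = ((n : ℝ) + 1) ^ (1 - s.re) * ((n : ℝ) + 1)⁻¹ := by
        rw [← Real.rpow_neg_one, ← Real.rpow_add (hn n)]
        congr 1
        ring
      rw [h2, mul_assoc, mul_assoc, ← h1, ← mul_assoc, ← integral_const_mul]
      refine setIntegral_congr_fun measurableSet_Ioi fun r hr => ?_
      have hr : 0 < r := hr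
      have h3 : ((n : ℝ) + 1) ^ (1 - s.re) * ((n : ℝ) + 1) ^ (s.re - 1) = 1 := by
        rw [← Real.rpow_add (hn n)]
        simp
      rw [s7d_norm (fun r => f (n + 1) * T 0 (r * (n + 1))) s hr, norm_mul,
        Real.mul_rpow hr.le (hn n).le]
      linear_combination (-(‖f (n + 1)‖ * r ^ (s.re - 1) * ‖T 0 (r * (n + 1))‖)) * h3
    have hsum : Summable fun n : ℕ =>
        ∫ r in Ioi (0 : ℝ), ‖(r : ℂ) ^ (s - 1) • (f (n + 1) * T 0 (r * (n + 1)))‖ := by
      simp only [hnorm]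
      refine Summable.mul_right _ ?_
      refine Summable.of_nonneg_of_le (fun n => by have := hn n; positivity) (fun n => ?_)
        ((summable_W (e := -s.re) (by linarith)).mul_left A)
      rw [← mul_assoc]
      exact mul_le_mul_of_nonneg_right (hf n) (Real.rpow_nonneg (hn n).le _)
    have h := hasSum_integral_of_summable_integral_norm hint hsum
    have e1 : (fun n : ℕ => mellin (T 0) s * (f (n + 1) * (((n : ℝ) + 1 : ℝ) : ℂ) ^ (-s))) =
        fun n : ℕ => ∫ r in Ioi (0 : ℝ), (r : ℂ) ^ (s - 1) • (f (n + 1) * T 0 (r * (n + 1))) := by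
      funext n
      have h1 := mellin_comp_mul_right (T 0) s (hn n)
      have h2 := mellin_const_smul (fun r => T 0 (r * (n + 1))) s (f (n + 1))
      rw [h1] at h2
      simp only [smul_eq_mul] at h2
      have h3 : mellin (fun t => f (n + 1) * T 0 (t * (n + 1))) s =
          ∫ r in Ioi (0 : ℝ), (r : ℂ) ^ (s - 1) • (f (n + 1) * T 0 (r * (n + 1))) := rfl
      rw [← h3, h2]
      ring
    have e2 : mellin g s = ∫ r in Ioi (0 : ℝ),
        ∑' n : ℕ, (r : ℂ) ^ (s - 1) • (f (n + 1) * T 0 (r * (n + 1))) := by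
      unfold mellin
      simp only [hg, Th, smul_eq_mul, tsum_mul_left]
    rw [e1, e2]
    exact h

end Pool.Agent.Bar58
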