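import Pool.Agent.Lib.MP_d79f69_nt.Bar.Basic

set_option autoImplicit false

namespace Pool.Agent.Bar58

open Complex MeasureTheory Set Filter Topology
open scoped ComplexConjugate

/-- the test function at a dilated argument -/
theorem s7n_T {T : ℕ → ℝ → ℂ} (hT : Test T) {σ : ℝ} (hσ : 0 < σ) {r : ℝ} (hr : 0 < r) :
    ∃ C : ℝ, 0 ≤ C ∧ ∀ x : ℝ, 0 < x → ‖T 0 (r * x)‖ ≤ C * x ^ (-σ) := by
  obtain ⟨C, hC, h⟩ := hT.bd σ hσ
  refine ⟨C * r ^ (-σ), mul_nonneg hC (Real.rpow_nonneg hr.le _), fun x hx => ?_⟩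
  have h1 := h 0 (Nat.zero_le _) (r * x) (mul_pos hr hx)
  rw [Nat.cast_zero, sub_zero, Real.mul_rpow hr.le hx.le] at h1
  calc ‖T 0 (r * x)‖ ≤ C * (r ^ (-σ) * x ^ (-σ)) := h1
    _ = C * r ^ (-σ) * x ^ (-σ) := by ring

theorem s7n_contT {T : ℕ → ℝ → ℂ} (hT : Test T) {r : ℝ} (hr : 0 < r) :
    ContinuousOn (fun x : ℝ => T 0 (r * x)) (Ioi 0) :=
  (hT.ch.cont (by norm_num : 0 < 4)).comp (continuous_const.mul continuous_id).continuousOn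
    fun x hx => mul_pos hr hx

theorem st7n (hUA : StUA) : St7n := by
  intro T hT A a ha r hr
  have hA : 0 ≤ A := ha.nonneg
  obtain ⟨C₁, hC₁, h₁⟩ := s7n_T hT (by norm_num : (0 : ℝ) < 1 / 10) hr
  obtain ⟨C₂, hC₂, h₂⟩ := s7n_T hT (by norm_num : (0 : ℝ) < 3) hr
  obtain ⟨C₃, hC₃, h₃⟩ := W_le_rpow (by norm_num : (0 : ℝ) < 1)
  have hc : ContinuousOn (fun x : ℝ => a 0 x * T 0 (r * x)) (Ioi 0) :=
    (ha.ch.cont (by norm_num : 0 < 4)).mul (s7n_contT hT hr)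
  have hK₁ : 0 ≤ A * C₁ := mul_nonneg hA hC₁
  have hK₂ : 0 ≤ A * C₃ * C₂ := mul_nonneg (mul_nonneg hA (by linarith)) hC₂
  have hint : IntegrableOn (fun x : ℝ => a 0 x * T 0 (r * x)) (Ioi 0) := by
    refine integrableOn_two_rpow (C := A * C₁ + A * C₃ * C₂) (a := -(1 / 2)) (b := -2) hc
      (by norm_num) (by norm_num) (fun x hx hx1 => ?_) (fun x hx1 => ?_)
    · have e : x ^ (-(1 / 2 : ℝ)) = x ^ (-(2 / 5 : ℝ)) * x ^ (-(1 / 10 : ℝ)) := by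
        rw [← Real.rpow_add hx]; norm_num
      have hp : 0 ≤ x ^ (-(1 / 2 : ℝ)) := Real.rpow_nonneg hx.le _
      calc ‖a 0 x * T 0 (r * x)‖ = ‖a 0 x‖ * ‖T 0 (r * x)‖ := norm_mul _ _
        _ ≤ (A * x ^ (-(2 / 5 : ℝ))) * (C₁ * x ^ (-(1 / 10 : ℝ))) :=
          mul_le_mul (ha.bot x hx hx1) (h₁ x hx) (norm_nonneg _)
            (mul_nonneg hA (Real.rpow_nonneg hx.le _))
        _ = A * C₁ * x ^ (-(1 / 2 : ℝ)) := by rw [e]; ring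
        _ ≤ (A * C₁ + A * C₃ * C₂) * x ^ (-(1 / 2 : ℝ)) :=
          mul_le_mul_of_nonneg_right (by linarith) hp
    · have hx : 0 < x := by linarith
      have e : x ^ (-2 : ℝ) = x ^ (1 : ℝ) * x ^ (-(3 : ℝ)) := by
        rw [← Real.rpow_add hx]; norm_num
      have hp : 0 ≤ x ^ (-2 : ℝ) := Real.rpow_nonneg hx.le _
      have hb : ‖a 0 x‖ ≤ A * (C₃ * x ^ (1 : ℝ)) :=
        (ha.top0 hx1).trans (mul_le_mul_of_nonneg_left (h₃ x hx1) hA)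
      calc ‖a 0 x * T 0 (r * x)‖ = ‖a 0 x‖ * ‖T 0 (r * x)‖ := norm_mul _ _
        _ ≤ (A * (C₃ * x ^ (1 : ℝ))) * (C₂ * x ^ (-(3 : ℝ))) :=
          mul_le_mul hb (h₂ x hx) (norm_nonneg _) ((norm_nonneg _).trans hb)
        _ = A * C₃ * C₂ * x ^ (-2 : ℝ) := by rw [e]; ring
        _ ≤ (A * C₁ + A * C₃ * C₂) * x ^ (-2 : ℝ) :=
          mul_le_mul_of_nonneg_right (by linarith) hp
  have hsum : Summable fun n : ℕ => ‖a 0 ((n : ℝ) + 1) * T 0 (r * ((n : ℝ) + 1))‖ := by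
    refine Summable.of_nonneg_of_le (fun n => norm_nonneg _) (fun n => ?_)
      ((summable_W (by norm_num : (-3 : ℝ) < -1)).mul_left (A * C₂))
    have hn1 : (1 : ℝ) ≤ (n : ℝ) + 1 := by
      have : (0 : ℝ) ≤ n := Nat.cast_nonneg n
      linarith
    have hn : (0 : ℝ) < (n : ℝ) + 1 := by linarith
    calc ‖a 0 ((n : ℝ) + 1) * T 0 (r * ((n : ℝ) + 1))‖
        = ‖a 0 ((n : ℝ) + 1)‖ * ‖T 0 (r * ((n : ℝ) + 1))‖ := norm_mul _ _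
      _ ≤ (A * W ((n : ℝ) + 1)) * (C₂ * ((n : ℝ) + 1) ^ (-(3 : ℝ))) :=
          mul_le_mul (ha.top0 hn1) (h₂ _ hn) (norm_nonneg _) (mul_nonneg hA (W_pos _).le)
      _ = A * C₂ * (W ((n : ℝ) + 1) * ((n : ℝ) + 1) ^ (-3 : ℝ)) := by ring
  refine ⟨hint, ?_⟩
  have h := (hUA (fun x : ℝ => a 0 x * T 0 (r * x)) hsum hint).2
  unfold Th uu
  rw [h]
  ring

end Pool.Agent.Bar58
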