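import Pool.Agent.Lib.MP_d79f69_nt.Bar.Basic

set_option autoImplicit false

namespace Pool.Agent.Bar58

open Complex MeasureTheory Set Filter Topology
open scoped ComplexConjugate

theorem st8 (hUN : StUN) (h8b : St8b) (h8c : St8c) (h8d : St8d) : St8 := by
  intro A a h
  obtain ⟨C1, hC1, h1⟩ := h8b A a h
  obtain ⟨C2, hC2, h2⟩ := h8c A a h
  obtain ⟨C3, hC3, h3⟩ := h8d A a h
  have hK : 0 ≤ ∑ m ∈ Finset.range 11, |cc m| := Finset.sum_nonneg fun _ _ => abs_nonneg _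
  refine ⟨C1 + (∑ m ∈ Finset.range 11, |cc m|) * C2 + C3, by positivity, fun t ht => ?_⟩
  have hu : 0 < |t| := by linarith
  have hY : 1 ≤ |t| ^ (15 / 14 : ℝ) := Real.one_le_rpow (by linarith) (by norm_num)
  have hN : (⌊|t| ^ (15 / 14 : ℝ)⌋₊ : ℝ) ≤ |t| ^ (15 / 14 : ℝ) := Nat.floor_le (by linarith)
  obtain ⟨h4, h5⟩ := h3 t ht
  have h6 := h1 t ht _ hN
  have hl : 1 ≤ Real.log |t| := by
    rw [Real.le_log_iff_exp_le hu]
    linarith [Real.exp_one_lt_d9]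
  have hl2 : 1 ≤ Real.log |t| ^ 2 := one_le_pow₀ hl
  have h7 : ‖∑ m ∈ Finset.range 11, (cc m : ℂ) *
      (∫ x in (0 : ℝ)..((⌊|t| ^ (15 / 14 : ℝ)⌋₊ : ℝ) + m + 1),
        a 0 x * (x : ℂ) ^ (-(1 / 2 + (t : ℂ) * I)))‖ ≤
      (∑ m ∈ Finset.range 11, |cc m|) * (C2 * |t| ^ (1 / 4 : ℝ) * W (|t| ^ (15 / 14 : ℝ))) := by
    rw [Finset.sum_mul]
    refine (norm_sum_le _ _).trans (Finset.sum_le_sum fun m hm => ?_)
    rw [norm_mul, Complex.norm_real, Real.norm_eq_abs]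
    have hm' : (m : ℝ) ≤ 10 := by
      have := Finset.mem_range.1 hm
      exact_mod_cast Nat.lt_succ_iff.1 this
    have h0 : (0 : ℝ) ≤ (⌊|t| ^ (15 / 14 : ℝ)⌋₊ : ℝ) := Nat.cast_nonneg _
    have h0' : (0 : ℝ) ≤ m := Nat.cast_nonneg _
    exact mul_le_mul_of_nonneg_left (h2 t ht _ (by linarith) (by linarith)) (abs_nonneg _)
  unfold RR
  rw [hUN _ h4 ⌊|t| ^ (15 / 14 : ℝ)⌋₊]
  refine (norm_add_le _ _).trans ?_
  refine (add_le_add (norm_sub_le _ _) le_rfl).trans ?_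
  refine (add_le_add (add_le_add h6 h7) h5).trans ?_
  have hW := W_pos (|t| ^ (15 / 14 : ℝ))
  have hq : 0 < |t| ^ (1 / 4 : ℝ) := by positivity
  generalize W (|t| ^ (15 / 14 : ℝ)) = w at hW ⊢
  generalize |t| ^ (1 / 4 : ℝ) = q at hq ⊢
  generalize Real.log |t| ^ 2 = l at hl2 ⊢
  generalize ∑ m ∈ Finset.range 11, |cc m| = K at hK ⊢
  have h8 : 0 ≤ (K * C2 + C3) * q * w * (l - 1) := by
    have : 0 ≤ l - 1 := by linarith
    positivity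
  nlinarith

end Pool.Agent.Bar58
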