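import Pool.Agent.Lib.MP_d79f69_nt.Bar.Basic

set_option autoImplicit false

namespace Pool.Agent.Bar58

open Complex MeasureTheory Set Filter Topology
open scoped ComplexConjugate

/-- the ratio of consecutive phases -/
noncomputable def s8a_q (t : ℝ) (n : ℕ) : ℂ := cexp (-((t * Real.log (1 + 1 / n) : ℝ) : ℂ) * I)

theorem s8a_q_norm (t : ℝ) (n : ℕ) : ‖s8a_q t n‖ = 1 := by
  unfold s8a_q
  rw [← ofReal_neg, norm_exp_ofReal_mul_I]

theorem s8a_q_abs (t : ℝ) (n : ℕ) : ‖s8a_q |t| n - 1‖ = ‖s8a_q t n - 1‖ := by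
  rcases abs_choice t with h | h
  · rw [h]
  · rw [h, ← Complex.norm_conj (s8a_q t n - 1), map_sub, map_one]
    unfold s8a_q
    rw [← exp_conj, map_mul, map_neg, conj_ofReal, conj_I]
    congr 3
    push_cast
    ring

theorem s8a_e_eq (t : ℝ) {n : ℕ} (hn : 1 ≤ n) :
    (n : ℂ) ^ (-((t : ℂ) * I)) = cexp (((-(t * Real.log n) : ℝ) : ℂ) * I) := by
  have h : (n : ℂ) ≠ 0 := Nat.cast_ne_zero.2 (by omega)
  rw [cpow_def_of_ne_zero h, ← natCast_log]
  congr 1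
  push_cast
  ring

theorem s8a_e_norm (t : ℝ) {n : ℕ} (hn : 1 ≤ n) : ‖(n : ℂ) ^ (-((t : ℂ) * I))‖ = 1 := by
  rw [s8a_e_eq t hn, norm_exp_ofReal_mul_I]

theorem s8a_log {n : ℕ} (hn : 1 ≤ n) :
    Real.log (1 + 1 / n) = Real.log ((n + 1 : ℕ) : ℝ) - Real.log n := by
  have h : (0 : ℝ) < n := by exact_mod_cast hn
  rw [← Real.log_div (by positivity) h.ne']
  congr 1
  push_cast
  field_simp

theorem s8a_e_succ (t : ℝ) {n : ℕ} (hn : 1 ≤ n) :
    ((n + 1 : ℕ) : ℂ) ^ (-((t : ℂ) * I)) = s8a_q t n * (n : ℂ) ^ (-((t : ℂ) * I)) := by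
  rw [s8a_e_eq t hn, s8a_e_eq t (by omega : 1 ≤ n + 1), s8a_q, ← Complex.exp_add, s8a_log hn]
  congr 1
  simp only [ofReal_neg, ofReal_mul, ofReal_sub]
  ring

theorem s8a_normsq {q : ℂ} (hq : ‖q‖ = 1) (ε : ℝ) :
    ‖(1 + (ε : ℂ)) * q - 1‖ ^ 2 = ε ^ 2 + (1 + ε) * ‖q - 1‖ ^ 2 := by
  have h : q.re * q.re + q.im * q.im = 1 := by
    rw [← normSq_apply, normSq_eq_norm_sq, hq, one_pow]
  rw [← normSq_eq_norm_sq, ← normSq_eq_norm_sq, normSq_apply, normSq_apply]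
  simp only [sub_re, mul_re, add_re, one_re, ofReal_re, add_im, one_im, ofReal_im, sub_im, mul_im]
  linear_combination ((1 + ε) ^ 2 - (1 + ε)) * h

theorem s8a_q_diff (t : ℝ) {n : ℕ} (hn : 1 ≤ n) :
    ‖s8a_q t (n + 1) - s8a_q t n‖ ≤ |t| / (n : ℝ) ^ 2 := by
  have h : (0 : ℝ) < n := by exact_mod_cast hn
  have e : s8a_q t (n + 1) - s8a_q t n = s8a_q t n *
      (cexp (I * ((t * (Real.log (1 + 1 / n) - Real.log (1 + 1 / ((n + 1 : ℕ) : ℝ))) : ℝ) : ℂ)) - 1) := by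
    unfold s8a_q
    rw [mul_sub, ← Complex.exp_add, mul_one]
    congr 2
    simp only [ofReal_mul, ofReal_sub]
    ring
  rw [e, norm_mul, s8a_q_norm, one_mul]
  refine Real.norm_exp_I_mul_ofReal_sub_one_le.trans ?_
  rw [Real.norm_eq_abs, abs_mul, div_eq_mul_inv |t|]
  refine mul_le_mul_of_nonneg_left ?_ (abs_nonneg t)
  rw [← Real.log_div (by positivity) (by positivity)]
  have e2 : (1 + 1 / (n : ℝ)) / (1 + 1 / ((n + 1 : ℕ) : ℝ)) = 1 + 1 / (n * (n + 2)) := by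
    push_cast
    field_simp
    ring
  have h1 : (0 : ℝ) < 1 / (n * (n + 2)) := by positivity
  rw [e2, abs_of_nonneg (Real.log_nonneg (by linarith))]
  refine (Real.log_le_sub_one_of_pos (by linarith)).trans ?_
  rw [add_sub_cancel_left, one_div]
  exact inv_anti₀ (by positivity) (by nlinarith)

theorem st8a (h8s : St8s) : St8a := by
  obtain ⟨C, hC, h8⟩ := h8s
  refine ⟨2 + 3 * C, by positivity, fun t M M' b β β' ht htM hMM' hM' hβ hβ' hb hb' => ?_⟩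
  have hM1 : 1 ≤ M := by
    rcases Nat.eq_zero_or_pos M with h | h
    · subst h
      simp only [Nat.cast_zero, ne_eq, OfNat.ofNat_ne_zero, not_false_eq_true, zero_pow] at htM
      linarith
    · exact h
  have hM0 : (0 : ℝ) < M := by exact_mod_cast hM1
  have hS := h8 |t| M ht htM
  obtain ⟨s, hs⟩ : ∃ s, s = √|t| := ⟨_, rfl⟩
  have hs0 : 0 < s := hs ▸ Real.sqrt_pos.2 (by linarith)
  have hs2 : s ^ 2 = |t| := hs ▸ Real.sq_sqrt (abs_nonneg t)
  have hsM : s ≤ M := by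
    rw [hs]
    exact Real.sqrt_le_iff.2 ⟨hM0.le, htM⟩
  obtain ⟨ε, hε⟩ : ∃ ε : ℝ, ε = s / M := ⟨_, rfl⟩
  have hε0 : 0 < ε := hε ▸ div_pos hs0 hM0
  have hε1 : ε ≤ 1 := hε ▸ (div_le_one hM0).2 hsM
  have hε2 : ε ^ 2 = |t| / (M : ℝ) ^ 2 := by rw [hε, div_pow, hs2]
  let d : ℕ → ℂ := fun n => (1 + (ε : ℂ)) * s8a_q t n - 1
  have hd2 : ∀ n, |t| / (M : ℝ) ^ 2 + ‖s8a_q |t| n - 1‖ ^ 2 ≤ ‖d n‖ ^ 2 := fun n => by
    rw [s8a_normsq (s8a_q_norm t n) ε, s8a_q_abs, hε2]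
    nlinarith [sq_nonneg ‖s8a_q t n - 1‖]
  have hdε : ∀ n, ε ≤ ‖d n‖ := fun n => by
    refine (sq_le_sq₀ hε0.le (norm_nonneg _)).1 ?_
    have := hd2 n
    nlinarith [sq_nonneg ‖s8a_q |t| n - 1‖]
  have hd0 : ∀ n, d n ≠ 0 := fun n => norm_pos_iff.1 (hε0.trans_le (hdε n))
  have hrr : ∀ n, ‖(d n)⁻¹‖ ≤ rr |t| M n := fun n => by
    rw [norm_inv, rr, one_div]
    refine inv_anti₀ (Real.sqrt_pos.2 ?_) (Real.sqrt_le_iff.2 ⟨norm_nonneg _, hd2 n⟩)
    rw [← hε2]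
    positivity
  have hre : ∀ n, ‖(d n)⁻¹‖ ≤ ε⁻¹ := fun n => by
    rw [norm_inv]
    exact inv_anti₀ hε0 (hdε n)
  have hrr0 : ∀ n, 0 ≤ rr |t| M n := fun n => (norm_nonneg _).trans (hrr n)
  have hdiff : ∀ n, M ≤ n → ‖(d (n + 1))⁻¹ - (d n)⁻¹‖ ≤ 2 * ε * rr |t| M n := fun n hn => by
    have e : (d (n + 1))⁻¹ - (d n)⁻¹ =
        -((1 + (ε : ℂ)) * (s8a_q t (n + 1) - s8a_q t n)) * (d (n + 1))⁻¹ * (d n)⁻¹ := by
      have h1 := hd0 n
      have h2 := hd0 (n + 1)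
      field_simp
      simp only [d]
      ring
    have hnM : (M : ℝ) ≤ n := by exact_mod_cast hn
    have h1 : ‖s8a_q t (n + 1) - s8a_q t n‖ ≤ ε ^ 2 := by
      refine (s8a_q_diff t (hM1.trans hn)).trans ?_
      rw [hε2]
      gcongr
    have h2 : ‖(1 + (ε : ℂ))‖ ≤ 2 := by
      refine (norm_add_le _ _).trans ?_
      rw [norm_one, norm_real, Real.norm_of_nonneg hε0.le]
      linarith
    rw [e, norm_mul, norm_mul, norm_neg, norm_mul]
    calc _ ≤ 2 * ε ^ 2 * ε⁻¹ * rr |t| M n := by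
          have := hre (n + 1)
          have := hrr n
          gcongr
      _ = _ := by field_simp
  let e : ℕ → ℂ := fun n => (n : ℂ) ^ (-((t : ℂ) * I))
  have abel : ∀ k, M ≤ k → k ≤ 2 * M →
      ‖∑ n ∈ Finset.Ico M k, b n * e n - b k * (d k)⁻¹ * e k + b M * (d M)⁻¹ * e M‖ ≤
        (β' + 3 * ε * β) * ∑ n ∈ Finset.Ico M k, rr |t| M n := by
    intro k hk
    induction k, hk using Nat.le_induction with
    | base => intro _; simp
    | succ k hk ih =>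
      intro hk2
      have ih' := ih (by omega)
      rw [Finset.sum_Ico_succ_top hk, Finset.sum_Ico_succ_top hk, mul_add]
      have hs : e (k + 1) = s8a_q t k * e k := s8a_e_succ t (hM1.trans hk)
      have hek : e k = (d k)⁻¹ * ((1 + (ε : ℂ)) * e (k + 1) - e k) := by
        have h1 := hd0 k
        rw [hs]
        field_simp
        simp only [d]
      have e1 : ∑ n ∈ Finset.Ico M k, b n * e n + b k * e k -
          b (k + 1) * (d (k + 1))⁻¹ * e (k + 1) + b M * (d M)⁻¹ * e M =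
          (∑ n ∈ Finset.Ico M k, b n * e n - b k * (d k)⁻¹ * e k + b M * (d M)⁻¹ * e M) +
          ((ε : ℂ) * b k * (d k)⁻¹ - (b (k + 1) - b k) * (d k)⁻¹ -
            b (k + 1) * ((d (k + 1))⁻¹ - (d k)⁻¹)) * e (k + 1) := by
        linear_combination b k * hek
      rw [e1]
      refine (norm_add_le _ _).trans (add_le_add ih' ?_)
      rw [norm_mul, s8a_e_norm t (by omega : 1 ≤ k + 1), mul_one]
      have a1 : ‖(ε : ℂ) * b k * (d k)⁻¹‖ ≤ ε * β * rr |t| M k := by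
        rw [norm_mul, norm_mul, norm_real, Real.norm_of_nonneg hε0.le]
        have := hb k hk (by omega)
        have := hrr k
        gcongr
      have a2 : ‖(b (k + 1) - b k) * (d k)⁻¹‖ ≤ β' * rr |t| M k := by
        rw [norm_mul]
        have := hb' k hk (by omega)
        have := hrr k
        gcongr
      have a3 : ‖b (k + 1) * ((d (k + 1))⁻¹ - (d k)⁻¹)‖ ≤ β * (2 * ε * rr |t| M k) := by
        rw [norm_mul]
        have := hb (k + 1) (by omega) hk2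
        have := hdiff k hk
        gcongr
      refine (norm_sub_le _ _).trans ((add_le_add (norm_sub_le _ _) le_rfl).trans ?_)
      linarith
  have hend : ∀ k, M ≤ k → k ≤ 2 * M → ‖b k * (d k)⁻¹ * e k‖ ≤ β * ε⁻¹ := fun k h1 h2 => by
    rw [norm_mul, norm_mul, s8a_e_norm t (hM1.trans h1), mul_one]
    have := hb k h1 h2
    have := hre k
    gcongr
  have hsub : ∑ n ∈ Finset.Ico M M', rr |t| M n ≤ ∑ n ∈ Finset.Icc M (2 * M), rr |t| M n :=
    Finset.sum_le_sum_of_subset_of_nonneg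
      (fun n hn => by simp only [Finset.mem_Ico, Finset.mem_Icc] at hn ⊢; omega)
      fun n _ _ => hrr0 n
  have hL : 1 ≤ Real.log (2 + M) := by
    rw [Real.le_log_iff_exp_le (by positivity)]
    have : (1 : ℝ) ≤ M := by exact_mod_cast hM1
    linarith [Real.exp_one_lt_three]
  have hmain : ‖∑ n ∈ Finset.Ico M M', b n * e n‖ ≤ 2 * (β * ε⁻¹) +
      (β' + 3 * ε * β) * (C * (M + (M : ℝ) ^ 2 / |t|) * Real.log (2 + M)) := by
    have e2 : ∑ n ∈ Finset.Ico M M', b n * e n =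
        (∑ n ∈ Finset.Ico M M', b n * e n - b M' * (d M')⁻¹ * e M' + b M * (d M)⁻¹ * e M) +
          b M' * (d M')⁻¹ * e M' - b M * (d M)⁻¹ * e M := by ring
    rw [e2]
    refine (norm_sub_le _ _).trans ((add_le_add (norm_add_le _ _) le_rfl).trans ?_)
    have h1 := abel M' hMM' hM'
    have h2 := hend M' hMM' hM'
    have h3 := hend M le_rfl (by omega)
    have h4 := mul_le_mul_of_nonneg_left (hsub.trans hS) (by positivity : 0 ≤ β' + 3 * ε * β)
    linarith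
  refine hmain.trans ?_
  rw [← hs]
  have f1 : ε⁻¹ = M / s := by rw [hε, inv_div]
  have f2 : ε * (M + (M : ℝ) ^ 2 / |t|) = s + M / s := by
    rw [hε, ← hs2]
    field_simp
  obtain ⟨L, hL'⟩ : ∃ L, L = Real.log (2 + M) := ⟨_, rfl⟩
  obtain ⟨X, hX⟩ : ∃ X : ℝ, X = M + (M : ℝ) ^ 2 / |t| := ⟨_, rfl⟩
  have hX0 : 0 ≤ X := by rw [hX]; positivity
  rw [← hL'] at hL ⊢
  rw [← hX] at f2 ⊢
  rw [f1]
  have g1 : (β' + 3 * ε * β) * (C * X * L) = C * L * (β' * X) + 3 * C * L * (β * (s + M / s)) := by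
    rw [← f2]
    ring
  have g2 : β * (M / s) ≤ L * (β * (s + M / s)) := by
    have h1 : β * (M / s) ≤ β * (s + M / s) := mul_le_mul_of_nonneg_left (by linarith) hβ
    have h2 : 0 ≤ β * (s + M / s) := by positivity
    nlinarith
  have g3 : 0 ≤ L * (β' * X) := by positivity
  have g4 : 0 ≤ C * (L * (β' * X)) := by positivity
  rw [g1]
  nlinarith

end Pool.Agent.Bar58
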