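import Pool.Agent.Lib.MP_d79f69_nt.Bar.Basic

set_option autoImplicit false

namespace Pool.Agent.Bar58

open Complex MeasureTheory Set Filter Topology
open scoped ComplexConjugate

theorem s8b_split (z : ℂ) (t : ℝ) {x : ℝ} (hx : 0 < x) :
    z * (x : ℂ) ^ (-(1 / 2 + (t : ℂ) * I)) =
      z * ((x ^ (-(1 / 2) : ℝ) : ℝ) : ℂ) * (x : ℂ) ^ (-((t : ℂ) * I)) := by
  have h0 : (x : ℂ) ≠ 0 := by exact_mod_cast hx.ne'
  rw [neg_add, cpow_add _ _ h0, ofReal_cpow hx.le, mul_assoc]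
  push_cast
  rfl

theorem s8b_norm (z : ℂ) (t : ℝ) {x : ℝ} (hx : 0 < x) :
    ‖z * (x : ℂ) ^ (-(1 / 2 + (t : ℂ) * I))‖ = ‖z‖ * x ^ (-(1 / 2) : ℝ) := by
  rw [norm_mul, norm_cpow_eq_rpow_re_of_pos hx]
  simp

theorem s8b_val {A K M x : ℝ} {a : ℕ → ℝ → ℂ} (h : Cls 4 (1 / 3) A a) (hM : 1 ≤ M) (hx : M ≤ x)
    (hK : A * W x ≤ K) : ‖a 0 x * ((x ^ (-(1 / 2) : ℝ) : ℝ) : ℂ)‖ ≤ K * M ^ (-(1 / 2) : ℝ) := by
  have h1 := (h.top0 (hM.trans hx)).trans hK
  have h2 : x ^ (-(1 / 2) : ℝ) ≤ M ^ (-(1 / 2) : ℝ) :=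
    Real.rpow_le_rpow_of_nonpos (by linarith) hx (by norm_num)
  have h3 : 0 ≤ x ^ (-(1 / 2) : ℝ) := Real.rpow_nonneg (by linarith) _
  rw [norm_mul, norm_real, Real.norm_of_nonneg h3]
  exact mul_le_mul h1 h2 h3 ((norm_nonneg _).trans h1)

theorem s8b_diff {A K M n : ℝ} {a : ℕ → ℝ → ℂ} (h : Cls 4 (1 / 3) A a) (hM : 1 ≤ M) (hn : M ≤ n)
    (hK : ∀ x, n ≤ x → x ≤ n + 1 → A * W x ≤ K) :
    ‖a 0 (n + 1) * (((n + 1) ^ (-(1 / 2) : ℝ) : ℝ) : ℂ) -
      a 0 n * ((n ^ (-(1 / 2) : ℝ) : ℝ) : ℂ)‖ ≤ 2 * K * M ^ (-(5 / 6) : ℝ) := by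
  have := norm_image_sub_le_of_norm_deriv_le_segment' (a := n) (b := n + 1)
    (f := fun x : ℝ => a 0 x * ((x ^ (-(1 / 2) : ℝ) : ℝ) : ℂ))
    (f' := fun x : ℝ => a 1 x * ((x ^ (-(1 / 2) : ℝ) : ℝ) : ℂ) +
      a 0 x * ((-(1 / 2) * x ^ (-(1 / 2) - 1 : ℝ) : ℝ) : ℂ)) (C := 2 * K * M ^ (-(5 / 6) : ℝ))
    (fun x hx => by
      have hx0 : 0 < x := by linarith [hx.1]
      exact ((h.ch 0 (by norm_num) x hx0).mul
        (Real.hasDerivAt_rpow_const (Or.inl hx0.ne')).ofReal_comp).hasDerivWithinAt)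
    (fun x hx => by
      have hx1 : 1 ≤ x := by linarith [hx.1]
      have hx0 : 0 < x := by linarith
      have hk := hK x hx.1 hx.2.le
      have h0 := (h.top0 hx1).trans hk
      have hK0 : 0 ≤ K := (norm_nonneg _).trans h0
      have h1 : ‖a 1 x‖ ≤ K * x ^ (-(1 / 3) : ℝ) := by
        have := h.top 1 (by norm_num) x hx1
        simp only [Nat.cast_one, one_mul] at this
        exact this.trans (mul_le_mul_of_nonneg_right hk (Real.rpow_nonneg hx0.le _))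
      have h2 : x ^ (-(5 / 6) : ℝ) ≤ M ^ (-(5 / 6) : ℝ) :=
        Real.rpow_le_rpow_of_nonpos (by linarith) (by linarith [hx.1]) (by norm_num)
      have h3 : x ^ (-(1 / 3) : ℝ) * x ^ (-(1 / 2) : ℝ) = x ^ (-(5 / 6) : ℝ) := by
        rw [← Real.rpow_add hx0]
        norm_num
      have h4 : x ^ (-(1 / 2) - 1 : ℝ) ≤ x ^ (-(5 / 6) : ℝ) :=
        Real.rpow_le_rpow_of_exponent_le hx1 (by norm_num)
      have h5 : 0 ≤ x ^ (-(1 / 2) - 1 : ℝ) := Real.rpow_nonneg hx0.le _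
      have h6 : 0 ≤ x ^ (-(1 / 2) : ℝ) := Real.rpow_nonneg hx0.le _
      have h7 : ‖a 1 x * ((x ^ (-(1 / 2) : ℝ) : ℝ) : ℂ)‖ ≤ K * M ^ (-(5 / 6) : ℝ) := by
        rw [norm_mul, norm_real, Real.norm_of_nonneg h6]
        refine (mul_le_mul_of_nonneg_right h1 h6).trans ?_
        rw [mul_assoc, h3]
        exact mul_le_mul_of_nonneg_left h2 hK0
      have h8 : ‖a 0 x * ((-(1 / 2) * x ^ (-(1 / 2) - 1 : ℝ) : ℝ) : ℂ)‖ ≤
          K * M ^ (-(5 / 6) : ℝ) := by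
        rw [norm_mul, norm_real, Real.norm_eq_abs]
        refine mul_le_mul h0 ?_ (abs_nonneg _) hK0
        rw [abs_le]
        constructor <;> linarith
      exact (norm_add_le _ _).trans (by linarith))
    (n + 1) ⟨by linarith, le_rfl⟩
  simpa only [add_sub_cancel_left, mul_one] using this

theorem s8b_br {u M K : ℝ} (hu : 1 ≤ u) (hK : 0 ≤ K) (h1 : √u ≤ M) (h2 : M ≤ u ^ (15 / 14 : ℝ)) :
    K * M ^ (-(1 / 2) : ℝ) * (√u + M / √u) + 2 * K * M ^ (-(5 / 6) : ℝ) * (M + M ^ 2 / u) ≤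
      6 * K * u ^ (1 / 4 : ℝ) := by
  have hu0 : 0 < u := by linarith
  have hM : 0 < M := lt_of_lt_of_le (Real.sqrt_pos.2 hu0) h1
  set q := u ^ (1 / 4 : ℝ) with hq
  set m := M ^ (1 / 6 : ℝ) with hm
  have hq1 : 1 ≤ q := Real.one_le_rpow hu (by norm_num)
  have hq0 : 0 < q := by linarith
  have hm0 : 0 < m := Real.rpow_pos_of_pos hM _
  have pq : ∀ k : ℕ, q ^ k = u ^ (k / 4 : ℝ) := fun k => by
    rw [hq, ← Real.rpow_natCast, ← Real.rpow_mul hu0.le]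
    congr 1
    ring
  have pm : ∀ k : ℕ, m ^ k = M ^ (k / 6 : ℝ) := fun k => by
    rw [hm, ← Real.rpow_natCast, ← Real.rpow_mul hM.le]
    congr 1
    ring
  have e1 : √u = q ^ 2 := by
    rw [pq, Real.sqrt_eq_rpow]
    norm_num
  have e2 : u = q ^ 4 := by
    rw [pq]
    norm_num
  have e3 : M = m ^ 6 := by
    rw [pm]
    norm_num
  have e4 : M ^ (-(1 / 2) : ℝ) = (m ^ 3)⁻¹ := by
    rw [pm, Real.rpow_neg hM.le]
    norm_num
  have e5 : M ^ (-(5 / 6) : ℝ) = (m ^ 5)⁻¹ := by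
    rw [pm, Real.rpow_neg hM.le]
    norm_num
  have i1 : m ^ 7 ≤ q ^ 5 := by
    rw [pm, pq]
    refine (Real.rpow_le_rpow hM.le h2 (by norm_num)).trans ?_
    rw [← Real.rpow_mul hu0.le]
    norm_num
  have i2 : q ≤ m ^ 3 := by
    refine le_of_pow_le_pow_left₀ two_ne_zero (by positivity) ?_
    rw [← e1, ← pow_mul, ← e3]
    exact h1
  have i3 : m ≤ q :=
    le_of_pow_le_pow_left₀ (n := 7) (by norm_num) hq0.le
      (i1.trans (pow_le_pow_right₀ hq1 (by norm_num)))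
  have j1 : (m ^ 3)⁻¹ * q ^ 2 ≤ q := by
    rw [inv_mul_le_iff₀ (by positivity), sq]
    exact mul_le_mul_of_nonneg_right i2 hq0.le
  have j2 : (m ^ 3)⁻¹ * (m ^ 6 / q ^ 2) ≤ q := by
    have : (m ^ 3)⁻¹ * (m ^ 6 / q ^ 2) = m ^ 3 / q ^ 2 := by field_simp
    rw [this, div_le_iff₀ (by positivity)]
    exact (pow_le_pow_left₀ hm0.le i3 3).trans (le_of_eq (by ring))
  have j3 : (m ^ 5)⁻¹ * m ^ 6 ≤ q := by
    have : (m ^ 5)⁻¹ * m ^ 6 = m := by field_simp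
    rw [this]
    exact i3
  have j4 : (m ^ 5)⁻¹ * ((m ^ 6) ^ 2 / q ^ 4) ≤ q := by
    have : (m ^ 5)⁻¹ * ((m ^ 6) ^ 2 / q ^ 4) = m ^ 7 / q ^ 4 := by field_simp
    rw [this, div_le_iff₀ (by positivity)]
    exact i1.trans (le_of_eq (by ring))
  rw [e4, e5, e1, ← e3, ← e2] at *
  nlinarith [mul_le_mul_of_nonneg_left j1 hK, mul_le_mul_of_nonneg_left j2 hK,
    mul_le_mul_of_nonneg_left j3 hK, mul_le_mul_of_nonneg_left j4 hK]

theorem st8b (hSum : StSum) (h8a : St8a) : St8b := by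
  intro A a h
  obtain ⟨C, hC, h8⟩ := h8a
  obtain ⟨Cw, hCw, hw⟩ := W_const_mul 2
  have hA := h.nonneg
  refine ⟨(2 + 72 * C) * (A * Cw), by positivity, fun t ht N hN => ?_⟩
  set u := |t| with hu
  set Y := u ^ (15 / 14 : ℝ) with hY
  set q := u ^ (1 / 4 : ℝ) with hq
  set K := A * Cw * W Y with hKd
  have hu1 : 1 ≤ u := by linarith
  have hu0 : 0 < u := by linarith
  have hY0 : 0 ≤ Y := Real.rpow_nonneg hu0.le _
  have hq0 : 0 ≤ q := Real.rpow_nonneg hu0.le _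
  have hK0 : 0 ≤ K := mul_nonneg (by positivity) (W_pos _).le
  have hK : ∀ x, 0 ≤ x → x ≤ 2 * Y → A * W x ≤ K := fun x h0 h1 => by
    rw [hKd, mul_assoc]
    exact mul_le_mul_of_nonneg_left (hw Y x hY0 h0 h1) hA
  have hYu : Y ≤ u ^ 2 := by
    rw [← Real.rpow_natCast]
    exact Real.rpow_le_rpow_of_exponent_le hu1 (by norm_num)
  have hL : 1 ≤ Real.log u := by
    rw [Real.le_log_iff_exp_le hu0]
    linarith [Real.exp_one_lt_d9]
  set M₀ := ⌈√u⌉₊ with hM₀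
  have hs0 : 0 < √u := Real.sqrt_pos.2 hu0
  have hM1 : 1 ≤ M₀ := Nat.ceil_pos.2 hs0
  have hM2 : √u ≤ M₀ := Nat.le_ceil _
  have hM3 : (M₀ : ℝ) < √u + 1 := Nat.ceil_lt_add_one hs0.le
  let f : ℕ → ℂ := fun n => a 0 n * ((n : ℝ) : ℂ) ^ (-(1 / 2 + (t : ℂ) * I))
  have blk : ∀ M M' : ℕ, M₀ ≤ M → M ≤ N → M ≤ M' → M' ≤ 2 * M →
      ‖∑ n ∈ Finset.Ico M M', f n‖ ≤ 18 * C * K * q * Real.log u := by
    intro M M' h1 h2 h3 h4
    have r1 : (1 : ℝ) ≤ M := by exact_mod_cast hM1.trans h1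
    have r2 : √u ≤ M := hM2.trans (by exact_mod_cast h1)
    have r3 : (M : ℝ) ≤ Y := le_trans (by exact_mod_cast h2) hN
    have r4 : u ≤ (M : ℝ) ^ 2 := by
      have := pow_le_pow_left₀ hs0.le r2 2
      rwa [Real.sq_sqrt hu0.le] at this
    have hp : ∀ p : ℝ, 0 ≤ (M : ℝ) ^ p := fun p => Real.rpow_nonneg (by linarith) p
    have key := h8 t M M' (fun n => a 0 n * (((n : ℝ) ^ (-(1 / 2) : ℝ) : ℝ) : ℂ))
      (K * (M : ℝ) ^ (-(1 / 2) : ℝ)) (2 * K * (M : ℝ) ^ (-(5 / 6) : ℝ)) hu1 r4 h3 h4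
      (mul_nonneg hK0 (hp _)) (mul_nonneg (by linarith) (hp _))
      (fun n n1 n2 => by
        have n3 : (n : ℝ) ≤ 2 * M := by exact_mod_cast n2
        exact s8b_val h r1 (by exact_mod_cast n1) (hK _ (Nat.cast_nonneg _) (by linarith)))
      (fun n n1 n2 => by
        have n3 : (n : ℝ) + 1 ≤ 2 * M := by exact_mod_cast n2
        have := s8b_diff (K := K) h r1 (show (M : ℝ) ≤ n by exact_mod_cast n1) fun x x1 x2 =>
          hK _ ((Nat.cast_nonneg n).trans x1) (by linarith)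
        simpa only [Nat.cast_add, Nat.cast_one] using this)
    have e : ∑ n ∈ Finset.Ico M M', f n = ∑ n ∈ Finset.Ico M M',
        a 0 n * (((n : ℝ) ^ (-(1 / 2) : ℝ) : ℝ) : ℂ) * (n : ℂ) ^ (-((t : ℂ) * I)) := by
      refine Finset.sum_congr rfl fun n hn => ?_
      have n1 : (M : ℝ) ≤ n := by exact_mod_cast (Finset.mem_Ico.1 hn).1
      exact s8b_split _ t (by linarith)
    have b1 := s8b_br hu1 hK0 r2 r3
    have b2 : Real.log (2 + M) ≤ 3 * Real.log u := by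
      have : Real.log (u ^ 3) = 3 * Real.log u := by simp
      rw [← this]
      exact Real.log_le_log (by linarith) (by nlinarith)
    have b3 : 0 ≤ Real.log (2 + M) := Real.log_nonneg (by linarith)
    rw [e]
    refine key.trans ((mul_le_mul_of_nonneg_left b1 (mul_nonneg hC b3)).trans ?_)
    have := mul_le_mul_of_nonneg_left b2 (show 0 ≤ C * (6 * K * q) by positivity)
    linarith
  have head : ‖∑ n ∈ Finset.Ico 1 (min M₀ (N + 1)), f n‖ ≤ 2 * K * q := by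
    rw [Finset.sum_Ico_eq_sum_range]
    set P := min M₀ (N + 1) - 1 with hP
    have p1 : P ≤ N := by omega
    have p2 : (P : ℝ) + 1 ≤ M₀ := by exact_mod_cast (show P + 1 ≤ M₀ by omega)
    have s1 := hSum.2 (-(1 / 2)) (by norm_num) (by norm_num) P
    have s2 : (P : ℝ) ^ (-(1 / 2) + 1 : ℝ) ≤ q := by
      refine (Real.rpow_le_rpow (Nat.cast_nonneg _) (show (P : ℝ) ≤ √u by linarith)
        (by norm_num)).trans (le_of_eq ?_)
      rw [hq, Real.sqrt_eq_rpow, ← Real.rpow_mul hu0.le]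
      norm_num
    refine (norm_sum_le_of_le _ (n := fun n : ℕ => K * ((n : ℝ) + 1) ^ (-(1 / 2) : ℝ))
      fun n hn => ?_).trans ?_
    · have n1 : (n : ℝ) + 1 ≤ N := by
        exact_mod_cast (show n + 1 ≤ N from (Finset.mem_range.1 hn).trans_le p1)
      have n2 : ((1 + n : ℕ) : ℝ) = n + 1 := by push_cast; ring
      have n3 : (0 : ℝ) ≤ n := Nat.cast_nonneg n
      simp only [f, n2]
      rw [s8b_norm _ t (by linarith)]
      exact mul_le_mul_of_nonneg_right ((h.top0 (by linarith)).trans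
        (hK _ (by linarith) (by linarith))) (Real.rpow_nonneg (by linarith) _)
    · rw [← Finset.mul_sum]
      have : ∑ n ∈ Finset.range P, ((n : ℝ) + 1) ^ (-(1 / 2) : ℝ) ≤ 2 * q := by
        refine s1.trans ?_
        rw [div_le_iff₀ (by norm_num)]
        linarith
      nlinarith [mul_le_mul_of_nonneg_left this hK0]
  have hB : 0 ≤ 18 * C * K * q * Real.log u := by positivity
  have ind : ∀ k : ℕ, ‖∑ n ∈ Finset.Ico 1 (min (M₀ * 2 ^ k) (N + 1)), f n‖ ≤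
      2 * K * q + k * (18 * C * K * q * Real.log u) := by
    intro k
    induction k with
    | zero => simpa using head
    | succ k ih =>
      have g1 : M₀ ≤ M₀ * 2 ^ k := Nat.le_mul_of_pos_right _ (by positivity)
      have g2 : M₀ * 2 ^ (k + 1) = 2 * (M₀ * 2 ^ k) := by ring
      push_cast
      by_cases hk : M₀ * 2 ^ k ≤ N
      · rw [min_eq_left (by omega)] at ih
        rw [← Finset.sum_Ico_consecutive f (m := 1) (n := M₀ * 2 ^ k) (by omega) (by omega)]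
        have := blk (M₀ * 2 ^ k) (min (M₀ * 2 ^ (k + 1)) (N + 1)) g1 hk (by omega) (by omega)
        exact (norm_add_le _ _).trans (by linarith)
      · rw [min_eq_right (by omega)] at ih ⊢
        linarith
  have k1 : N < 2 ^ (Nat.log 2 N + 1) := Nat.lt_pow_succ_log_self (by norm_num) N
  have k2 : 2 ^ (Nat.log 2 N + 1) ≤ M₀ * 2 ^ (Nat.log 2 N + 1) := Nat.le_mul_of_pos_left _ hM1
  have k3 : (2 : ℝ) ^ Nat.log 2 N ≤ u ^ 2 := by
    rcases Nat.eq_zero_or_pos N with rfl | h0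
    · rw [Nat.log_zero_right, pow_zero]
      exact one_le_pow₀ hu1
    · have : ((2 ^ Nat.log 2 N : ℕ) : ℝ) ≤ N := by exact_mod_cast Nat.pow_log_le_self 2 h0.ne'
      push_cast at this
      linarith
  have k4 : (Nat.log 2 N : ℝ) ≤ 3 * Real.log u := by
    have := Real.log_le_log (by positivity) k3
    rw [Real.log_pow, Real.log_pow] at this
    have l2 := Real.log_two_gt_d9
    have l3 : (0 : ℝ) ≤ Nat.log 2 N := Nat.cast_nonneg _
    push_cast at this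
    nlinarith
  have fin := ind (Nat.log 2 N + 1)
  rw [min_eq_right (by omega), Finset.sum_Ico_eq_sum_range, Nat.add_sub_cancel] at fin
  have e : ∀ n : ℕ, f (1 + n) =
      a 0 (n + 1) * (((n : ℝ) + 1 : ℝ) : ℂ) ^ (-(1 / 2 + (t : ℂ) * I)) := fun n => by
    have n2 : ((1 + n : ℕ) : ℝ) = n + 1 := by push_cast; ring
    simp only [f, n2]
  simp only [e] at fin
  refine fin.trans ?_
  push_cast
  have z1 : ((Nat.log 2 N : ℝ) + 1) * (18 * C * K * q * Real.log u) ≤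
      4 * Real.log u * (18 * C * K * q * Real.log u) :=
    mul_le_mul_of_nonneg_right (by linarith) hB
  have z2 : 2 * K * q * 1 ≤ 2 * K * q * Real.log u ^ 2 :=
    mul_le_mul_of_nonneg_left (one_le_pow₀ hL) (by positivity)
  have z3 : (2 + 72 * C) * (A * Cw) * q * (Real.log u ^ 2 * W Y) =
      2 * K * q * Real.log u ^ 2 + 4 * Real.log u * (18 * C * K * q * Real.log u) := by
    rw [hKd]
    ring
  linarith

end Pool.Agent.Bar58
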