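import Pool.Agent.Lib.MP_d79f69_nt.Bar.Basic

set_option autoImplicit false

namespace Pool.Agent.Bar58

open Complex MeasureTheory Set Filter Topology
open scoped ComplexConjugate

theorem s8c_cont (r : ℂ) : ContinuousOn (fun x : ℝ => (x : ℂ) ^ r) (Ioi 0) := fun x hx =>
  (Complex.continuousAt_ofReal_cpow_const x r (Or.inr (ne_of_gt hx))).continuousWithinAt

theorem s8c_v {t : ℝ} (ht : 3 ≤ |t|) {x : ℝ} (hx : 0 < x) :
    ‖(x : ℂ) ^ (-(1 / 2 + (t : ℂ) * I) + 1) / (-(1 / 2 + (t : ℂ) * I) + 1)‖ ≤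
      x ^ (1 / 2 : ℝ) / |t| := by
  rw [norm_div, Complex.norm_cpow_eq_rpow_re_of_pos hx]
  have h1 : (-(1 / 2 + (t : ℂ) * I) + 1).re = 1 / 2 := by simp; norm_num
  have h2 : |t| ≤ ‖-(1 / 2 + (t : ℂ) * I) + 1‖ := by
    refine le_trans (le_of_eq ?_) (Complex.abs_im_le_norm _)
    simp
  rw [h1]
  exact div_le_div_of_nonneg_left (by positivity) (by linarith) h2

theorem s8c_head {A : ℝ} {a : ℕ → ℝ → ℂ} (h : Cls 4 (1 / 3) A a) (t : ℝ) :
    IntervalIntegrable (fun x : ℝ => a 0 x * (x : ℂ) ^ (-(1 / 2 + (t : ℂ) * I))) volume 0 1 ∧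
      ‖∫ x in (0 : ℝ)..1, a 0 x * (x : ℂ) ^ (-(1 / 2 + (t : ℂ) * I))‖ ≤ 10 * A := by
  have hA := h.nonneg
  obtain ⟨h1, h2⟩ := intervalIntegrable_rpow_le
    (f := fun x : ℝ => a 0 x * (x : ℂ) ^ (-(1 / 2 + (t : ℂ) * I))) (C := A) (a := -(9 / 10))
    (X := 1) ((h.ch.cont (by norm_num)).mul (s8c_cont _)) (by norm_num) zero_le_one
    (fun x hx hx1 => by
      rw [norm_mul, Complex.norm_cpow_eq_rpow_re_of_pos hx]
      have h3 : (-(1 / 2 + (t : ℂ) * I)).re = -(1 / 2) := by simp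
      rw [h3]
      refine (mul_le_mul_of_nonneg_right (h.bot x hx hx1) (by positivity)).trans (le_of_eq ?_)
      rw [mul_assoc, ← Real.rpow_add hx]
      norm_num)
  refine ⟨h1, h2.trans (le_of_eq ?_)⟩
  rw [Real.one_rpow]
  ring

theorem s8c_tail {A : ℝ} {a : ℕ → ℝ → ℂ} (h : Cls 4 (1 / 3) A a) {t : ℝ} (ht : 3 ≤ |t|) {X : ℝ}
    (hX : 1 ≤ X) :
    IntervalIntegrable (fun x : ℝ => a 0 x * (x : ℂ) ^ (-(1 / 2 + (t : ℂ) * I))) volume 1 X ∧
      ‖∫ x in (1 : ℝ)..X, a 0 x * (x : ℂ) ^ (-(1 / 2 + (t : ℂ) * I))‖ ≤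
        3 * (A * W X * (X ^ (7 / 6 : ℝ) / |t|)) := by
  have hA := h.nonneg
  have hu : 0 < |t| := by linarith
  have hX0 : 0 < X := by linarith
  have hs : uIcc 1 X ⊆ Ioi (0 : ℝ) := by
    rw [uIcc_of_le hX]; exact fun x hx => lt_of_lt_of_le one_pos hx.1
  have hr : -(1 / 2 + (t : ℂ) * I) ≠ -1 := by
    intro h0
    have := congrArg Complex.re h0
    simp at this
  refine ⟨(((h.ch.cont (by norm_num)).mul (s8c_cont _)).mono hs).intervalIntegrable, ?_⟩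
  rw [intervalIntegral.integral_mul_deriv_eq_deriv_mul (u := a 0) (u' := a 1)
    (v := fun y : ℝ => (y : ℂ) ^ (-(1 / 2 + (t : ℂ) * I) + 1) / (-(1 / 2 + (t : ℂ) * I) + 1))
    (fun x hx => h.ch 0 (by norm_num) x (hs hx))
    (fun x hx => hasDerivAt_ofReal_cpow_const' (ne_of_gt (hs hx)) hr)
    (((h.ch.cont (by norm_num)).mono hs).intervalIntegrable)
    (((s8c_cont _).mono hs).intervalIntegrable)]
  have hW := W_pos X
  have hb : ∀ x : ℝ, 1 ≤ x → x ≤ X → ‖a 0 x * ((x : ℂ) ^ (-(1 / 2 + (t : ℂ) * I) + 1) /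
      (-(1 / 2 + (t : ℂ) * I) + 1))‖ ≤ A * W X * (X ^ (7 / 6 : ℝ) / |t|) := by
    intro x h1 h2
    rw [norm_mul]
    refine mul_le_mul ((h.top0 h1).trans ?_) ((s8c_v ht (by linarith)).trans ?_) (norm_nonneg _)
      (by positivity)
    · exact mul_le_mul_of_nonneg_left (W_mono (by linarith) h2) hA
    · refine div_le_div_of_nonneg_right ?_ hu.le
      exact (Real.rpow_le_rpow (by linarith) h2 (by norm_num)).trans
        (Real.rpow_le_rpow_of_exponent_le hX (by norm_num))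
  have hi : ‖∫ x in (1 : ℝ)..X, a 1 x * ((x : ℂ) ^ (-(1 / 2 + (t : ℂ) * I) + 1) /
      (-(1 / 2 + (t : ℂ) * I) + 1))‖ ≤ A * W X * (X ^ (1 / 6 : ℝ) / |t|) * |X - 1| := by
    refine intervalIntegral.norm_integral_le_of_norm_le_const fun x hx => ?_
    rw [uIoc_of_le hX] at hx
    have hx0 : 0 < x := by linarith [hx.1]
    have hWx := W_pos x
    rw [norm_mul]
    refine (mul_le_mul (h.top 1 (by norm_num) x hx.1.le) (s8c_v ht hx0) (norm_nonneg _)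
      (by positivity)).trans ?_
    have h3 : x ^ (-(((1 : ℕ) : ℝ) * (1 / 3))) * x ^ (1 / 2 : ℝ) = x ^ (1 / 6 : ℝ) := by
      rw [← Real.rpow_add hx0]; norm_num
    rw [mul_assoc, ← mul_div_assoc, h3]
    have h4 := W_mono hx0.le hx.2
    have h5 : x ^ (1 / 6 : ℝ) ≤ X ^ (1 / 6 : ℝ) := Real.rpow_le_rpow hx0.le hx.2 (by norm_num)
    gcongr
  have hi2 : A * W X * (X ^ (1 / 6 : ℝ) / |t|) * |X - 1| ≤ A * W X * (X ^ (7 / 6 : ℝ) / |t|) := by
    have h6 : X ^ (7 / 6 : ℝ) = X ^ (1 / 6 : ℝ) * X := by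
      rw [← Real.rpow_add_one hX0.ne']; norm_num
    rw [abs_of_nonneg (by linarith : 0 ≤ X - 1), h6, mul_assoc, div_mul_eq_mul_div]
    gcongr
    linarith
  have h7 := hb X hX le_rfl
  have h8 := hb 1 le_rfl hX
  refine (norm_sub_le _ _).trans ?_
  refine (add_le_add (norm_sub_le _ _) le_rfl).trans ?_
  linarith

theorem st8c : St8c := by
  intro A a h
  have hA := h.nonneg
  obtain ⟨C, hC1, hC⟩ := W_const_mul 12
  refine ⟨10 * A + 3 * (A * C * 12 ^ (7 / 6 : ℝ)), by positivity, fun t ht X hX hXY => ?_⟩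
  have hu : 0 < |t| := by linarith
  obtain ⟨h1, h2⟩ := s8c_head h t
  obtain ⟨h3, h4⟩ := s8c_tail h ht hX
  rw [← intervalIntegral.integral_add_adjacent_intervals h1 h3]
  refine (norm_add_le _ _).trans ?_
  have h5 : W X ≤ C * W (|t| ^ (15 / 14 : ℝ)) := hC _ _ (by positivity) (by linarith) hXY
  have h6 : X ^ (7 / 6 : ℝ) / |t| ≤ 12 ^ (7 / 6 : ℝ) * |t| ^ (1 / 4 : ℝ) := by
    rw [div_le_iff₀ hu, mul_assoc, ← Real.rpow_add_one hu.ne']
    refine (Real.rpow_le_rpow (by linarith) hXY (by norm_num)).trans (le_of_eq ?_)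
    rw [Real.mul_rpow (by norm_num) (by positivity), ← Real.rpow_mul hu.le]
    norm_num
  have h7 : 1 ≤ |t| ^ (1 / 4 : ℝ) := Real.one_le_rpow (by linarith) (by norm_num)
  have h8 := one_le_W (|t| ^ (15 / 14 : ℝ))
  have hW := W_pos X
  have h9 : A * W X * (X ^ (7 / 6 : ℝ) / |t|) ≤
      A * (C * W (|t| ^ (15 / 14 : ℝ))) * (12 ^ (7 / 6 : ℝ) * |t| ^ (1 / 4 : ℝ)) := by
    have : 0 ≤ X ^ (7 / 6 : ℝ) / |t| := div_nonneg (Real.rpow_nonneg (by linarith) _) hu.le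
    gcongr
  have h10 : 10 * A ≤ 10 * A * (|t| ^ (1 / 4 : ℝ) * W (|t| ^ (15 / 14 : ℝ))) :=
    le_mul_of_one_le_right (by positivity) (one_le_mul_of_one_le_of_one_le h7 h8)
  nlinarith

end Pool.Agent.Bar58
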