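import Pool.Agent.Lib.MP_d79f69_nt.Bar.Basic

set_option autoImplicit false

namespace Pool.Agent.Bar58

open Complex MeasureTheory Set Filter Topology
open scoped ComplexConjugate

theorem s8s_harm (ε δ : ℝ) (hε : 0 < ε) (hδ : 0 < δ) (J : ℕ) :
    ∑ j ∈ Finset.range (J + 1), 2 / (ε + (j : ℝ) * δ / 2) ≤
      2 / ε + 4 / δ * (Real.log (ε + (J : ℝ) * δ / 2) - Real.log ε) := by
  induction J with
  | zero => simp
  | succ J ih =>
    rw [Finset.sum_range_succ]
    have hA : 0 < ε + (J : ℝ) * δ / 2 := by positivity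
    have hB : 0 < ε + ((J + 1 : ℕ) : ℝ) * δ / 2 := by positivity
    have h1 := Real.one_sub_inv_le_log_of_pos (div_pos hB hA)
    rw [Real.log_div hB.ne' hA.ne'] at h1
    have h2 : 2 / (ε + ((J + 1 : ℕ) : ℝ) * δ / 2) =
        4 / δ * (1 - ((ε + ((J + 1 : ℕ) : ℝ) * δ / 2) / (ε + (J : ℝ) * δ / 2))⁻¹) := by
      rw [inv_div]
      push_cast at hB ⊢
      field_simp
      ring
    have h3 := mul_le_mul_of_nonneg_left h1 (by positivity : (0 : ℝ) ≤ 4 / δ)
    rw [h2]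
    nlinarith

theorem s8s_norm (φ : ℝ) (k : ℕ) (h : |φ - 2 * Real.pi * k| ≤ Real.pi) :
    |φ - 2 * Real.pi * k| / 2 ≤ ‖cexp (-(φ : ℂ) * I) - 1‖ := by
  have e1 : -(φ : ℂ) * I = I * ((-φ : ℝ) : ℂ) := by push_cast; ring
  rw [e1, Complex.norm_exp_I_mul_ofReal_sub_one]
  set p := φ - 2 * Real.pi * k with hp
  have e2 : -φ / 2 = -(p / 2 + k * Real.pi) := by rw [hp]; ring
  rw [e2, Real.sin_neg, Real.sin_add_nat_mul_pi, Real.norm_eq_abs, abs_mul, abs_neg, abs_mul,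
    abs_pow, abs_neg, abs_one, one_pow, one_mul, abs_two]
  have h1 : |p / 2| ≤ Real.pi / 2 := by rw [abs_div, abs_two]; linarith
  have h2 := Real.mul_abs_le_abs_sin h1
  rw [abs_div, abs_two] at h2
  have h3 : (1 / 2 : ℝ) ≤ 2 / Real.pi := by
    rw [div_le_div_iff₀ (by norm_num) Real.pi_pos]; linarith [Real.pi_le_four]
  have h4 : 0 ≤ |p| / 2 := by positivity
  nlinarith

theorem s8s_pt (ε a b : ℝ) (hε : 0 < ε) (hb : 0 ≤ b) (hab : b ≤ a) :
    1 / √(ε ^ 2 + a ^ 2) ≤ 2 / (ε + b) := by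
  have h1 : (ε + b) / 2 ≤ √(ε ^ 2 + a ^ 2) := by
    apply Real.le_sqrt_of_sq_le
    nlinarith [sq_nonneg (ε - b), mul_self_le_mul_self hb hab]
  have h2 : 0 < (ε + b) / 2 := by positivity
  calc 1 / √(ε ^ 2 + a ^ 2) ≤ 1 / ((ε + b) / 2) := one_div_le_one_div_of_le h2 h1
    _ = 2 / (ε + b) := by rw [one_div_div]

theorem s8s_gen (S : Finset ℕ) (φ : ℕ → ℝ) (L δ ε : ℝ) (hδ : 0 < δ) (hε : 0 < ε) (hL0 : 0 ≤ L)
    (h0 : ∀ n ∈ S, 0 ≤ φ n) (hL : ∀ n ∈ S, φ n ≤ L)
    (hsep : ∀ n ∈ S, ∀ m ∈ S, n ≠ m → δ ≤ |φ n - φ m|) :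
    ∑ n ∈ S, 1 / √(ε ^ 2 + ‖cexp (-(φ n : ℂ) * I) - 1‖ ^ 2) ≤
      (L + 3 / 2) * 2 * (2 / ε + 4 / δ * Real.log (1 + 2 / ε)) := by
  classical
  have hpi := Real.pi_pos
  have hpi3 := Real.pi_gt_three
  let k : ℕ → ℕ := fun n => ⌊φ n / (2 * Real.pi) + 1 / 2⌋₊
  let p : ℕ → ℝ := fun n => φ n - 2 * Real.pi * k n
  let j : ℕ → ℕ := fun n => ⌊|p n| / δ⌋₊
  let f : ℕ → ℕ × Bool × ℕ := fun n => (k n, decide (0 ≤ p n), j n)
  let h : ℕ × Bool × ℕ → ℝ := fun y => 2 / (ε + (y.2.2 : ℝ) * δ / 2)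
  let J : ℕ := ⌊Real.pi / δ⌋₊
  let T : Finset (ℕ × Bool × ℕ) :=
    Finset.range (⌊L + 1 / 2⌋₊ + 1) ×ˢ (Finset.univ ×ˢ Finset.range (J + 1))
  have hp : ∀ n ∈ S, |p n| ≤ Real.pi := by
    intro n hn
    have a0 : 0 ≤ φ n / (2 * Real.pi) + 1 / 2 := by have := h0 n hn; positivity
    have a1 : (k n : ℝ) ≤ φ n / (2 * Real.pi) + 1 / 2 := Nat.floor_le a0
    have a2 : φ n / (2 * Real.pi) + 1 / 2 < (k n : ℝ) + 1 := Nat.lt_floor_add_one _
    have a3 : φ n = φ n / (2 * Real.pi) * (2 * Real.pi) := by field_simp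
    rw [abs_le]
    constructor
    · show -Real.pi ≤ φ n - 2 * Real.pi * k n
      nlinarith
    · show φ n - 2 * Real.pi * k n ≤ Real.pi
      nlinarith
  have hj1 : ∀ n, (j n : ℝ) * δ ≤ |p n| := by
    intro n
    have : (j n : ℝ) ≤ |p n| / δ := Nat.floor_le (by positivity)
    rwa [le_div_iff₀ hδ] at this
  have hj2 : ∀ n, |p n| < ((j n : ℝ) + 1) * δ := by
    intro n
    have : |p n| / δ < (j n : ℝ) + 1 := Nat.lt_floor_add_one _
    rwa [div_lt_iff₀ hδ] at this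
  have hinj : Set.InjOn f S := by
    intro n hn m hm hnm
    by_contra hne
    have b0 := hsep n hn m hm hne
    simp only [f, Prod.mk.injEq, decide_eq_decide] at hnm
    obtain ⟨e1, e2, e3⟩ := hnm
    have b1 : φ n - φ m = p n - p m := by simp only [p]; rw [e1]; ring
    rw [b1] at b0
    have c1 := hj1 n
    have c2 := hj2 n
    have c3 := hj1 m
    have c4 := hj2 m
    rw [e3] at c1 c2
    have : |p n - p m| < δ := by
      rw [abs_lt]
      by_cases hs : 0 ≤ p n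
      · rw [abs_of_nonneg hs] at c1 c2
        rw [abs_of_nonneg (e2.1 hs)] at c3 c4
        constructor <;> linarith
      · have hs' : ¬ 0 ≤ p m := fun hh => hs (e2.2 hh)
        rw [abs_of_neg (not_le.1 hs)] at c1 c2
        rw [abs_of_neg (not_le.1 hs')] at c3 c4
        constructor <;> linarith
    linarith
  have hsub : S.image f ⊆ T := by
    intro y hy
    obtain ⟨n, hn, rfl⟩ := Finset.mem_image.1 hy
    simp only [T, f, Finset.mem_product, Finset.mem_range, Finset.mem_univ, true_and]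
    constructor
    · apply Nat.lt_succ_of_le
      apply Nat.floor_mono
      have : φ n / (2 * Real.pi) ≤ φ n := div_le_self (h0 n hn) (by linarith)
      linarith [hL n hn]
    · apply Nat.lt_succ_of_le
      apply Nat.floor_mono
      exact div_le_div_of_nonneg_right (hp n hn) hδ.le
  have hJ : (J : ℝ) * δ ≤ 4 := by
    have : (J : ℝ) ≤ Real.pi / δ := Nat.floor_le (by positivity)
    rw [le_div_iff₀ hδ] at this
    linarith [Real.pi_le_four]
  have hlog : Real.log (ε + (J : ℝ) * δ / 2) - Real.log ε ≤ Real.log (1 + 2 / ε) := by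
    rw [← Real.log_div (by positivity) hε.ne']
    apply Real.log_le_log (by positivity)
    rw [div_le_iff₀ hε]
    have : (1 + 2 / ε) * ε = ε + 2 := by field_simp
    rw [this]
    linarith
  have hH : ∑ i ∈ Finset.range (J + 1), 2 / (ε + (i : ℝ) * δ / 2) ≤
      2 / ε + 4 / δ * Real.log (1 + 2 / ε) := by
    refine (s8s_harm ε δ hε hδ J).trans ?_
    have := mul_le_mul_of_nonneg_left hlog (by positivity : (0 : ℝ) ≤ 4 / δ)
    linarith
  have hH0 : 0 ≤ ∑ i ∈ Finset.range (J + 1), 2 / (ε + (i : ℝ) * δ / 2) :=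
    Finset.sum_nonneg fun i _ => by positivity
  have hK : ((⌊L + 1 / 2⌋₊ + 1 : ℕ) : ℝ) ≤ L + 3 / 2 := by
    have : (⌊L + 1 / 2⌋₊ : ℝ) ≤ L + 1 / 2 := Nat.floor_le (by positivity)
    push_cast
    linarith
  calc ∑ n ∈ S, 1 / √(ε ^ 2 + ‖cexp (-(φ n : ℂ) * I) - 1‖ ^ 2)
      ≤ ∑ n ∈ S, h (f n) := by
        refine Finset.sum_le_sum fun n hn => ?_
        apply s8s_pt _ _ _ hε (by positivity)
        have := s8s_norm (φ n) (k n) (hp n hn)
        have h5 := hj1 n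
        show (j n : ℝ) * δ / 2 ≤ _
        simp only [p] at h5
        linarith
    _ = ∑ y ∈ S.image f, h y := (Finset.sum_image hinj).symm
    _ ≤ ∑ y ∈ T, h y :=
        Finset.sum_le_sum_of_subset_of_nonneg hsub fun y _ _ => by simp only [h]; positivity
    _ = ((⌊L + 1 / 2⌋₊ + 1 : ℕ) : ℝ) * 2 *
          ∑ i ∈ Finset.range (J + 1), 2 / (ε + (i : ℝ) * δ / 2) := by
        simp only [T, h, Finset.sum_product, Finset.sum_const, Finset.card_range,
          Finset.card_univ, Fintype.card_bool, nsmul_eq_mul]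
        push_cast
        ring
    _ ≤ (L + 3 / 2) * 2 * (2 / ε + 4 / δ * Real.log (1 + 2 / ε)) := by
        apply mul_le_mul (by linarith) hH hH0 (by positivity)

theorem s8s_gap (t : ℝ) (M n m : ℕ) (ht : 0 ≤ t) (hM : 1 ≤ M) (hn : M ≤ n) (hnm : n < m)
    (hm : m ≤ 2 * M) :
    t / (M : ℝ) ^ 2 / 6 ≤ t * Real.log (1 + 1 / n) - t * Real.log (1 + 1 / m) := by
  have hM' : (1 : ℝ) ≤ M := by exact_mod_cast hM
  have hn' : (M : ℝ) ≤ n := by exact_mod_cast hn
  have hnm' : (n : ℝ) + 1 ≤ m := by exact_mod_cast hnm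
  have hm' : (m : ℝ) ≤ 2 * M := by exact_mod_cast hm
  have n0 : (0 : ℝ) < n := by linarith
  have m0 : (0 : ℝ) < m := by linarith
  have hA : (0 : ℝ) < 1 + 1 / n := by positivity
  have hB : (0 : ℝ) < 1 + 1 / m := by positivity
  have h1 := Real.one_sub_inv_le_log_of_pos (div_pos hA hB)
  rw [Real.log_div hA.ne' hB.ne', inv_div] at h1
  have h2 : 1 - (1 + 1 / (m : ℝ)) / (1 + 1 / n) = ((m : ℝ) - n) / (m * (n + 1)) := by
    field_simp
    ring
  have h3 : 1 / (M : ℝ) ^ 2 / 6 ≤ ((m : ℝ) - n) / (m * (n + 1)) := by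
    rw [div_div, div_le_div_iff₀ (by positivity) (by positivity)]
    have a1 : (m : ℝ) * (n + 1) ≤ (2 * M) * (2 * M) :=
      mul_le_mul hm' (by linarith) (by positivity) (by positivity)
    have a2 : 1 * ((M : ℝ) ^ 2 * 6) ≤ ((m : ℝ) - n) * ((M : ℝ) ^ 2 * 6) :=
      mul_le_mul_of_nonneg_right (by linarith) (by positivity)
    nlinarith
  have h4 := mul_le_mul_of_nonneg_left (h3.trans (h2 ▸ h1)) ht
  calc t / (M : ℝ) ^ 2 / 6 = t * (1 / (M : ℝ) ^ 2 / 6) := by ring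
    _ ≤ _ := h4
    _ = _ := by ring

theorem st8s : St8s := by
  refine ⟨150, by norm_num, fun t M ht htM => ?_⟩
  have hM : 1 ≤ M := by
    rcases Nat.eq_zero_or_pos M with h | h
    · subst h
      simp at htM
      linarith
    · exact h
  have hM' : (1 : ℝ) ≤ M := by exact_mod_cast hM
  have M0 : (0 : ℝ) < M := by linarith
  have t0 : 0 < t := by linarith
  have l0 : 0 < t / (M : ℝ) ^ 2 := by positivity
  have l1 : t / (M : ℝ) ^ 2 ≤ 1 := by rw [div_le_one (by positivity)]; exact htM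
  set ε := √(t / (M : ℝ) ^ 2) with hε
  have ε0 : 0 < ε := Real.sqrt_pos.2 l0
  have εsq : ε ^ 2 = t / (M : ℝ) ^ 2 := Real.sq_sqrt l0.le
  have ε1 : ε ≤ 1 := by rw [hε]; exact Real.sqrt_le_one.2 l1
  have hg := s8s_gen (Finset.Icc M (2 * M)) (fun n => t * Real.log (1 + 1 / n)) (t / M)
    (t / (M : ℝ) ^ 2 / 6) ε (by positivity) ε0 (by positivity)
    (fun n _ => mul_nonneg t0.le (Real.log_nonneg (by
      have : (0 : ℝ) ≤ 1 / n := by positivity
      linarith)))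
    (fun n hn => by
      have hn' : (M : ℝ) ≤ n := by exact_mod_cast (Finset.mem_Icc.1 hn).1
      have n0 : (0 : ℝ) < n := by linarith
      have a1 := Real.log_le_sub_one_of_pos (by positivity : (0 : ℝ) < 1 + 1 / n)
      have a2 : 1 / (n : ℝ) ≤ 1 / M := one_div_le_one_div_of_le M0 hn'
      calc t * Real.log (1 + 1 / n) ≤ t * (1 / M) :=
            mul_le_mul_of_nonneg_left (by linarith) t0.le
        _ = t / M := by ring)
    (fun n hn m hm hne => by
      obtain ⟨n1, n2⟩ := Finset.mem_Icc.1 hn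
      obtain ⟨m1, m2⟩ := Finset.mem_Icc.1 hm
      rcases lt_or_gt_of_ne hne with h | h
      · exact (s8s_gap t M n m t0.le hM n1 h m2).trans (le_abs_self _)
      · rw [abs_sub_comm]
        exact (s8s_gap t M m n t0.le hM m1 h n2).trans (le_abs_self _))
  have e1 : ∑ n ∈ Finset.Icc M (2 * M), rr t M n =
      ∑ n ∈ Finset.Icc M (2 * M), 1 / √(ε ^ 2 +
        ‖cexp (-((t * Real.log (1 + 1 / n) : ℝ) : ℂ) * I) - 1‖ ^ 2) := by
    simp only [rr, εsq]
  rw [e1]
  refine hg.trans ?_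
  have lg1 : 1 ≤ Real.log (2 + M) := by
    rw [Real.le_log_iff_exp_le (by positivity)]
    linarith [Real.exp_one_lt_three]
  have i1 : 1 / ε ≤ (M : ℝ) ^ 2 / t := by
    have : 1 / ε ≤ 1 / ε ^ 2 := one_div_le_one_div_of_le (by positivity) (by nlinarith)
    rwa [εsq, one_div_div] at this
  have i2 : 1 / ε ≤ M := by
    rw [div_le_iff₀ ε0]
    have a1 : (M * ε) ^ 2 = t := by rw [mul_pow, εsq]; field_simp
    have a2 : 0 < M * ε := by positivity
    nlinarith
  have lg2 : Real.log (1 + 2 / ε) ≤ 2 * Real.log (2 + M) := by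
    have a1 : Real.log (1 + 2 / ε) ≤ Real.log ((2 + (M : ℝ)) ^ 2) := by
      apply Real.log_le_log (by positivity)
      have : 2 / ε = 2 * (1 / ε) := by ring
      nlinarith
    rw [Real.log_pow] at a1
    exact_mod_cast a1
  set Q := (M : ℝ) ^ 2 / t with hQ
  have Q0 : 0 < Q := by positivity
  have e2 : 4 / (t / (M : ℝ) ^ 2 / 6) = 24 * Q := by rw [hQ]; field_simp; ring
  have e3 : t / M * Q = M := by rw [hQ]; field_simp
  have b1 : 2 / ε + 4 / (t / (M : ℝ) ^ 2 / 6) * Real.log (1 + 2 / ε) ≤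
      50 * Q * Real.log (2 + M) := by
    rw [e2]
    have a1 : 2 / ε = 2 * (1 / ε) := by ring
    have a2 : Q * 1 ≤ Q * Real.log (2 + M) := mul_le_mul_of_nonneg_left lg1 Q0.le
    have a3 := mul_le_mul_of_nonneg_left lg2 Q0.le
    nlinarith
  have L0 : 0 ≤ t / M := by positivity
  calc (t / M + 3 / 2) * 2 * (2 / ε + 4 / (t / (M : ℝ) ^ 2 / 6) * Real.log (1 + 2 / ε))
      ≤ (t / M + 3 / 2) * 2 * (50 * Q * Real.log (2 + M)) :=
        mul_le_mul_of_nonneg_left b1 (by positivity)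
    _ = (100 * (t / M * Q) + 150 * Q) * Real.log (2 + M) := by ring
    _ ≤ 150 * (M + Q) * Real.log (2 + M) := by
        rw [e3]
        apply mul_le_mul_of_nonneg_right (by linarith) (by linarith)

end Pool.Agent.Bar58
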