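import Pool.Agent.Lib.MP_d79f69_nt.Bar.Basic

set_option autoImplicit false

namespace Pool.Agent.Bar58

open Complex MeasureTheory Set Filter Topology
open scoped ComplexConjugate

lemma s9_cosh (θ t : ℝ) :
    Real.cosh ((3 * Real.pi / 4 - θ) * t) = Real.cosh ((3 * Real.pi / 4 - θ) * |t|) := by
  rcases abs_choice t with h | h
  · rw [h]
  · rw [h, mul_neg, Real.cosh_neg]

lemma s9_up {θ u : ℝ} (h1 : θ ≤ 1) (hu : 0 ≤ u) : Real.cosh ((3 * Real.pi / 4 - θ) * u) ≤
    Real.exp (3 * Real.pi * u / 4) * Real.exp (-(θ * u)) := by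
  have hp := Real.pi_gt_three
  have h0 : 0 ≤ (3 * Real.pi / 4 - θ) * u := mul_nonneg (by linarith) hu
  have h2 : Real.exp (-((3 * Real.pi / 4 - θ) * u)) ≤ Real.exp ((3 * Real.pi / 4 - θ) * u) :=
    Real.exp_le_exp.2 (by linarith)
  rw [← Real.exp_add, Real.cosh_eq,
    show 3 * Real.pi * u / 4 + -(θ * u) = (3 * Real.pi / 4 - θ) * u by ring]
  linarith

lemma s9_low (θ u : ℝ) : Real.exp (3 * Real.pi * u / 4) * Real.exp (-(θ * u)) / 2 ≤
    Real.cosh ((3 * Real.pi / 4 - θ) * u) := by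
  rw [← Real.exp_add, Real.cosh_eq,
    show 3 * Real.pi * u / 4 + -(θ * u) = (3 * Real.pi / 4 - θ) * u by ring]
  linarith [Real.exp_pos (-((3 * Real.pi / 4 - θ) * u))]

lemma s9_sum : Summable fun j : ℕ => om j * th j := by
  have h : Summable fun j : ℕ => Real.exp (1 / 2) * Real.exp (-(1 / 2)) ^ j :=
    (summable_geometric_of_lt_one (Real.exp_pos _).le
      (Real.exp_lt_one_iff.2 (by norm_num))).mul_left _
  refine Summable.of_nonneg_of_le (fun j => (mul_pos (om_pos j) (th_pos j)).le) (fun j => ?_) h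
  rw [om, th, ← Real.exp_add, ← Real.exp_nat_mul, ← Real.exp_add]
  refine Real.exp_le_exp.2 ?_
  have h0 : (0 : ℝ) ≤ j := Nat.cast_nonneg j
  nlinarith [Real.sq_sqrt h0, sq_nonneg (√(j : ℝ) - 1)]

lemma s9_abs {β : ℕ → ℝ} {B u : ℝ} (hB : ∀ j, |β j| ≤ B) (hu : 0 ≤ u) (j : ℕ) :
    |β j * om j * (th j * u ^ 2 * Real.cosh ((3 * Real.pi / 4 - th j) * u))| ≤
      B * (u ^ 2 * Real.exp (3 * Real.pi * u / 4)) * (om j * th j) * Real.exp (-(th j * u)) := by
  have hB0 : 0 ≤ B := (abs_nonneg _).trans (hB 0)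
  have h1 := om_pos j
  have h2 := th_pos j
  have h3 := Real.cosh_pos ((3 * Real.pi / 4 - th j) * u)
  rw [mul_assoc (β j), abs_mul, abs_of_nonneg (a := om j * _) (by positivity)]
  calc _ ≤ B * (om j * (th j * u ^ 2 *
        (Real.exp (3 * Real.pi * u / 4) * Real.exp (-(th j * u))))) := by
        gcongr
        · exact hB j
        · exact s9_up (th_le_one j) hu
    _ = _ := by ring

lemma s9_main {β : ℕ → ℝ} {δ u : ℝ} {r J : ℕ} (hδ : 0 < δ) (hu : 1 ≤ u)
    (hβ : δ / ((J : ℝ) + 1) ^ r ≤ β J) (h1 : Real.log u ≤ J) (h2 : (J : ℝ) ≤ Real.log u + 1) :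
    δ / (2 * Real.exp 2) *
      (u * Real.exp (3 * Real.pi * u / 4) * Real.exp √(Real.log u) / (2 + Real.log u) ^ r) ≤
      β J * om J * (th J * u ^ 2 * Real.cosh ((3 * Real.pi / 4 - th J) * u)) := by
  have hu0 : 0 < u := by linarith
  have hL : 0 ≤ Real.log u := Real.log_nonneg hu
  have a1 : δ / (2 + Real.log u) ^ r ≤ β J :=
    le_trans (div_le_div_of_nonneg_left hδ.le (by positivity)
      (pow_le_pow_left₀ (by positivity) (by linarith) r)) hβ
  have a2 : Real.exp √(Real.log u) ≤ om J := Real.exp_le_exp.2 (Real.sqrt_le_sqrt h1)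
  have a3 : th J * u ≤ 1 := by
    rw [th, ← Real.exp_log hu0, ← Real.exp_add]
    exact Real.exp_le_one_iff.2 (by linarith)
  have a4 : Real.exp (-1) ≤ th J * u := by
    rw [th]
    nth_rewrite 1 [← Real.exp_log hu0]
    rw [← Real.exp_add]
    exact Real.exp_le_exp.2 (by linarith)
  have a5 : Real.exp (3 * Real.pi * u / 4) * Real.exp (-1) / 2 ≤
      Real.cosh ((3 * Real.pi / 4 - th J) * u) := by
    refine le_trans ?_ (s9_low _ _)
    gcongr
  have a6 : 0 ≤ β J := le_trans (by positivity) a1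
  have a7 := om_pos J
  have a8 := th_pos J
  have e : (Real.exp 2)⁻¹ = Real.exp (-1) * Real.exp (-1) := by
    rw [← Real.exp_add, ← Real.exp_neg]; norm_num
  calc _ = δ / (2 + Real.log u) ^ r * Real.exp √(Real.log u) *
        (Real.exp (-1) * u * (Real.exp (3 * Real.pi * u / 4) * Real.exp (-1) / 2)) := by
        rw [div_eq_mul_inv δ (2 * _), mul_inv, e]
        ring
    _ ≤ β J * om J * (th J * u * u * Real.cosh ((3 * Real.pi / 4 - th J) * u)) := by gcongr
    _ = _ := by ring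

theorem st9 : St9 := by
  intro β B δ j₀ r hB hδ hβ
  have hB0 : 0 ≤ B := (abs_nonneg _).trans (hB 0)
  obtain ⟨C, hC1, hC⟩ := poly_exp_le (r + 2) (th_pos j₀)
  obtain ⟨K, hK⟩ : ∃ K : ℝ, K = ∑ j ∈ Finset.range j₀, om j * th j := ⟨_, rfl⟩
  have hK0 : 0 ≤ K := hK ▸ Finset.sum_nonneg fun j _ => (mul_pos (om_pos j) (th_pos j)).le
  obtain ⟨c, hc⟩ : ∃ c : ℝ, c = δ / (2 * Real.exp 2) / 2 := ⟨_, rfl⟩
  have hc0 : 0 < c := by rw [hc]; positivity
  refine ⟨c, max (Real.exp j₀) (B * K * C / c), hc0, fun t ht => ?_⟩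
  obtain ⟨u, hu⟩ : ∃ u : ℝ, u = |t| := ⟨_, rfl⟩
  rw [← hu] at ht ⊢
  have t1 : Real.exp j₀ ≤ u := (le_max_left _ _).trans ht
  have t2 : B * K * C / c ≤ u := (le_max_right _ _).trans ht
  have hu1 : 1 ≤ u := (Real.one_le_exp (Nat.cast_nonneg _)).trans t1
  have hu0 : 0 < u := by linarith
  have hL : 0 ≤ Real.log u := Real.log_nonneg hu1
  have hL0 : (j₀ : ℝ) ≤ Real.log u := (Real.le_log_iff_exp_le hu0).2 t1
  obtain ⟨a, ha⟩ : ∃ a : ℕ → ℝ, a = fun j =>
    β j * om j * (th j * u ^ 2 * Real.cosh ((3 * Real.pi / 4 - th j) * u)) := ⟨_, rfl⟩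
  have e : etaS β (1 / 2 + t * I) = ((∑' j, a j : ℝ) : ℂ) := by
    rw [etaS, ofReal_tsum]
    refine tsum_congr fun j => ?_
    rw [eta_line, ← ofReal_mul, s9_cosh, ← sq_abs t, ← hu, ha]
  have hE : 0 ≤ B * (u ^ 2 * Real.exp (3 * Real.pi * u / 4)) := by positivity
  have hab : ∀ j, |a j| ≤ B * (u ^ 2 * Real.exp (3 * Real.pi * u / 4)) * (om j * th j) *
      Real.exp (-(th j * u)) := fun j => by
    rw [ha]
    exact s9_abs hB hu0.le j
  have hs : Summable a := by
    refine Summable.of_norm_bounded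
      (s9_sum.mul_left (B * (u ^ 2 * Real.exp (3 * Real.pi * u / 4)))) fun j => ?_
    refine (hab j).trans (mul_le_of_le_one_right
      (mul_nonneg hE (mul_pos (om_pos j) (th_pos j)).le) (Real.exp_le_one_iff.2 ?_))
    have := mul_pos (th_pos j) hu0
    linarith
  have hpos : ∀ j, j₀ ≤ j → 0 ≤ a j := fun j hj => by
    have h1 : 0 ≤ β j := le_trans (by positivity) (hβ j hj)
    have h2 := om_pos j
    have h3 := th_pos j
    have h4 := Real.cosh_pos ((3 * Real.pi / 4 - th j) * u)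
    rw [ha]
    positivity
  have hJ : j₀ ≤ ⌈Real.log u⌉₊ := by
    have := hL0.trans (Nat.le_ceil (Real.log u))
    exact_mod_cast this
  have m1 : 2 * c * (u * Real.exp (3 * Real.pi * u / 4) * Real.exp √(Real.log u) /
      (2 + Real.log u) ^ r) ≤ a ⌈Real.log u⌉₊ := by
    have h := s9_main (r := r) hδ hu1 (hβ _ hJ) (Nat.le_ceil _) (Nat.ceil_lt_add_one hL).le
    rw [ha, show 2 * c = δ / (2 * Real.exp 2) by rw [hc]; ring]
    exact h
  have m2 : a ⌈Real.log u⌉₊ ≤ ∑' j, a (j + j₀) := by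
    have h := ((summable_nat_add_iff j₀).2 hs).le_tsum (⌈Real.log u⌉₊ - j₀)
      fun j _ => hpos _ (Nat.le_add_left _ _)
    rwa [Nat.sub_add_cancel hJ] at h
  have m3 : |∑ j ∈ Finset.range j₀, a j| ≤
      B * (u ^ 2 * Real.exp (3 * Real.pi * u / 4)) * K * Real.exp (-(th j₀ * u)) := by
    refine (Finset.abs_sum_le_sum_abs _ _).trans ?_
    rw [hK, Finset.mul_sum, Finset.sum_mul]
    refine Finset.sum_le_sum fun j hj => (hab j).trans ?_
    have h1 : th j₀ ≤ th j := by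
      have : (j : ℝ) ≤ j₀ := by exact_mod_cast (Finset.mem_range.1 hj).le
      exact Real.exp_le_exp.2 (by linarith)
    refine mul_le_mul_of_nonneg_left (Real.exp_le_exp.2 ?_)
      (mul_nonneg hE (mul_pos (om_pos j) (th_pos j)).le)
    nlinarith
  have m4 : B * (u ^ 2 * Real.exp (3 * Real.pi * u / 4)) * K * Real.exp (-(th j₀ * u)) ≤
      c * (u * Real.exp (3 * Real.pi * u / 4) * Real.exp √(Real.log u) /
        (2 + Real.log u) ^ r) := by
    have h1 : (2 + Real.log u) ^ r ≤ (1 + u) ^ r :=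
      pow_le_pow_left₀ (by positivity) (by linarith [Real.log_le_sub_one_of_pos hu0]) r
    have h2 : 1 ≤ Real.exp √(Real.log u) := Real.one_le_exp (Real.sqrt_nonneg _)
    have h3 := hC u hu0.le
    have h4 : B * K * C ≤ u * c := (div_le_iff₀ hc0).1 t2
    have h5 := Real.exp_pos (-(th j₀ * u))
    have h6 : u * u * ((2 + Real.log u) ^ r * Real.exp (-(th j₀ * u))) ≤ C := by
      refine le_trans ?_ h3
      rw [pow_add]
      calc _ ≤ (1 + u) * (1 + u) * ((1 + u) ^ r * Real.exp (-(th j₀ * u))) := by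
            gcongr <;> linarith
        _ = _ := by ring
    have h7 : B * K * (u * ((2 + Real.log u) ^ r * Real.exp (-(th j₀ * u)))) ≤ c := by
      refine le_of_mul_le_mul_left ?_ hu0
      calc _ = B * K * (u * u * ((2 + Real.log u) ^ r * Real.exp (-(th j₀ * u)))) := by ring
        _ ≤ B * K * C := by gcongr
        _ ≤ _ := h4
    rw [← mul_div_assoc, le_div_iff₀ (by positivity)]
    calc _ = B * K * (u * ((2 + Real.log u) ^ r * Real.exp (-(th j₀ * u)))) *
          (u * Real.exp (3 * Real.pi * u / 4) * 1) := by ring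
      _ ≤ _ := by gcongr
  rw [e, norm_real, Real.norm_eq_abs, ← hs.sum_add_tsum_nat_add j₀]
  refine le_trans ?_ (le_abs_self _)
  have m5 := neg_abs_le (∑ j ∈ Finset.range j₀, a j)
  calc _ = c * (u * Real.exp (3 * Real.pi * u / 4) * Real.exp √(Real.log u) /
        (2 + Real.log u) ^ r) := by ring
    _ ≤ _ := by linarith

end Pool.Agent.Bar58
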