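import Pool.Agent.Lib.MP_d79f69_nt.Bar.FGD
import Pool.Agent.Lib.MP_d79f69_nt.Bar.FGL
import Pool.Agent.Lib.MP_d79f69_nt.Bar.FGV
import Pool.Agent.Lib.MP_d79f69_nt.Bar.FMC
import Pool.Agent.Lib.MP_d79f69_nt.Bar.FShift
import Pool.Agent.Lib.MP_d79f69_nt.Bar.FMI
import Pool.Agent.Lib.MP_d79f69_nt.Bar.FTest
import Pool.Agent.Lib.MP_d79f69_nt.Bar.FG0
import Pool.Agent.Lib.MP_d79f69_nt.Bar.FGX
import Pool.Agent.Lib.MP_d79f69_nt.Bar.FCp
import Pool.Agent.Lib.MP_d79f69_nt.Bar.FDec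
import Pool.Agent.Lib.MP_d79f69_nt.Bar.FTri
import Pool.Agent.Lib.MP_d79f69_nt.Bar.FUpC
import Pool.Agent.Lib.MP_d79f69_nt.Bar.FUp1
import Pool.Agent.Lib.MP_d79f69_nt.Bar.FUpA
import Pool.Agent.Lib.MP_d79f69_nt.Bar.FUpB
import Pool.Agent.Lib.MP_d79f69_nt.Bar.FCB
import Pool.Agent.Lib.MP_d79f69_nt.Bar.FKern
import Pool.Agent.Lib.MP_d79f69_nt.Bar.FDB
import Pool.Agent.Lib.MP_d79f69_nt.Bar.FOpT
import Pool.Agent.Lib.MP_d79f69_nt.Bar.FOpN
import Pool.Agent.Lib.MP_d79f69_nt.Bar.FSum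
import Pool.Agent.Lib.MP_d79f69_nt.Bar.FUN
import Pool.Agent.Lib.MP_d79f69_nt.Bar.FOpB1
import Pool.Agent.Lib.MP_d79f69_nt.Bar.FOpB2
import Pool.Agent.Lib.MP_d79f69_nt.Bar.FOpD
import Pool.Agent.Lib.MP_d79f69_nt.Bar.FBan
import Pool.Agent.Lib.MP_d79f69_nt.Bar.FNet
import Pool.Agent.Lib.MP_d79f69_nt.Bar.FFr
import Pool.Agent.Lib.MP_d79f69_nt.Bar.FSolve
import Pool.Agent.Lib.MP_d79f69_nt.Bar.FGP
import Pool.Agent.Lib.MP_d79f69_nt.Bar.FP1
import Pool.Agent.Lib.MP_d79f69_nt.Bar.FP2a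
import Pool.Agent.Lib.MP_d79f69_nt.Bar.FP2
import Pool.Agent.Lib.MP_d79f69_nt.Bar.FPoly
import Pool.Agent.Lib.MP_d79f69_nt.Bar.FFix
import Pool.Agent.Lib.MP_d79f69_nt.Bar.FStr
import Pool.Agent.Lib.MP_d79f69_nt.Bar.FPair
import Pool.Agent.Lib.MP_d79f69_nt.Bar.FK2
import Pool.Agent.Lib.MP_d79f69_nt.Bar.FP4a
import Pool.Agent.Lib.MP_d79f69_nt.Bar.FP3
import Pool.Agent.Lib.MP_d79f69_nt.Bar.FP4b
import Pool.Agent.Lib.MP_d79f69_nt.Bar.FSym
import Pool.Agent.Lib.MP_d79f69_nt.Bar.FUA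
import Pool.Agent.Lib.MP_d79f69_nt.Bar.S7n
import Pool.Agent.Lib.MP_d79f69_nt.Bar.FFub
import Pool.Agent.Lib.MP_d79f69_nt.Bar.S7b
import Pool.Agent.Lib.MP_d79f69_nt.Bar.S7c
import Pool.Agent.Lib.MP_d79f69_nt.Bar.FLine
import Pool.Agent.Lib.MP_d79f69_nt.Bar.S7d
import Pool.Agent.Lib.MP_d79f69_nt.Bar.S8s
import Pool.Agent.Lib.MP_d79f69_nt.Bar.S8a
import Pool.Agent.Lib.MP_d79f69_nt.Bar.S8b
import Pool.Agent.Lib.MP_d79f69_nt.Bar.S8c
import Pool.Agent.Lib.MP_d79f69_nt.Bar.S8d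
import Pool.Agent.Lib.MP_d79f69_nt.Bar.S8
import Pool.Agent.Lib.MP_d79f69_nt.Bar.S9
import Pool.Agent.Lib.MP_d79f69_nt.Bar.FCmp
import Pool.Agent.Lib.MP_d79f69_nt.Bar.FMain

set_option autoImplicit false

namespace Pool.Agent.Bar58

theorem main : StMain := by
  have hGD : StGD := stGD
  have hGL : StGL := stGL hGD
  have hGV : StGV := stGV hGD
  have hMC : StMC := stMC
  have hShift : StShift := stShift
  have hMI : StMI := stMI hShift
  have hTest : StTest := stTest hGD hGV hMC hShift hMI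
  have hG0 : StG0 := stG0
  have hGX : StGX := stGX hG0 hGD
  have hCp : StCp := stCp
  have hDec : StDec := stDec hCp
  have hTri : StTri := stTri
  have hUpC : StUpC := stUpC
  have hUp1 : StUp1 := stUp1 hTri hDec hUpC
  have hUpA : StUpA := stUpA
  have hUpB : StUpB := stUpB
  have hCB : StCB := stCB hCp hDec hUp1 hUpA hUpB hUpC
  have hKern : StKern := stKern hGD hGX hDec hCB hMC
  have hDB : StDB := stDB
  have hOpT : StOpT := stOpT hDB
  have hOpN : StOpN := stOpN hOpT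
  have hSum : StSum := stSum
  have hUN : StUN := stUN
  have hOpB1 : StOpB1 := stOpB1 hSum hUN hOpT hOpN
  have hOpB2 : StOpB2 := stOpB2 hUN hOpT hOpN
  have hOpD : StOpD := stOpD hOpN
  have hBan : StBan := stBan
  have hNet : StNet := stNet
  have hFr : StFr := stFr
  have hSolve : StSolve := stSolve hOpN hOpB1 hOpB2 hOpD hBan hNet hFr
  have hGP : StGP := stGP hG0 hGD
  have hP1 : StP1 := stP1 hGD hGP hDec hCB hMC
  have hP2a : StP2a := stP2a
  have hP2 : StP2 := stP2 hP1 hP2a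
  have hPoly : StPoly := stPoly
  have hFix : StFix := stFix hKern hOpN hSolve hP2 hPoly
  have hStr : StStr := stStr hTri
  have hPair : StPair := stPair hTest
  have hK2 : StK2 := stK2 hGD hGX hGV hDec hMC hStr hTest hPair
  have hP4a : StP4a := stP4a hGD hGV hP2a
  have hP3 : StP3 := stP3 hGD hGP hGV hDec hStr hPair
  have hP4b : StP4b := stP4b hGD hGV hTest hP1 hP2a hP3
  have hSym : StSym := stSym hShift hMI
  have hUA : StUA := stUA hUN
  have h7n : St7n := st7n hUA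
  have hFub : StFub := stFub
  have h7b : St7b := st7b hFub hOpT
  have h7c : St7c := st7c hFub hDB
  have hLine : StLine := stLine hKern hTest hK2 hP2 hP4a hP4b hSym h7n h7b h7c
  have h7d : St7d := st7d
  have h8s : St8s := st8s
  have h8a : St8a := st8a h8s
  have h8b : St8b := st8b hSum h8a
  have h8c : St8c := st8c
  have h8d : St8d := st8d hSum hDB
  have h8 : St8 := st8 hUN h8b h8c h8d
  have h9 : St9 := st9
  have hCmp : StCmp := stCmp
  exact stMain hGD hGL hTest hFix hLine h7d h8 h9 hCmp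

end Pool.Agent.Bar58
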