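import Pool.Agent.Lib.MP_d79f69_nt.Bar.Defs

set_option autoImplicit false

namespace Pool.Agent.Bar58

open Complex MeasureTheory Set Filter Topology
open scoped ComplexConjugate

theorem ten_le_HH (ν : Fin 3 → ℝ) : 10 ≤ HH ν := by
  have h : 0 ≤ ∑ j, |ν j| := Finset.sum_nonneg fun j _ => abs_nonneg _
  unfold HH
  linarith

theorem HH_neg (ν : Fin 3 → ℝ) : HH (-ν) = HH ν := by
  simp [HH]

theorem abs_le_HH (ν : Fin 3 → ℝ) (j : Fin 3) : 10 + 10 * |ν j| ≤ HH ν := by
  have h : |ν j| ≤ ∑ j, |ν j| :=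
    Finset.single_le_sum (f := fun j => |ν j|) (fun j _ => abs_nonneg _) (Finset.mem_univ j)
  unfold HH
  linarith

theorem isOpen_Dom (H : ℝ) : IsOpen (Dom H) := by
  have h1 : IsOpen {s : ℂ | 0 < s.re} := isOpen_lt continuous_const Complex.continuous_re
  have h2 : IsOpen {s : ℂ | H - 1 < |s.im|} :=
    isOpen_lt continuous_const Complex.continuous_im.abs
  exact h1.union h2

theorem cs_re (H t : ℝ) : (cs H t).re = max (-20) (1 / 3 - max (|t| - H) 0 / 2) := by
  simp [cs]

theorem cs_im (H t : ℝ) : (cs H t).im = t := by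
  simp [cs]

theorem cs_re_mem (H t : ℝ) : -20 ≤ (cs H t).re ∧ (cs H t).re ≤ 1 / 3 := by
  rw [cs_re]
  refine ⟨le_max_left _ _, max_le (by norm_num) ?_⟩
  have h : 0 ≤ max (|t| - H) 0 := le_max_right _ _
  linarith

theorem abs_cs_re (H t : ℝ) : |(cs H t).re| ≤ 20 := by
  obtain ⟨h1, h2⟩ := cs_re_mem H t
  rw [abs_le]
  constructor <;> linarith

theorem norm_cs_le (H t : ℝ) : ‖cs H t‖ ≤ 21 * (1 + |t|) := by
  have h1 := Complex.norm_le_abs_re_add_abs_im (cs H t)
  have h2 := abs_cs_re H t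
  rw [cs_im] at h1
  have h3 := abs_nonneg t
  linarith

theorem continuous_cs (H : ℝ) : Continuous (cs H) := by
  unfold cs
  fun_prop

theorem cs_mem_Dom (H t : ℝ) : cs H t ∈ Dom H := by
  show 0 < (cs H t).re ∨ H - 1 < |(cs H t).im|
  rw [cs_re, cs_im]
  by_cases h : |t| ≤ H
  · left
    rw [max_eq_right (by linarith : |t| - H ≤ 0)]
    exact lt_max_of_lt_right (by norm_num)
  · right
    linarith [not_le.mp h]

theorem cs_mid {H t : ℝ} (h : |t| ≤ H) : cs H t = 1 / 3 + t * I ∧ cd H t = I := by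
  constructor
  · unfold cs
    rw [max_eq_right (by linarith : |t| - H ≤ 0), max_eq_right (by norm_num)]
    push_cast
    ring
  · unfold cd
    rw [if_neg]
    rintro ⟨h1, _⟩
    linarith

theorem cs_slant {H t : ℝ} (hH : 0 ≤ H) (h1 : H ≤ t) (h2 : t ≤ H + 122 / 3) :
    cs H t = 1 / 3 + H * I + (t - H) * (-1 / 2 + I) := by
  unfold cs
  rw [abs_of_nonneg (by linarith : 0 ≤ t), max_eq_left (by linarith : 0 ≤ t - H),
    max_eq_right (by linarith)]
  push_cast
  ring

theorem cd_slant {H t : ℝ} (hH : 0 ≤ H) (h1 : H < t) (h2 : t < H + 122 / 3) :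
    cd H t = -1 / 2 + I := by
  unfold cd
  have ht : 0 < t := by linarith
  rw [abs_of_pos ht, if_pos ⟨h1, h2⟩, if_pos ht]

theorem cs_end {H t : ℝ} (h : H + 122 / 3 ≤ |t|) : cs H t = -20 + t * I ∧ cd H t = I := by
  constructor
  · unfold cs
    rw [max_eq_left (by linarith : 0 ≤ |t| - H), max_eq_left (by linarith)]
    push_cast
    ring
  · unfold cd
    rw [if_neg]
    rintro ⟨_, h2⟩
    linarith

theorem cs_neg (H t : ℝ) : cs H (-t) = conj (cs H t) := by
  apply Complex.ext
  · rw [Complex.conj_re, cs_re, cs_re, abs_neg]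
  · rw [Complex.conj_im, cs_im, cs_im]

theorem cd_neg {H : ℝ} (hH : 0 ≤ H) (t : ℝ) : cd H (-t) = -conj (cd H t) := by
  unfold cd
  rw [abs_neg]
  by_cases h : H < |t| ∧ |t| < H + 122 / 3
  · rw [if_pos h, if_pos h]
    have ht : t ≠ 0 := by
      rintro rfl
      have h1 := h.1
      rw [abs_zero] at h1
      linarith
    rcases lt_or_gt_of_ne ht with h1 | h1
    · rw [if_pos (by linarith : 0 < -t), if_neg (by linarith : ¬ 0 < t)]
      apply Complex.ext <;> simp
      norm_num
    · rw [if_neg (by linarith : ¬ 0 < -t), if_pos h1]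
      rw [map_add, map_div₀, map_neg, map_one, Complex.conj_I, map_ofNat]
      ring
  · rw [if_neg h, if_neg h]
    simp

theorem measurable_cd (H : ℝ) : Measurable (cd H) := by
  unfold cd
  have h1 : MeasurableSet {t : ℝ | H < |t| ∧ |t| < H + 122 / 3} :=
    (measurableSet_lt measurable_const continuous_abs.measurable).inter
      (measurableSet_lt continuous_abs.measurable measurable_const)
  have h2 : MeasurableSet {t : ℝ | 0 < t} := measurableSet_Ioi
  exact Measurable.ite h1
    ((Measurable.ite h2 measurable_const measurable_const).add measurable_const) measurable_const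

theorem norm_cd_le (H t : ℝ) : ‖cd H t‖ ≤ 2 := by
  unfold cd
  split_ifs
  · refine (norm_add_le _ _).trans ?_
    simp
    norm_num
  · refine (norm_add_le _ _).trans ?_
    simp
    norm_num
  · simp

theorem seg_eq (f : ℂ → ℂ) (z d : ℂ) (a b : ℝ) :
    ∫ t in a..b, f (z + t * d) * d = seg f (z + a * d) (z + b * d) := by
  unfold seg
  have h := intervalIntegral.smul_integral_comp_mul_add (a := 0) (b := 1)
    (f := fun t : ℝ => f (z + t * d) * d) (b - a) a
  simp only [mul_zero, zero_add, mul_one, sub_add_cancel] at h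
  rw [← h, ← intervalIntegral.integral_smul]
  refine intervalIntegral.integral_congr fun τ _ => ?_
  simp only [Complex.real_smul]
  push_cast
  have e : z + ((b - a) * τ + a) * d = z + a * d + τ * (z + b * d - (z + a * d)) := by ring
  rw [e]
  ring

theorem SB.sharp {κ p θ M t0 H : ℝ} {f : ℂ → ℂ} (h : SB κ p θ M t0 H f) :
    SB κ p θ M t0 H fun s => conj (f (conj s)) := by
  intro σ t h1 h2
  have h3 := h σ (-t) (by rwa [abs_neg]) (by rwa [abs_neg])
  have e : conj ((σ : ℂ) + t * I) = σ + ((-t : ℝ) : ℂ) * I := by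
    simp
  have e2 : ‖(σ : ℂ) + ((-t : ℝ) : ℂ) * I‖ = ‖(σ : ℂ) + t * I‖ := by
    rw [← e, Complex.norm_conj]
  rw [e2, abs_neg, neg_sq] at h3
  show ‖conj (f (conj ((σ : ℂ) + t * I)))‖ ≤ _
  rw [Complex.norm_conj, e]
  exact h3

theorem diffOn_sharp {f : ℂ → ℂ} {S : Set ℂ} (hS : IsOpen S) (hc : ∀ s ∈ S, conj s ∈ S)
    (h : DifferentiableOn ℂ f S) : DifferentiableOn ℂ (fun s => conj (f (conj s))) S := by
  intro s hs
  have h1 : DifferentiableAt ℂ f (conj s) := h.differentiableAt (hS.mem_nhds (hc s hs))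
  have h2 := h1.conj_conj
  rw [Complex.conj_conj] at h2
  exact h2.differentiableWithinAt

end Pool.Agent.Bar58
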