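import Pool.Agent.Lib.MP_d79f69_nt.Bar.Defs

set_option autoImplicit false

namespace Pool.Agent.Bar58

open Complex MeasureTheory Set Filter Topology
open scoped ComplexConjugate

theorem differentiable_ff (i : ℕ) : Differentiable ℂ (ff i) := by
  unfold ff
  fun_prop

theorem ff_conj (i : ℕ) (s : ℂ) : conj (ff i s) = ff i (conj s) := by
  simp [ff]

theorem norm_ff_le (i : ℕ) (s : ℂ) : ‖ff i s‖ ≤ (‖s‖ + i) ^ i := by
  unfold ff
  rw [norm_prod]
  refine (Finset.prod_le_prod (g := fun _ => ‖s‖ + i) (fun _ _ => norm_nonneg _)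
    fun l hl => ?_).trans_eq (by rw [Finset.prod_const, Finset.card_range])
  have h : (l : ℝ) ≤ i := by exact_mod_cast (Finset.mem_range.1 hl).le
  refine (norm_sub_le _ _).trans ?_
  rw [norm_neg, Complex.norm_natCast]
  linarith

theorem mono_zero (s : ℂ) (x : ℝ) : mono 0 s x = (x : ℂ) ^ (-s) := by
  simp [mono, ff]

theorem mono_eq (i : ℕ) (s : ℂ) {x : ℝ} (hx : 0 < x) :
    mono i s x = ((x ^ (-(i : ℝ)) : ℝ) : ℂ) * (ff i s * (x : ℂ) ^ (-s)) := by
  have h : (x : ℂ) ≠ 0 := ofReal_ne_zero.2 hx.ne'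
  rw [mono, sub_eq_add_neg, cpow_add _ _ h, ofReal_cpow hx.le]
  push_cast
  ring

theorem norm_mono (i : ℕ) (s : ℂ) {x : ℝ} (hx : 0 < x) :
    ‖mono i s x‖ = ‖ff i s‖ * x ^ (-s.re - i) := by
  rw [mono, norm_mul, norm_cpow_eq_rpow_re_of_pos hx]
  simp

theorem mono_chain (J : ℕ) (s : ℂ) : Chain J fun i x => mono i s x := by
  intro i _ x hx
  have h : (x : ℂ) ≠ 0 := ofReal_ne_zero.2 hx.ne'
  have h1 : HasDerivAt (fun z : ℂ => z ^ (-s - i)) ((-s - i) * (x : ℂ) ^ (-s - i - 1) * 1) x :=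
    (hasDerivAt_id (x : ℂ)).cpow_const (ofReal_mem_slitPlane.2 hx)
  have h2 := h1.comp_ofReal.const_mul (ff i s)
  refine h2.congr_deriv ?_
  simp only [mono, ff, Finset.prod_range_succ]
  push_cast
  rw [show -s - ((i : ℂ) + 1) = -s - i - 1 by ring]
  ring

theorem differentiable_eta (θ : ℝ) : Differentiable ℂ (eta θ) := by
  unfold eta
  fun_prop

theorem eta_symm (θ : ℝ) (w : ℂ) : eta θ (1 - w) = eta θ w := by
  unfold eta
  rw [show (1 - w - 1 / 2 : ℂ) = -(w - 1 / 2) by ring, mul_neg, Complex.cos_neg, neg_sq]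

theorem eta_conj (θ : ℝ) (w : ℂ) : conj (eta θ w) = eta θ (conj w) := by
  unfold eta
  rw [map_mul, ← Complex.cos_conj]
  simp only [map_mul, map_neg, map_pow, map_sub, map_div₀, map_one, map_ofNat, conj_ofReal]

theorem norm_cos_le (z : ℂ) : ‖Complex.cos z‖ ≤ Real.exp |z.im| := by
  have h1 : ‖cexp (z * I)‖ ≤ Real.exp |z.im| := by
    rw [norm_exp]
    exact Real.exp_le_exp.2 (by simpa using neg_le_abs z.im)
  have h2 : ‖cexp (-z * I)‖ ≤ Real.exp |z.im| := by
    rw [norm_exp]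
    exact Real.exp_le_exp.2 (by simpa using le_abs_self z.im)
  have h3 := norm_add_le (cexp (z * I)) (cexp (-z * I))
  rw [Complex.cos, norm_div, Complex.norm_ofNat]
  linarith

theorem norm_eta_le {θ : ℝ} (h0 : 0 ≤ θ) (h1 : θ ≤ 1) (w : ℂ) :
    ‖eta θ w‖ ≤ θ * ‖w - 1 / 2‖ ^ 2 * Real.exp ((3 * Real.pi / 4 - θ) * |w.im|) := by
  have hp : 0 ≤ 3 * Real.pi / 4 - θ := by linarith [Real.pi_gt_three]
  have h := norm_cos_le ((3 * Real.pi / 4 - θ) * (w - 1 / 2))
  have e : ((3 * (Real.pi : ℂ) / 4 - θ) * (w - 1 / 2)).im = (3 * Real.pi / 4 - θ) * w.im := by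
    rw [show (3 * (Real.pi : ℂ) / 4 - θ) = ((3 * Real.pi / 4 - θ : ℝ) : ℂ) by push_cast; ring,
      im_ofReal_mul]
    simp
  rw [e, abs_mul, abs_of_nonneg hp] at h
  rw [eta, norm_mul, norm_mul, norm_neg, norm_pow, Complex.norm_real, Real.norm_of_nonneg h0]
  exact mul_le_mul_of_nonneg_left h (by positivity)

theorem eta_line (θ t : ℝ) :
    eta θ (1 / 2 + t * I) = ((θ * t ^ 2 * Real.cosh ((3 * Real.pi / 4 - θ) * t) : ℝ) : ℂ) := by
  rw [eta, show (1 / 2 + t * I - 1 / 2 : ℂ) = t * I by ring, ← mul_assoc, Complex.cos_mul_I, mul_pow,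
    I_sq]
  push_cast
  ring

theorem th_pos (j : ℕ) : 0 < th j := Real.exp_pos _

theorem th_le_one (j : ℕ) : th j ≤ 1 := by
  exact Real.exp_le_one_iff.2 (neg_nonpos.2 (Nat.cast_nonneg j))

theorem om_pos (j : ℕ) : 0 < om j := Real.exp_pos _

theorem Dec.integrable {m : ℕ} {φ : ℝ → ℂ} (h : Dec m φ) : Integrable φ := by
  refine h.2.mono' h.1 (Eventually.of_forall fun t => ?_)
  exact le_mul_of_one_le_left (norm_nonneg _) (one_le_pow₀ (by linarith [abs_nonneg t]))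

theorem Dec.mono {m m' : ℕ} {φ : ℝ → ℂ} (h : Dec m φ) (hm : m' ≤ m) : Dec m' φ := by
  refine ⟨h.1, h.2.mono' ?_ (Eventually.of_forall fun t => ?_)⟩
  · exact (Continuous.aestronglyMeasurable (by fun_prop)).mul h.1.norm
  · rw [Real.norm_of_nonneg (by positivity)]
    exact mul_le_mul_of_nonneg_right (pow_le_pow_right₀ (by linarith [abs_nonneg t]) hm)
      (norm_nonneg _)

theorem poly_exp_le (m : ℕ) {c : ℝ} (hc : 0 < c) : ∃ C : ℝ, 1 ≤ C ∧ ∀ u : ℝ, 0 ≤ u →
    (1 + u) ^ m * Real.exp (-(c * u)) ≤ C := by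
  refine ⟨max 1 (m.factorial / c ^ m * Real.exp c), le_max_left _ _, fun u hu => ?_⟩
  refine le_trans ?_ (le_max_right _ _)
  have h := Real.pow_div_factorial_le_exp (c * (1 + u)) (by positivity) m
  have hf : (0 : ℝ) < m.factorial := by exact_mod_cast m.factorial_pos
  rw [div_le_iff₀ hf, mul_pow, mul_add, mul_one, Real.exp_add] at h
  rw [Real.exp_neg, ← div_eq_mul_inv, div_le_iff₀ (Real.exp_pos _), div_mul_eq_mul_div,
    div_mul_eq_mul_div, le_div_iff₀ (by positivity)]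
  linarith

theorem integrable_exp_abs : Integrable fun t : ℝ => Real.exp (-|t|) := by
  rw [← integrableOn_univ, ← Iic_union_Ioi (a := (0 : ℝ)), integrableOn_union]
  constructor
  · refine (integrableOn_exp_Iic 0).congr_fun (fun x hx => ?_) measurableSet_Iic
    simp only [abs_of_nonpos (mem_Iic.1 hx), neg_neg]
  · refine (integrableOn_exp_neg_Ioi 0).congr_fun (fun x hx => ?_) measurableSet_Ioi
    simp only [abs_of_pos (mem_Ioi.1 hx)]

theorem mellinInv_eq (σ : ℝ) (h : ℂ → ℂ) (r : ℝ) : mellinInv σ h r =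
    1 / (2 * Real.pi) * ∫ t : ℝ, h (σ + t * I) * (r : ℂ) ^ (-((σ : ℂ) + t * I)) := by
  rw [mellinInv, real_smul]
  simp only [smul_eq_mul, mul_comm (h _)]
  push_cast
  rfl

theorem norm_mellinInv_le {σ C : ℝ} {h : ℂ → ℂ}
    (hb : ∀ t : ℝ, ‖h (σ + t * I)‖ ≤ C * Real.exp (-|t|)) {r : ℝ} (hr : 0 < r) :
    ‖mellinInv σ h r‖ ≤ C * r ^ (-σ) := by
  have hC : 0 ≤ C := by
    have := (norm_nonneg _).trans (hb 0)
    simpa using this
  have h1 : ‖∫ t : ℝ, h (σ + t * I) * (r : ℂ) ^ (-((σ : ℂ) + t * I))‖ ≤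
      ∫ t : ℝ, C * r ^ (-σ) * Real.exp (-|t|) := by
    refine norm_integral_le_of_norm_le (integrable_exp_abs.const_mul _)
      (Eventually.of_forall fun t => ?_)
    rw [norm_mul, norm_cpow_eq_rpow_re_of_pos hr, show (-((σ : ℂ) + t * I)).re = -σ by simp,
      mul_right_comm]
    exact mul_le_mul_of_nonneg_right (hb t) (by positivity)
  rw [integral_const_mul, integral_comp_abs (f := fun x => Real.exp (-x)),
    integral_exp_neg_Ioi_zero] at h1
  have h2 : ‖(1 / (2 * Real.pi) : ℂ)‖ ≤ 1 / 2 := by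
    rw [norm_div, norm_one, norm_mul, Complex.norm_ofNat, Complex.norm_real,
      Real.norm_of_nonneg Real.pi_pos.le]
    exact one_div_le_one_div_of_le two_pos (by linarith [Real.pi_gt_three])
  rw [mellinInv_eq, norm_mul]
  refine (mul_le_mul h2 h1 (norm_nonneg _) (by norm_num)).trans_eq ?_
  ring

theorem continuousOn_mellinInv {σ C : ℝ} {h : ℂ → ℂ} (hc : Continuous fun t : ℝ => h (σ + t * I))
    (hb : ∀ t : ℝ, ‖h (σ + t * I)‖ ≤ C * Real.exp (-|t|)) :
    ContinuousOn (mellinInv σ h) (Ioi 0) := by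
  have hC : 0 ≤ C := by
    have := (norm_nonneg _).trans (hb 0)
    simpa using this
  intro r hr
  have hr0 : (0 : ℝ) < r := hr
  refine ContinuousAt.continuousWithinAt ?_
  have e : mellinInv σ h = fun r : ℝ =>
      1 / (2 * Real.pi) * ∫ t : ℝ, h (σ + t * I) * (r : ℂ) ^ (-((σ : ℂ) + t * I)) :=
    funext (mellinInv_eq σ h)
  rw [e]
  refine continuousAt_const.mul ?_
  have h1 : ∀ᶠ x : ℝ in 𝓝 r, 0 < x := lt_mem_nhds hr0
  have h2 : ∀ᶠ x : ℝ in 𝓝 r, x ^ (-σ) < r ^ (-σ) + 1 :=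
    (Real.continuousAt_rpow_const r (-σ) (Or.inl hr0.ne')).eventually_lt_const (lt_add_one _)
  refine continuousAt_of_dominated (bound := fun t => C * (r ^ (-σ) + 1) * Real.exp (-|t|))
    (h1.mono fun x hx => ?_) ?_ (integrable_exp_abs.const_mul _) (Eventually.of_forall fun t => ?_)
  · exact (hc.mul (Continuous.const_cpow (by fun_prop)
      (Or.inl (ofReal_ne_zero.2 hx.ne')))).aestronglyMeasurable
  · filter_upwards [h1, h2] with x hx hx'
    refine Eventually.of_forall fun t => ?_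
    rw [norm_mul, norm_cpow_eq_rpow_re_of_pos hx, show (-((σ : ℂ) + t * I)).re = -σ by simp,
      mul_right_comm]
    exact mul_le_mul (hb t) hx'.le (by positivity) (by positivity)
  · exact continuousAt_const.mul (continuousAt_ofReal_cpow_const r _ (Or.inr hr0.ne'))

end Pool.Agent.Bar58
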