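import Pool.Agent.Lib.MP_d79f69_nt.Bar.Defs

set_option autoImplicit false

namespace Pool.Agent.Bar58

open Complex MeasureTheory Set Filter Topology
open scoped ComplexConjugate

theorem sum_cc : ∑ m ∈ Finset.range 11, cc m = 1 := by
  simp only [cc, Finset.sum_Ico_eq_sum_range, Finset.sum_range_succ, Finset.sum_range_zero]
  norm_num [Nat.choose]

theorem bu_int {F G : ℝ → ℂ} (h : ∀ x : ℝ, 0 < x → F x = G x) {a b : ℝ} (ha : 0 ≤ a) (hb : 0 ≤ b) :
    ∫ x in a..b, F x = ∫ x in a..b, G x :=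
  intervalIntegral.integral_congr_ae (Eventually.of_forall fun x hx =>
    h x (lt_of_le_of_lt (le_min ha hb) hx.1))

theorem bu_conj (F : ℝ → ℂ) (a b : ℝ) : ∫ x in a..b, conj (F x) = conj (∫ x in a..b, F x) := by
  simp only [intervalIntegral, integral_conj, map_sub]

theorem DD_congr {F G : ℝ → ℂ} (h : ∀ x : ℝ, 0 < x → F x = G x) (n : ℕ) : DD F n = DD G n := by
  unfold DD
  rw [h _ (by positivity)]
  congr 1
  refine Finset.sum_congr rfl fun m _ => ?_
  rw [bu_int h (by positivity) (by positivity)]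

theorem B0_congr {F G : ℝ → ℂ} (h : ∀ x : ℝ, 0 < x → F x = G x) : B0 F = B0 G := by
  unfold B0
  refine Finset.sum_congr rfl fun m _ => ?_
  rw [bu_int h le_rfl (by positivity)]

theorem UU_congr {F G : ℝ → ℂ} (h : ∀ x : ℝ, 0 < x → F x = G x) : UU F = UU G := by
  unfold UU
  rw [B0_congr h, tsum_congr (DD_congr h)]

theorem Nice.congr {F G : ℝ → ℂ} (hF : Nice F) (h : ∀ x : ℝ, 0 < x → F x = G x) : Nice G := by
  refine ⟨fun X hX => ?_, hF.sum.congr fun n => by rw [DD_congr h]⟩
  refine (hF.int X hX).congr fun x hx => h x ?_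
  rw [uIoc_of_le hX] at hx
  exact hx.1

theorem Nice.int' {F : ℝ → ℂ} (hF : Nice F) {a b : ℝ} (ha : 0 ≤ a) (hb : 0 ≤ b) :
    IntervalIntegrable F volume a b := (hF.int a ha).symm.trans (hF.int b hb)

theorem DD_const_mul (c : ℂ) (F : ℝ → ℂ) (n : ℕ) : DD (fun x => c * F x) n = c * DD F n := by
  unfold DD
  simp only [intervalIntegral.integral_const_mul, mul_sub, Finset.mul_sum, mul_left_comm c]

theorem UU_const_mul (c : ℂ) (F : ℝ → ℂ) : UU (fun x => c * F x) = c * UU F := by
  unfold UU B0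
  simp only [DD_const_mul, tsum_mul_left, intervalIntegral.integral_const_mul, mul_sub,
    Finset.mul_sum, mul_left_comm c]

theorem UU_conj (F : ℝ → ℂ) : UU (fun x => conj (F x)) = conj (UU F) := by
  unfold UU B0 DD
  simp only [map_sub, Complex.conj_tsum, map_sum, map_mul, conj_ofReal, bu_conj]

theorem Nice.const_mul {F : ℝ → ℂ} (hF : Nice F) (c : ℂ) : Nice fun x => c * F x := by
  refine ⟨fun X hX => (hF.int X hX).const_mul c, (hF.sum.mul_left ‖c‖).congr fun n => ?_⟩
  rw [DD_const_mul, norm_mul]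

theorem bu_DD_add {F G : ℝ → ℂ} (hF : Nice F) (hG : Nice G) (n : ℕ) :
    DD (fun x => F x + G x) n = DD F n + DD G n := by
  unfold DD
  rw [sub_add_sub_comm, ← Finset.sum_add_distrib]
  congr 1
  refine Finset.sum_congr rfl fun m _ => ?_
  rw [intervalIntegral.integral_add (hF.int' (by positivity) (by positivity))
    (hG.int' (by positivity) (by positivity)), mul_add]

theorem Nice.add {F G : ℝ → ℂ} (hF : Nice F) (hG : Nice G) : Nice fun x => F x + G x := by
  refine ⟨fun X hX => (hF.int X hX).add (hG.int X hX),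
    Summable.of_nonneg_of_le (fun _ => norm_nonneg _) (fun n => ?_) (hF.sum.add hG.sum)⟩
  rw [bu_DD_add hF hG]
  exact norm_add_le _ _

theorem UU_add {F G : ℝ → ℂ} (hF : Nice F) (hG : Nice G) :
    UU (fun x => F x + G x) = UU F + UU G := by
  have h : B0 (fun x => F x + G x) = B0 F + B0 G := by
    unfold B0
    rw [← Finset.sum_add_distrib]
    refine Finset.sum_congr rfl fun m _ => ?_
    rw [intervalIntegral.integral_add (hF.int _ (by positivity)) (hG.int _ (by positivity)), mul_add]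
  unfold UU
  rw [h, tsum_congr (bu_DD_add hF hG), hF.sum.of_norm.tsum_add hG.sum.of_norm]
  ring

theorem UU_sum {ι : Type} (S : Finset ι) {F : ι → ℝ → ℂ} (hF : ∀ i ∈ S, Nice (F i)) :
    (Nice fun x => ∑ i ∈ S, F i x) ∧ UU (fun x => ∑ i ∈ S, F i x) = ∑ i ∈ S, UU (F i) := by
  classical
  induction S using Finset.induction_on with
  | empty =>
    refine ⟨⟨fun X _ => by simp, ?_⟩, ?_⟩
    · simp [DD, summable_zero]
    · simp [UU, DD, B0]
  | insert a S ha ih =>
    have h1 := hF a (Finset.mem_insert_self a S)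
    obtain ⟨h2, h3⟩ := ih fun i hi => hF i (Finset.mem_insert_of_mem hi)
    simp only [Finset.sum_insert ha]
    exact ⟨h1.add h2, by rw [UU_add h1 h2, h3]⟩

end Pool.Agent.Bar58
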