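import Pool.Agent.Lib.MP_d79f69_nt.Bar.Defs

set_option autoImplicit false

namespace Pool.Agent.Bar58

open Complex MeasureTheory Set Filter Topology
open scoped ComplexConjugate

theorem W_pos (x : ℝ) : 0 < W x := Real.exp_pos _

theorem one_le_W (x : ℝ) : 1 ≤ W x := Real.one_le_exp (Real.sqrt_nonneg _)

theorem W_mono {x y : ℝ} (hx : 0 ≤ x) (h : x ≤ y) : W x ≤ W y := by
  unfold W
  apply Real.exp_le_exp.2
  apply Real.sqrt_le_sqrt
  have := Real.log_le_log (by linarith : (0:ℝ) < 1 + x) (by linarith : 1 + x ≤ 1 + y)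
  linarith

theorem W_one_le : W 1 ≤ 3 := by
  unfold W
  have h2 : Real.log (1 + 1) ≤ 1 := by
    have := Real.log_le_sub_one_of_pos (by norm_num : (0:ℝ) < 1 + 1)
    linarith
  have h3 : √(2 / 3 * Real.log (1 + 1)) ≤ 1 := Real.sqrt_le_one.2
    ((mul_le_mul_of_nonneg_left h2 (by norm_num)).trans (by norm_num))
  have h4 := Real.exp_le_exp.2 h3
  have h5 := Real.exp_one_lt_d9
  linarith

theorem W_mul_le {η : ℝ} (hη : 0 < η) : ∃ C : ℝ, 1 ≤ C ∧ ∀ l x : ℝ, 1 ≤ l → 0 ≤ x →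
    W (l * x) ≤ C * l ^ η * W x := by
  refine ⟨Real.exp (1 / (6 * η)), Real.one_le_exp (by positivity), fun l x hl hx => ?_⟩
  have hl0 : 0 < l := by linarith
  have hv : 0 ≤ Real.log l := Real.log_nonneg hl
  have hu : 0 ≤ Real.log (1 + x) := Real.log_nonneg (by linarith)
  have h1 : Real.log (1 + l * x) ≤ Real.log l + Real.log (1 + x) := by
    rw [← Real.log_mul hl0.ne' (by linarith)]
    exact Real.log_le_log (by positivity) (by nlinarith)
  have h2 : √(2 / 3 * Real.log l) ≤ η * Real.log l + 1 / (6 * η) := by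
    apply Real.sqrt_le_iff.2
    refine ⟨by positivity, ?_⟩
    have e : η * (1 / (6 * η)) = 1 / 6 := by field_simp
    nlinarith [sq_nonneg (η * Real.log l - 1 / (6 * η))]
  have h3 : √(2 / 3 * Real.log (1 + l * x)) ≤
      √(2 / 3 * Real.log l) + √(2 / 3 * Real.log (1 + x)) := by
    apply Real.sqrt_le_iff.2
    refine ⟨by positivity, ?_⟩
    have e1 := Real.sq_sqrt (show 0 ≤ 2 / 3 * Real.log l by positivity)
    have e2 := Real.sq_sqrt (show 0 ≤ 2 / 3 * Real.log (1 + x) by positivity)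
    have e3 := mul_nonneg (Real.sqrt_nonneg (2 / 3 * Real.log l))
      (Real.sqrt_nonneg (2 / 3 * Real.log (1 + x)))
    nlinarith
  unfold W
  rw [Real.rpow_def_of_pos hl0, ← Real.exp_add, ← Real.exp_add]
  apply Real.exp_le_exp.2
  nlinarith

theorem W_le_rpow {ε : ℝ} (hε : 0 < ε) : ∃ C : ℝ, 1 ≤ C ∧ ∀ x : ℝ, 1 ≤ x → W x ≤ C * x ^ ε := by
  obtain ⟨C, hC, h⟩ := W_mul_le hε
  refine ⟨3 * C, by linarith, fun x hx => ?_⟩
  have h1 := h x 1 hx zero_le_one
  rw [mul_one] at h1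
  have h2 : 0 ≤ C * x ^ ε := by positivity
  have h3 := mul_le_mul_of_nonneg_left W_one_le h2
  linarith

theorem W_const_mul (l : ℝ) : ∃ C : ℝ, 1 ≤ C ∧ ∀ x y : ℝ, 0 ≤ x → 0 ≤ y → y ≤ l * x →
    W y ≤ C * W x := by
  obtain ⟨C, hC, h⟩ := W_mul_le one_pos
  have hl : 1 ≤ max l 1 := le_max_right _ _
  refine ⟨C * max l 1, by nlinarith, fun x y hx hy hyx => ?_⟩
  have h1 := h (max l 1) x hl hx
  rw [Real.rpow_one] at h1
  refine le_trans (W_mono hy ?_) h1
  exact hyx.trans (mul_le_mul_of_nonneg_right (le_max_left _ _) hx)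

theorem continuousOn_W : ContinuousOn W (Ici 0) := by
  unfold W
  refine Real.continuous_exp.comp_continuousOn (Real.continuous_sqrt.comp_continuousOn ?_)
  refine continuousOn_const.mul (ContinuousOn.log (by fun_prop) fun x hx => ?_)
  have : (0:ℝ) ≤ x := hx
  positivity

theorem W_sqrt_tendsto : Tendsto (fun y : ℝ => W √y / W y) atTop (𝓝 0) := by
  have h1 : Tendsto (fun y : ℝ => √(2 / 3 * Real.log y)) atTop atTop :=
    Real.tendsto_sqrt_atTop.comp (Real.tendsto_log_atTop.const_mul_atTop (by norm_num))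
  have h2 : Tendsto (fun y : ℝ => 1 + -(1 / 4) * √(2 / 3 * Real.log y)) atTop atBot :=
    tendsto_atBot_add_const_left _ _ (h1.const_mul_atTop_of_neg (by norm_num))
  refine squeeze_zero' (Eventually.of_forall fun y => (div_pos (W_pos _) (W_pos _)).le) ?_
    (Real.tendsto_exp_atBot.comp h2)
  filter_upwards [eventually_ge_atTop (1:ℝ)] with y hy
  have hy0 : 0 < y := by linarith
  have hL : 0 ≤ Real.log y := Real.log_nonneg hy
  have hs : 1 ≤ √y := Real.one_le_sqrt.2 hy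
  have h3 : Real.log (1 + √y) ≤ 1 + Real.log y / 2 := by
    have a1 : Real.log (1 + √y) ≤ Real.log (2 * √y) :=
      Real.log_le_log (by linarith) (by linarith)
    rw [Real.log_mul (by norm_num) (by linarith), Real.log_sqrt hy0.le] at a1
    have a2 := Real.log_le_sub_one_of_pos (by norm_num : (0:ℝ) < 2)
    linarith
  have h4 : √(2 / 3 * Real.log y) ≤ √(2 / 3 * Real.log (1 + y)) := by
    apply Real.sqrt_le_sqrt
    have := Real.log_le_log hy0 (by linarith : y ≤ 1 + y)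
    linarith
  have h5 : √(2 / 3 * Real.log (1 + √y)) ≤ 1 + 3 / 4 * √(2 / 3 * Real.log y) := by
    apply Real.sqrt_le_iff.2
    refine ⟨by positivity, ?_⟩
    have e1 := Real.sq_sqrt (show 0 ≤ 2 / 3 * Real.log y by positivity)
    have e2 := Real.sqrt_nonneg (2 / 3 * Real.log y)
    nlinarith
  unfold W
  rw [← Real.exp_sub]
  simp only [Function.comp]
  apply Real.exp_le_exp.2
  linarith

theorem summable_W {e : ℝ} (he : e < -1) :
    Summable fun n : ℕ => W (n + 1) * ((n : ℝ) + 1) ^ e := by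
  obtain ⟨C, hC, h⟩ := W_le_rpow (show 0 < (-1 - e) / 2 by linarith)
  have h1 : Summable fun n : ℕ => ((n : ℝ) + 1) ^ ((-1 - e) / 2 + e) := by
    have := (summable_nat_add_iff 1).2
      (Real.summable_nat_rpow.2 (show (-1 - e) / 2 + e < -1 by linarith))
    simpa using this
  refine Summable.of_nonneg_of_le (fun n => ?_) (fun n => ?_) (h1.mul_left C)
  · have := W_pos ((n : ℝ) + 1)
    positivity
  · have hn : (0:ℝ) ≤ n := Nat.cast_nonneg n
    rw [Real.rpow_add (by linarith), ← mul_assoc]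
    exact mul_le_mul_of_nonneg_right (h _ (by linarith)) (by positivity)

theorem wt_pos (i : ℕ) {y : ℝ} (hy : 0 < y) : 0 < wt i y := by
  unfold wt
  have := W_pos y
  positivity

theorem Chain.mono {J J' : ℕ} {a : ℕ → ℝ → ℂ} (h : Chain J a) (hJ : J' ≤ J) : Chain J' a :=
  fun i hi x hx => h i (lt_of_lt_of_le hi hJ) x hx

theorem Chain.cont {J : ℕ} {a : ℕ → ℝ → ℂ} (h : Chain J a) {i : ℕ} (hi : i < J) :
    ContinuousOn (a i) (Ioi 0) := fun x hx => (h i hi x hx).continuousAt.continuousWithinAt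

theorem Chain.conj {J : ℕ} {a : ℕ → ℝ → ℂ} (h : Chain J a) :
    Chain J fun i x => conj (a i x) := by
  intro i hi x hx
  exact (h i hi x hx).star

theorem Chain.const_mul {J : ℕ} {a : ℕ → ℝ → ℂ} (h : Chain J a) (c : ℂ) :
    Chain J fun i x => c * a i x := fun i hi x hx => (h i hi x hx).const_mul c

theorem Chain.comp_mul {J : ℕ} {a : ℕ → ℝ → ℂ} (h : Chain J a) {r : ℝ} (hr : 0 < r) :
    Chain J fun i x => (r : ℂ) ^ i * a i (r * x) := by
  intro i hi x hx
  have h1 : HasDerivAt (fun x : ℝ => r * x) r x := by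
    simpa using (hasDerivAt_id x).const_mul r
  have h2 := ((h i hi (r * x) (mul_pos hr hx)).scomp x h1).const_mul ((r : ℂ) ^ i)
  have e : (r : ℂ) ^ i * r • a (i + 1) (r * x) = (r : ℂ) ^ (i + 1) * a (i + 1) (r * x) := by
    rw [Complex.real_smul]
    ring
  rw [e] at h2
  exact h2

theorem Cls.nonneg {J : ℕ} {θ A : ℝ} {a : ℕ → ℝ → ℂ} (h : Cls J θ A a) : 0 ≤ A := by
  have h1 := h.bot 1 one_pos le_rfl
  rw [Real.one_rpow, mul_one] at h1
  exact (norm_nonneg _).trans h1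

theorem Cls.mono {J J' : ℕ} {θ θ' A : ℝ} {a : ℕ → ℝ → ℂ} (h : Cls J θ A a) (hJ : J' ≤ J)
    (hθ : θ' ≤ θ) : Cls J' θ' A a := by
  refine ⟨h.ch.mono hJ, fun i hi x hx => (h.top i (hi.trans hJ) x hx).trans ?_, h.bot⟩
  refine mul_le_mul_of_nonneg_left ?_ (mul_nonneg h.nonneg (W_pos x).le)
  apply Real.rpow_le_rpow_of_exponent_le hx
  have := mul_le_mul_of_nonneg_left hθ (Nat.cast_nonneg i : (0:ℝ) ≤ i)
  linarith

theorem Cls.add {J : ℕ} {θ A B : ℝ} {a b : ℕ → ℝ → ℂ} (h : Cls J θ A a) (h' : Cls J θ B b) :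
    Cls J θ (A + B) fun i x => a i x + b i x := by
  refine ⟨fun i hi x hx => (h.ch i hi x hx).add (h'.ch i hi x hx), fun i hi x hx => ?_,
    fun x hx hx1 => ?_⟩
  · have h1 := h.top i hi x hx
    have h2 := h'.top i hi x hx
    have h3 := norm_add_le (a i x) (b i x)
    linarith
  · have h1 := h.bot x hx hx1
    have h2 := h'.bot x hx hx1
    have h3 := norm_add_le (a 0 x) (b 0 x)
    linarith

theorem Cls.const_mul {J : ℕ} {θ A : ℝ} {a : ℕ → ℝ → ℂ} (h : Cls J θ A a) (c : ℂ) :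
    Cls J θ (‖c‖ * A) fun i x => c * a i x := by
  refine ⟨h.ch.const_mul c, fun i hi x hx => ?_, fun x hx hx1 => ?_⟩
  · have h1 := mul_le_mul_of_nonneg_left (h.top i hi x hx) (norm_nonneg c)
    rw [norm_mul]
    linarith
  · have h1 := mul_le_mul_of_nonneg_left (h.bot x hx hx1) (norm_nonneg c)
    rw [norm_mul]
    linarith

theorem Cls.top0 {J : ℕ} {θ A : ℝ} {a : ℕ → ℝ → ℂ} (h : Cls J θ A a) {x : ℝ} (hx : 1 ≤ x) :
    ‖a 0 x‖ ≤ A * W x := by
  simpa using h.top 0 (Nat.zero_le _) x hx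

theorem Cls.loc {J : ℕ} {θ A : ℝ} {a : ℕ → ℝ → ℂ} (h : Cls J θ A a) (X : ℝ) :
    ∃ C : ℝ, 0 ≤ C ∧ ∀ x : ℝ, 0 < x → x ≤ X → ‖a 0 x‖ ≤ C * x ^ (-(2 / 5 : ℝ)) := by
  have hA := h.nonneg
  have hX : 1 ≤ max X 1 := le_max_right _ _
  have hW := W_pos (max X 1)
  have hp : 0 ≤ A * W (max X 1) * (max X 1) ^ (2 / 5 : ℝ) := by positivity
  refine ⟨A + A * W (max X 1) * (max X 1) ^ (2 / 5 : ℝ), by positivity, fun x hx hxX => ?_⟩
  have hq : 0 < x ^ (-(2 / 5 : ℝ)) := by positivity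
  rcases le_total x 1 with h1 | h1
  · have := h.bot x hx h1
    nlinarith
  · have h2 := h.top0 h1
    have hx' : x ≤ max X 1 := hxX.trans (le_max_left _ _)
    have h3 := W_mono hx.le hx'
    have h4 : 1 ≤ (max X 1) ^ (2 / 5 : ℝ) * x ^ (-(2 / 5 : ℝ)) := by
      rw [Real.rpow_neg hx.le, ← div_eq_mul_inv, le_div_iff₀ (by positivity), one_mul]
      exact Real.rpow_le_rpow hx.le hx' (by norm_num)
    have h5 := mul_le_mul_of_nonneg_left h3 hA
    have h6 := mul_le_mul_of_nonneg_left h4 (mul_nonneg hA hW.le)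
    have h7 := mul_nonneg hA hq.le
    nlinarith

/-- bounds on a window in the form used by `StDB` -/
theorem Cls.window : ∃ C : ℝ, 1 ≤ C ∧ ∀ (J : ℕ) (θ A : ℝ) (a : ℕ → ℝ → ℂ), Cls J θ A a → 0 ≤ θ →
    ∀ n : ℕ, ∀ i ≤ J, ∀ x : ℝ, (n : ℝ) + 1 ≤ x → x ≤ n + 12 →
      ‖a i x‖ ≤ C * A * W (n + 1) * (((n : ℝ) + 1) ^ (-θ)) ^ i := by
  obtain ⟨C, hC, hW⟩ := W_const_mul 12
  refine ⟨C, hC, fun J θ A a h hθ n i hi x hx hx' => ?_⟩
  have hn : (0:ℝ) ≤ n := Nat.cast_nonneg n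
  have hA := h.nonneg
  have h1 := h.top i hi x (by linarith)
  have h2 := hW ((n : ℝ) + 1) x (by linarith) (by linarith) (by linarith)
  have h3 : x ^ (-(i * θ)) ≤ (((n : ℝ) + 1) ^ (-θ)) ^ i := by
    rw [← Real.rpow_natCast, ← Real.rpow_mul (by linarith)]
    have e : -θ * (i : ℝ) = -(i * θ) := by ring
    rw [e]
    exact Real.rpow_le_rpow_of_nonpos (by linarith) hx
      (neg_nonpos.2 (mul_nonneg (Nat.cast_nonneg i) hθ))
  have h4 : 0 ≤ x ^ (-(i * θ)) := Real.rpow_nonneg (by linarith) _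
  have h5 := W_pos ((n : ℝ) + 1)
  calc ‖a i x‖ ≤ A * W x * x ^ (-(i * θ)) := h1
    _ ≤ A * (C * W (n + 1)) * (((n : ℝ) + 1) ^ (-θ)) ^ i :=
        mul_le_mul (mul_le_mul_of_nonneg_left h2 hA) h3 h4 (by positivity)
    _ = _ := by ring

theorem Nm.cls {A : ℝ} {g : ℕ → ℝ → ℂ} (h : Nm A g) : Cls 7 (1 / 2) (4 * A) g := by
  have hA : 0 ≤ A := by
    have h1 := (norm_nonneg _).trans (h.bd 0 (by norm_num) 1 one_pos)
    exact nonneg_of_mul_nonneg_left h1 (wt_pos 0 one_pos)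
  refine ⟨h.ch, fun i hi x hx => ?_, fun x hx hx1 => ?_⟩
  · have hx0 : 0 < x := by linarith
    have h1 := h.bd i hi x hx0
    have e : -((i : ℝ) * (1 / 2)) = -(i / 2 : ℝ) := by ring
    rw [e]
    have hi0 : (0:ℝ) ≤ i := Nat.cast_nonneg i
    have h2 : x ^ (-(2 / 5 : ℝ) - i) ≤ x ^ (-(i / 2 : ℝ)) :=
      Real.rpow_le_rpow_of_exponent_le hx (by linarith)
    have h3 : 0 < x ^ (-(i / 2 : ℝ)) := by positivity
    have h4 := one_le_W x
    have h5 : wt i x ≤ 4 * (W x * x ^ (-(i / 2 : ℝ))) := by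
      unfold wt
      nlinarith
    have h6 := mul_le_mul_of_nonneg_left h5 hA
    linarith
  · have h1 := h.bd 0 (by norm_num) x hx
    have h2 : 1 ≤ x ^ (-(2 / 5 : ℝ)) :=
      Real.one_le_rpow_of_pos_of_le_one_of_nonpos hx hx1 (by norm_num)
    have h3 := (W_mono hx.le hx1).trans W_one_le
    have h5 : wt 0 x ≤ 4 * x ^ (-(2 / 5 : ℝ)) := by
      unfold wt
      simp only [Nat.cast_zero, zero_div, neg_zero, Real.rpow_zero, mul_one, sub_zero]
      linarith
    have h6 := mul_le_mul_of_nonneg_left h5 hA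
    linarith

theorem Out.nm {A : ℝ} {g : ℕ → ℝ → ℂ} (h : Out A g) : Nm A g := by
  have hA : 0 ≤ A := by
    have h1 := (norm_nonneg _).trans (h.bot 0 (by norm_num) 1 one_pos le_rfl)
    rwa [Real.one_rpow, mul_one] at h1
  refine ⟨h.ch.mono (by norm_num), fun i hi y hy => ?_⟩
  have hW := W_pos y
  have p1 : 0 < y ^ (-(i / 2 : ℝ)) := by positivity
  have p2 : 0 < y ^ (-(2 / 5 : ℝ) - i) := by positivity
  rcases le_total y 1 with h1 | h1
  · refine (h.bot i (by omega) y hy h1).trans (mul_le_mul_of_nonneg_left ?_ hA)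
    have h2 : y ^ (-(1 / 3 : ℝ) - i) ≤ y ^ (-(2 / 5 : ℝ) - i) :=
      Real.rpow_le_rpow_of_exponent_ge hy h1 (by linarith)
    have h3 := mul_pos hW p1
    unfold wt
    linarith
  · refine (h.top i (by omega) y h1).trans ?_
    rw [mul_assoc]
    refine mul_le_mul_of_nonneg_left ?_ hA
    have h2 : √y ≤ y := by
      apply Real.sqrt_le_iff.2
      exact ⟨hy.le, by nlinarith⟩
    have h3 := mul_le_mul_of_nonneg_right (W_mono (Real.sqrt_nonneg y) h2) p1.le
    unfold wt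
    linarith

theorem Kern.nonneg {k : ℕ → ℕ → ℝ → ℝ → ℂ} {C : ℝ} (h : Kern k C) : 0 ≤ C := by
  have h1 := (norm_nonneg _).trans (h.bd 0 (by norm_num) 0 (by norm_num) 1 one_pos 1 one_pos)
  simpa using h1

theorem integrableOn_two_rpow {E : Type} [NormedAddCommGroup E] {f : ℝ → E} {C a b : ℝ}
    (hf : ContinuousOn f (Ioi 0)) (ha : -1 < a) (hb : b < -1)
    (h0 : ∀ x : ℝ, 0 < x → x ≤ 1 → ‖f x‖ ≤ C * x ^ a) (h1 : ∀ x : ℝ, 1 ≤ x → ‖f x‖ ≤ C * x ^ b) :
    IntegrableOn f (Ioi 0) := by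
  rw [← Ioc_union_Ioi_eq_Ioi zero_le_one]
  refine IntegrableOn.union ?_ ?_
  · have h2 : IntegrableOn (fun x : ℝ => C * x ^ a) (Ioc 0 1) :=
      ((intervalIntegrable_iff_integrableOn_Ioc_of_le zero_le_one).1
        (intervalIntegral.intervalIntegrable_rpow' ha)).const_mul C
    refine Integrable.mono' h2 ((hf.mono Ioc_subset_Ioi_self).aestronglyMeasurable
      measurableSet_Ioc) ?_
    filter_upwards [ae_restrict_mem measurableSet_Ioc] with x hx using h0 x hx.1 hx.2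
  · have h2 : IntegrableOn (fun x : ℝ => C * x ^ b) (Ioi 1) :=
      (integrableOn_Ioi_rpow_of_lt hb zero_lt_one).const_mul C
    refine Integrable.mono' h2 ((hf.mono (Ioi_subset_Ioi zero_le_one)).aestronglyMeasurable
      measurableSet_Ioi) ?_
    filter_upwards [ae_restrict_mem measurableSet_Ioi] with x hx using h1 x (le_of_lt hx)

theorem intervalIntegrable_rpow_le {f : ℝ → ℂ} {C a X : ℝ} (hf : ContinuousOn f (Ioi 0))
    (ha : -1 < a) (hX : 0 ≤ X) (h0 : ∀ x : ℝ, 0 < x → x ≤ X → ‖f x‖ ≤ C * x ^ a) :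
    IntervalIntegrable f volume 0 X ∧ ‖∫ x in (0 : ℝ)..X, f x‖ ≤ C * X ^ (a + 1) / (a + 1) := by
  have h1 : IntervalIntegrable (fun x : ℝ => C * x ^ a) volume 0 X :=
    (intervalIntegral.intervalIntegrable_rpow' ha).const_mul C
  refine ⟨?_, ?_⟩
  · rw [intervalIntegrable_iff_integrableOn_Ioc_of_le hX] at h1 ⊢
    refine Integrable.mono' h1 ((hf.mono Ioc_subset_Ioi_self).aestronglyMeasurable
      measurableSet_Ioc) ?_
    filter_upwards [ae_restrict_mem measurableSet_Ioc] with x hx using h0 x hx.1 hx.2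
  · refine (intervalIntegral.norm_integral_le_of_norm_le hX
      (Eventually.of_forall fun x hx => h0 x hx.1 hx.2) h1).trans (le_of_eq ?_)
    rw [intervalIntegral.integral_const_mul, integral_rpow (Or.inl ha),
      Real.zero_rpow (by linarith), sub_zero, mul_div_assoc]

end Pool.Agent.Bar58
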