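import Pool.Agent.Lib.MP_d79f69_nt.Bar.BW
import Pool.Agent.Lib.MP_d79f69_nt.Bar.BU
import Pool.Agent.Lib.MP_d79f69_nt.Bar.BC
import Pool.Agent.Lib.MP_d79f69_nt.Bar.BM
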