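import Pool.Agent.Lib.MP_d79f69_nt.Stir

/-!
Definitions and statements for the construction of an entire Dirichlet series with a functional
equation of degree three and conductor one and finitely many zeros on the critical line.
-/

set_option autoImplicit false

namespace Pool.Agent.Bar58

open Complex MeasureTheory Set Filter Topology
open scoped ComplexConjugate

noncomputable section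

/-- the slowly growing weight -/
def W (x : ℝ) : ℝ := Real.exp (√(2 / 3 * Real.log (1 + x)))

/-- `a (i+1)` is the derivative of `a i` on the positive reals for `i < J` -/
def Chain (J : ℕ) (a : ℕ → ℝ → ℂ) : Prop :=
  ∀ i < J, ∀ x : ℝ, 0 < x → HasDerivAt (a i) (a (i + 1) x) x

/-- input class: every derivative gains `x ^ (-θ)` -/
structure Cls (J : ℕ) (θ A : ℝ) (a : ℕ → ℝ → ℂ) : Prop where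
  ch : Chain J a
  top : ∀ i ≤ J, ∀ x : ℝ, 1 ≤ x → ‖a i x‖ ≤ A * W x * x ^ (-(i * θ))
  bot : ∀ x : ℝ, 0 < x → x ≤ 1 → ‖a 0 x‖ ≤ A * x ^ (-(2 / 5 : ℝ))

/-- the weights of the Banach space -/
def wt (i : ℕ) (y : ℝ) : ℝ := W y * y ^ (-(i / 2 : ℝ)) + y ^ (-(2 / 5 : ℝ) - i)

/-- norm at most `A` -/
structure Nm (A : ℝ) (g : ℕ → ℝ → ℂ) : Prop where
  ch : Chain 7 g
  bd : ∀ i ≤ 7, ∀ y : ℝ, 0 < y → ‖g i y‖ ≤ A * wt i y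

/-- output class of the operator -/
structure Out (A : ℝ) (g : ℕ → ℝ → ℂ) : Prop where
  ch : Chain 8 g
  top : ∀ j ≤ 8, ∀ y : ℝ, 1 ≤ y → ‖g j y‖ ≤ A * W √y * y ^ (-(j / 2 : ℝ))
  bot : ∀ j ≤ 8, ∀ y : ℝ, 0 < y → y ≤ 1 → ‖g j y‖ ≤ A * y ^ (-(1 / 3 : ℝ) - j)

/-- quadrature coefficients -/
def cc (m : ℕ) : ℝ := (-1) ^ m * ∑ i ∈ Finset.Ico m 11, (i.choose m : ℝ) / (i + 1)

/-- value at `n + 1` minus a local average -/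
def DD (F : ℝ → ℂ) (n : ℕ) : ℂ :=
  F (n + 1) - ∑ m ∈ Finset.range 11, (cc m : ℂ) * ∫ x in ((n : ℝ) + 1 + m)..((n : ℝ) + 2 + m), F x

/-- boundary term -/
def B0 (F : ℝ → ℂ) : ℂ := ∑ m ∈ Finset.range 11, (cc m : ℂ) * ∫ x in (0 : ℝ)..((m : ℝ) + 1), F x

/-- regularised sum over the positive integers minus integral over the positive reals -/
def UU (F : ℝ → ℂ) : ℂ := ∑' n, DD F n - B0 F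

/-- the functions on which `UU` is additive -/
structure Nice (F : ℝ → ℂ) : Prop where
  int : ∀ X : ℝ, 0 ≤ X → IntervalIntegrable F volume 0 X
  sum : Summable fun n => ‖DD F n‖

/-- the kernel with its partial derivatives -/
structure Kern (k : ℕ → ℕ → ℝ → ℝ → ℂ) (C : ℝ) : Prop where
  hx : ∀ j ≤ 8, ∀ y : ℝ, 0 < y → Chain 11 fun i x => k i j x y
  hy : ∀ x : ℝ, 0 < x → Chain 8 fun j y => k 0 j x y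
  cont : ∀ j ≤ 8, ContinuousOn (fun p : ℝ × ℝ => k 0 j p.1 p.2) (Ioi 0 ×ˢ Ioi 0)
  bd : ∀ i ≤ 11, ∀ j ≤ 8, ∀ x : ℝ, 0 < x → ∀ y : ℝ, 0 < y → ‖k i j x y‖ ≤
    C * x ^ (-(i : ℝ)) * y ^ (-(j : ℝ)) * (x * y) ^ (-(1 / 3 : ℝ)) *
      (1 + (x * y) ^ (1 / 3 : ℝ)) ^ (i + j)

/-- the test function with its derivatives -/
structure Test (T : ℕ → ℝ → ℂ) : Prop where
  ch : Chain 4 T
  bd : ∀ σ : ℝ, 0 < σ → ∃ C : ℝ, 0 ≤ C ∧ ∀ i ≤ 4, ∀ x : ℝ, 0 < x → ‖T i x‖ ≤ C * x ^ (-σ - i)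

/-- the operator -/
def KK (k : ℕ → ℕ → ℝ → ℝ → ℂ) (f : ℝ → ℂ) (j : ℕ) (y : ℝ) : ℂ :=
  UU fun x => conj (f x) * k 0 j x y

/-- a normed space that represents the chains of finite norm -/
structure Rep {E : Type} [NormedAddCommGroup E] [NormedSpace ℝ E]
    (ι : E →ₗ[ℝ] (ℕ → ℝ → ℂ)) : Prop where
  nm : ∀ b, Nm ‖b‖ (ι b)
  ex : ∀ (A : ℝ) (g : ℕ → ℝ → ℂ), Nm A g → ∃ b, ∀ i ≤ 7, ∀ y : ℝ, 0 < y → ι b i y = g i y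
  le : ∀ (b : E) (A : ℝ), 0 ≤ A → (∀ i ≤ 7, ∀ y : ℝ, 0 < y → ‖ι b i y‖ ≤ A * wt i y) → ‖b‖ ≤ A

/-- the gamma factor -/
def gam (ν : Fin 3 → ℝ) (s : ℂ) : ℂ := ∏ j, Gammaℝ (s - I * ν j)

/-- the quotient of gamma factors -/
def XX (ν : Fin 3 → ℝ) (s : ℂ) : ℂ :=
  ∏ j, Gammaℂ (s + I * ν j) * Complex.cos (Real.pi * (s + I * ν j) / 2)

/-- height of the corners of the contour -/
def HH (ν : Fin 3 → ℝ) : ℝ := 10 + 10 * ∑ j, |ν j|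

/-- a domain without poles -/
def Dom (H : ℝ) : Set ℂ := {s | 0 < s.re ∨ H - 1 < |s.im|}

/-- the contour -/
def cs (H t : ℝ) : ℂ := ((max (-20) (1 / 3 - max (|t| - H) 0 / 2) : ℝ) : ℂ) + t * I

open Classical in
/-- its tangent -/
def cd (H t : ℝ) : ℂ :=
  if H < |t| ∧ |t| < H + 122 / 3 then (if 0 < t then -1 / 2 else 1 / 2) + I else I

/-- contour integral -/
def CI (H : ℝ) (f : ℂ → ℂ) : ℂ := 1 / (2 * Real.pi * I) * ∫ t : ℝ, f (cs H t) * cd H t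

/-- integral along a segment -/
def seg (f : ℂ → ℂ) (a b : ℂ) : ℂ := ∫ τ in (0 : ℝ)..1, f (a + τ * (b - a)) * (b - a)

/-- falling factorial -/
def ff (i : ℕ) (s : ℂ) : ℂ := ∏ l ∈ Finset.range i, (-s - l)

/-- the derivatives of `x ^ (-s)` -/
def mono (i : ℕ) (s : ℂ) (x : ℝ) : ℂ := ff i s * (x : ℂ) ^ (-s - i)

/-- bound in the two sectors with a saddle point at height `t0` -/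
def SB (κ p θ M t0 H : ℝ) (f : ℂ → ℂ) : Prop :=
  ∀ σ t : ℝ, H ≤ |t| → |σ| ≤ 2 * |t| / 3 → ‖f (σ + t * I)‖ ≤ M * ‖(σ : ℂ) + t * I‖ ^ p *
    Real.exp (κ * (σ * Real.log (‖(σ : ℂ) + t * I‖ / t0) + |σ| ^ 3 / (3 * t ^ 2)) - θ * |t|)

/-- integrable with `m` moments -/
def Dec (m : ℕ) (φ : ℝ → ℂ) : Prop :=
  AEStronglyMeasurable φ volume ∧ Integrable fun t : ℝ => (1 + |t|) ^ m * ‖φ t‖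

/-- the kernel -/
def kk (ν : Fin 3 → ℝ) (i j : ℕ) (x y : ℝ) : ℂ :=
  1 / (2 * Real.pi * I) * ∫ t : ℝ, XX ν (cs (HH ν) t) * cd (HH ν) t * mono j (cs (HH ν) t) y *
    mono i (cs (HH ν) t) x

/-- the inverse Mellin transform of the gamma factor -/
def TT (ν : Fin 3 → ℝ) (i : ℕ) (x : ℝ) : ℂ :=
  1 / (2 * Real.pi) * ∫ t : ℝ, gam ν (1 / 3 + t * I) * mono i (1 / 3 + t * I) x

/-- the multiplier of a packet -/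
def eta (θ : ℝ) (w : ℂ) : ℂ :=
  -θ * (w - 1 / 2) ^ 2 * Complex.cos ((3 * Real.pi / 4 - θ) * (w - 1 / 2))

/-- a packet -/
def PP (ν : Fin 3 → ℝ) (θ : ℝ) (i : ℕ) (x : ℝ) : ℂ :=
  1 / (2 * Real.pi * I) * ∫ t : ℝ, gam (-ν) (cs (HH ν) t) * eta θ (cs (HH ν) t) * cd (HH ν) t *
    mono i (cs (HH ν) t) x

/-- weights of the packets -/
def om (j : ℕ) : ℝ := Real.exp √j

/-- angles of the packets -/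
def th (j : ℕ) : ℝ := Real.exp (-j)

/-- the planted function -/
def aa (ν : Fin 3 → ℝ) (β : ℕ → ℝ) (i : ℕ) (x : ℝ) : ℂ :=
  ∑' j, ((β j * om j : ℝ) : ℂ) * PP ν (th j) i x

/-- its multiplier -/
def etaS (β : ℕ → ℝ) (s : ℂ) : ℂ := ∑' j, ((β j * om j : ℝ) : ℂ) * eta (th j) s

/-- its completed Mellin transform -/
def hh (ν : Fin 3 → ℝ) (β : ℕ → ℝ) (s : ℂ) : ℂ := gam ν s * gam (-ν) (1 - s) * etaS β s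

/-- the open critical strip -/
def Strip (B : ℝ) : Set ℂ := {s | 0 < s.re ∧ s.re < B}

/-- exponential decay in a closed strip -/
def VD (a b : ℝ) (h : ℂ → ℂ) : Prop :=
  ∃ C : ℝ, 0 ≤ C ∧ ∀ σ t : ℝ, a ≤ σ → σ ≤ b → ‖h (σ + t * I)‖ ≤ C * Real.exp (-|t|)

/-- alias part of the Dirichlet series -/
def RR (f : ℝ → ℂ) (s : ℂ) : ℂ := UU fun x => f x * (x : ℂ) ^ (-s)

/-- alias part of the theta function -/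
def uu (f T : ℝ → ℂ) (r : ℝ) : ℂ := UU fun x => f x * T (r * x)

/-- the theta function -/
def Th (f T : ℝ → ℂ) (r : ℝ) : ℂ := ∑' n : ℕ, f (n + 1) * T (r * (n + 1))

/-- majorant of the summation weights -/
def rr (t : ℝ) (M n : ℕ) : ℝ :=
  1 / √(t / (M : ℝ) ^ 2 + ‖cexp (-((t * Real.log (1 + 1 / n) : ℝ) : ℂ) * I) - 1‖ ^ 2)

/-! ### Statements: the functional -/

def StSum : Prop :=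
  (∀ e : ℝ, e < -1 → ∃ C : ℝ, 0 ≤ C ∧ ∀ (Y : ℝ) (N : ℕ), 1 ≤ Y → Y ≤ N + 1 →
    (Summable fun n : ℕ => ((n : ℝ) + N + 1) ^ e) ∧
      ∑' n : ℕ, ((n : ℝ) + N + 1) ^ e ≤ C * Y ^ (e + 1)) ∧
  ∀ e : ℝ, -1 < e → e ≤ 0 → ∀ N : ℕ,
    ∑ n ∈ Finset.range N, ((n : ℝ) + 1) ^ e ≤ (N : ℝ) ^ (e + 1) / (e + 1)

def StDB : Prop := ∃ C : ℝ, 0 ≤ C ∧ ∀ J : ℕ, 1 ≤ J → J ≤ 11 → ∀ a φ : ℕ → ℝ → ℂ, Chain J a →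
  Chain J φ → ∀ (n : ℕ) (ma ra mφ rφ : ℝ), 0 ≤ ma → 0 ≤ ra → 0 ≤ mφ → 0 ≤ rφ →
  (∀ i ≤ J, ∀ x : ℝ, (n : ℝ) + 1 ≤ x → x ≤ n + 12 → ‖a i x‖ ≤ ma * ra ^ i) →
  (∀ i ≤ J, ∀ x : ℝ, (n : ℝ) + 1 ≤ x → x ≤ n + 12 → ‖φ i x‖ ≤ mφ * rφ ^ i) →
  ‖DD (fun x => a 0 x * φ 0 x) n‖ ≤ C * ma * mφ * (ra + rφ) ^ J

def StUN : Prop := ∀ F : ℝ → ℂ, Nice F → ∀ N : ℕ, UU F =
  ∑ n ∈ Finset.range N, F (n + 1) -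
    ∑ m ∈ Finset.range 11, (cc m : ℂ) * (∫ x in (0 : ℝ)..((N : ℝ) + m + 1), F x) +
      ∑' n, DD F (n + N)

def StUA : Prop := ∀ F : ℝ → ℂ, (Summable fun n : ℕ => ‖F (n + 1)‖) → IntegrableOn F (Ioi 0) →
  Nice F ∧ UU F = ∑' n : ℕ, F (n + 1) - ∫ x in Ioi (0 : ℝ), F x

def StFub : Prop := ∀ (Φ : ℝ → ℝ → ℂ) (b : ℕ → ℝ → ℝ),
  ContinuousOn (fun q : ℝ × ℝ => Φ q.1 q.2) (Ioi 0 ×ˢ Ioi 0) →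
  (∀ X : ℝ, 0 < X → ∃ G : ℝ → ℝ, IntegrableOn G (Ioi 0) ∧ ∀ p : ℝ, 0 < p → ∀ x : ℝ, 0 < x →
    x ≤ X → ‖Φ p x‖ ≤ G p * x ^ (-(19 / 20 : ℝ))) →
  (∀ n, IntegrableOn (b n) (Ioi 0)) → (Summable fun n => ∫ p in Ioi (0 : ℝ), b n p) →
  (∀ n, ∀ p : ℝ, 0 < p → ‖DD (Φ p) n‖ ≤ b n p) →
  IntegrableOn (fun p => UU (Φ p)) (Ioi 0) ∧
    ∫ p in Ioi (0 : ℝ), UU (Φ p) = UU fun x => ∫ p in Ioi (0 : ℝ), Φ p x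

/-! ### Statements: the operator -/

def StOpT : Prop := ∀ k C, Kern k C → ∀ (J : ℕ) (θ : ℝ), 1 ≤ J → J ≤ 11 → 0 < θ → θ ≤ 2 / 3 →
  ∃ C' : ℝ, 0 ≤ C' ∧ ∀ A a, Cls J θ A a → ∀ j ≤ 8, ∀ y : ℝ, 0 < y → ∀ n : ℕ,
    ‖DD (fun x => conj (a 0 x) * k 0 j x y) n‖ ≤ C' * A * W (n + 1) * y ^ (-(j : ℝ)) *
      (((n : ℝ) + 1) * y) ^ (-(1 / 3 : ℝ)) * (1 + (((n : ℝ) + 1) * y) ^ (1 / 3 : ℝ)) ^ j *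
        (((n : ℝ) + 1) ^ (-θ) + y ^ (1 / 3 : ℝ) * ((n : ℝ) + 1) ^ (-(2 / 3 : ℝ))) ^ J

/-- locally uniform summable majorant, and niceness -/
def StOpN : Prop := ∀ k C, Kern k C → ∀ (J : ℕ) (θ : ℝ), 1 ≤ J → J ≤ 11 → 0 < θ → θ ≤ 2 / 3 →
  ∀ A a, Cls J θ A a → ∀ j : ℕ, j ≤ 8 → (j : ℝ) + 2 < 3 * θ * J →
    (∀ y : ℝ, 0 < y → Nice fun x => conj (a 0 x) * k 0 j x y) ∧
    ∀ y₁ y₂ : ℝ, 0 < y₁ → ∃ u : ℕ → ℝ, Summable u ∧ ∀ y : ℝ, y₁ ≤ y → y ≤ y₂ → ∀ n,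
      ‖DD (fun x => conj (a 0 x) * k 0 j x y) n‖ ≤ u n

def StOpB1 : Prop := ∀ k C, Kern k C → ∀ (J : ℕ) (θ : ℝ), 1 ≤ J → J ≤ 11 → 0 < θ → θ ≤ 2 / 3 →
  10 < 3 * θ * J → ∃ C' : ℝ, 0 ≤ C' ∧ ∀ A a, Cls J θ A a → ∀ j ≤ 8, ∀ y : ℝ, 1 ≤ y →
    ‖KK k (a 0) j y‖ ≤ C' * A * W √y * y ^ (-(j / 2 : ℝ))

def StOpB2 : Prop := ∀ k C, Kern k C → ∀ (J : ℕ) (θ : ℝ), 1 ≤ J → J ≤ 11 → 0 < θ → θ ≤ 2 / 3 →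
  10 < 3 * θ * J → ∃ C' : ℝ, 0 ≤ C' ∧ ∀ A a, Cls J θ A a → ∀ j ≤ 8, ∀ y : ℝ, 0 < y → y ≤ 1 →
    ‖KK k (a 0) j y‖ ≤ C' * A * y ^ (-(1 / 3 : ℝ) - j)

def StOpD : Prop := ∀ k C, Kern k C → ∀ (J : ℕ) (θ : ℝ), 1 ≤ J → J ≤ 11 → 0 < θ → θ ≤ 2 / 3 →
  10 < 3 * θ * J → ∀ A a, Cls J θ A a → Chain 8 (KK k (a 0))

def StBan : Prop := ∃ (E : Type) (_ : NormedAddCommGroup E) (_ : NormedSpace ℝ E)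
  (_ : CompleteSpace E) (ι : E →ₗ[ℝ] (ℕ → ℝ → ℂ)), Rep ι

def StNet : Prop := ∀ (E : Type) [NormedAddCommGroup E] [NormedSpace ℝ E]
  (ι : E →ₗ[ℝ] (ℕ → ℝ → ℂ)), Rep ι → ∀ A : ℝ, ∃ Y : Finset E, ∀ b : E,
    (∃ g, Out A g ∧ ∀ i ≤ 7, ∀ y : ℝ, 0 < y → ι b i y = g i y) → ∃ z ∈ Y, ‖b - z‖ ≤ 1 / 2

def StFr : Prop := ∀ (E : Type) [NormedAddCommGroup E] [NormedSpace ℝ E] [CompleteSpace E]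
  (K : E →L[ℝ] E) (Y : Finset E), (∀ b : E, ‖b‖ ≤ 1 → ∃ z ∈ Y, ‖K b - z‖ ≤ 1 / 2) →
  ∃ r : ℕ, ∀ v : Fin (r + 1) → E, ∃ x : Fin (r + 1) → ℝ, x ≠ 0 ∧ ∃ g : E,
    g - K g = ∑ i, x i • v i

def StSolve : Prop := ∀ k C, Kern k C → ∃ r : ℕ, ∀ v : Fin (r + 1) → ℕ → ℝ → ℂ,
  (∀ i, ∃ A, Cls 11 (1 / 3) A (v i)) → ∃ x : Fin (r + 1) → ℝ, x ≠ 0 ∧ ∃ A g, Nm A g ∧
    ∀ y : ℝ, 0 < y → g 0 y = ∑ i, (x i : ℂ) * KK k (v i 0) 0 y + KK k (g 0) 0 y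

/-! ### Statements: contours -/

def StTri : Prop := ∀ (c : ℝ) (f : ℂ → ℂ), DifferentiableOn ℂ f {s | c < s.im} →
  ∀ a b e : ℂ, c < a.im → c < b.im → c < e.im → seg f a b + seg f b e = seg f a e

def StCp : Prop := ∀ (κ p H T : ℝ) (m : ℕ), 0 < κ → 10 ≤ H → p + m + 2 ≤ 20 * κ →
  ∃ C : ℝ, 0 ≤ C ∧ ∀ (θ M t0 : ℝ) (f : ℂ → ℂ), 0 ≤ θ → 0 ≤ M → 0 < t0 → t0 ≤ T →
    SB κ p θ M t0 H f → ∀ t : ℝ, H ≤ |t| →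
      ‖f (cs H t)‖ ≤ C * M * t0 ^ (-(κ / 3)) * ((1 + |t|) ^ (m + 2))⁻¹

def StDec : Prop := ∀ (κ p H θ M t0 : ℝ) (m : ℕ) (f : ℂ → ℂ), 0 < κ → 10 ≤ H →
  p + m + 2 ≤ 20 * κ → 0 ≤ θ → 0 ≤ M → 0 < t0 → DifferentiableOn ℂ f (Dom H) →
  SB κ p θ M t0 H f → Dec m fun t => f (cs H t) * cd H t

def StUp1 : Prop := ∀ (κ p H θ M t0 : ℝ) (f : ℂ → ℂ), 0 < κ → 10 ≤ H → p + 2 ≤ 20 * κ →
  0 ≤ θ → 0 ≤ M → 8 * H ≤ t0 → DifferentiableOn ℂ f (Dom H) → SB κ p θ M t0 H f →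
  ∫ t in Ioi H, f (cs H t) * cd H t =
    seg f (1 / 3 + H * I) (t0 / 4 + t0 / 2 * I) + seg f (t0 / 4 + t0 / 2 * I) (t0 * I) +
      ∫ τ in Ioi (0 : ℝ), f (t0 * I + τ * (-1 / 2 + I)) * (-1 / 2 + I)

def StUpA : Prop := ∀ κ p H : ℝ, 0 < κ → 10 ≤ H → ∃ C : ℝ, 0 ≤ C ∧
  ∀ (θ M t0 : ℝ) (f : ℂ → ℂ), 0 ≤ θ → 0 ≤ M → 8 * H ≤ t0 → SB κ p θ M t0 H f →
    ‖seg f (1 / 3 + H * I) (t0 / 4 + t0 / 2 * I)‖ ≤ C * M * t0 ^ (-(κ / 3))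

def StUpB : Prop := ∀ κ p H : ℝ, 0 < κ → 10 ≤ H → ∃ C : ℝ, 0 ≤ C ∧
  ∀ (θ M t0 : ℝ) (f : ℂ → ℂ), 0 ≤ θ → 0 ≤ M → 8 * H ≤ t0 → SB κ p θ M t0 H f →
    ‖seg f (t0 / 4 + t0 / 2 * I) (t0 * I)‖ ≤ C * M * t0 ^ (p + 1 / 2) * Real.exp (-(θ * t0 / 4))

/-- integrable majorant along the last ray -/
def StUpC : Prop := ∀ κ p H : ℝ, 0 < κ → 10 ≤ H → ∃ C : ℝ, 0 ≤ C ∧
  ∀ (θ M t0 : ℝ) (f : ℂ → ℂ), 0 ≤ θ → 0 ≤ M → 8 * H ≤ t0 → SB κ p θ M t0 H f →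
    ∃ G : ℝ → ℝ, IntegrableOn G (Ioi 0) ∧
      (∀ τ : ℝ, 0 < τ → ‖f (t0 * I + τ * (-1 / 2 + I)) * (-1 / 2 + I)‖ ≤ G τ) ∧
      ∫ τ in Ioi (0 : ℝ), G τ ≤ C * M * t0 ^ (p + 1 / 2) * Real.exp (-(θ * t0 / 4))

def StCB : Prop := ∀ κ p H : ℝ, 0 < κ → 10 ≤ H → p + 2 ≤ 20 * κ → ∃ C : ℝ, 0 ≤ C ∧
  ∀ (θ M t0 : ℝ) (f : ℂ → ℂ), 0 ≤ θ → 0 ≤ M → 0 < t0 → DifferentiableOn ℂ f (Dom H) →
    SB κ p θ M t0 H f → (∀ t : ℝ, |t| ≤ H → ‖f (1 / 3 + t * I)‖ ≤ M * t0 ^ (-(κ / 3))) →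
    ‖CI H f‖ ≤ C * M * (t0 ^ (-(κ / 3)) + (1 + t0) ^ (p + 1 / 2) * Real.exp (-(θ * t0 / 4)))

def StStr : Prop := ∀ (H : ℝ) (f : ℂ → ℂ), 10 ≤ H →
  DifferentiableOn ℂ f {s | H - 1 < |s.im|} → (Continuous fun t : ℝ => f (1 / 3 + t * I)) →
  (∃ C : ℝ, ∀ σ t : ℝ, -20 ≤ σ → σ ≤ 1 / 3 → H ≤ |t| → ‖f (σ + t * I)‖ ≤ C * Real.exp (-|t|)) →
  CI H f = 1 / (2 * Real.pi) * ∫ t : ℝ, f (1 / 3 + t * I)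

def StMC : Prop := ∀ (s φ : ℝ → ℂ) (m : ℕ), Continuous s → (∀ t, |(s t).re| ≤ 20) →
  (∀ t, ‖s t‖ ≤ 21 * (1 + |t|)) → Dec m φ →
  (Chain m fun i x => ∫ t : ℝ, φ t * mono i (s t) x) ∧
    ∀ j ≤ m, ∀ y : ℝ, 0 < y → Dec (m - j) fun t => φ t * mono j (s t) y

def StShift : Prop := ∀ (h : ℂ → ℂ) (a b B : ℝ), 0 < a → a ≤ b → b < B →
  DifferentiableOn ℂ h (Strip B) → VD a b h → ∀ r : ℝ, 0 < r → mellinInv a h r = mellinInv b h r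

def StMI : Prop := ∀ (h : ℂ → ℂ) (a σ b B : ℝ), 0 < a → a < σ → σ < b → b < B →
  DifferentiableOn ℂ h (Strip B) → VD a b h → ∀ s : ℂ, s.re = σ →
    MellinConvergent (mellinInv σ h) s ∧ mellin (mellinInv σ h) s = h s

def StSym : Prop := ∀ h : ℂ → ℂ, DifferentiableOn ℂ h (Strip 1) → VD (1 / 3) (2 / 3) h →
  (∀ s, h (1 - conj s) = conj (h s)) →
  (∀ r : ℝ, 0 < r → mellinInv (2 / 3) h r = conj (mellinInv (2 / 3) h (1 / r)) / r) ∧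
    ∀ s : ℂ, s.re = 1 / 2 →
      MellinConvergent (mellinInv (2 / 3) h) s ∧ mellin (mellinInv (2 / 3) h) s = h s

/-! ### Statements: gamma factors -/

def StG0 : Prop := ∀ ν : ℝ, ∃ C : ℝ, 0 ≤ C ∧ ∀ σ t : ℝ, 5 + 5 * |ν| ≤ t → |σ| ≤ 2 * t / 3 →
  ‖Gamma (σ + t * I + I * ν)‖ ≤ C * ‖(σ : ℂ) + t * I‖ ^ (σ - 1 / 2) *
    Real.exp (-(Real.pi * t / 2) + |σ| ^ 3 / (3 * t ^ 2))

def StGD : Prop := ∀ ν : Fin 3 → ℝ,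
  DifferentiableOn ℂ (gam ν) (Dom (HH ν)) ∧ DifferentiableOn ℂ (XX ν) (Dom (HH ν)) ∧
  (∀ s, conj (gam ν s) = gam (-ν) (conj s)) ∧ (∀ s, conj (XX ν s) = XX (-ν) (conj s)) ∧
  (∀ s ∈ Dom (HH ν), s.re < 1 → XX ν s * gam ν (1 - s) = gam (-ν) s) ∧
  (∀ s : ℂ, 0 < s.re → gam ν s ≠ 0) ∧ Differentiable ℂ fun s => (gam ν s)⁻¹

def StGX : Prop := ∀ (ν : Fin 3 → ℝ) (i j : ℕ), ∃ M : ℝ, 0 ≤ M ∧ ∀ z : ℝ, 0 < z →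
  SB 3 (i + j - 3 / 2) 0 M (2 * Real.pi * z ^ (1 / 3 : ℝ)) (HH ν)
      (fun s => XX ν s * ff i s * ff j s * (z : ℂ) ^ (-s)) ∧
    ∀ t : ℝ, |t| ≤ HH ν →
      ‖XX ν (1 / 3 + t * I) * ff i (1 / 3 + t * I) * ff j (1 / 3 + t * I) *
        (z : ℂ) ^ (-(1 / 3 + t * I))‖ ≤ M * (2 * Real.pi * z ^ (1 / 3 : ℝ)) ^ (-((3 : ℝ) / 3))

def StGP : Prop := ∀ (ν : Fin 3 → ℝ) (i : ℕ), ∃ M : ℝ, 0 ≤ M ∧ ∀ θ : ℝ, 0 < θ → θ ≤ 1 →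
  ∀ x : ℝ, 0 < x →
    SB (3 / 2) (i + 1 / 2) θ (M * θ) (2 * Real.pi * x ^ (2 / 3 : ℝ)) (HH ν)
        (fun s => gam (-ν) s * eta θ s * ff i s * (x : ℂ) ^ (-s)) ∧
      ∀ t : ℝ, |t| ≤ HH ν →
        ‖gam (-ν) (1 / 3 + t * I) * eta θ (1 / 3 + t * I) * ff i (1 / 3 + t * I) *
          (x : ℂ) ^ (-(1 / 3 + t * I))‖ ≤
            M * θ * (2 * Real.pi * x ^ (2 / 3 : ℝ)) ^ (-((3 / 2 : ℝ) / 3))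

def StGV : Prop := ∀ (ν : Fin 3 → ℝ) (a b : ℝ), ∃ C : ℝ, 0 ≤ C ∧ ∀ σ t : ℝ, a ≤ σ → σ ≤ b →
  (0 < a ∨ HH ν ≤ |t|) → ‖gam ν (σ + t * I)‖ ≤ C * Real.exp (-(2 * |t|))

def StGL : Prop := ∀ ν : Fin 3 → ℝ, ∃ c T : ℝ, 0 < c ∧ ∀ t : ℝ, T ≤ |t| →
  c * |t| ^ (-(3 / 4 : ℝ)) * Real.exp (-(3 * Real.pi * |t| / 4)) ≤ ‖gam ν (1 / 2 + t * I)‖

/-! ### Statements: kernel, test function, packets -/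

def StKern : Prop := ∀ ν : Fin 3 → ℝ, ∃ C, Kern (kk ν) C

def StTest : Prop := ∀ ν : Fin 3 → ℝ, Test (TT ν) ∧
  (∀ s : ℂ, 0 < s.re → MellinConvergent (TT ν 0) s ∧ mellin (TT ν 0) s = gam ν s) ∧
  ∀ x : ℝ, 0 < x → conj (TT ν 0 x) = TT (-ν) 0 x

/-- pairing of a contour integral with the test function -/
def StPair : Prop := ∀ (ν : Fin 3 → ℝ) (H : ℝ) (φ : ℝ → ℂ), Dec 0 φ → ∀ r : ℝ, 0 < r →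
  ∫ y in Ioi (0 : ℝ), (∫ t : ℝ, φ t * mono 0 (cs H t) y) * TT ν 0 (r * y) =
    ∫ t : ℝ, φ t * (gam ν (1 - cs H t) * (r : ℂ) ^ (cs H t - 1))

def StK2 : Prop := ∀ (ν : Fin 3 → ℝ) (x r : ℝ), 0 < x → 0 < r →
  ∫ y in Ioi (0 : ℝ), kk ν 0 0 x y * TT ν 0 (r * y) = conj (TT ν 0 (1 / r * x)) / r

def StP1 : Prop := ∀ ν : Fin 3 → ℝ, ∃ C : ℝ, 0 ≤ C ∧ ∀ θ : ℝ, 0 < θ → θ ≤ 1 →
  Chain 11 (PP ν θ) ∧ ∀ i ≤ 11, ∀ x : ℝ, 0 < x → ‖PP ν θ i x‖ ≤ C * θ * x ^ (-(i : ℝ)) *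
    (x ^ (-(1 / 3 : ℝ)) + (1 + 2 * Real.pi * x ^ (2 / 3 : ℝ)) ^ (i + 1) *
      Real.exp (-(θ * (2 * Real.pi * x ^ (2 / 3 : ℝ)) / 4)))

def StP2a : Prop := (Summable fun j => om j * th j) ∧ ∃ C : ℝ, 0 ≤ C ∧ ∀ t0 : ℝ, 0 ≤ t0 →
  ∑' j, om j * th j * ((1 + t0) * Real.exp (-(th j * t0 / 4))) ≤
    C * Real.exp √(Real.log (1 + t0))

def StP2 : Prop := ∀ (ν : Fin 3 → ℝ) (β : ℕ → ℝ) (B : ℝ), (∀ j, |β j| ≤ B) →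
  (∃ A, Cls 11 (1 / 3) A (aa ν β)) ∧
    ∀ x : ℝ, 0 < x → Summable fun j => ‖((β j * om j : ℝ) : ℂ) * PP ν (th j) 0 x‖

def StP3 : Prop := ∀ (ν : Fin 3 → ℝ) (θ r : ℝ), 0 < θ → θ ≤ 1 → 0 < r →
  ∫ x in Ioi (0 : ℝ), PP ν θ 0 x * TT ν 0 (r * x) =
    mellinInv (2 / 3) (fun s => gam ν s * gam (-ν) (1 - s) * eta θ s) r

def StP4a : Prop := ∀ (ν : Fin 3 → ℝ) (β : ℕ → ℝ) (B : ℝ), (∀ j, |β j| ≤ B) →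
  DifferentiableOn ℂ (hh ν β) (Strip 1) ∧ VD (1 / 3) (2 / 3) (hh ν β) ∧
    ∀ s, hh ν β (1 - conj s) = conj (hh ν β s)

def StP4b : Prop := ∀ (ν : Fin 3 → ℝ) (β : ℕ → ℝ) (B : ℝ), (∀ j, |β j| ≤ B) → ∀ r : ℝ, 0 < r →
  ∫ x in Ioi (0 : ℝ), aa ν β 0 x * TT ν 0 (r * x) = mellinInv (2 / 3) (hh ν β) r

def St9 : Prop := ∀ (β : ℕ → ℝ) (B δ : ℝ) (j₀ r : ℕ), (∀ j, |β j| ≤ B) → 0 < δ →
  (∀ j, j₀ ≤ j → δ / ((j : ℝ) + 1) ^ r ≤ β j) → ∃ c T : ℝ, 0 < c ∧ ∀ t : ℝ, T ≤ |t| →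
    c * |t| * Real.exp (3 * Real.pi * |t| / 4) * Real.exp √(Real.log |t|) /
      (2 + Real.log |t|) ^ r ≤ ‖etaS β (1 / 2 + t * I)‖

def StPoly : Prop := ∀ (r : ℕ) (x : Fin (r + 1) → ℝ), x ≠ 0 → ∃ (ε δ : ℝ) (j₀ : ℕ),
  (ε = 1 ∨ ε = -1) ∧ 0 < δ ∧ ∀ j : ℕ, j₀ ≤ j →
    δ / ((j : ℝ) + 1) ^ r ≤ ε * ∑ i, x i * (1 / ((j : ℝ) + 1)) ^ (i : ℕ)

def StCmp : Prop := ∀ (C c : ℝ) (r : ℕ), 0 < c → ∃ T : ℝ, ∀ t : ℝ, T ≤ t →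
  C * (Real.log t ^ 2 * W (t ^ (15 / 14 : ℝ))) < c * (Real.exp √(Real.log t) / (2 + Real.log t) ^ r)

/-! ### Statements: the alias part on the critical line -/

def St8s : Prop := ∃ C : ℝ, 0 ≤ C ∧ ∀ (t : ℝ) (M : ℕ), 1 ≤ t → t ≤ (M : ℝ) ^ 2 →
  ∑ n ∈ Finset.Icc M (2 * M), rr t M n ≤ C * (M + (M : ℝ) ^ 2 / t) * Real.log (2 + M)

def St8a : Prop := ∃ C : ℝ, 0 ≤ C ∧ ∀ (t : ℝ) (M M' : ℕ) (b : ℕ → ℂ) (β β' : ℝ), 1 ≤ |t| →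
  |t| ≤ (M : ℝ) ^ 2 → M ≤ M' → M' ≤ 2 * M → 0 ≤ β → 0 ≤ β' →
  (∀ n, M ≤ n → n ≤ 2 * M → ‖b n‖ ≤ β) → (∀ n, M ≤ n → n < 2 * M → ‖b (n + 1) - b n‖ ≤ β') →
  ‖∑ n ∈ Finset.Ico M M', b n * (n : ℂ) ^ (-((t : ℂ) * I))‖ ≤
    C * Real.log (2 + M) * (β * (√|t| + M / √|t|) + β' * (M + (M : ℝ) ^ 2 / |t|))

def St8b : Prop := ∀ A a, Cls 4 (1 / 3) A a → ∃ C : ℝ, 0 ≤ C ∧ ∀ t : ℝ, 3 ≤ |t| → ∀ N : ℕ,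
  (N : ℝ) ≤ |t| ^ (15 / 14 : ℝ) →
  ‖∑ n ∈ Finset.range N, a 0 (n + 1) * (((n : ℝ) + 1 : ℝ) : ℂ) ^ (-(1 / 2 + (t : ℂ) * I))‖ ≤
    C * |t| ^ (1 / 4 : ℝ) * (Real.log |t| ^ 2 * W (|t| ^ (15 / 14 : ℝ)))

def St8c : Prop := ∀ A a, Cls 4 (1 / 3) A a → ∃ C : ℝ, 0 ≤ C ∧ ∀ t : ℝ, 3 ≤ |t| → ∀ X : ℝ,
  1 ≤ X → X ≤ 12 * |t| ^ (15 / 14 : ℝ) →
  ‖∫ x in (0 : ℝ)..X, a 0 x * (x : ℂ) ^ (-(1 / 2 + (t : ℂ) * I))‖ ≤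
    C * |t| ^ (1 / 4 : ℝ) * W (|t| ^ (15 / 14 : ℝ))

def St8d : Prop := ∀ A a, Cls 4 (1 / 3) A a → ∃ C : ℝ, 0 ≤ C ∧ ∀ t : ℝ, 3 ≤ |t| →
  (Nice fun x => a 0 x * (x : ℂ) ^ (-(1 / 2 + (t : ℂ) * I))) ∧
  ‖∑' n, DD (fun x => a 0 x * (x : ℂ) ^ (-(1 / 2 + (t : ℂ) * I)))
      (n + ⌊|t| ^ (15 / 14 : ℝ)⌋₊)‖ ≤ C * |t| ^ (1 / 4 : ℝ) * W (|t| ^ (15 / 14 : ℝ))

def St8 : Prop := ∀ A a, Cls 4 (1 / 3) A a → ∃ C : ℝ, 0 ≤ C ∧ ∀ t : ℝ, 3 ≤ |t| →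
  ‖RR (a 0) (1 / 2 + t * I)‖ ≤
    C * |t| ^ (1 / 4 : ℝ) * (Real.log |t| ^ 2 * W (|t| ^ (15 / 14 : ℝ)))

/-! ### Statements: the theta function -/

def St7n : Prop := ∀ T, Test T → ∀ A a, Cls 4 (1 / 3) A a → ∀ r : ℝ, 0 < r →
  IntegrableOn (fun x => a 0 x * T 0 (r * x)) (Ioi 0) ∧
    Th (a 0) (T 0) r = uu (a 0) (T 0) r + ∫ x in Ioi (0 : ℝ), a 0 x * T 0 (r * x)

def St7b : Prop := ∀ k C, Kern k C → ∀ T, Test T →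
  (∀ x r : ℝ, 0 < x → 0 < r →
    ∫ y in Ioi (0 : ℝ), k 0 0 x y * T 0 (r * y) = conj (T 0 (1 / r * x)) / r) →
  ∀ A a, Cls 4 (1 / 3) A a → ∀ r : ℝ, 0 < r →
    ∫ y in Ioi (0 : ℝ), KK k (a 0) 0 y * T 0 (r * y) = conj (uu (a 0) (T 0) (1 / r)) / r

def St7c : Prop := ∀ T, Test T → ∀ A a, Cls 4 (1 / 3) A a → ∀ s : ℂ, s.re = 1 / 2 →
  MellinConvergent (uu (a 0) (T 0)) s ∧
    mellin (uu (a 0) (T 0)) s = mellin (T 0) s * RR (a 0) s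

def St7d : Prop := ∀ T, Test T → ∀ (f : ℝ → ℂ) (A : ℝ),
  (∀ n : ℕ, ‖f (n + 1)‖ ≤ A * W (n + 1)) →
  (∀ r : ℝ, 0 < r → Th f (T 0) r = conj (Th f (T 0) (1 / r)) / r) →
  Differentiable ℂ (mellin (Th f (T 0))) ∧
    (∀ a b : ℝ, ∃ C : ℝ, ∀ s : ℂ, a ≤ s.re → s.re ≤ b → ‖mellin (Th f (T 0)) s‖ ≤ C) ∧
    (∀ s, mellin (Th f (T 0)) (1 - conj s) = conj (mellin (Th f (T 0)) s)) ∧
    ∀ s : ℂ, 1 < s.re → HasSum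
      (fun n : ℕ => mellin (T 0) s * (f (n + 1) * (((n : ℝ) + 1 : ℝ) : ℂ) ^ (-s)))
      (mellin (Th f (T 0)) s)

/-- the solution of the fixed point equation -/
def StFix : Prop := ∀ ν : Fin 3 → ℝ, ∃ (β : ℕ → ℝ) (B δ A : ℝ) (j₀ r : ℕ) (a : ℕ → ℝ → ℂ),
  (∀ j, |β j| ≤ B) ∧ 0 < δ ∧ (∀ j, j₀ ≤ j → δ / ((j : ℝ) + 1) ^ r ≤ β j) ∧ Cls 4 (1 / 3) A a ∧
    ∀ y : ℝ, 0 < y → a 0 y = aa ν β 0 y + KK (kk ν) (a 0) 0 y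

/-- symmetry of the theta function and its Mellin transform on the critical line -/
def StLine : Prop := ∀ (ν : Fin 3 → ℝ) (β : ℕ → ℝ) (B A : ℝ) (a : ℕ → ℝ → ℂ),
  (∀ j, |β j| ≤ B) → Cls 4 (1 / 3) A a →
  (∀ y : ℝ, 0 < y → a 0 y = aa ν β 0 y + KK (kk ν) (a 0) 0 y) →
  (∀ r : ℝ, 0 < r → Th (a 0) (TT ν 0) r = conj (Th (a 0) (TT ν 0) (1 / r)) / r) ∧
    ∀ s : ℂ, s.re = 1 / 2 → mellin (Th (a 0) (TT ν 0)) s =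
      hh ν β s + gam ν s * RR (a 0) s + conj (gam ν s * RR (a 0) s)

/-- the theorem -/
def StMain : Prop := ∀ ν : Fin 3 → ℝ, ∃ (a : ℕ → ℂ) (L Λ : ℂ → ℂ),
  (∀ ε : ℝ, 0 < ε → ∃ C : ℝ, ∀ n : ℕ, 1 ≤ n → ‖a n‖ ≤ C * (n : ℝ) ^ ε) ∧
  (∀ s : ℂ, 1 < s.re → LSeriesHasSum a s (L s)) ∧
  Differentiable ℂ L ∧ Differentiable ℂ Λ ∧
  (∀ s, L s = Λ s / ∏ j, Gammaℝ (s - I * ν j)) ∧
  (∀ s, Λ (1 - conj s) = conj (Λ s)) ∧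
  (∀ σ₁ σ₂ : ℝ, ∃ C : ℝ, ∀ s : ℂ, σ₁ ≤ s.re → s.re ≤ σ₂ → ‖Λ s‖ ≤ C) ∧
  {t : ℝ | L (1 / 2 + t * I) = 0}.Finite

end

end Pool.Agent.Bar58
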