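import Pool.Agent.Lib.MP_d79f69_nt.Bar.Basic

set_option autoImplicit false

namespace Pool.Agent.Bar58

open Complex MeasureTheory Set Filter Topology
open scoped ComplexConjugate

theorem stDec (hCp : StCp) : StDec := by
  intro κ p H θ M t0 m f hκ hH hp hθ hM ht0 hd hf
  obtain ⟨C, hC, hb⟩ := hCp κ p H t0 m hκ hH hp
  have hb' := hb θ M t0 f hθ hM ht0 le_rfl hf
  have hc : Continuous fun t : ℝ => f (cs H t) :=
    hd.continuousOn.comp_continuous (continuous_cs H) (cs_mem_Dom H)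
  have hmeas : AEStronglyMeasurable (fun t : ℝ => f (cs H t) * cd H t) volume :=
    hc.aestronglyMeasurable.mul (measurable_cd H).aestronglyMeasurable
  refine ⟨hmeas, ?_⟩
  obtain ⟨B, hB⟩ := (isCompact_Icc (a := -H) (b := H)).exists_bound_of_continuousOn
    hc.continuousOn
  have hB0 : 0 ≤ B := (norm_nonneg _).trans (hB 0 ⟨by linarith, by linarith⟩)
  set K : ℝ := C * M * t0 ^ (-(κ / 3)) with hK
  have hK0 : 0 ≤ K := mul_nonneg (mul_nonneg hC hM) (Real.rpow_nonneg ht0.le _)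
  have hall : ∀ t : ℝ, ‖f (cs H t)‖ * (1 + |t|) ^ (m + 2) ≤ K + B * (1 + H) ^ (m + 2) := by
    intro t
    have hu : 0 < 1 + |t| := by linarith [abs_nonneg t]
    have hBH : 0 ≤ B * (1 + H) ^ (m + 2) := mul_nonneg hB0 (pow_nonneg (by linarith) _)
    rcases le_total H |t| with h | h
    · have h1 := hb' t h
      rw [← div_eq_mul_inv, le_div_iff₀ (pow_pos hu _)] at h1
      linarith
    · have h1 := hB t (abs_le.1 h)
      have h2 : (1 + |t|) ^ (m + 2) ≤ (1 + H) ^ (m + 2) :=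
        pow_le_pow_left₀ hu.le (by linarith) _
      have h3 := mul_le_mul h1 h2 (pow_nonneg hu.le _) hB0
      linarith
  refine Integrable.mono' (integrable_inv_one_add_sq.const_mul
    (2 * (K + B * (1 + H) ^ (m + 2)))) ?_ (Eventually.of_forall fun t => ?_)
  · exact (((continuous_const.add continuous_abs).pow m).aestronglyMeasurable).mul hmeas.norm
  · have hu : 0 < 1 + |t| := by linarith [abs_nonneg t]
    have hq : 0 < 1 + t ^ 2 := by positivity
    rw [Real.norm_of_nonneg (mul_nonneg (pow_nonneg hu.le _) (norm_nonneg _)), norm_mul,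
      ← div_eq_mul_inv, le_div_iff₀ hq]
    have h1 : 1 + t ^ 2 ≤ (1 + |t|) ^ 2 := by
      have := sq_abs t
      nlinarith [abs_nonneg t]
    have h2 := norm_cd_le H t
    have h3 := hall t
    have h4 : 0 ≤ (1 + |t|) ^ m * ‖f (cs H t)‖ := mul_nonneg (pow_nonneg hu.le _) (norm_nonneg _)
    calc (1 + |t|) ^ m * (‖f (cs H t)‖ * ‖cd H t‖) * (1 + t ^ 2)
        = (1 + |t|) ^ m * ‖f (cs H t)‖ * (‖cd H t‖ * (1 + t ^ 2)) := by ring
      _ ≤ (1 + |t|) ^ m * ‖f (cs H t)‖ * (2 * (1 + |t|) ^ 2) :=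
          mul_le_mul_of_nonneg_left (mul_le_mul h2 h1 hq.le (by norm_num)) h4
      _ = 2 * (‖f (cs H t)‖ * (1 + |t|) ^ (m + 2)) := by ring
      _ ≤ 2 * (K + B * (1 + H) ^ (m + 2)) := by linarith

end Pool.Agent.Bar58
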