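import Pool.Agent.Lib.MP_d79f69_nt.Bar.Basic

set_option autoImplicit false

namespace Pool.Agent.Bar58

open Complex MeasureTheory Set Filter Topology
open scoped ComplexConjugate

theorem fgd_ne {ν : Fin 3 → ℝ} {s : ℂ} (hs : s ∈ Dom (HH ν)) (j : Fin 3) {w : ℂ}
    (hre : w.re = s.re) (him : |s.im - w.im| = |ν j|) : 0 < w.re ∨ w.im ≠ 0 := by
  rcases hs with h | h
  · exact Or.inl (hre ▸ h)
  · refine Or.inr fun h0 => ?_
    rw [h0, sub_zero] at him
    have := abs_le_HH ν j
    have := abs_nonneg (ν j)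
    linarith

theorem fgd_nat {w : ℂ} (h : 0 < w.re ∨ w.im ≠ 0) (m : ℕ) : w ≠ -m := by
  rintro rfl
  rcases h with h | h
  · simp only [neg_re, natCast_re] at h
    linarith [Nat.cast_nonneg (α := ℝ) m]
  · simp at h

theorem fgd_R {w : ℂ} (h : 0 < w.re ∨ w.im ≠ 0) : DifferentiableAt ℂ Gammaℝ w := by
  have h2 : ∀ m : ℕ, w / 2 ≠ -m := fun m e => fgd_nat h (2 * m) (by
    push_cast
    linear_combination 2 * e)
  have : Gammaℝ = fun s : ℂ => (Real.pi : ℂ) ^ (-s / 2) * Gamma (s / 2) := funext Gammaℝ_def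
  rw [this]
  refine DifferentiableAt.mul (DifferentiableAt.const_cpow (by fun_prop)
    (Or.inl (ofReal_ne_zero.2 Real.pi_ne_zero))) ?_
  exact (differentiableAt_Gamma _ h2).comp w (f := fun s : ℂ => s / 2) (by fun_prop)

theorem fgd_C {w : ℂ} (h : 0 < w.re ∨ w.im ≠ 0) : DifferentiableAt ℂ Gammaℂ w := by
  have : Gammaℂ = fun s : ℂ => 2 * (2 * Real.pi : ℂ) ^ (-s) * Gamma s := funext Gammaℂ_def
  rw [this]
  refine DifferentiableAt.mul (DifferentiableAt.const_mul (DifferentiableAt.const_cpow (by fun_prop)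
    (Or.inl (mul_ne_zero two_ne_zero (ofReal_ne_zero.2 Real.pi_ne_zero)))) _) ?_
  exact differentiableAt_Gamma _ (fgd_nat h)

theorem fgd_pow {x : ℝ} (hx : 0 ≤ x) (s : ℂ) : conj ((x : ℂ) ^ s) = (x : ℂ) ^ conj s := by
  rw [cpow_conj _ _ (by rw [arg_ofReal_of_nonneg hx]; exact Real.pi_ne_zero.symm), conj_ofReal]

theorem fgd_conjR (w : ℂ) : conj (Gammaℝ w) = Gammaℝ (conj w) := by
  rw [Gammaℝ_def, Gammaℝ_def, map_mul, fgd_pow Real.pi_pos.le, ← Gamma_conj]
  simp only [map_div₀, map_neg, map_ofNat]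

theorem fgd_conjC (w : ℂ) : conj (Gammaℂ w) = Gammaℂ (conj w) := by
  have e : (2 * Real.pi : ℂ) = ((2 * Real.pi : ℝ) : ℂ) := by push_cast; rfl
  rw [Gammaℂ_def, Gammaℂ_def, map_mul, map_mul, e, fgd_pow (by positivity), ← Gamma_conj]
  simp only [map_neg, map_ofNat]

theorem stGD : StGD := by
  intro ν
  refine ⟨fun s hs => ?_, fun s hs => ?_, fun s => ?_, fun s => ?_, fun s hs h1 => ?_,
    fun s hs => ?_, ?_⟩
  · refine DifferentiableAt.differentiableWithinAt ?_
    refine DifferentiableAt.fun_finsetProd (f := fun j s => Gammaℝ (s - I * ν j)) fun j _ => ?_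
    exact (fgd_R (fgd_ne hs j (by simp) (by simp))).comp s (f := fun s : ℂ => s - I * ν j)
      (by fun_prop)
  · refine DifferentiableAt.differentiableWithinAt ?_
    refine DifferentiableAt.fun_finsetProd (f := fun j s =>
      Gammaℂ (s + I * ν j) * Complex.cos (Real.pi * (s + I * ν j) / 2)) fun j _ => ?_
    refine DifferentiableAt.mul ?_ (by fun_prop)
    exact (fgd_C (fgd_ne hs j (by simp) (by simp))).comp s (f := fun s : ℂ => s + I * ν j)
      (by fun_prop)
  · simp only [gam, map_prod, fgd_conjR]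
    refine Finset.prod_congr rfl fun j _ => ?_
    simp
  · simp only [XX, map_prod, map_mul, fgd_conjC, ← cos_conj]
    refine Finset.prod_congr rfl fun j _ => ?_
    simp [map_ofNat]
  · simp only [XX, gam, ← Finset.prod_mul_distrib]
    refine Finset.prod_congr rfl fun j _ => ?_
    have h2 := fgd_nat (fgd_ne hs j (w := s + I * ν j) (by simp) (by simp))
    have h3 : Gammaℝ (1 - (s + I * ν j)) ≠ 0 := Gammaℝ_ne_zero_of_re_pos (by simpa using h1)
    rw [← Gammaℝ_div_Gammaℝ_one_sub fun n => by simpa using h2 (2 * n + 1), sub_sub,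
      div_mul_cancel₀ _ h3]
    simp
  · exact Finset.prod_ne_zero_iff.2 fun j _ => Gammaℝ_ne_zero_of_re_pos (by simpa using hs)
  · simp only [gam, ← Finset.prod_inv_distrib]
    refine fun s => DifferentiableAt.fun_finsetProd
      (f := fun j s => (Gammaℝ (s - I * ν j))⁻¹) fun j _ => ?_
    exact (differentiable_Gammaℝ_inv _).comp s (f := fun s : ℂ => s - I * ν j) (by fun_prop)

end Pool.Agent.Bar58
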