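import Pool.Agent.Lib.MP_d79f69_nt.Bar.Basic

set_option autoImplicit false

namespace Pool.Agent.Bar58

open Complex MeasureTheory Set Filter Topology
open scoped ComplexConjugate

theorem fp2a_tel {a q : ℝ} (ha : 0 < a) (hq0 : 0 < q) (hq : q ≤ 2 / 3) :
    a / (3 * (1 + a) ^ 2) ≤ 1 / (1 + q * a) - 1 / (1 + a) := by
  rw [div_sub_div _ _ (by positivity) (by positivity),
    div_le_div_iff₀ (by positivity) (by positivity)]
  have h1 : q * a ≤ 2 / 3 * a := mul_le_mul_of_nonneg_right hq ha.le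
  have h2 : a * ((1 + q * a) * (1 + a)) ≤ a * ((1 + a) * (1 + a)) := by
    gcongr
    linarith
  have h3 : a / 3 * (3 * (1 + a) ^ 2) ≤ (1 * (1 + a) - (1 + q * a) * 1) * (3 * (1 + a) ^ 2) :=
    mul_le_mul_of_nonneg_right (by linarith) (by positivity)
  nlinarith

theorem fp2a_term {t0 : ℝ} (ht : 0 ≤ t0) (j : ℕ) :
    om j * th j * ((1 + t0) * Real.exp (-(th j * t0 / 4))) ≤
      768 * Real.exp √(Real.log (1 + t0)) *
        (Real.exp ((Real.log (1 + t0) - j) / 2) /
          (3 * (1 + Real.exp ((Real.log (1 + t0) - j) / 2)) ^ 2)) := by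
  have hL0 : 0 ≤ Real.log (1 + t0) := Real.log_nonneg (by linarith)
  have hE : Real.exp (Real.log (1 + t0)) = 1 + t0 := Real.exp_log (by linarith)
  generalize Real.log (1 + t0) = L at hL0 hE
  obtain ⟨a, ha⟩ : ∃ a : ℝ, a = Real.exp ((L - j) / 2) := ⟨_, rfl⟩
  have ha0 : 0 < a := by rw [ha]; exact Real.exp_pos _
  have hy : th j * (1 + t0) = a ^ 2 := by
    rw [ha, ← hE, th, ← Real.exp_add, sq, ← Real.exp_add]; congr 1; ring
  have hth0 : 0 < th j := Real.exp_pos _
  have hth1 : th j ≤ 1 := Real.exp_le_one_iff.2 (by simp)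
  have hj0 : (0 : ℝ) ≤ j := Nat.cast_nonneg j
  have hEL : 0 < Real.exp √L := Real.exp_pos _
  have hterm : om j * th j * ((1 + t0) * Real.exp (-(th j * t0 / 4))) =
      om j * (a ^ 2 * Real.exp (-(th j * t0 / 4))) := by rw [← hy]; ring
  rw [hterm, ← ha]
  rcases le_total L j with h | h
  · have ha1 : a ≤ 1 := by rw [ha]; exact Real.exp_le_one_iff.2 (by linarith)
    have h1 : √(j : ℝ) ≤ √L + (1 + (j - L)) / 2 := by
      have h2 : √L ^ 2 = L := Real.sq_sqrt hL0
      have h3 : 0 ≤ √L := Real.sqrt_nonneg _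
      refine Real.sqrt_le_iff.2 ⟨by linarith, ?_⟩
      nlinarith [sq_nonneg (1 - (j - L)), mul_nonneg h3 (show (0 : ℝ) ≤ 1 + (j - L) by linarith)]
    have h2 : om j * a ≤ Real.exp √L * Real.exp (1 / 2) := by
      rw [om, ha, ← Real.exp_add, ← Real.exp_add]
      exact Real.exp_le_exp.2 (by linarith)
    have h3 : Real.exp (1 / 2) ≤ 3 := by
      have := Real.exp_one_lt_d9
      have h4 : Real.exp (1 / 2) ≤ Real.exp 1 := Real.exp_le_exp.2 (by norm_num)
      linarith
    have h4 : Real.exp (-(th j * t0 / 4)) ≤ 1 :=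
      Real.exp_le_one_iff.2 (by have := mul_nonneg hth0.le ht; linarith)
    have h5 : a / 12 ≤ a / (3 * (1 + a) ^ 2) :=
      div_le_div_of_nonneg_left ha0.le (by positivity) (by nlinarith)
    have hom : 0 < om j := Real.exp_pos _
    calc om j * (a ^ 2 * Real.exp (-(th j * t0 / 4))) ≤ om j * (a ^ 2 * 1) := by gcongr
      _ = om j * a * a := by ring
      _ ≤ Real.exp √L * 3 * a :=
          mul_le_mul_of_nonneg_right (h2.trans (mul_le_mul_of_nonneg_left h3 hEL.le)) ha0.le
      _ ≤ 768 * Real.exp √L * (a / 12) := by nlinarith [mul_pos hEL ha0]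
      _ ≤ _ := by gcongr
  · have ha1 : 1 ≤ a := by rw [ha]; exact Real.one_le_exp (by linarith)
    have h1 : om j ≤ Real.exp √L := Real.exp_le_exp.2 (Real.sqrt_le_sqrt h)
    have h2 : Real.exp (-(th j * t0 / 4)) ≤ Real.exp (1 / 4) * Real.exp (-(a ^ 2 / 4)) := by
      rw [← Real.exp_add]
      exact Real.exp_le_exp.2 (by linarith)
    have h3 : Real.exp (1 / 4) ≤ 2 := by
      have h4 : Real.exp (1 / 4) ≤ Real.exp (Real.log 2) :=
        Real.exp_le_exp.2 (by have := Real.log_two_gt_d9; linarith)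
      rwa [Real.exp_log (by norm_num)] at h4
    have h4 : Real.exp (-(a ^ 2 / 4)) ≤ 32 / a ^ 4 := by
      have h5 := Real.quadratic_le_exp_of_nonneg (show 0 ≤ a ^ 2 / 4 by positivity)
      rw [Real.exp_neg, inv_eq_one_div, div_le_div_iff₀ (Real.exp_pos _) (by positivity)]
      nlinarith [sq_nonneg a]
    have h5 : a ^ 2 * Real.exp (-(th j * t0 / 4)) ≤ 64 / a := by
      calc _ ≤ a ^ 2 * (2 * (32 / a ^ 4)) := by
            gcongr
            exact h2.trans (by gcongr)
        _ = 64 / a ^ 2 := by field_simp; ring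
        _ ≤ 64 / a := div_le_div_of_nonneg_left (by norm_num) ha0 (by nlinarith)
    have h6 : 1 / (12 * a) ≤ a / (3 * (1 + a) ^ 2) := by
      rw [div_le_div_iff₀ (by positivity) (by positivity)]
      nlinarith
    calc om j * (a ^ 2 * Real.exp (-(th j * t0 / 4))) ≤ Real.exp √L * (64 / a) := by gcongr
      _ = 768 * Real.exp √L * (1 / (12 * a)) := by field_simp; ring
      _ ≤ _ := by gcongr

theorem fp2a_range {t0 : ℝ} (ht : 0 ≤ t0) (n : ℕ) :
    ∑ j ∈ Finset.range n, om j * th j * ((1 + t0) * Real.exp (-(th j * t0 / 4))) ≤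
      768 * Real.exp √(Real.log (1 + t0)) := by
  obtain ⟨g, hg⟩ : ∃ g : ℕ → ℝ, g = fun j : ℕ => 1 / (1 + Real.exp ((Real.log (1 + t0) - j) / 2)) :=
    ⟨_, rfl⟩
  have hq : Real.exp (-(1 / 2)) ≤ 2 / 3 := by
    have := Real.add_one_le_exp (1 / 2 : ℝ)
    rw [Real.exp_neg, inv_eq_one_div, div_le_div_iff₀ (Real.exp_pos _) (by norm_num)]
    linarith
  have h1 : ∀ j : ℕ, om j * th j * ((1 + t0) * Real.exp (-(th j * t0 / 4))) ≤
      768 * Real.exp √(Real.log (1 + t0)) * (g (j + 1) - g j) := by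
    intro j
    refine (fp2a_term ht j).trans (mul_le_mul_of_nonneg_left ?_ (by positivity))
    refine (fp2a_tel (Real.exp_pos _) (Real.exp_pos _) hq).trans (le_of_eq ?_)
    rw [hg, ← Real.exp_add]
    have : -(1 / 2) + (Real.log (1 + t0) - j) / 2 = (Real.log (1 + t0) - ((j + 1 : ℕ) : ℝ)) / 2 := by
      push_cast; ring
    rw [this]
  have h2 : g n - g 0 ≤ 1 := by
    have h3 : g n ≤ 1 := by
      rw [hg]
      exact (div_le_one (by positivity)).2 (by have := Real.exp_pos ((Real.log (1 + t0) - n) / 2); linarith)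
    have h4 : 0 ≤ g 0 := by rw [hg]; positivity
    linarith
  calc _ ≤ ∑ j ∈ Finset.range n, 768 * Real.exp √(Real.log (1 + t0)) * (g (j + 1) - g j) :=
        Finset.sum_le_sum fun j _ => h1 j
    _ = 768 * Real.exp √(Real.log (1 + t0)) * (g n - g 0) := by
        rw [← Finset.mul_sum, Finset.sum_range_sub]
    _ ≤ 768 * Real.exp √(Real.log (1 + t0)) * 1 := mul_le_mul_of_nonneg_left h2 (by positivity)
    _ = _ := mul_one _

theorem stP2a : StP2a := by
  have hom : ∀ j, 0 < om j := fun j => Real.exp_pos _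
  have hth : ∀ j, 0 < th j := fun j => Real.exp_pos _
  refine ⟨?_, 768, by norm_num, fun t0 ht => ?_⟩
  · refine summable_of_sum_range_le (c := 768 * Real.exp √(Real.log (1 + 0)))
      (fun j => (mul_pos (hom j) (hth j)).le) fun n => ?_
    have := fp2a_range (le_refl (0 : ℝ)) n
    simpa using this
  · refine Real.tsum_le_of_sum_range_le (fun j => ?_) (fp2a_range ht)
    have := hom j
    have := hth j
    positivity

end Pool.Agent.Bar58
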