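import Pool.Agent.Lib.MP_d79f69_nt.Bar.Basic

set_option autoImplicit false

namespace Pool.Agent.Bar58

open Complex MeasureTheory Set Filter Topology
open scoped ComplexConjugate

theorem fsum_step1 {e x : ℝ} (he : e < -1) (hx : 0 < x) :
    -(e + 1) * (x + 1) ^ e ≤ x ^ (e + 1) - (x + 1) ^ (e + 1) := by
  have hy : 0 < x + 1 := by linarith
  have h1 : x ^ (e + 1) = (x + 1) ^ (e + 1) * (x / (x + 1)) ^ (e + 1) := by
    rw [← Real.mul_rpow hy.le (by positivity)]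
    congr 1
    field_simp
  have h2 : 1 + -(e + 1) / (x + 1) ≤ (x / (x + 1)) ^ (e + 1) := by
    have hq : 0 < x / (x + 1) := by positivity
    rw [Real.rpow_def_of_pos hq]
    have hl : Real.log (x / (x + 1)) ≤ x / (x + 1) - 1 := Real.log_le_sub_one_of_pos hq
    have hl2 : x / (x + 1) - 1 = -1 / (x + 1) := by field_simp; ring
    have h3 := Real.add_one_le_exp (Real.log (x / (x + 1)) * (e + 1))
    have h4 : (-1 / (x + 1)) * (e + 1) ≤ Real.log (x / (x + 1)) * (e + 1) :=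
      mul_le_mul_of_nonpos_right (hl2 ▸ hl) (by linarith)
    have h5 : (-1 / (x + 1)) * (e + 1) = -(e + 1) / (x + 1) := by ring
    linarith
  have h6 : (x + 1) ^ (e + 1) = (x + 1) ^ e * (x + 1) := Real.rpow_add_one hy.ne' e
  have h7 : 0 < (x + 1) ^ e := Real.rpow_pos_of_pos hy e
  have h8 : (x + 1) ^ (e + 1) * (1 + -(e + 1) / (x + 1)) ≤ x ^ (e + 1) := by
    rw [h1]
    exact mul_le_mul_of_nonneg_left h2 (Real.rpow_pos_of_pos hy _).le
  have h9 : (x + 1) ^ (e + 1) * (1 + -(e + 1) / (x + 1)) =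
      (x + 1) ^ (e + 1) + -(e + 1) * (x + 1) ^ e := by
    rw [h6]
    field_simp
  linarith

theorem fsum_step2 {e x : ℝ} (he : -1 < e) (he0 : e ≤ 0) (hx : 0 ≤ x) :
    (e + 1) * (x + 1) ^ e ≤ (x + 1) ^ (e + 1) - x ^ (e + 1) := by
  have hy : 0 < x + 1 := by linarith
  have hs : (-1 : ℝ) ≤ -1 / (x + 1) := by
    rw [le_div_iff₀ hy]
    linarith
  have h0 : 1 + -1 / (x + 1) = x / (x + 1) := by field_simp; ring
  have h1 : x ^ (e + 1) = (x + 1) ^ (e + 1) * (x / (x + 1)) ^ (e + 1) := by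
    rw [← Real.mul_rpow hy.le (by positivity)]
    congr 1
    field_simp
  have h2 := rpow_one_add_le_one_add_mul_self hs (p := e + 1) (by linarith) (by linarith)
  rw [h0] at h2
  have h6 : (x + 1) ^ (e + 1) = (x + 1) ^ e * (x + 1) := Real.rpow_add_one hy.ne' e
  have h8 : x ^ (e + 1) ≤ (x + 1) ^ (e + 1) * (1 + (e + 1) * (-1 / (x + 1))) := by
    rw [h1]
    exact mul_le_mul_of_nonneg_left h2 (Real.rpow_pos_of_pos hy _).le
  have h9 : (x + 1) ^ (e + 1) * (1 + (e + 1) * (-1 / (x + 1))) =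
      (x + 1) ^ (e + 1) - (e + 1) * (x + 1) ^ e := by
    rw [h6]
    field_simp
    ring
  linarith

theorem fsum_partial {e : ℝ} (he : e < -1) (N M : ℕ) :
    ∑ n ∈ Finset.range (M + 1), ((n : ℝ) + N + 1) ^ e ≤ ((N : ℝ) + 1) ^ e +
      (((N : ℝ) + 1) ^ (e + 1) - ((M : ℝ) + N + 1) ^ (e + 1)) / (-(e + 1)) := by
  have hq : 0 < -(e + 1) := by linarith
  induction M with
  | zero => simp
  | succ M ih =>
    rw [Finset.sum_range_succ]
    have hx : (0 : ℝ) < (M : ℝ) + N + 1 := by positivity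
    have h1 := fsum_step1 he hx
    have h2 : ((M : ℝ) + N + 1 + 1) ^ e ≤
        (((M : ℝ) + N + 1) ^ (e + 1) - ((M : ℝ) + N + 1 + 1) ^ (e + 1)) / (-(e + 1)) := by
      rw [le_div_iff₀ hq]
      linarith
    have h3 : (((M + 1 : ℕ) : ℝ) + N + 1) = (M : ℝ) + N + 1 + 1 := by
      push_cast
      ring
    rw [h3]
    have h4 : (((N : ℝ) + 1) ^ (e + 1) - ((M : ℝ) + N + 1 + 1) ^ (e + 1)) / (-(e + 1)) =
        (((N : ℝ) + 1) ^ (e + 1) - ((M : ℝ) + N + 1) ^ (e + 1)) / (-(e + 1)) +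
        (((M : ℝ) + N + 1) ^ (e + 1) - ((M : ℝ) + N + 1 + 1) ^ (e + 1)) / (-(e + 1)) := by
      ring
    rw [h4]
    linarith

theorem fsum_bound {e : ℝ} (he : e < -1) (N M : ℕ) :
    ∑ n ∈ Finset.range M, ((n : ℝ) + N + 1) ^ e ≤
      (1 + 1 / (-(e + 1))) * ((N : ℝ) + 1) ^ (e + 1) := by
  have hq : 0 < -(e + 1) := by linarith
  have hN : (1 : ℝ) ≤ (N : ℝ) + 1 := by
    have : (0 : ℝ) ≤ N := Nat.cast_nonneg N
    linarith
  have h1 : ∑ n ∈ Finset.range M, ((n : ℝ) + N + 1) ^ e ≤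
      ∑ n ∈ Finset.range (M + 1), ((n : ℝ) + N + 1) ^ e := by
    rw [Finset.sum_range_succ]
    have : 0 ≤ ((M : ℝ) + N + 1) ^ e := Real.rpow_nonneg (by positivity) e
    linarith
  have h2 := fsum_partial he N M
  have h3 : ((N : ℝ) + 1) ^ e ≤ ((N : ℝ) + 1) ^ (e + 1) :=
    Real.rpow_le_rpow_of_exponent_le hN (by linarith)
  have h4 : (((N : ℝ) + 1) ^ (e + 1) - ((M : ℝ) + N + 1) ^ (e + 1)) / (-(e + 1)) ≤
      ((N : ℝ) + 1) ^ (e + 1) / (-(e + 1)) := by
    apply div_le_div_of_nonneg_right _ hq.le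
    have : 0 ≤ ((M : ℝ) + N + 1) ^ (e + 1) := Real.rpow_nonneg (by positivity) _
    linarith
  have h5 : (1 + 1 / (-(e + 1))) * ((N : ℝ) + 1) ^ (e + 1) =
      ((N : ℝ) + 1) ^ (e + 1) + ((N : ℝ) + 1) ^ (e + 1) / (-(e + 1)) := by ring
  linarith

theorem stSum : StSum := by
  refine ⟨fun e he => ?_, fun e he he0 N => ?_⟩
  · have hq : 0 < -(e + 1) := by linarith
    refine ⟨1 + 1 / (-(e + 1)), by positivity, fun Y N hY hYN => ?_⟩
    have hnn : ∀ n : ℕ, 0 ≤ ((n : ℝ) + N + 1) ^ e := fun n => Real.rpow_nonneg (by positivity) e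
    refine ⟨summable_of_sum_range_le hnn (fsum_bound he N), ?_⟩
    refine (Real.tsum_le_of_sum_range_le hnn (fsum_bound he N)).trans ?_
    apply mul_le_mul_of_nonneg_left _ (by positivity)
    exact Real.rpow_le_rpow_of_nonpos (by linarith) hYN (by linarith)
  · have hp : 0 < e + 1 := by linarith
    induction N with
    | zero =>
      simp only [Finset.range_zero, Finset.sum_empty]
      positivity
    | succ N ih =>
      rw [Finset.sum_range_succ]
      have h1 := fsum_step2 he he0 (Nat.cast_nonneg (α := ℝ) N)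
      have h2 : ((N : ℝ) + 1) ^ e ≤ (((N : ℝ) + 1) ^ (e + 1) - (N : ℝ) ^ (e + 1)) / (e + 1) := by
        rw [le_div_iff₀ hp]
        linarith
      have h3 : (((N : ℝ) + 1) ^ (e + 1) - (N : ℝ) ^ (e + 1)) / (e + 1) =
          ((N : ℝ) + 1) ^ (e + 1) / (e + 1) - (N : ℝ) ^ (e + 1) / (e + 1) := by ring
      push_cast
      linarith

end Pool.Agent.Bar58
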