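import Pool.Agent.Lib.MP_d79f69_nt.Bar.Basic

set_option autoImplicit false

namespace Pool.Agent.Bar58

open Complex MeasureTheory Set Filter Topology
open scoped ComplexConjugate

theorem fua_int {E : Type} [NormedAddCommGroup E] {G : ℝ → E} (hG : IntegrableOn G (Ioi 0))
    {a b : ℝ} (ha : 0 ≤ a) (hab : a ≤ b) : IntervalIntegrable G volume a b :=
  (intervalIntegrable_iff_integrableOn_Ioc_of_le hab).2
    (hG.mono_set fun _ hx => lt_of_le_of_lt ha hx.1)

theorem fua_summable {G : ℝ → ℝ} (hG : IntegrableOn G (Ioi 0)) (h0 : ∀ x, 0 ≤ G x) (m : ℕ) :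
    Summable fun n : ℕ => ∫ x in ((n : ℝ) + 1 + m)..((n : ℝ) + 2 + m), G x := by
  refine summable_of_sum_range_le (c := ∫ x in Ioi (0 : ℝ), G x)
    (fun n => intervalIntegral.integral_nonneg (by linarith) fun x _ => h0 x) fun N => ?_
  have h1 := intervalIntegral.sum_integral_adjacent_intervals (f := G) (μ := volume)
    (a := fun k : ℕ => (k : ℝ) + 1 + m) (n := N) (fun k _ =>
      fua_int hG (by positivity) (by push_cast; linarith))
  have h2 : ∑ n ∈ Finset.range N, ∫ x in ((n : ℝ) + 1 + m)..((n : ℝ) + 2 + m), G x =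
      ∑ k ∈ Finset.range N, ∫ x in ((k : ℝ) + 1 + m)..(((k + 1 : ℕ) : ℝ) + 1 + m), G x := by
    refine Finset.sum_congr rfl fun k _ => ?_
    congr 1
    push_cast
    ring
  have hN : (0 : ℝ) ≤ N := Nat.cast_nonneg N
  have hm : (0 : ℝ) ≤ m := Nat.cast_nonneg m
  rw [h2, h1, intervalIntegral.integral_of_le (by push_cast; linarith)]
  refine setIntegral_mono_set hG (Eventually.of_forall h0) (LE.le.eventuallyLE ?_)
  intro x hx
  have := hx.1
  push_cast at this
  exact mem_Ioi.2 (by linarith)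

theorem fua_nice {F : ℝ → ℂ} (hs : Summable fun n : ℕ => ‖F (n + 1)‖)
    (hi : IntegrableOn F (Ioi 0)) : Nice F := by
  refine ⟨fun X hX => fua_int hi le_rfl hX, ?_⟩
  have h1 : Summable fun n : ℕ => ‖F (n + 1)‖ + ∑ m ∈ Finset.range 11,
      |cc m| * ∫ x in ((n : ℝ) + 1 + m)..((n : ℝ) + 2 + m), ‖F x‖ :=
    hs.add (summable_sum fun m _ =>
      (fua_summable (Integrable.norm hi) (fun x => norm_nonneg _) m).mul_left _)
  refine Summable.of_nonneg_of_le (fun n => norm_nonneg _) (fun n => ?_) h1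
  refine (norm_sub_le _ _).trans (add_le_add le_rfl ((norm_sum_le _ _).trans
    (Finset.sum_le_sum fun m _ => ?_)))
  rw [norm_mul, Complex.norm_real, Real.norm_eq_abs]
  exact mul_le_mul_of_nonneg_left
    (intervalIntegral.norm_integral_le_integral_norm (by linarith)) (abs_nonneg _)

theorem stUA (hUN : StUN) : StUA := by
  intro F hs hi
  have hF := fua_nice hs hi
  refine ⟨hF, ?_⟩
  have t1 : Tendsto (fun N : ℕ => ∑ n ∈ Finset.range N, F (n + 1)) atTop
      (𝓝 (∑' n : ℕ, F (n + 1))) := (Summable.of_norm hs).hasSum.tendsto_sum_nat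
  have t2 : Tendsto (fun N : ℕ => ∑ m ∈ Finset.range 11,
      (cc m : ℂ) * (∫ x in (0 : ℝ)..((N : ℝ) + m + 1), F x)) atTop
      (𝓝 (∑ m ∈ Finset.range 11, (cc m : ℂ) * ∫ x in Ioi (0 : ℝ), F x)) := by
    refine tendsto_finsetSum _ fun m _ => Tendsto.const_mul _ ?_
    exact intervalIntegral_tendsto_integral_Ioi 0 hi
      (tendsto_atTop_add_const_right _ _
        (tendsto_atTop_add_const_right _ _ tendsto_natCast_atTop_atTop))
  have t3 := tendsto_sum_nat_add (DD F)
  have hc : ∑ m ∈ Finset.range 11, (cc m : ℂ) = 1 := by exact_mod_cast sum_cc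
  have t4 := (t1.sub t2).add t3
  rw [← Finset.sum_mul, hc, one_mul, add_zero] at t4
  exact tendsto_nhds_unique (tendsto_const_nhds.congr fun N => hUN F hF N) t4

end Pool.Agent.Bar58
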