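import Pool.Agent.Lib.MP_d79f69_nt.Bar.Basic

set_option autoImplicit false

namespace Pool.Agent.Bar58

open Complex MeasureTheory Set Filter Topology
open scoped ComplexConjugate

theorem s8d_re (t : ℝ) : ((1 / 2 : ℂ) + (t : ℂ) * I).re = 1 / 2 := by
  simp

theorem s8d_norm (t : ℝ) : ‖(1 / 2 : ℂ) + (t : ℂ) * I‖ ≤ 1 / 2 + |t| := by
  refine (norm_add_le _ _).trans ?_
  simp

theorem s8d_mono {t : ℝ} (ht : 3 ≤ |t|) {x0 x : ℝ} (h0 : 0 < x0) (hx : x0 ≤ x) {i : ℕ}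
    (hi : i ≤ 4) :
    ‖mono i (1 / 2 + (t : ℂ) * I) x‖ ≤ x0 ^ (-(1 / 2 : ℝ)) * (3 * |t| / x0) ^ i := by
  have hxp : 0 < x := lt_of_lt_of_le h0 hx
  rw [norm_mono i _ hxp, s8d_re]
  have hi' : (i : ℝ) ≤ 4 := by exact_mod_cast hi
  have hi0 : (0 : ℝ) ≤ i := Nat.cast_nonneg i
  have h1 : ‖ff i (1 / 2 + (t : ℂ) * I)‖ ≤ (3 * |t|) ^ i := by
    refine (norm_ff_le i _).trans ?_
    refine pow_le_pow_left₀ (by positivity) ?_ i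
    have := s8d_norm t
    linarith
  have h2 : x ^ (-(1 / 2 : ℝ) - i) ≤ x0 ^ (-(1 / 2 : ℝ) - i) :=
    Real.rpow_le_rpow_of_nonpos h0 hx (by linarith)
  have h3 : x0 ^ (-(1 / 2 : ℝ) - i) = x0 ^ (-(1 / 2 : ℝ)) / x0 ^ i := by
    rw [Real.rpow_sub h0, Real.rpow_natCast]
  calc ‖ff i (1 / 2 + (t : ℂ) * I)‖ * x ^ (-(1 / 2 : ℝ) - i)
      ≤ (3 * |t|) ^ i * x0 ^ (-(1 / 2 : ℝ) - i) :=
        mul_le_mul h1 h2 (by positivity) (by positivity)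
    _ = x0 ^ (-(1 / 2 : ℝ)) * (3 * |t| / x0) ^ i := by
        rw [h3, div_pow]
        ring

theorem s8d_four (a b : ℝ) : (a + b) ^ 4 ≤ 8 * (a ^ 4 + b ^ 4) := by
  nlinarith [sq_nonneg (a - b), sq_nonneg (a + b), sq_nonneg (a ^ 2 - b ^ 2),
    mul_nonneg (sq_nonneg (a - b)) (sq_nonneg (a + b)),
    mul_nonneg (sq_nonneg (a - b)) (add_nonneg (sq_nonneg a) (sq_nonneg b))]

theorem s8d_alg {x u : ℝ} (hx : 0 < x) :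
    x ^ (-(1 / 2 : ℝ)) * ((x ^ (-(1 / 3 : ℝ))) ^ 4 + (3 * u / x) ^ 4) =
      x ^ (-(11 / 6 : ℝ)) + 81 * u ^ 4 * x ^ (-(9 / 2 : ℝ)) := by
  have h1 : x ^ (-(1 / 2 : ℝ)) * (x ^ (-(1 / 3 : ℝ))) ^ 4 = x ^ (-(11 / 6 : ℝ)) := by
    rw [← Real.rpow_natCast, ← Real.rpow_mul hx.le, ← Real.rpow_add hx]
    norm_num
  have h2 : x ^ (-(9 / 2 : ℝ)) = x ^ (-(1 / 2 : ℝ)) / x ^ 4 := by
    rw [← Real.rpow_natCast, ← Real.rpow_sub hx]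
    norm_num
  rw [mul_add, h1, h2, div_pow]
  ring

theorem s8d_dd (hDB : StDB) {A : ℝ} {a : ℕ → ℝ → ℂ} (h : Cls 4 (1 / 3) A a) :
    ∃ K : ℝ, 0 ≤ K ∧ ∀ t : ℝ, 3 ≤ |t| → ∀ n : ℕ,
      ‖DD (fun x => a 0 x * (x : ℂ) ^ (-(1 / 2 + (t : ℂ) * I))) n‖ ≤
        K * (W (n + 1) * ((n : ℝ) + 1) ^ (-(11 / 6 : ℝ)) +
          81 * |t| ^ 4 * (W (n + 1) * ((n : ℝ) + 1) ^ (-(9 / 2 : ℝ)))) := by
  obtain ⟨C, hC, hD⟩ := hDB
  obtain ⟨Cw, hCw, hw⟩ := Cls.window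
  have hA := h.nonneg
  refine ⟨8 * C * Cw * A, by positivity, fun t ht n => ?_⟩
  have hx0 : (0 : ℝ) < (n : ℝ) + 1 := by positivity
  have hW := W_pos ((n : ℝ) + 1)
  have key := hD 4 (by norm_num) (by norm_num) a (fun i x => mono i (1 / 2 + (t : ℂ) * I) x) h.ch
    (mono_chain 4 _) n (Cw * A * W (n + 1)) (((n : ℝ) + 1) ^ (-(1 / 3 : ℝ)))
    (((n : ℝ) + 1) ^ (-(1 / 2 : ℝ))) (3 * |t| / ((n : ℝ) + 1)) (by positivity) (by positivity)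
    (by positivity) (by positivity)
    (fun i hi x h1 h2 => hw 4 (1 / 3) A a h (by norm_num) n i hi x h1 h2)
    (fun i hi x h1 _ => s8d_mono ht hx0 h1 hi)
  simp only [mono_zero] at key
  refine key.trans ?_
  have h4 := s8d_four (((n : ℝ) + 1) ^ (-(1 / 3 : ℝ))) (3 * |t| / ((n : ℝ) + 1))
  have h5 := s8d_alg (u := |t|) hx0
  calc C * (Cw * A * W (n + 1)) * ((n : ℝ) + 1) ^ (-(1 / 2 : ℝ)) *
        (((n : ℝ) + 1) ^ (-(1 / 3 : ℝ)) + 3 * |t| / ((n : ℝ) + 1)) ^ 4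
      ≤ C * (Cw * A * W (n + 1)) * ((n : ℝ) + 1) ^ (-(1 / 2 : ℝ)) *
        (8 * ((((n : ℝ) + 1) ^ (-(1 / 3 : ℝ))) ^ 4 + (3 * |t| / ((n : ℝ) + 1)) ^ 4)) :=
        mul_le_mul_of_nonneg_left h4 (by positivity)
    _ = 8 * C * Cw * A * (W (n + 1) * (((n : ℝ) + 1) ^ (-(1 / 2 : ℝ)) *
        ((((n : ℝ) + 1) ^ (-(1 / 3 : ℝ))) ^ 4 + (3 * |t| / ((n : ℝ) + 1)) ^ 4))) := by ring
    _ = _ := by
        rw [h5]
        ring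

theorem s8d_int {A : ℝ} {a : ℕ → ℝ → ℂ} (h : Cls 4 (1 / 3) A a) (t : ℝ) {X : ℝ} (hX : 0 ≤ X) :
    IntervalIntegrable (fun x : ℝ => a 0 x * (x : ℂ) ^ (-(1 / 2 + (t : ℂ) * I))) volume 0 X := by
  obtain ⟨C, hC, hl⟩ := h.loc X
  have hc : ContinuousOn (fun x : ℝ => a 0 x * (x : ℂ) ^ (-(1 / 2 + (t : ℂ) * I))) (Ioi 0) := by
    have h1 : ContinuousOn (a 0) (Ioi 0) := h.ch.cont (by norm_num)
    have h2 := (mono_chain 1 (1 / 2 + (t : ℂ) * I)).cont (i := 0) (by norm_num)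
    simp only [mono_zero] at h2
    exact h1.mul h2
  refine (intervalIntegrable_rpow_le (C := C) (a := -(9 / 10 : ℝ)) hc (by norm_num) hX ?_).1
  intro x hx hxX
  have h3 : ‖(x : ℂ) ^ (-(1 / 2 + (t : ℂ) * I))‖ = x ^ (-(1 / 2 : ℝ)) := by
    rw [Complex.norm_cpow_eq_rpow_re_of_pos hx, Complex.neg_re, s8d_re]
  have h4 : x ^ (-(9 / 10 : ℝ)) = x ^ (-(2 / 5 : ℝ)) * x ^ (-(1 / 2 : ℝ)) := by
    rw [← Real.rpow_add hx]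
    norm_num
  rw [norm_mul, h3, h4, ← mul_assoc]
  exact mul_le_mul_of_nonneg_right (hl x hx hxX) (by positivity)

theorem s8d_tail {C : ℝ} (hW : ∀ l x : ℝ, 1 ≤ l → 0 ≤ x → W (l * x) ≤ C * l ^ (1 / 2 : ℝ) * W x)
    {Y x : ℝ} (hY : 0 < Y) (hx : Y ≤ x) (e : ℝ) :
    W x * x ^ (e - 1 / 2) ≤ C * W Y * Y ^ (-(1 / 2 : ℝ)) * x ^ e := by
  have hxp : 0 < x := lt_of_lt_of_le hY hx
  have h1 := hW (x / Y) Y ((one_le_div hY).2 hx) hY.le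
  rw [div_mul_cancel₀ x hY.ne', Real.div_rpow hxp.le hY.le] at h1
  have h2 : x ^ e = x ^ (1 / 2 : ℝ) * x ^ (e - 1 / 2) := by
    rw [← Real.rpow_add hxp]
    congr 1
    ring
  calc W x * x ^ (e - 1 / 2)
      ≤ C * (x ^ (1 / 2 : ℝ) / Y ^ (1 / 2 : ℝ)) * W Y * x ^ (e - 1 / 2) :=
        mul_le_mul_of_nonneg_right h1 (by positivity)
    _ = C * W Y * Y ^ (-(1 / 2 : ℝ)) * x ^ e := by
        rw [h2, Real.rpow_neg hY.le]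
        ring

theorem st8d (hSum : StSum) (hDB : StDB) : St8d := by
  intro A a h
  obtain ⟨K, hK, hd⟩ := s8d_dd hDB h
  obtain ⟨C2, hC2, hW⟩ := W_mul_le (η := 1 / 2) (by norm_num)
  obtain ⟨C3, hC3, h3⟩ := hSum.1 (-(4 / 3 : ℝ)) (by norm_num)
  obtain ⟨C4, hC4, h4⟩ := hSum.1 (-4 : ℝ) (by norm_num)
  have hC2' : 0 ≤ C2 := by linarith
  refine ⟨K * C2 * (C3 + 81 * C4), by positivity, fun t ht => ⟨⟨fun X hX => s8d_int h t hX, ?_⟩, ?_⟩⟩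
  · refine Summable.of_nonneg_of_le (fun _ => norm_nonneg _) (hd t ht) ?_
    exact ((summable_W (by norm_num)).add ((summable_W (by norm_num)).mul_left _)).mul_left K
  · have hu : (0 : ℝ) < |t| := by linarith
    have hu1 : (1 : ℝ) ≤ |t| := by linarith
    set Y : ℝ := |t| ^ (15 / 14 : ℝ) with hYdef
    have hY1 : 1 ≤ Y := Real.one_le_rpow hu1 (by norm_num)
    have hY : 0 < Y := by linarith
    set N : ℕ := ⌊Y⌋₊ with hN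
    have hYN : Y ≤ (N : ℝ) + 1 := (Nat.lt_floor_add_one Y).le
    obtain ⟨s3, b3⟩ := h3 Y N hY1 hYN
    obtain ⟨s4, b4⟩ := h4 Y N hY1 hYN
    have hWY := W_pos Y
    set Q : ℝ := K * (C2 * W Y * Y ^ (-(1 / 2 : ℝ))) with hQ
    have hQ0 : 0 ≤ Q := by positivity
    have hs : HasSum (fun n : ℕ => Q * (((n : ℝ) + N + 1) ^ (-(4 / 3 : ℝ)) +
        81 * |t| ^ 4 * ((n : ℝ) + N + 1) ^ (-4 : ℝ)))
        (Q * (∑' n : ℕ, ((n : ℝ) + N + 1) ^ (-(4 / 3 : ℝ)) +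
          81 * |t| ^ 4 * ∑' n : ℕ, ((n : ℝ) + N + 1) ^ (-4 : ℝ))) :=
      (s3.hasSum.add (s4.hasSum.mul_left _)).mul_left Q
    have hb : ∀ n : ℕ, ‖DD (fun x => a 0 x * (x : ℂ) ^ (-(1 / 2 + (t : ℂ) * I))) (n + N)‖ ≤
        Q * (((n : ℝ) + N + 1) ^ (-(4 / 3 : ℝ)) +
          81 * |t| ^ 4 * ((n : ℝ) + N + 1) ^ (-4 : ℝ)) := by
      intro n
      refine (hd t ht (n + N)).trans ?_
      have hn : (0 : ℝ) ≤ n := Nat.cast_nonneg n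
      have hx : Y ≤ (n : ℝ) + N + 1 := by linarith
      have e1 := s8d_tail hW hY hx (-(4 / 3 : ℝ))
      have e2 := s8d_tail hW hY hx (-4 : ℝ)
      rw [show (-(4 / 3 : ℝ)) - 1 / 2 = -(11 / 6 : ℝ) by norm_num] at e1
      rw [show (-4 : ℝ) - 1 / 2 = -(9 / 2 : ℝ) by norm_num] at e2
      rw [Nat.cast_add]
      have e3 := mul_le_mul_of_nonneg_left e2 (show (0 : ℝ) ≤ 81 * |t| ^ 4 by positivity)
      calc K * (W ((n : ℝ) + N + 1) * ((n : ℝ) + N + 1) ^ (-(11 / 6 : ℝ)) +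
            81 * |t| ^ 4 * (W ((n : ℝ) + N + 1) * ((n : ℝ) + N + 1) ^ (-(9 / 2 : ℝ))))
          ≤ K * (C2 * W Y * Y ^ (-(1 / 2 : ℝ)) * ((n : ℝ) + N + 1) ^ (-(4 / 3 : ℝ)) +
            81 * |t| ^ 4 * (C2 * W Y * Y ^ (-(1 / 2 : ℝ)) * ((n : ℝ) + N + 1) ^ (-4 : ℝ))) :=
            mul_le_mul_of_nonneg_left (add_le_add e1 e3) hK
        _ = _ := by
            rw [hQ]
            ring
    refine (tsum_of_norm_bounded hs hb).trans ?_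
    have hq : (1 : ℝ) ≤ |t| ^ (1 / 4 : ℝ) := Real.one_le_rpow hu1 (by norm_num)
    have f1 : Y ^ (-(1 / 2 : ℝ)) * Y ^ (-(4 / 3 : ℝ) + 1) ≤ |t| ^ (1 / 4 : ℝ) := by
      rw [← Real.rpow_add hY]
      exact (Real.rpow_le_one_of_one_le_of_nonpos hY1 (by norm_num)).trans hq
    have f2 : |t| ^ 4 * (Y ^ (-(1 / 2 : ℝ)) * Y ^ ((-4 : ℝ) + 1)) = |t| ^ (1 / 4 : ℝ) := by
      rw [← Real.rpow_add hY, hYdef, ← Real.rpow_mul hu.le, ← Real.rpow_natCast,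
        ← Real.rpow_add hu]
      norm_num
    have g1 := mul_le_mul_of_nonneg_left b4 (show (0 : ℝ) ≤ 81 * |t| ^ 4 by positivity)
    calc Q * (∑' n : ℕ, ((n : ℝ) + N + 1) ^ (-(4 / 3 : ℝ)) +
          81 * |t| ^ 4 * ∑' n : ℕ, ((n : ℝ) + N + 1) ^ (-4 : ℝ))
        ≤ Q * (C3 * Y ^ (-(4 / 3 : ℝ) + 1) + 81 * |t| ^ 4 * (C4 * Y ^ ((-4 : ℝ) + 1))) :=
          mul_le_mul_of_nonneg_left (add_le_add b3 g1) hQ0
      _ = K * C2 * W Y * (C3 * (Y ^ (-(1 / 2 : ℝ)) * Y ^ (-(4 / 3 : ℝ) + 1)) +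
          81 * C4 * (|t| ^ 4 * (Y ^ (-(1 / 2 : ℝ)) * Y ^ ((-4 : ℝ) + 1)))) := by
          rw [hQ]
          ring
      _ ≤ K * C2 * W Y * (C3 * |t| ^ (1 / 4 : ℝ) + 81 * C4 * |t| ^ (1 / 4 : ℝ)) := by
          rw [f2]
          exact mul_le_mul_of_nonneg_left
            (add_le_add (mul_le_mul_of_nonneg_left f1 hC3) le_rfl) (by positivity)
      _ = _ := by ring

end Pool.Agent.Bar58
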